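import Pool.Agent.helper90.LY.Rel
import Pool.Agent.helper90.LX.SUDense

namespace LY

open Polynomial

universe u

variable {k K : Type u} [Field k] [Field K] [Algebra k K]

section charts

open IsLocalRing LX LX.SUCritAux

/-- `LX.su_crit` with the explicit chart `A = k[s, y]` (same proof). -/
theorem RelDense_crit (V : ValuationSubring K)
    (hV : ∀ c : k, algebraMap k K c ∈ V) (n : ℕ) (hn : Algebra.trdeg k K = n) (s : Fin n → K)
    (hs : ∀ i, V.valuation (s i) < 1) (y : K) (hy : V.valuation (y + 1) < 1)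
    (hgen : IntermediateField.adjoin k (insert y (Set.range s)) = ⊤)
    (halg : Algebra.IsAlgebraic (IntermediateField.adjoin k (Set.range s)) K)
    (Ψ : Polynomial K)
    (hΨ : ∀ j, ∃ N D : MvPolynomial (Fin n) k, MvPolynomial.constantCoeff D ≠ 0 ∧
      Ψ.coeff j * MvPolynomial.aeval s D = MvPolynomial.aeval s N)
    (hΨ1 : ∀ j, V.valuation (Ψ.coeff j) < 1) (heq : 1 + y + y ^ 2 * Ψ.eval y = 0) :
    ∃ (A : Subalgebra k K) (h : ∀ a ∈ A, a ∈ V) (s' : Fin n → A) (y' : A),
      A = Algebra.adjoin k (insert y (Set.range s)) ∧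
      (∀ i, (s' i : K) = s i) ∧ (y' : K) = y ∧ A.FG ∧ IsFractionRing A K ∧
      IsRegularLocalRing (Localization.AtPrime (LU.center V A h)) ∧
      ringKrullDim (Localization.AtPrime (LU.center V A h)) = n ∧
      Ideal.span (Set.range fun i =>
        algebraMap A (Localization.AtPrime (LU.center V A h)) (s' i)) =
          maximalIdeal (Localization.AtPrime (LU.center V A h)) := by


  classical
  obtain ⟨D, N, hD, hN⟩ := common_denom s Ψ hΨ
  have hsV : ∀ i, s i ∈ V := fun i => (V.valuation_le_one_iff _).1 (hs i).le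
  have hy1 : y + 1 ∈ V := (V.valuation_le_one_iff _).1 hy.le
  have hyV : y ∈ V := by
    have := sub_mem hy1 (one_mem V)
    rwa [add_sub_cancel_right] at this
  -- the family
  let z : Option (Fin n) → K := fun o => o.elim y s
  have hz : ∀ o, z o ∈ V := by
    rintro (_ | i)
    · exact hyV
    · exact hsV i
  let pt : Option (Fin n) → k := fun o => o.elim (-1) (fun _ => 0)
  let v : Option (Fin n) → k := fun o => o.elim 1 (fun _ => 0)
  have hpt : ∀ o, IsLocalRing.residue V ⟨z o, hz o⟩ =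
      IsLocalRing.residue V (cst V hV (pt o)) := by
    rintro (_ | i)
    · rw [← sub_eq_zero, ← map_sub, IsLocalRing.residue_eq_zero_iff, V.valuation_lt_one_iff]
      simpa [z, pt, cst] using hy
    · rw [← sub_eq_zero, ← map_sub, IsLocalRing.residue_eq_zero_iff, V.valuation_lt_one_iff]
      simpa [z, pt, cst] using hs i
  have hren : ∀ f : MvPolynomial (Fin n) k, MvPolynomial.eval pt (MvPolynomial.rename some f) =
      MvPolynomial.constantCoeff f := by
    intro f
    rw [MvPolynomial.eval_rename]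
    have : pt ∘ some = (0 : Fin n → k) := rfl
    rw [this, MvPolynomial.eval_zero]
  have haev : ∀ f : MvPolynomial (Fin n) k,
      MvPolynomial.aeval z (MvPolynomial.rename some f) = MvPolynomial.aeval s f := by
    intro f
    rw [MvPolynomial.aeval_rename]
    rfl
  have hN0 : ∀ j ∈ Ψ.support, MvPolynomial.constantCoeff (N j) = 0 := by
    intro j hj
    rw [← hren, ← mem_PP V hV z hz pt hpt]
    change LU.evV V hV z hz _ ∈ IsLocalRing.maximalIdeal V
    rw [V.valuation_lt_one_iff, LU.coe_evV, haev, ← hN j hj, map_mul]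
    refine mul_lt_one_of_nonneg_of_lt_one_left zero_le (hΨ1 j) ?_
    rw [← haev, ← LU.coe_evV V hV z hz]
    exact V.valuation_le_one _
  -- the relation
  let Q : MvPolynomial (Option (Fin n)) k :=
    MvPolynomial.rename some D * (1 + MvPolynomial.X none) +
      MvPolynomial.X none ^ 2 * ∑ j ∈ Ψ.support, MvPolynomial.rename some (N j) *
        MvPolynomial.X none ^ j
  have hQz : MvPolynomial.aeval s D * (1 + y) +
      y ^ 2 * ∑ j ∈ Ψ.support, MvPolynomial.aeval s (N j) * y ^ j = 0 := by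
    have h2 : ∑ j ∈ Ψ.support, MvPolynomial.aeval s (N j) * y ^ j =
        MvPolynomial.aeval s D * Ψ.eval y := by
      rw [Polynomial.eval_eq_sum, Polynomial.sum, Finset.mul_sum]
      refine Finset.sum_congr rfl fun j hj => ?_
      rw [← hN j hj]
      ring
    rw [h2, show MvPolynomial.aeval s D * (1 + y) + y ^ 2 * (MvPolynomial.aeval s D * Ψ.eval y) =
      MvPolynomial.aeval s D * (1 + y + y ^ 2 * Ψ.eval y) by ring, heq, mul_zero]
  have hQ0 : MvPolynomial.aeval z Q = 0 := by
    have h1 : MvPolynomial.aeval z Q = MvPolynomial.aeval s D * (1 + y) +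
        y ^ 2 * ∑ j ∈ Ψ.support, MvPolynomial.aeval s (N j) * y ^ j := by
      simp only [Q, map_add, map_mul, map_sum, map_pow, haev, MvPolynomial.aeval_X, map_one]
      rfl
    have h2 : ∑ j ∈ Ψ.support, MvPolynomial.aeval s (N j) * y ^ j =
        MvPolynomial.aeval s D * Ψ.eval y := by
      rw [Polynomial.eval_eq_sum, Polynomial.sum, Finset.mul_sum]
      refine Finset.sum_congr rfl fun j hj => ?_
      rw [← hN j hj]
      ring
    rw [h1, h2, show MvPolynomial.aeval s D * (1 + y) + y ^ 2 * (MvPolynomial.aeval s D * Ψ.eval y) =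
      MvPolynomial.aeval s D * (1 + y + y ^ 2 * Ψ.eval y) by ring, heq, mul_zero]
  have htan : ∀ f : MvPolynomial (Fin n) k, tan pt v (MvPolynomial.rename some f) =
      TrivSqZeroExt.inl (MvPolynomial.constantCoeff f) := by
    intro f
    have h : (tan pt v).comp (MvPolynomial.rename some : MvPolynomial (Fin n) k →ₐ[k]
        MvPolynomial (Option (Fin n)) k).toRingHom =
        (TrivSqZeroExt.inlHom k k).comp MvPolynomial.constantCoeff := by
      apply MvPolynomial.ringHom_ext
      · intro c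
        simp [tan]
      · intro i
        simp [tan, pt, v]
    exact congrArg (fun g => g f) h
  have htanQ : (tan pt v Q).snd = MvPolynomial.constantCoeff D := by
    have h1 : tan pt v Q = TrivSqZeroExt.inl (MvPolynomial.constantCoeff D) *
        TrivSqZeroExt.inr 1 := by
      have h2 : tan pt v (MvPolynomial.X none) =
          (TrivSqZeroExt.inl (-1) + TrivSqZeroExt.inr 1 : DualNumber k) := by
        simp [tan, pt, v]
      have h3 : (∑ j ∈ Ψ.support, (TrivSqZeroExt.inl (MvPolynomial.constantCoeff (N j)) :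
          DualNumber k) * tan pt v (MvPolynomial.X none) ^ j) = 0 := by
        refine Finset.sum_eq_zero fun j hj => ?_
        rw [hN0 j hj, TrivSqZeroExt.inl_zero, zero_mul]
      simp only [Q, map_add, map_mul, map_sum, map_pow, htan, map_one, h3, mul_zero, add_zero]
      rw [h2]
      congr 1
      ext <;> simp
    rw [h1]
    simp
  -- algebraic independence
  have hind : AlgebraicIndependent k s := by
    have h1 : Algebra.IsAlgebraic (Algebra.adjoin k (Set.range s)) K :=
      IntermediateField.isAlgebraic_adjoin_iff_top.1 halg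
    exact (Algebra.IsAlgebraic.isTranscendenceBasis_of_lift_le_trdeg_of_finite k s
      (by simp [hn])).1
  let q : LU.SS V hV z hz := algebraMap _ _ Q
  have hevq : LU.evS V hV z hz q = 0 := by
    change LU.evS V hV z hz (algebraMap _ _ Q) = 0
    rw [LU.evS_algebraMap]
    apply Subtype.ext
    rw [LU.coe_evV, hQ0]
    rfl
  have hqm : q ∈ maximalIdeal (LU.SS V hV z hz) := by
    rw [LU.mem_max_iff, hevq]
    exact Ideal.zero_mem _
  have htq : (tanS V hV z hz pt v hpt q).snd ≠ 0 := by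
    change (tanS V hV z hz pt v hpt (algebraMap _ _ Q)).snd ≠ 0
    rw [tanS_algebraMap, htanQ]
    exact hD
  have hq0 : q ≠ 0 := by
    intro h
    rw [h, map_zero] at htq
    exact htq rfl
  have hregB0 : IsRegularLocalRing
      (LU.SS V hV z hz ⧸ Ideal.span (Set.range (fun _ : Fin 1 => q))) := by
    refine LU.reg_quot 1 (LU.SS V hV z hz) k (fun _ => q)
      (fun _ => tanS V hV z hz pt v hpt) ?_ ?_ ?_ ?_
    · intro _ a ha
      exact fst_tanS V hV z hz pt v hpt a ((LU.mem_max_iff V hV z hz a).1 ha)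
    · intro _
      exact hqm
    · intro i j hij
      exact absurd hij (by omega)
    · intro _
      exact htq
  rw [Set.range_const] at hregB0
  have hdomB : IsDomain (LU.SS V hV z hz ⧸ Ideal.span {q}) :=
    LU.isDomain (R := LU.SS V hV z hz ⧸ Ideal.span {q})
  have hgen' : IntermediateField.adjoin k (Set.range z) = ⊤ := by
    rw [← hgen]
    congr 1
    ext x
    constructor
    · rintro ⟨_ | i, rfl⟩
      · exact Set.mem_insert _ _
      · exact Set.mem_insert_of_mem _ ⟨i, rfl⟩
    · rintro (rfl | ⟨i, rfl⟩)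
      · exact ⟨none, rfl⟩
      · exact ⟨some i, rfl⟩
  have hker : ∀ a ∈ Ideal.span {q}, LU.evS V hV z hz a = 0 := by
    intro a ha
    have : Ideal.span {q} ≤ RingHom.ker (LU.evS V hV z hz) := by
      rw [Ideal.span_le, Set.singleton_subset_iff]
      exact hevq
    exact this ha
  obtain ⟨hAV, hfg, hfr, ⟨e⟩⟩ := SUCrit.core V hV z hz (S := LU.SS V hV z hz)
    (B := LU.SS V hV z hz ⧸ Ideal.span {q}) (LU.evS V hV z hz) (LU.evS_algebraMap V hV z hz)
    (Ideal.Quotient.mk _) Ideal.Quotient.mk_surjective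
    (Ideal.Quotient.lift _ (LU.evS V hV z hz) hker) (fun s => rfl) hgen' (σ := Fin n)
    (fun i => MvPolynomial.X (some i)) (by simpa [z] using hind) (r := 1) (fun _ => q)
    (fun _ => Ideal.Quotient.eq_zero_iff_mem.2 (Ideal.mem_span_singleton_self q)) (by
        intro E _ φ hφ _ o
        rcases o with _ | i
        · refine algOver_of _ _ (Polynomial.C D * (1 + Polynomial.X) +
            Polynomial.X ^ 2 * ∑ j ∈ Ψ.support, Polynomial.C (N j) * Polynomial.X ^ j) ?_ ?_
          · intro h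
            have h1 := congrArg (fun P => Polynomial.coeff P 0) h
            simp only [Polynomial.coeff_zero_eq_eval_zero] at h1
            simp at h1
            exact hD (by rw [h1, map_zero])
          · have h1 : φ (algebraMap _ _ Q) = 0 := hφ 0
            have h2 : ∀ f : MvPolynomial (Fin n) k,
                MvPolynomial.aeval (fun i => (MvPolynomial.X (some i) :
                  MvPolynomial (Option (Fin n)) k)) f = MvPolynomial.rename some f := by
              intro f
              have : (MvPolynomial.aeval (fun i => (MvPolynomial.X (some i) :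
                  MvPolynomial (Option (Fin n)) k))) = MvPolynomial.rename (R := k) some := by
                apply MvPolynomial.algHom_ext
                intro i
                simp
              rw [this]
            have h3 : ∀ f : MvPolynomial (Fin n) k,
                ((φ.comp (algebraMap (MvPolynomial (Option (Fin n)) k) (LU.SS V hV z hz))).comp
                  (MvPolynomial.aeval fun i => (MvPolynomial.X (some i) :
                  MvPolynomial (Option (Fin n)) k)).toRingHom) f =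
                  φ (algebraMap _ _ (MvPolynomial.rename some f)) := by
              intro f
              rw [← h2]
              rfl
            simp only [Q, map_add, map_mul, map_sum, map_pow, map_one] at h1
            simp only [Polynomial.eval₂_add, Polynomial.eval₂_mul, Polynomial.eval₂_C,
              Polynomial.eval₂_one, Polynomial.eval₂_X, Polynomial.eval₂_pow,
              Polynomial.eval₂_finsetSum, h3]
            exact h1
        · refine algOver_of _ _ (Polynomial.X - Polynomial.C (MvPolynomial.X i)) ?_ ?_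
          · exact Polynomial.X_sub_C_ne_zero _
          · simp)
  have hmax : (LU.PP V hV z hz).IsMaximal := by
    have h1 : LU.PP V hV z hz = RingHom.ker (MvPolynomial.eval pt) := by
      ext f
      rw [mem_PP V hV z hz pt hpt, RingHom.mem_ker]
    rw [h1]
    refine RingHom.ker_isMaximal_of_surjective _ fun c => ⟨MvPolynomial.C c, by simp⟩
  have hdimS : ringKrullDim (LU.SS V hV z hz) = ((n + 1 : ℕ) : WithBot ℕ∞) := by
    rw [IsLocalization.AtPrime.ringKrullDim_eq_height (LU.PP V hV z hz) (LU.SS V hV z hz),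
      SUCrit.height k (Option (Fin n)) _ hmax]
    simp
  have hdomS : IsDomain (LU.SS V hV z hz) := LU.isDomain (R := LU.SS V hV z hz)
  have hdimB : ringKrullDim (LU.SS V hV z hz ⧸ Ideal.span {q}) = (n : WithBot ℕ∞) := by
    have h1 := ringKrullDim_quotient_span_singleton_succ_eq_ringKrullDim_of_mem_nonZeroDivisors
      (mem_nonZeroDivisors_of_ne_zero hq0) hqm
    rw [hdimS] at h1
    revert h1
    generalize ringKrullDim (LU.SS V hV z hz ⧸ Ideal.span {q}) = D
    intro h1
    induction D with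
    | bot =>
      rw [WithBot.bot_add] at h1
      exact absurd h1.symm (WithBot.natCast_ne_bot _)
    | coe D =>
      induction D with
      | top => norm_cast at h1
      | coe D =>
        norm_cast at h1 ⊢
        omega
  have hreg : IsRegularLocalRing (Localization.AtPrime
      (LU.center V (Algebra.adjoin k (Set.range z)) hAV)) := IsRegularLocalRing.of_ringEquiv e
  refine ⟨Algebra.adjoin k (Set.range z), hAV,
    fun i => ⟨z (some i), Algebra.subset_adjoin ⟨some i, rfl⟩⟩,
    ⟨z none, Algebra.subset_adjoin ⟨none, rfl⟩⟩, ?_, fun i => rfl, rfl, hfg, hfr, hreg, ?_, ?_⟩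
  · congr 1
    ext x
    constructor
    · rintro ⟨_ | i, rfl⟩
      · exact Set.mem_insert _ _
      · exact Set.mem_insert_of_mem _ ⟨i, rfl⟩
    · rintro (rfl | ⟨i, rfl⟩)
      · exact ⟨none, rfl⟩
      · exact ⟨some i, rfl⟩
  · rw [← hdimB]
    exact (ringKrullDim_eq_of_ringEquiv e).symm
  · refine SUCrit.span_eq V (Algebra.adjoin k (Set.range z)) hAV n
      (fun i => ⟨z (some i), Algebra.subset_adjoin ⟨some i, rfl⟩⟩)
      ⟨z none, Algebra.subset_adjoin ⟨none, rfl⟩⟩
      (fun o => ⟨z o, Algebra.subset_adjoin ⟨o, rfl⟩⟩) rfl (fun i => rfl) ?_ ?_ D N Ψ.support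
      hD hN0 ?_
    · rintro ⟨a, ha⟩
      have ha' := ha
      rw [Algebra.adjoin_range_eq_range_aeval] at ha'
      obtain ⟨f, hf⟩ := ha'
      refine ⟨f, Subtype.ext ?_⟩
      have h1 := DFunLike.congr_fun (MvPolynomial.comp_aeval
        (fun o => (⟨z o, Algebra.subset_adjoin ⟨o, rfl⟩⟩ : Algebra.adjoin k (Set.range z)))
        (Algebra.adjoin k (Set.range z)).val) f
      exact h1.trans hf
    · intro i
      change LU.toV V _ hAV _ ∈ maximalIdeal V
      rw [V.valuation_lt_one_iff]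
      exact hs i
    · have h1 : ∀ g : MvPolynomial (Fin n) k,
          ((MvPolynomial.aeval (fun i => (⟨z (some i), Algebra.subset_adjoin ⟨some i, rfl⟩⟩ :
            Algebra.adjoin k (Set.range z))) g : Algebra.adjoin k (Set.range z)) : K) =
            MvPolynomial.aeval s g := by
        intro g
        exact DFunLike.congr_fun (MvPolynomial.comp_aeval
          (fun i => (⟨z (some i), Algebra.subset_adjoin ⟨some i, rfl⟩⟩ :
            Algebra.adjoin k (Set.range z))) (Algebra.adjoin k (Set.range z)).val) g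
      apply Subtype.ext
      push_cast
      simp only [h1]
      exact hQz
/-- `LX.su_enlarge` with the explicit chart (same proof). -/
theorem RelDense_enlarge (W : ValuationSubring K) (A : Subalgebra k K) (h : ∀ a ∈ A, a ∈ W)
    (hfg : A.FG) (hfr : IsFractionRing A K) (n : ℕ) (s : Fin n → A)
    (hreg : IsRegularLocalRing (Localization.AtPrime (LU.center W A h)))
    (hdim : ringKrullDim (Localization.AtPrime (LU.center W A h)) = n)
    (hspan : Ideal.span (Set.range fun i =>
        algebraMap A (Localization.AtPrime (LU.center W A h)) (s i)) =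
          maximalIdeal (Localization.AtPrime (LU.center W A h)))
    (F : Finset K)
    (hF : ∀ x ∈ F, ∃ N D : A, D ∉ LU.center W A h ∧ x * (D : K) = (N : K)) :
    ∃ (A' : Subalgebra k K) (h' : ∀ a ∈ A', a ∈ W) (s' : Fin n → A'),
      A' = A ⊔ Algebra.adjoin k (F : Set K) ∧ A ≤ A' ∧
      (∀ i, (s' i : K) = (s i : K)) ∧ A'.FG ∧ IsFractionRing A' K ∧
      IsRegularLocalRing (Localization.AtPrime (LU.center W A' h')) ∧
      ringKrullDim (Localization.AtPrime (LU.center W A' h')) = n ∧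
      Ideal.span (Set.range fun i =>
        algebraMap A' (Localization.AtPrime (LU.center W A' h')) (s' i)) =
          maximalIdeal (Localization.AtPrime (LU.center W A' h')) ∧
      ∀ x ∈ F, x ∈ A' := by
  classical
  let A' : Subalgebra k K := A ⊔ Algebra.adjoin k (F : Set K)
  have hAA' : A ≤ A' := le_sup_left
  have hFA' : ∀ x ∈ F, x ∈ A' := fun x hx =>
    (le_sup_right : Algebra.adjoin k (F : Set K) ≤ A') (Algebra.subset_adjoin hx)
  have hA'l : A' ≤ SUCrit.loc W A h := by
    refine sup_le (SUCrit.le_loc W A h) (Algebra.adjoin_le ?_)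
    intro x hx
    exact hF x hx
  have h' : ∀ a ∈ A', a ∈ W := fun a ha => SUCrit.loc_le W A h a (hA'l ha)
  have hloc : SUCrit.loc W A' h' = SUCrit.loc W A h := by
    apply le_antisymm
    · rintro x ⟨N, D, hD, hx⟩
      obtain ⟨N1, D1, hD1, hx1⟩ := hA'l N.2
      obtain ⟨N2, D2, hD2, hx2⟩ := hA'l D.2
      have v1 := SUCrit.val_eq_one W A' h' D hD
      have v2 := SUCrit.val_eq_one W A h D2 hD2
      have hN2 : N2 ∉ LU.center W A h := by
        rw [SUCrit.mem_center, ← hx2, map_mul, v1, v2, mul_one]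
        exact lt_irrefl _
      refine ⟨N1 * D2, D1 * N2, ?_, ?_⟩
      · intro hc
        rcases (inferInstance : (LU.center W A h).IsPrime).mem_or_mem hc with hc | hc
        · exact hD1 hc
        · exact hN2 hc
      · push_cast
        rw [← hx1, ← hx2, ← hx]
        ring
    · rintro x ⟨N, D, hD, hx⟩
      refine ⟨⟨N, hAA' N.2⟩, ⟨D, hAA' D.2⟩, ?_, hx⟩
      rw [SUCrit.mem_center] at hD ⊢
      exact hD
  obtain ⟨e1, he1⟩ := SUCrit.equiv W A h
  obtain ⟨e2, he2⟩ := SUCrit.equiv W A' h'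
  let e3 : SUCrit.loc W A h ≃+* SUCrit.loc W A' h' := (Subalgebra.equivOfEq _ _ hloc.symm).toRingEquiv
  let e : Localization.AtPrime (LU.center W A h) ≃+* Localization.AtPrime (LU.center W A' h') :=
    (e1.trans e3).trans e2.symm
  have he : ∀ a : A, e (algebraMap A _ a) =
      algebraMap A' (Localization.AtPrime (LU.center W A' h')) ⟨a, hAA' a.2⟩ := by
    intro a
    apply e2.injective
    apply Subtype.ext
    rw [he2]
    change ((e2 (e2.symm (e3 (e1 (algebraMap A _ a)))) : SUCrit.loc W A' h') : K) = a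
    rw [e2.apply_symm_apply]
    exact he1 a
  refine ⟨A', h', fun i => ⟨s i, hAA' (s i).2⟩, rfl, hAA', fun i => rfl, ?_, ?_, ?_, ?_, ?_, hFA'⟩
  · exact hfg.sup ⟨F, rfl⟩
  · refine IsFractionRing.of_field _ _ ?_
    intro x
    obtain ⟨a, b, _, hab⟩ := IsFractionRing.div_surjective (A := A) x
    exact ⟨⟨a, hAA' a.2⟩, ⟨b, hAA' b.2⟩, hab.symm⟩
  · exact IsRegularLocalRing.of_ringEquiv e
  · rw [← hdim]
    exact (ringKrullDim_eq_of_ringEquiv e).symm
  · rw [← IsLocalRing.map_ringEquiv_maximalIdeal e, ← hspan, Ideal.map_span, ← Set.range_comp]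
    congr 2
    funext i
    exact (he (s i)).symm

end charts

/-! ### monomials times units -/

open LX in
/-- the representation of `MonA` without the condition on the signs -/
def RelDense_Mon (W : ValuationSubring K) (A : Subalgebra k K) {n : ℕ} (r : ℕ) (s : Fin n → K)
    (a : Fin n → ℤ) (x : K) : Prop :=
  ∃ N D : A, W.valuation (N : K) = 1 ∧ W.valuation (D : K) = 1 ∧
    x * (D : K) = (∏ i, s i ^ a i) * (N : K) ∧ ∀ i : Fin n, r ≤ (i : ℕ) → a i = 0

theorem RelDense_Mon.mul {W : ValuationSubring K} {A : Subalgebra k K} {n r : ℕ} {s : Fin n → K}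
    (hs : ∀ i, s i ≠ 0) {a b : Fin n → ℤ} {x y : K} (hx : RelDense_Mon W A r s a x)
    (hy : RelDense_Mon W A r s b y) : RelDense_Mon W A r s (fun i => a i + b i) (x * y) := by
  obtain ⟨N, D, h1, h2, h3, h4⟩ := hx
  obtain ⟨N', D', h1', h2', h3', h4'⟩ := hy
  refine ⟨N * N', D * D', ?_, ?_, ?_, ?_⟩
  · change W.valuation ((N : K) * (N' : K)) = 1
    rw [map_mul, h1, h1', one_mul]
  · change W.valuation ((D : K) * (D' : K)) = 1
    rw [map_mul, h2, h2', one_mul]
  · change x * y * ((D : K) * (D' : K)) = (∏ i, s i ^ (a i + b i)) * ((N : K) * (N' : K))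
    have h5 : ∏ i, s i ^ (a i + b i) = (∏ i, s i ^ a i) * ∏ i, s i ^ b i := by
      rw [← Finset.prod_mul_distrib]
      exact Finset.prod_congr rfl fun i _ => zpow_add₀ (hs i) _ _
    rw [h5, show (∏ i, s i ^ a i) * (∏ i, s i ^ b i) * ((N : K) * (N' : K)) =
      ((∏ i, s i ^ a i) * (N : K)) * ((∏ i, s i ^ b i) * (N' : K)) by ring, ← h3, ← h3']
    ring
  · intro i hi
    change a i + b i = 0
    rw [h4 i hi, h4' i hi, add_zero]

theorem RelDense_Mon.one {W : ValuationSubring K} {A : Subalgebra k K} {n r : ℕ} {s : Fin n → K} :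
    RelDense_Mon W A r s (fun _ => 0) 1 :=
  ⟨1, 1, by simp, by simp, by simp, fun _ _ => rfl⟩

theorem RelDense_Mon.pow {W : ValuationSubring K} {A : Subalgebra k K} {n r : ℕ} {s : Fin n → K}
    (hs : ∀ i, s i ≠ 0) {a : Fin n → ℤ} {x : K} (hx : RelDense_Mon W A r s a x) (m : ℕ) :
    RelDense_Mon W A r s (fun i => m * a i) (x ^ m) := by
  induction m with
  | zero => simpa using RelDense_Mon.one
  | succ m ih =>
    rw [pow_succ]
    have h := ih.mul hs hx
    have h1 : (fun i => ((m + 1 : ℕ) : ℤ) * a i) = fun i => (m : ℤ) * a i + a i := by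
      funext i
      push_cast
      ring
    rw [h1]
    exact h

theorem RelDense_Mon.prod {W : ValuationSubring K} {A : Subalgebra k K} {n r : ℕ}
    {s : Fin n → K} (hs : ∀ i, s i ≠ 0) (T : Finset K)
    (hT : ∀ g ∈ T, ∃ a, RelDense_Mon W A r s a g) :
    ∃ a, RelDense_Mon W A r s a (∏ g ∈ T, g) := by
  classical
  induction T using Finset.induction_on with
  | empty => exact ⟨_, by simpa using RelDense_Mon.one⟩
  | insert g T hg ih =>
    rw [Finset.prod_insert hg]
    obtain ⟨a, ha⟩ := hT g (Finset.mem_insert_self g T)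
    obtain ⟨b, hb⟩ := ih fun g' hg' => hT g' (Finset.mem_insert_of_mem hg')
    exact ⟨_, ha.mul hs hb⟩

theorem RelDense_Mon.mono {W : ValuationSubring K} {A A' : Subalgebra k K} (hA : A ≤ A') {n r : ℕ}
    {s : Fin n → K} {a : Fin n → ℤ} {x : K} (hx : RelDense_Mon W A r s a x) :
    RelDense_Mon W A' r s a x := by
  obtain ⟨N, D, h1, h2, h3, h4⟩ := hx
  exact ⟨⟨N, hA N.2⟩, ⟨D, hA D.2⟩, h1, h2, h3, h4⟩

open LX in
theorem RelDense_Mon.mul_unit {W : ValuationSubring K} {A : Subalgebra k K} {n r : ℕ}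
    {s : Fin n → K} {a : Fin n → ℤ} {x w : K} (hx : RelDense_Mon W A r s a x)
    (hw : SUDense_Loc W A w) (hw1 : W.valuation w = 1) : RelDense_Mon W A r s a (x * w) := by
  obtain ⟨N, D, h1, h2, h3, h4⟩ := hx
  obtain ⟨N', D', h5, h6⟩ := hw
  have h7 : W.valuation (N' : K) = 1 := by rw [← h6, map_mul, hw1, h5, one_mul]
  refine ⟨N * N', D * D', ?_, ?_, ?_, h4⟩
  · change W.valuation ((N : K) * (N' : K)) = 1
    rw [map_mul, h1, h7, one_mul]
  · change W.valuation ((D : K) * (D' : K)) = 1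
    rw [map_mul, h2, h5, one_mul]
  · change x * w * ((D : K) * (D' : K)) = (∏ i, s i ^ a i) * ((N : K) * (N' : K))
    rw [← h6, ← mul_assoc _ (N : K), ← h3]
    ring

open LX in
theorem RelDense_Mon.toMonA {W : ValuationSubring K} {A : Subalgebra k K} {h : ∀ a ∈ A, a ∈ W}
    {n r : ℕ} {s : Fin n → K} {s' : Fin n → A} (hs' : ∀ i, (s' i : K) = s i) {a : Fin n → ℤ}
    {x : K} (hx : RelDense_Mon W A r s a x)
    (ha : W.valuation x < 1 → ∀ i : Fin n, (i : ℕ) < r → 1 ≤ a i) : MonA W A h r s' x := by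
  obtain ⟨N, D, h1, h2, h3, h4⟩ := hx
  refine ⟨a, N, D, ?_, ?_, ?_, h4, ha⟩
  · rw [SUDense_not_center]
    exact h1
  · rw [SUDense_not_center]
    exact h2
  · simp only [hs']
    exact h3

theorem RelDense_exp {n r : ℕ} (a b : Fin n → ℤ) (hb : ∀ i : Fin n, (i : ℕ) < r → 1 ≤ b i) :
    ∃ M : ℕ, ∀ i : Fin n, (i : ℕ) < r → 1 ≤ a i + M * b i := by
  refine ⟨∑ j, (a j).natAbs + 1, fun i hi => ?_⟩
  have h1 : (a i).natAbs ≤ ∑ j, (a j).natAbs :=
    Finset.single_le_sum (f := fun j => (a j).natAbs) (fun _ _ => Nat.zero_le _)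
      (Finset.mem_univ i)
  have h2 := hb i hi
  have h3 : (((∑ j, (a j).natAbs + 1 : ℕ) : ℕ) : ℤ) * 1 ≤
      ((∑ j, (a j).natAbs + 1 : ℕ) : ℤ) * b i :=
    mul_le_mul_of_nonneg_left h2 (by positivity)
  have h4 : -(a i) ≤ ((a i).natAbs : ℤ) := by omega
  have h5 : (((a i).natAbs : ℕ) : ℤ) ≤ ((∑ j, (a j).natAbs : ℕ) : ℤ) := by exact_mod_cast h1
  have h6 : (((∑ j, (a j).natAbs + 1 : ℕ) : ℕ) : ℤ) = ((∑ j, (a j).natAbs : ℕ) : ℤ) + 1 := by
    rw [Nat.cast_add, Nat.cast_one]
  rw [h6] at h3 ⊢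
  linarith

/-- one element `H` which is divisible by all elements of `T` -/
theorem RelDense_H {W : ValuationSubring K} {A R : Subalgebra k K} {n r : ℕ} {s : Fin n → K}
    (hs : ∀ i, s i ≠ 0) (T : Finset K) (hT : ∀ g ∈ T, g ∈ R ∧ g ≠ 0 ∧
      ∃ a, RelDense_Mon W A r s a g ∧ (W.valuation g < 1 → ∀ i : Fin n, (i : ℕ) < r → 1 ≤ a i)) :
    ∃ H ∈ R, H ≠ 0 ∧ (∀ g ∈ T, ∃ c ∈ R, H = g * c) ∧
      ∃ a, RelDense_Mon W A r s a H ∧ (W.valuation H < 1 → ∀ i : Fin n, (i : ℕ) < r → 1 ≤ a i) := by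
  classical
  have hP1 : ∏ g ∈ T, g ∈ R := prod_mem fun g hg => (hT g hg).1
  have hP2 : ∏ g ∈ T, g ≠ 0 := Finset.prod_ne_zero_iff.2 fun g hg => (hT g hg).2.1
  have hP3 : ∀ g ∈ T, ∃ c ∈ R, ∏ g ∈ T, g = g * c := fun g hg =>
    ⟨∏ g' ∈ T.erase g, g', prod_mem fun g' hg' => (hT g' (Finset.mem_of_mem_erase hg')).1,
      (Finset.mul_prod_erase T (fun g => g) hg).symm⟩
  obtain ⟨a, ha⟩ := RelDense_Mon.prod hs T fun g hg =>
    let ⟨a, ha, _⟩ := (hT g hg).2.2
    ⟨a, ha⟩
  by_cases hex : ∃ g ∈ T, W.valuation g < 1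
  · obtain ⟨g, hg, hg1⟩ := hex
    obtain ⟨hgR, hg0, b, hb, hb1⟩ := hT g hg
    obtain ⟨M, hM⟩ := RelDense_exp a b (hb1 hg1)
    refine ⟨(∏ g ∈ T, g) * g ^ M, mul_mem hP1 (pow_mem hgR M), mul_ne_zero hP2 (pow_ne_zero M hg0),
      fun g' hg' => ?_, _, ha.mul hs (hb.pow hs M), fun _ => hM⟩
    obtain ⟨c, hc, h⟩ := hP3 g' hg'
    exact ⟨c * g ^ M, mul_mem hc (pow_mem hgR M), by rw [h, mul_assoc]⟩
  · push Not at hex
    refine ⟨∏ g ∈ T, g, hP1, hP2, hP3, a, ha, fun hlt => ?_⟩
    exfalso
    have h1 : ∀ U : Finset K, (∀ g ∈ U, 1 ≤ W.valuation g) → 1 ≤ W.valuation (∏ g ∈ U, g) := by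
      intro U hU
      induction U using Finset.induction_on with
      | empty => simp
      | insert g U hg ih =>
        rw [Finset.prod_insert hg, map_mul]
        exact one_le_mul_of_one_le_of_one_le (hU g (Finset.mem_insert_self g U))
          (ih fun g' hg' => hU g' (Finset.mem_insert_of_mem hg'))
    exact absurd hlt (not_lt.2 (h1 T hex))

theorem RelDense_frac (S : Set K) {x : K} (hx : x ∈ IntermediateField.adjoin k S) :
    ∃ d ∈ Algebra.adjoin k S, d ≠ 0 ∧ d * x ∈ Algebra.adjoin k S := by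
  obtain ⟨a, ha, b, hb, hab⟩ := IntermediateField.mem_adjoin_iff_div.1 hx
  by_cases hb0 : b = 0
  · refine ⟨1, one_mem _, one_ne_zero, ?_⟩
    rw [hab, hb0, div_zero, mul_zero]
    exact zero_mem _
  · refine ⟨b, hb, hb0, ?_⟩
    rw [hab, mul_div_cancel₀ _ hb0]
    exact ha

/-- the elements of `R[1/H]` -/
def RelDense_loc (R : Subalgebra k K) (H : K) (hH : H ∈ R) : Subalgebra k K where
  carrier := {x | ∃ e : ℕ, H ^ e * x ∈ R}
  mul_mem' := by
    rintro x y ⟨e, hx⟩ ⟨f, hy⟩
    refine ⟨e + f, ?_⟩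
    rw [pow_add, show H ^ e * H ^ f * (x * y) = (H ^ e * x) * (H ^ f * y) by ring]
    exact mul_mem hx hy
  add_mem' := by
    rintro x y ⟨e, hx⟩ ⟨f, hy⟩
    refine ⟨e + f, ?_⟩
    rw [pow_add, show H ^ e * H ^ f * (x + y) = H ^ f * (H ^ e * x) + H ^ e * (H ^ f * y) by ring]
    exact add_mem (mul_mem (pow_mem hH _) hx) (mul_mem (pow_mem hH _) hy)
  algebraMap_mem' := by
    intro c
    exact ⟨0, by simp⟩

/-- Relative strong local uniformization from density and relative monomialization. As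
`LX.strong_of_dense`. Let `B₁` be the set of `MonRel`, `z` a fixed primitive element of `K/E`,
`B = insert z B₁`. Given `F`, write the elements `f` of `F` as `n_f / d_f` with `n_f, d_f ∈ k[B]`,
`F' = F ∪ {d_f}`; `LX.su_approx_z` for `F'`: `y = -1` or `y = (z - t) * e`, `t = n_t/d_t`,
`e = n_e/d_e` with numerators and denominators in `k[B₁]`. Apply `MonRel` to the non-zero elements
among the `th x` (`x ∈ F'`), the coefficients of `Ψ` and of the `q x`, and `d_t, d_e`; `A₁ = k[s, y]`
(`LX.su_crit`), `1 + q_x(y)` is a unit, `LX.su_enlarge` for `F ∩ W`. The element `H` is the product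
of the `H` of `MonRel`, `d_t`, `d_e` and all `d_f`. Positivity of the exponents of `x`: those of
`th x`. -/
theorem rel_of_dense (W : ValuationSubring K) (hW : ∀ c : k, algebraMap k K c ∈ W) (n r : ℕ)
    (hn : Algebra.trdeg k K = n) (E : IntermediateField k K) [FiniteDimensional E K]
    (hsep : Algebra.IsSeparable E K) (hnt : ∃ c : K, c ≠ 0 ∧ W.valuation c < 1)
    (harch : MulArchimedean W.ValueGroup) (hd : LX.DenseF W E) (hmon : MonRel W E n r) :
    RelU k W r := by
  classical
  obtain ⟨B₁, hB₁, hmon⟩ := hmon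
  obtain ⟨z, hz⟩ := Field.exists_primitive_element E K
  obtain ⟨R, hR⟩ : ∃ R : Subalgebra k K,
      R = Algebra.adjoin k ((insert z B₁ : Finset K) : Set K) := ⟨_, rfl⟩
  have hsub : (B₁ : Set K) ⊆ ((insert z B₁ : Finset K) : Set K) := by
    rw [Finset.coe_insert]
    exact Set.subset_insert _ _
  have hR₁ : Algebra.adjoin k (B₁ : Set K) ≤ R := by
    rw [hR]
    exact Algebra.adjoin_mono hsub
  have hzR : z ∈ R := by
    rw [hR]
    exact Algebra.subset_adjoin (Finset.mem_coe.2 (Finset.mem_insert_self z B₁))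
  have htop : ∀ x : K, x ∈ IntermediateField.adjoin k ((insert z B₁ : Finset K) : Set K) := by
    intro x
    obtain ⟨L, hL⟩ : ∃ L : IntermediateField k K,
      L = IntermediateField.adjoin k ((insert z B₁ : Finset K) : Set K) := ⟨_, rfl⟩
    have hEL : ∀ e ∈ E, e ∈ L := by
      intro e he
      rw [← hB₁] at he
      rw [hL]
      exact IntermediateField.adjoin.mono _ _ _ hsub he
    have hzL : z ∈ L := by
      rw [hL]
      exact IntermediateField.subset_adjoin _ _ (Finset.mem_coe.2 (Finset.mem_insert_self z B₁))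
    rw [← hL]
    have h1 : IntermediateField.adjoin E {z} ≤ IntermediateField.extendScalars (F := E) (E := L)
        (fun e he => hEL e he) := by
      rw [IntermediateField.adjoin_simple_le_iff]
      exact hzL
    have h2 : x ∈ IntermediateField.adjoin E {z} := by
      rw [hz]; exact IntermediateField.mem_top
    exact h1 h2
  have hfrac : ∀ x : K, ∃ d ∈ R, d ≠ 0 ∧ d * x ∈ R := by
    intro x
    rw [hR]
    exact RelDense_frac _ (htop x)
  have hfrac₁ : ∀ x ∈ E, ∃ d ∈ Algebra.adjoin k (B₁ : Set K), d ≠ 0 ∧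
      d * x ∈ Algebra.adjoin k (B₁ : Set K) := by
    intro x hx
    rw [← hB₁] at hx
    exact RelDense_frac _ hx
  refine ⟨insert z B₁, fun F hF => ?_⟩
  rw [← hR]
  choose den hden1 hden2 hden3 using hfrac
  obtain ⟨F', hF'⟩ : ∃ F' : Finset K, F' = F ∪ F.image den := ⟨_, rfl⟩
  have hFF' : ∀ x ∈ F, x ∈ F' := fun x hx => by
    rw [hF']
    exact Finset.mem_union_left _ hx
  have hdF' : ∀ x ∈ F, den x ∈ F' := fun x hx => by
    rw [hF']
    exact Finset.mem_union_right _ (Finset.mem_image_of_mem den hx)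
  have hF'0 : ∀ x ∈ F', x ≠ 0 := by
    intro x hx
    rw [hF', Finset.mem_union] at hx
    rcases hx with hx | hx
    · exact hF x hx
    · obtain ⟨f, _, rfl⟩ := Finset.mem_image.1 hx
      exact hden2 f
  obtain ⟨y, Ψ, th, q, hy1, heq, hΨ, hgen, hx, hyz⟩ :=
    LX.su_approx_z W E hsep hnt harch hd z hz F' hF'0
  obtain ⟨d, hd1, hd2, hd3⟩ : ∃ d ∈ Algebra.adjoin k (B₁ : Set K), d ≠ 0 ∧ d * y ∈ R := by
    rcases hyz with rfl | ⟨t, ht, e, he, rfl⟩
    · refine ⟨1, one_mem _, one_ne_zero, ?_⟩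
      rw [one_mul]
      exact neg_mem (one_mem R)
    · obtain ⟨dt, h1, h2, h3⟩ := hfrac₁ t ht
      obtain ⟨de, h4, h5, h6⟩ := hfrac₁ e he
      refine ⟨dt * de, mul_mem h1 h4, mul_ne_zero h2 h5, ?_⟩
      have h7 : dt * de * ((z - t) * e) = (dt * z - dt * t) * (de * e) := by ring
      rw [h7]
      exact mul_mem (sub_mem (mul_mem (hR₁ h1) hzR) (hR₁ h3)) (hR₁ h6)
  have hdE : d ∈ E := by
    rw [← hB₁]
    exact IntermediateField.algebra_adjoin_le_adjoin k _ hd1
  -- the finite set of elements of `E`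
  obtain ⟨Z, hZ⟩ : ∃ Z : Finset K, Z = insert d (F'.image th ∪ (Ψ.support.image Ψ.coeff ∪
    F'.biUnion fun x => (q x).support.image (q x).coeff)) := ⟨_, rfl⟩
  have hZd : d ∈ Z := by
    rw [hZ]
    exact Finset.mem_insert_self _ _
  have hZth : ∀ x ∈ F', th x ∈ Z := by
    intro x hxF
    rw [hZ, Finset.mem_insert, Finset.mem_union]
    exact Or.inr (Or.inl (Finset.mem_image.2 ⟨x, hxF, rfl⟩))
  have hZΨ : ∀ j, Ψ.coeff j ≠ 0 → Ψ.coeff j ∈ Z := by
    intro j hj
    rw [hZ, Finset.mem_insert, Finset.mem_union, Finset.mem_union]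
    exact Or.inr (Or.inr (Or.inl (Finset.mem_image.2 ⟨j, Polynomial.mem_support_iff.2 hj, rfl⟩)))
  have hZq : ∀ x ∈ F', ∀ j, (q x).coeff j ≠ 0 → (q x).coeff j ∈ Z := by
    intro x hxF j hj
    rw [hZ, Finset.mem_insert, Finset.mem_union, Finset.mem_union]
    exact Or.inr (Or.inr (Or.inr (Finset.mem_biUnion.2 ⟨x, hxF, Finset.mem_image.2
      ⟨j, Polynomial.mem_support_iff.2 hj, rfl⟩⟩)))
  have hZ1 : ∀ x ∈ Z, x ∈ E ∧ x ≠ 0 := by
    intro x hxZ
    rw [hZ, Finset.mem_insert, Finset.mem_union, Finset.mem_union] at hxZ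
    rcases hxZ with rfl | hxZ | hxZ | hxZ
    · exact ⟨hdE, hd2⟩
    · obtain ⟨x, hxF, rfl⟩ := Finset.mem_image.1 hxZ
      exact ⟨(hx x hxF).1, (hx x hxF).2.1⟩
    · obtain ⟨j, hj, rfl⟩ := Finset.mem_image.1 hxZ
      exact ⟨(hΨ j).1, Polynomial.mem_support_iff.1 hj⟩
    · obtain ⟨x, hxF, hxZ⟩ := Finset.mem_biUnion.1 hxZ
      obtain ⟨j, hj, rfl⟩ := Finset.mem_image.1 hxZ
      exact ⟨((hx x hxF).2.2.2.1 j).1, Polynomial.mem_support_iff.1 hj⟩
  obtain ⟨s, hs, hsE, hmon', H₁, hH1, hH2, hH3, hH4⟩ := hmon Z hZ1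
  have hs0 : ∀ i, s i ≠ 0 := fun i => (hs i).1
  have hs1 : ∀ i, W.valuation (s i) < 1 := fun i => (hs i).2
  -- integral elements are fractions
  have hfr0 : ∀ x ∈ Z, W.valuation x ≤ 1 → ∃ N D : MvPolynomial (Fin n) k,
      MvPolynomial.constantCoeff D ≠ 0 ∧
      x * MvPolynomial.aeval s D = MvPolynomial.aeval s N := by
    intro x hxZ hx1
    obtain ⟨a, N, D, _, h2, h3, h4, h5, h6⟩ := hmon' x hxZ
    have h7 : ∀ i, 0 ≤ a i := by
      intro i
      rcases hx1.lt_or_eq with hlt | heq1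
      · rcases lt_or_ge (i : ℕ) r with hi | hi
        · exact le_trans zero_le_one (h5 hlt i hi)
        · exact (h4 i hi).ge
      · rw [h6 heq1]
        exact le_rfl
    refine ⟨(∏ i, MvPolynomial.X i ^ (a i).toNat) * N, D, h2, ?_⟩
    rw [h3, map_mul, map_prod]
    congr 1
    refine Finset.prod_congr rfl fun i _ => ?_
    rw [map_pow, MvPolynomial.aeval_X]
    conv_lhs => rw [← Int.toNat_of_nonneg (h7 i)]
    rw [zpow_natCast]
  have hΨ' : ∀ j, ∃ N D : MvPolynomial (Fin n) k, MvPolynomial.constantCoeff D ≠ 0 ∧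
      Ψ.coeff j * MvPolynomial.aeval s D = MvPolynomial.aeval s N := by
    intro j
    by_cases hj : Ψ.coeff j = 0
    · exact ⟨0, 1, by simp, by simp [hj]⟩
    · exact hfr0 _ (hZΨ j hj) (hΨ j).2.le
  have hgen' : IntermediateField.adjoin k (insert y (Set.range s)) = ⊤ := by
    rw [eq_top_iff, ← hgen, IntermediateField.adjoin_le_iff, Set.insert_subset_iff]
    refine ⟨IntermediateField.subset_adjoin _ _ (Set.mem_insert _ _), ?_⟩
    have h1 : IntermediateField.adjoin k (Set.range s) ≤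
        IntermediateField.adjoin k (insert y (Set.range s)) :=
      IntermediateField.adjoin.mono _ _ _ (Set.subset_insert _ _)
    rw [hsE] at h1
    exact h1
  have halg : Algebra.IsAlgebraic (IntermediateField.adjoin k (Set.range s)) K := by
    rw [hsE]
    exact Algebra.IsAlgebraic.of_finite E K
  obtain ⟨A, h, s', y', hAeq, hs', hy', hfg, hfr, hreg, hdim, hspan⟩ :=
    RelDense_crit W hW n hn s hs1 y hy1 hgen' halg Ψ hΨ' (fun j => (hΨ j).2) heq
  have hyA : y ∈ A := by
    rw [← hy']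
    exact y'.2
  have hyv : W.valuation y = 1 := by
    have h1 : W.valuation y = W.valuation (-1 : K) := by
      apply Valuation.map_eq_of_sub_lt
      rw [sub_neg_eq_add, Valuation.map_neg, map_one]
      exact hy1
    rw [h1, Valuation.map_neg, map_one]
  have hunit : ∀ D : MvPolynomial (Fin n) k, MvPolynomial.constantCoeff D ≠ 0 →
      W.valuation (MvPolynomial.aeval s D) = 1 := LX.SUDense_unit W hW hs1
  have hmem : ∀ D : MvPolynomial (Fin n) k, MvPolynomial.aeval s D ∈ A :=
    LX.SUDense_aeval_mem hs'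
  have hloc : ∀ x ∈ Z, W.valuation x ≤ 1 → LX.SUDense_Loc W A x := by
    intro x hxZ hx1
    obtain ⟨N, D, h1, h2⟩ := hfr0 x hxZ hx1
    exact ⟨⟨_, hmem N⟩, ⟨_, hmem D⟩, hunit D h1, h2⟩
  have hMonU : ∀ x, MonU k W r s x → ∃ a, RelDense_Mon W A r s a x ∧
      (W.valuation x < 1 → ∀ i : Fin n, (i : ℕ) < r → 1 ≤ a i) := by
    rintro x ⟨a, N, D, h1, h2, h3, h4, h5, _⟩
    exact ⟨a, ⟨⟨_, hmem N⟩, ⟨_, hmem D⟩, hunit N h1, hunit D h2, h3, h4⟩, h5⟩
  -- the units `1 + q_x(y)`
  have hq : ∀ x ∈ F', LX.SUDense_Loc W A (1 + (q x).eval y) ∧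
      W.valuation (1 + (q x).eval y) = 1 := by
    intro x hxF
    obtain ⟨_, _, _, h4, _⟩ := hx x hxF
    rw [Polynomial.eval_eq_sum, Polynomial.sum_def]
    constructor
    · refine (LX.SUDense_Loc.of_mem A.one_mem).add (LX.SUDense_Loc.sum _ _ fun j hj => ?_)
      exact LX.SUDense_Loc.mul (hloc _ (hZq x hxF j (Polynomial.mem_support_iff.1 hj)) (h4 j).2.le)
        (LX.SUDense_Loc.of_mem (pow_mem hyA _))
    · rw [← map_one W.valuation]
      apply Valuation.map_eq_of_sub_lt
      rw [add_sub_cancel_left, map_one]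
      refine Valuation.map_sum_lt _ one_ne_zero fun j _ => ?_
      rw [map_mul, map_pow, hyv, one_pow, mul_one]
      exact (h4 j).2
  have hMonF : ∀ x ∈ F', ∃ a, RelDense_Mon W A r s a x ∧
      (W.valuation x < 1 → ∀ i : Fin n, (i : ℕ) < r → 1 ≤ a i) := by
    intro x hxF
    obtain ⟨_, _, h3, _, h5⟩ := hx x hxF
    obtain ⟨a, h6, h7⟩ := hMonU (th x) (hmon' (th x) (hZth x hxF))
    refine ⟨a, ?_, ?_⟩
    · rw [h5]
      exact h6.mul_unit (hq x hxF).1 (hq x hxF).2
    · rw [← h3]
      exact h7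
  -- enlarge the chart
  have hF2 : ∀ x ∈ F.filter (fun x => x ∈ W), ∃ N D : A, D ∉ LU.center W A h ∧
      x * (D : K) = (N : K) := by
    intro x hx'
    rw [Finset.mem_filter] at hx'
    obtain ⟨hxF, hxW⟩ := hx'
    obtain ⟨_, _, h3, _, h5⟩ := hx x (hFF' x hxF)
    have h6 : LX.SUDense_Loc W A (th x) := by
      refine hloc _ (hZth x (hFF' x hxF)) ?_
      rw [h3]
      exact (W.valuation_le_one_iff _).2 hxW
    obtain ⟨N, D, h7, h8⟩ := h6.mul (hq x (hFF' x hxF)).1
    rw [← h5] at h8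
    exact ⟨N, D, (LX.SUDense_not_center W A h D).2 h7, h8⟩
  obtain ⟨A', h', s'', hA'eq, hAA, hs'', hfg', hfr', hreg', hdim', hspan', hFA⟩ :=
    RelDense_enlarge W A h hfg hfr n s' hreg hdim hspan (F.filter (fun x => x ∈ W)) hF2
  have hs3 : ∀ i, ((s'' i : A') : K) = s i := fun i => (hs'' i).trans (hs' i)
  -- the element `H`
  obtain ⟨H, hHR, hH0, hHdiv, a, hHa, hHa1⟩ := RelDense_H (W := W) (A := A') (R := R) (r := r) hs0
    (insert H₁ (insert d (F.image den))) (by
      intro g hg
      rw [Finset.mem_insert, Finset.mem_insert] at hg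
      rcases hg with rfl | rfl | hg
      · obtain ⟨a, h1, h2⟩ := hMonU _ hH3
        exact ⟨hR₁ hH1, hH2, a, h1.mono hAA, h2⟩
      · obtain ⟨a, h1, h2⟩ := hMonU _ (hmon' _ hZd)
        exact ⟨hR₁ hd1, hd2, a, h1.mono hAA, h2⟩
      · obtain ⟨f, hf, rfl⟩ := Finset.mem_image.1 hg
        obtain ⟨a, h1, h2⟩ := hMonF _ (hdF' f hf)
        exact ⟨hden1 f, hden2 f, a, h1.mono hAA, h2⟩)
  refine ⟨A', h', n, s'', hfg', hfr', hreg', hdim', hspan',
    fun x hxF hxW => hFA x (Finset.mem_filter.2 ⟨hxF, hxW⟩), fun x hxF => ?_,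
    H, hHR, hH0, hHa.toMonA hs3 hHa1, ?_⟩
  · obtain ⟨b, h1, h2⟩ := hMonF x (hFF' x hxF)
    exact (h1.mono hAA).toMonA hs3 h2
  · have hle : A' ≤ RelDense_loc R H hHR := by
      rw [hA'eq, hAeq]
      refine sup_le (Algebra.adjoin_le ?_) (Algebra.adjoin_le ?_)
      · rintro x (rfl | ⟨i, rfl⟩)
        · obtain ⟨c, hc, h1⟩ := hHdiv d (Finset.mem_insert_of_mem (Finset.mem_insert_self _ _))
          refine ⟨1, ?_⟩
          rw [pow_one, h1, show d * c * x = c * (d * x) by ring]
          exact mul_mem hc hd3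
        · obtain ⟨c, hc, h1⟩ := hHdiv H₁ (Finset.mem_insert_self _ _)
          obtain ⟨e, he⟩ := hH4 i
          refine ⟨e, ?_⟩
          rw [h1, mul_pow, show H₁ ^ e * c ^ e * s i = c ^ e * (H₁ ^ e * s i) by ring]
          exact mul_mem (pow_mem hc e) (hR₁ he)
      · intro x hxF
        have hxF' : x ∈ F := (Finset.mem_filter.1 (Finset.mem_coe.1 hxF)).1
        obtain ⟨c, hc, h1⟩ := hHdiv (den x) (Finset.mem_insert_of_mem (Finset.mem_insert_of_mem
          (Finset.mem_image_of_mem den hxF')))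
        refine ⟨1, ?_⟩
        rw [pow_one, h1, show den x * c * x = c * (den x * x) by ring]
        exact mul_mem hc (hden3 x)
    exact fun x hxA => hle hxA

end LY
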