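import Pool.Agent.LUV.PerronW

namespace LY

/-- a small element -/
theorem PerronPos_small {r : ℕ} (φ : (Fin r → ℤ) →+ ℝ) (hφ : Function.Injective φ) (hr : 0 < r)
    (T : Finset (Fin r → ℤ)) : ∃ c, 0 < φ c ∧ ∀ a ∈ T, 0 < φ a → φ c ≤ φ a := by
  classical
  rcases AddSubgroup.dense_or_cyclic φ.range with hd | ⟨g, hg⟩
  · obtain ⟨ε, hε, hT⟩ : ∃ ε : ℝ, 0 < ε ∧ ∀ a ∈ T, 0 < φ a → ε ≤ φ a := by
      induction T using Finset.induction_on with
      | empty => exact ⟨1, one_pos, by simp⟩
      | insert b T _ ih =>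
        obtain ⟨ε, hε, hT⟩ := ih
        by_cases hb : 0 < φ b
        · refine ⟨min ε (φ b), lt_min hε hb, fun a ha h => ?_⟩
          rcases Finset.mem_insert.1 ha with rfl | ha
          · exact min_le_right _ _
          · exact (min_le_left _ _).trans (hT a ha h)
        · refine ⟨ε, hε, fun a ha h => ?_⟩
          rcases Finset.mem_insert.1 ha with rfl | ha
          · exact absurd h hb
          · exact hT a ha h
    obtain ⟨x, hx, h0, h1⟩ := hd.exists_between hε
    obtain ⟨c, hc⟩ := hx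
    refine ⟨c, by rw [hc]; exact h0, fun a ha h => ?_⟩
    rw [hc]
    exact h1.le.trans (hT a ha h)
  · have hg0 : g ≠ 0 := by
      rintro rfl
      have h1 : φ (Pi.single ⟨0, hr⟩ 1) ∈ φ.range := ⟨_, rfl⟩
      rw [hg, AddSubgroup.mem_closure_singleton] at h1
      obtain ⟨k, hk⟩ := h1
      rw [smul_zero] at hk
      have h2 : (Pi.single (⟨0, hr⟩ : Fin r) 1 : Fin r → ℤ) = 0 :=
        hφ (hk.symm.trans (map_zero φ).symm)
      have h3 := congrFun h2 ⟨0, hr⟩
      rw [Pi.single_eq_same] at h3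
      exact one_ne_zero h3
    obtain ⟨d, hd⟩ : g ∈ φ.range := by
      rw [hg]
      exact AddSubgroup.mem_closure_singleton_self g
    obtain ⟨c, hc⟩ : ∃ c, φ c = |g| := by
      rcases abs_choice g with h | h
      · exact ⟨d, by rw [h, hd]⟩
      · exact ⟨-d, by rw [h, map_neg, hd]⟩
    refine ⟨c, by rw [hc]; exact abs_pos.2 hg0, fun a _ h => ?_⟩
    have h1 : φ a ∈ φ.range := ⟨a, rfl⟩
    rw [hg, AddSubgroup.mem_closure_singleton] at h1
    obtain ⟨k, hk⟩ := h1
    have hk0 : k ≠ 0 := by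
      rintro rfl
      rw [zero_smul] at hk
      rw [← hk] at h
      exact lt_irrefl _ h
    have h2 : (1 : ℝ) ≤ |(k : ℝ)| := by
      have : (1 : ℤ) ≤ |k| := Int.one_le_abs hk0
      exact_mod_cast this
    rw [hc, ← abs_of_pos h, ← hk, zsmul_eq_mul, abs_mul]
    exact le_mul_of_one_le_left (abs_nonneg g) h2

/-- small generators -/
theorem PerronPos_gen {r : ℕ} (φ : (Fin r → ℤ) →+ ℝ) {c : Fin r → ℤ} (hc : 0 < φ c) :
    ∃ C : Finset (Fin r → ℤ), (∀ d ∈ C, 0 ≤ φ d ∧ φ d ≤ φ c) ∧
      ∀ b : Module.Basis (Fin r) ℤ (Fin r → ℤ), ∀ i, ∃ d ∈ C, b.repr d i ≠ 0 := by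
  classical
  let f : Fin r → (Fin r → ℤ) := fun j =>
    (Pi.single j 1 : Fin r → ℤ) - ⌊φ (Pi.single j 1) / φ c⌋ • c
  refine ⟨insert c (Finset.univ.image f), fun d hd => ?_, fun b i => ?_⟩
  · rcases Finset.mem_insert.1 hd with rfl | hd
    · exact ⟨hc.le, le_rfl⟩
    · obtain ⟨j, -, rfl⟩ := Finset.mem_image.1 hd
      have h1 : φ (f j) = φ (Pi.single j 1) - ⌊φ (Pi.single j 1) / φ c⌋ * φ c := by
        show φ ((Pi.single j 1 : Fin r → ℤ) - ⌊φ (Pi.single j 1) / φ c⌋ • c) = _
        rw [map_sub, map_zsmul, zsmul_eq_mul]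
      have h2 := Int.floor_le (φ (Pi.single j 1) / φ c)
      have h3 := Int.lt_floor_add_one (φ (Pi.single j 1) / φ c)
      rw [le_div_iff₀ hc] at h2
      rw [div_lt_iff₀ hc] at h3
      rw [h1]
      constructor <;> nlinarith
  · by_contra hcon
    push Not at hcon
    have h1 : b.repr c i = 0 := hcon c (Finset.mem_insert_self _ _)
    have h2 : ∀ j, b.repr (Pi.single j 1) i = 0 := by
      intro j
      have h3 := hcon (f j) (Finset.mem_insert_of_mem (Finset.mem_image_of_mem _ (Finset.mem_univ j)))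
      simp only [f, map_sub, map_zsmul, Finsupp.sub_apply, Finsupp.smul_apply, h1, smul_zero,
        sub_zero] at h3
      exact h3
    have h3 : b.coord i = 0 := by
      apply LinearMap.pi_ext'
      intro j
      ext
      simpa using h2 j
    have h4 : b.coord i (b i) = 1 := by simp
    rw [h3] at h4
    simp at h4

/-- Perron's algorithm with strictly positive exponents: finitely many elements of non-negative
weight have non-negative coordinates and those of positive weight have positive coordinates in a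
suitable basis of positive elements. From `LUV.perron_wt`: choose linearly independent `c_1, .., c_r`
of positive weight, smaller than or equal to the weights of the positive elements `a` of `T` (density
of `φ` if `r ≥ 2`, a generator if `r = 1`), and apply it to `T`, the `c_j` and the `a - c_j`; in every
coordinate some `c_j` is positive. -/
theorem perron_pos {r : ℕ} (φ : (Fin r → ℤ) →+ ℝ) (hφ : Function.Injective φ)
    (T : Finset (Fin r → ℤ)) (hT : ∀ a ∈ T, 0 ≤ φ a) :
    ∃ b : Module.Basis (Fin r) ℤ (Fin r → ℤ), (∀ i, 0 < φ (b i)) ∧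
      (∀ a ∈ T, ∀ i, 0 ≤ b.repr a i) ∧ ∀ a ∈ T, 0 < φ a → ∀ i, 1 ≤ b.repr a i := by
  classical
  rcases Nat.eq_zero_or_pos r with rfl | hr
  · obtain ⟨b, h1, h2⟩ := LUV.perron_wt φ hφ T hT
    exact ⟨b, h1, h2, fun a _ _ i => i.elim0⟩
  · obtain ⟨c, hc, hcT⟩ := PerronPos_small φ hφ hr T
    obtain ⟨C, hC, hCb⟩ := PerronPos_gen φ hc
    let D : Finset (Fin r → ℤ) := ((T.filter (fun a => 0 < φ a)) ×ˢ C).image (fun p => p.1 - p.2)
    obtain ⟨b, h1, h2⟩ := LUV.perron_wt φ hφ (T ∪ C ∪ D) (fun a ha => by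
      rcases Finset.mem_union.1 ha with ha | ha
      · rcases Finset.mem_union.1 ha with ha | ha
        · exact hT a ha
        · exact (hC a ha).1
      · obtain ⟨p, hp, rfl⟩ := Finset.mem_image.1 ha
        obtain ⟨hp1, hp2⟩ := Finset.mem_product.1 hp
        obtain ⟨hp3, hp4⟩ := Finset.mem_filter.1 hp1
        rw [map_sub]
        have h3 := (hC _ hp2).2
        have h4 := hcT _ hp3 hp4
        linarith)
    refine ⟨b, h1, fun a ha => h2 a (Finset.mem_union_left _ (Finset.mem_union_left _ ha)),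
      fun a ha hpos i => ?_⟩
    obtain ⟨d, hd, hd0⟩ := hCb b i
    have h3 := h2 d (Finset.mem_union_left _ (Finset.mem_union_right _ hd)) i
    have h4 := h2 (a - d) (Finset.mem_union_right _ (Finset.mem_image.2
      ⟨(a, d), Finset.mem_product.2 ⟨Finset.mem_filter.2 ⟨ha, hpos⟩, hd⟩, rfl⟩)) i
    rw [map_sub, Finsupp.sub_apply] at h4
    omega

end LY
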