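import Pool.Agent.helper90.LY.RelS

open IsLocalRing

namespace LY

universe u

variable {k K : Type u} [Field k] [Field K] [Algebra k K]

/-- denominators in `k[t]` of the elements of `k(t)` -/
theorem RelAdj_den0 {t s : Set K} {x : K} (hx : x ∈ IntermediateField.adjoin k t) :
    ∃ b ∈ Algebra.adjoin k (t ∪ s), b ∈ IntermediateField.adjoin k t ∧ b ≠ 0 ∧
      b * x ∈ Algebra.adjoin k (t ∪ s) := by
  rw [IntermediateField.mem_adjoin_iff_div] at hx
  obtain ⟨r, hr, q, hq, rfl⟩ := hx
  have hle : Algebra.adjoin k t ≤ Algebra.adjoin k (t ∪ s) :=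
    Algebra.adjoin_mono Set.subset_union_left
  by_cases h0 : q = 0
  · refine ⟨1, one_mem _, one_mem _, one_ne_zero, ?_⟩
    rw [h0, div_zero, mul_zero]
    exact zero_mem _
  · refine ⟨q, hle hq, IntermediateField.algebra_adjoin_le_adjoin k t hq, h0, ?_⟩
    rw [mul_div_cancel₀ _ h0]
    exact hle hr

/-- denominators in `k[t]` of the elements of `k(t)[B]` -/
theorem RelAdj_den (t B : Set K) {x : K}
    (hx : x ∈ Algebra.adjoin (IntermediateField.adjoin k t) B) :
    ∃ b ∈ Algebra.adjoin k t, b ≠ 0 ∧ b * x ∈ Algebra.adjoin k (t ∪ B) := by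
  have hle : Algebra.adjoin k t ≤ Algebra.adjoin k (t ∪ B) :=
    Algebra.adjoin_mono Set.subset_union_left
  induction hx using Algebra.adjoin_induction with
  | mem y hy =>
    exact ⟨1, one_mem _, one_ne_zero, by
      rw [one_mul]; exact Algebra.subset_adjoin (Or.inr hy)⟩
  | algebraMap e =>
    obtain ⟨x, hx⟩ := e
    change ∃ b ∈ Algebra.adjoin k t, b ≠ 0 ∧ b * x ∈ Algebra.adjoin k (t ∪ B)
    rw [IntermediateField.mem_adjoin_iff_div] at hx
    obtain ⟨r, hr, q, hq, rfl⟩ := hx
    by_cases h0 : q = 0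
    · refine ⟨1, one_mem _, one_ne_zero, ?_⟩
      rw [h0, div_zero, mul_zero]
      exact zero_mem _
    · refine ⟨q, hq, h0, ?_⟩
      rw [mul_div_cancel₀ _ h0]
      exact hle hr
  | add x y _ _ hx hy =>
    obtain ⟨b, hb1, hb3, hb4⟩ := hx
    obtain ⟨c, hc1, hc3, hc4⟩ := hy
    refine ⟨b * c, mul_mem hb1 hc1, mul_ne_zero hb3 hc3, ?_⟩
    rw [show b * c * (x + y) = c * (b * x) + b * (c * y) by ring]
    exact add_mem (mul_mem (hle hc1) hb4) (mul_mem (hle hb1) hc4)
  | mul x y _ _ hx hy =>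
    obtain ⟨b, hb1, hb3, hb4⟩ := hx
    obtain ⟨c, hc1, hc3, hc4⟩ := hy
    refine ⟨b * c, mul_mem hb1 hc1, mul_ne_zero hb3 hc3, ?_⟩
    rw [show b * c * (x * y) = (b * x) * (c * y) by ring]
    exact mul_mem hb4 hc4

/-- the elements which become elements of `C` after multiplication by a power of `H` -/
def RelAdj_clr (C : Subalgebra k K) (H : K) (hH : H ∈ C) : Subalgebra k K where
  carrier := {z | ∃ e : ℕ, H ^ e * z ∈ C}
  mul_mem' := by
    rintro x y ⟨e, he⟩ ⟨f, hf⟩
    refine ⟨e + f, ?_⟩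
    have h1 : H ^ (e + f) * (x * y) = (H ^ e * x) * (H ^ f * y) := by
      rw [pow_add]
      ring
    rw [h1]
    exact mul_mem he hf
  add_mem' := by
    rintro x y ⟨e, he⟩ ⟨f, hf⟩
    refine ⟨e + f, ?_⟩
    have h1 : H ^ (e + f) * (x + y) = H ^ f * (H ^ e * x) + H ^ e * (H ^ f * y) := by
      rw [pow_add]
      ring
    rw [h1]
    exact add_mem (mul_mem (pow_mem hH f) he) (mul_mem (pow_mem hH e) hf)
  algebraMap_mem' := fun c => ⟨0, by
    rw [pow_zero, one_mul]
    exact C.algebraMap_mem c⟩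

/-- the chart over `k`, containing finitely many prescribed elements of the chart over `k(t)` -/
theorem RelAdj_chart (t : Set K) (ht : t.Finite) (V : ValuationSubring K)
    (A' : Subalgebra (IntermediateField.adjoin k t) K) (hA' : ∀ a ∈ A', a ∈ V) (hfg : A'.FG)
    (hfr : IsFractionRing A' K) (T : Finset K) (hT : ∀ x ∈ T, x ∈ A') :
    ∃ (A : Subalgebra k K) (hle : ∀ a ∈ A, a ∈ A') (hAV : ∀ a ∈ A, a ∈ V), A.FG ∧
      IsFractionRing A K ∧ (∀ x ∈ T, x ∈ A) ∧
      ∃ e : Localization.AtPrime (LU.center V A hAV) ≃+* Localization.AtPrime (LU.center V A' hA'),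
        ∀ a : A, e (algebraMap A _ a) = algebraMap A' _ ⟨a, hle a a.2⟩ := by
  classical
  obtain ⟨s0, hs0⟩ := hfg
  set s : Finset K := s0 ∪ T with hsT
  have hs : Algebra.adjoin (IntermediateField.adjoin k t) (s : Set K) = A' := by
    apply le_antisymm
    · rw [Algebra.adjoin_le_iff]
      intro y hy
      rw [hsT, Finset.coe_union] at hy
      rcases hy with hy | hy
      · rw [← hs0]
        exact Algebra.subset_adjoin hy
      · exact hT y hy
    · rw [← hs0]
      refine Algebra.adjoin_mono ?_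
      rw [hsT, Finset.coe_union]
      exact Set.subset_union_left
  set A : Subalgebra k K := Algebra.adjoin k (t ∪ s) with hA
  have hle : ∀ x ∈ A, x ∈ A' := by
    intro x hx
    have h1 : A ≤ A'.restrictScalars k := by
      rw [hA, Algebra.adjoin_le_iff]
      rintro y (hy | hy)
      · exact A'.algebraMap_mem (⟨y, IntermediateField.subset_adjoin k t hy⟩ : IntermediateField.adjoin k t)
      · change y ∈ A'
        rw [← hs]
        exact Algebra.subset_adjoin hy
    exact h1 hx
  have hAV : ∀ a ∈ A, a ∈ V := fun a ha => hA' a (hle a ha)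
  have hden : ∀ x ∈ A', ∃ b ∈ A, b ∈ IntermediateField.adjoin k t ∧ b ≠ 0 ∧ b * x ∈ A := by
    intro x hx
    rw [← hs] at hx
    induction hx using Algebra.adjoin_induction with
    | mem y hy =>
      exact ⟨1, one_mem _, one_mem _, one_ne_zero, by
        rw [one_mul]; exact Algebra.subset_adjoin (Or.inr hy)⟩
    | algebraMap e => exact RelAdj_den0 e.2
    | add x y _ _ hx hy =>
      obtain ⟨b, hb1, hb2, hb3, hb4⟩ := hx
      obtain ⟨c, hc1, hc2, hc3, hc4⟩ := hy
      refine ⟨b * c, mul_mem hb1 hc1, mul_mem hb2 hc2, mul_ne_zero hb3 hc3, ?_⟩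
      rw [show b * c * (x + y) = c * (b * x) + b * (c * y) by ring]
      exact add_mem (mul_mem hc1 hb4) (mul_mem hb1 hc4)
    | mul x y _ _ hx hy =>
      obtain ⟨b, hb1, hb2, hb3, hb4⟩ := hx
      obtain ⟨c, hc1, hc2, hc3, hc4⟩ := hy
      refine ⟨b * c, mul_mem hb1 hc1, mul_mem hb2 hc2, mul_ne_zero hb3 hc3, ?_⟩
      rw [show b * c * (x * y) = (b * x) * (c * y) by ring]
      exact mul_mem hb4 hc4
  let ι : A →+* A' := (A.val : A →+* K).codRestrict A'.toSubring (fun a => hle a a.2)
  have hι : ∀ a : A, ((ι a : A') : K) = a := fun a => rfl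
  let _ : Algebra A A' := ι.toAlgebra
  have hmap : ∀ a : A, ((algebraMap A A' a : A') : K) = a := hι
  let M : Submonoid A :=
    { carrier := {b | (b : K) ∈ IntermediateField.adjoin k t ∧ (b : K) ≠ 0}
      mul_mem' := fun {a b} ha hb => ⟨by
        rw [show ((a * b : A) : K) = a * b from rfl]; exact mul_mem ha.1 hb.1, by
        rw [show ((a * b : A) : K) = a * b from rfl]; exact mul_ne_zero ha.2 hb.2⟩
      one_mem' := ⟨one_mem _, one_ne_zero⟩ }
  have hloc : IsLocalization M A' := by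
    refine ⟨?_, ?_, ?_⟩
    · rintro ⟨b, hb1, hb2⟩
      rw [isUnit_iff_exists_inv]
      refine ⟨⟨(b : K)⁻¹, A'.algebraMap_mem (⟨(b : K)⁻¹, inv_mem hb1⟩ : IntermediateField.adjoin k t)⟩, ?_⟩
      apply Subtype.ext
      change ((algebraMap A A' b : A') : K) * (b : K)⁻¹ = 1
      rw [hmap, mul_inv_cancel₀ hb2]
    · intro x
      obtain ⟨b, hb1, hb2, hb3, hb4⟩ := hden x x.2
      refine ⟨(⟨b * x, hb4⟩, ⟨⟨b, hb1⟩, hb2, hb3⟩), ?_⟩
      apply Subtype.ext
      change (x : K) * b = b * x
      exact mul_comm _ _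
    · intro x y hxy
      refine ⟨1, ?_⟩
      have h1 : x = y := by
        apply Subtype.ext
        have := congrArg (fun z : A' => (z : K)) hxy
        simpa [hmap] using this
      rw [h1]
  refine ⟨A, hle, hAV, ?_, ?_, ?_, ?_⟩
  · obtain ⟨t', rfl⟩ := ht.exists_finset_coe
    rw [hA, ← Finset.coe_union]
    exact Subalgebra.fg_adjoin_finset _
  · have : FaithfulSMul A K := inferInstance
    refine IsFractionRing.of_field A K fun z => ?_
    obtain ⟨a, b, hb, hab⟩ := IsFractionRing.div_surjective (A := A') z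
    obtain ⟨c, hc1, hc2, hc3, hc4⟩ := hden a a.2
    obtain ⟨e, he1, he2, he3, he4⟩ := hden b b.2
    refine ⟨⟨e * (c * a), mul_mem he1 hc4⟩, ⟨c * (e * b), mul_mem hc1 he4⟩, ?_⟩
    change z = e * (c * a) / (c * (e * b))
    rw [← hab]
    change (a : K) / b = _
    by_cases hb0 : (b : K) = 0
    · rw [hb0]
      simp
    · field_simp
  · intro x hx
    exact Algebra.subset_adjoin (Or.inr (by rw [hsT, Finset.coe_union]; exact Or.inr hx))
  · let P' := LU.center V A' hA'
    have : IsScalarTower A A' (Localization.AtPrime P') := inferInstance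
    have hc : P'.comap (algebraMap A A') = LU.center V A hAV := by
      ext a
      rfl
    have h1 : IsLocalization.AtPrime (Localization.AtPrime P') (P'.comap (algebraMap A A')) :=
      IsLocalization.isLocalization_isLocalization_atPrime_isLocalization M _ P'
    have h2 : IsLocalization.AtPrime (Localization.AtPrime P') (LU.center V A hAV) := by
      convert h1
      exact hc.symm
    let e := IsLocalization.algEquiv (LU.center V A hAV).primeCompl
      (Localization.AtPrime (LU.center V A hAV)) (Localization.AtPrime P')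
    refine ⟨e.toRingEquiv, fun a => ?_⟩
    have h3 : e (algebraMap A _ a) = algebraMap A (Localization.AtPrime P') a := e.commutes a
    exact h3.trans (IsScalarTower.algebraMap_apply A A' (Localization.AtPrime P') a)

/-- Relative strong local uniformization over the field `k(t)` contained in the valuation ring gives
the same over `k` (as `LX.strong_of_adjoin`, store LUX_SubStr.lean; `B' = B ∪ t`; non-zero elements of
`k[t]` are units of `W`, multiply `H` by one of them to get into `k[B']`). -/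
theorem rel_of_adjoin (t : Set K) (ht : t.Finite) (W : ValuationSubring K)
    (htV : ∀ e ∈ IntermediateField.adjoin k t, e ∈ W)
    (h : RelS (IntermediateField.adjoin k t) W) : RelS k W := by
  classical
  obtain ⟨B, hB⟩ := h
  have hset : ((B ∪ ht.toFinset : Finset K) : Set K) = t ∪ B := by
    rw [Finset.coe_union, ht.coe_toFinset, Set.union_comm]
  refine ⟨B ∪ ht.toFinset, fun F hF => ?_⟩
  rw [hset]
  obtain ⟨A', hA', n, s', hfg, hfr, hreg, hdim, hspan, hFA, hmon, H', hH', hH'0, hHmon, hclear⟩ :=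
    hB F hF
  unfold MonS at hmon hHmon
  choose! a N D hN hD hx using hmon
  obtain ⟨aH, NH, DH, hNH, hDH, hxH⟩ := hHmon
  set T : Finset K := (((Finset.univ.image fun i => ((s' i : A') : K)) ∪
    F.filter (fun x => x ∈ W)) ∪
    (F.image (fun x => ((N x : A') : K)) ∪ F.image (fun x => ((D x : A') : K)))) ∪
    ({((NH : A') : K), ((DH : A') : K)} ∪ ht.toFinset) with hTd
  have hT : ∀ x ∈ T, x ∈ A' := by
    intro x hxT
    simp only [hTd, Finset.mem_union, Finset.mem_image, Finset.mem_filter, Finset.mem_univ,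
      true_and, Finset.mem_insert, Finset.mem_singleton, Set.Finite.mem_toFinset] at hxT
    rcases hxT with ((⟨i, rfl⟩ | ⟨h1, h2⟩) | (⟨y, _, rfl⟩ | ⟨y, _, rfl⟩)) | ((rfl | rfl) | h1)
    · exact (s' i).2
    · exact hFA x h1 h2
    · exact (N y).2
    · exact (D y).2
    · exact NH.2
    · exact DH.2
    · exact A'.algebraMap_mem (⟨x, IntermediateField.subset_adjoin k t h1⟩ :
        IntermediateField.adjoin k t)
  obtain ⟨A, hle, hAV, hAfg, hAfr, hTA, e, he⟩ := RelAdj_chart t ht W A' hA' hfg hfr T hT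
  have hs : ∀ i, ((s' i : A') : K) ∈ A := fun i => hTA _ (by
    simp only [hTd, Finset.mem_union, Finset.mem_image, Finset.mem_univ, true_and]
    exact Or.inl (Or.inl (Or.inl ⟨i, rfl⟩)))
  have hNA : ∀ x ∈ F, ((N x : A') : K) ∈ A := fun x hxF => hTA _ (by
    simp only [hTd, Finset.mem_union, Finset.mem_image]
    exact Or.inl (Or.inr (Or.inl ⟨x, hxF, rfl⟩)))
  have hDA : ∀ x ∈ F, ((D x : A') : K) ∈ A := fun x hxF => hTA _ (by
    simp only [hTd, Finset.mem_union, Finset.mem_image]
    exact Or.inl (Or.inr (Or.inr ⟨x, hxF, rfl⟩)))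
  have hNHA : ((NH : A') : K) ∈ A := hTA _ (by
    rw [hTd]
    exact Finset.mem_union_right _ (Finset.mem_union_left _ (Finset.mem_insert_self _ _)))
  have hDHA : ((DH : A') : K) ∈ A := hTA _ (by
    rw [hTd]
    exact Finset.mem_union_right _ (Finset.mem_union_left _
      (Finset.mem_insert_of_mem (Finset.mem_singleton_self _))))
  have htA : Algebra.adjoin k t ≤ A := Algebra.adjoin_le fun x hx => hTA _ (by
    simp only [hTd, Finset.mem_union, Set.Finite.mem_toFinset]
    exact Or.inr (Or.inr hx))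
  have hes : ∀ i, e (algebraMap A _ ⟨(s' i : K), hs i⟩) = algebraMap A' _ (s' i) := fun i => he _
  -- the new denominator
  obtain ⟨S, hS⟩ := hAfg
  have hSA : ∀ x ∈ S, x ∈ A := fun x hx => by
    rw [← hS]
    exact Algebra.subset_adjoin hx
  have hgen : ∀ x ∈ S, ∃ (m : ℕ) (c : K), c ∈ Algebra.adjoin k t ∧ c ≠ 0 ∧
      c * (H' ^ m * x) ∈ Algebra.adjoin k (t ∪ B) := by
    intro x hx
    obtain ⟨m, hm⟩ := hclear x (hle x (hSA x hx))
    obtain ⟨c, h1, h2, h3⟩ := RelAdj_den t B hm
    exact ⟨m, c, h1, h2, h3⟩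
  choose! m c hc hc0 hcx using hgen
  obtain ⟨b0, hb0, hb00, hb0H⟩ := RelAdj_den t B hH'
  have hleB : Algebra.adjoin k t ≤ Algebra.adjoin k (t ∪ B) :=
    Algebra.adjoin_mono Set.subset_union_left
  set b : K := b0 * ∏ x ∈ S, c x with hb
  have hbt : b ∈ Algebra.adjoin k t := mul_mem hb0 (prod_mem fun x hx => hc x hx)
  have hbne : b ≠ 0 := mul_ne_zero hb00 (Finset.prod_ne_zero_iff.2 fun x hx => hc0 x hx)
  have hHB : b * H' ∈ Algebra.adjoin k (t ∪ B) := by
    rw [show b * H' = (∏ x ∈ S, c x) * (b0 * H') by rw [hb]; ring]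
    exact mul_mem (prod_mem fun x hx => hleB (hc x hx)) hb0H
  have hclr : A ≤ RelAdj_clr (Algebra.adjoin k (t ∪ B)) (b * H') hHB := by
    rw [← hS]
    refine Algebra.adjoin_le fun x hx => ⟨m x + 1, ?_⟩
    have h1 : b = b0 * (c x * ∏ y ∈ S.erase x, c y) := by
      rw [hb, Finset.mul_prod_erase S c hx]
    have h2 : (b * H') ^ (m x + 1) * x =
        (c x * (H' ^ m x * x)) * (b0 * H') * (b ^ m x * ∏ y ∈ S.erase x, c y) := by
      rw [mul_pow, pow_succ b, pow_succ H']
      nth_rewrite 2 [h1]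
      ring
    rw [h2]
    exact mul_mem (mul_mem (hcx x hx) hb0H) (mul_mem (pow_mem (hleB hbt) _)
      (prod_mem fun y hy => hleB (hc y (Finset.mem_of_mem_erase hy))))
  have hbL : b ∈ IntermediateField.adjoin k t :=
    IntermediateField.algebra_adjoin_le_adjoin k t hbt
  have hbc : (⟨b, htA hbt⟩ : A) ∉ LU.center W A hAV := by
    intro h1
    have h2 : IsUnit (LU.toV W A hAV ⟨b, htA hbt⟩) := by
      rw [isUnit_iff_exists_inv]
      refine ⟨⟨b⁻¹, htV _ (inv_mem hbL)⟩, ?_⟩
      apply Subtype.ext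
      change b * b⁻¹ = 1
      exact mul_inv_cancel₀ hbne
    exact (mem_nonunits_iff.1 ((mem_maximalIdeal _).1 h1)) h2
  refine ⟨A, hAV, n, fun i => ⟨s' i, hs i⟩, ⟨S, hS⟩, hAfr, ?_, ?_, ?_, ?_, ?_, b * H', hHB,
    mul_ne_zero hbne hH'0, ?_, fun x hx => hclr hx⟩
  · have hreg' : IsRegularLocalRing (Localization.AtPrime (LU.center W A' hA')) := hreg
    exact IsRegularLocalRing.of_ringEquiv (R := Localization.AtPrime (LU.center W A' hA')) e.symm
  · rw [← hdim]
    exact ringKrullDim_eq_of_ringEquiv e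
  · have h1 : Ideal.map e (Ideal.span (Set.range fun i =>
        algebraMap A (Localization.AtPrime (LU.center W A hAV)) ⟨(s' i : K), hs i⟩)) =
        maximalIdeal (Localization.AtPrime (LU.center W A' hA')) := by
      rw [Ideal.map_span, ← Set.range_comp, ← hspan]
      congr 2
      funext i
      exact hes i
    ext z
    have h2 : z ∈ Ideal.span (Set.range fun i =>
        algebraMap A (Localization.AtPrime (LU.center W A hAV)) ⟨(s' i : K), hs i⟩) ↔
        e z ∈ maximalIdeal (Localization.AtPrime (LU.center W A' hA')) := by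
      rw [← h1]
      constructor
      · exact fun hz => Ideal.mem_map_of_mem e hz
      · intro hz
        obtain ⟨y, hy, hyz⟩ := (Ideal.mem_map_of_equiv e _).1 hz
        rwa [← e.injective hyz]
    rw [h2, mem_maximalIdeal, mem_maximalIdeal, mem_nonunits_iff, mem_nonunits_iff,
      MulEquiv.isUnit_map]
  · intro x hxF hxW
    exact hTA x (by
      simp only [hTd, Finset.mem_union, Finset.mem_filter]
      exact Or.inl (Or.inl (Or.inr ⟨hxF, hxW⟩)))
  · intro x hxF
    exact ⟨a x, ⟨N x, hNA x hxF⟩, ⟨D x, hDA x hxF⟩, hN x hxF, hD x hxF, hx x hxF⟩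
  · refine ⟨aH, ⟨b, htA hbt⟩ * ⟨NH, hNHA⟩, ⟨DH, hDHA⟩, ?_, hDH, ?_⟩
    · intro h1
      rcases (inferInstance : (LU.center W A hAV).IsPrime).mem_or_mem h1 with h2 | h2
      · exact hbc h2
      · exact hNH h2
    · change b * H' * (DH : K) = (∏ i, ((s' i : A') : K) ^ aH i) * (b * (NH : K))
      rw [mul_assoc, hxH]
      ring

end LY
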