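import Pool.Agent.helper90.LY.Constr

open Polynomial

namespace LY

universe u

variable {k K M : Type u} [Field k] [Field K] [Field M] [Algebra k K] [Algebra k M] [Algebra K M]
  [IsScalarTower k K M]

omit [Field M] [Algebra k M] [Algebra K M] [IsScalarTower k K M] in
theorem ConstrB.aeval_mem (A₀ : Subalgebra k K) {a : K} (ha : a ∈ A₀) (P : k[X]) :
    aeval a P ∈ A₀ := by
  have h1 : Algebra.adjoin k {a} ≤ A₀ := Algebra.adjoin_le (Set.singleton_subset_iff.2 ha)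
  exact h1 (aeval_mem_adjoin_singleton k a)

omit [Field M] [Algebra k M] [Algebra K M] [IsScalarTower k K M] in
theorem ConstrB.dom (A₀ : Subalgebra k K) (H₀ : K) (hH₀ : H₀ ∈ A₀) (S : Set K)
    (hS : ∀ x ∈ S, H₀ * x ∈ A₀) : ∀ x ∈ A₀ ⊔ Algebra.adjoin k S, ∃ e : ℕ, H₀ ^ e * x ∈ A₀ := by
  intro x hx
  have h0 : A₀ ⊔ Algebra.adjoin k S = Algebra.adjoin k ((A₀ : Set K) ∪ S) := by
    rw [Algebra.adjoin_union, Algebra.adjoin_eq]
  rw [h0] at hx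
  induction hx using Algebra.adjoin_induction with
  | mem x hx =>
    rcases hx with hx | hx
    · exact ⟨0, by rw [pow_zero, one_mul]; exact hx⟩
    · exact ⟨1, by rw [pow_one]; exact hS x hx⟩
  | algebraMap c => exact ⟨0, by rw [pow_zero, one_mul]; exact A₀.algebraMap_mem c⟩
  | add x y _ _ h1 h2 =>
    obtain ⟨e1, h1⟩ := h1
    obtain ⟨e2, h2⟩ := h2
    refine ⟨e1 + e2, ?_⟩
    have h3 : H₀ ^ (e1 + e2) * (x + y) = H₀ ^ e2 * (H₀ ^ e1 * x) + H₀ ^ e1 * (H₀ ^ e2 * y) := by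
      ring
    rw [h3]
    exact add_mem (mul_mem (pow_mem hH₀ _) h1) (mul_mem (pow_mem hH₀ _) h2)
  | mul x y _ _ h1 h2 =>
    obtain ⟨e1, h1⟩ := h1
    obtain ⟨e2, h2⟩ := h2
    refine ⟨e1 + e2, ?_⟩
    have h3 : H₀ ^ (e1 + e2) * (x * y) = (H₀ ^ e1 * x) * (H₀ ^ e2 * y) := by
      ring
    rw [h3]
    exact mul_mem h1 h2

/-- As `constr` (store LUY_Constr.lean, helper60), with the element `H₀` given in advance and
domination of the new chart: `A₁ ⊆ A₀[1/H₀]`. -/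
theorem constrB (W : ValuationSubring K) (W₁ : ValuationSubring M)
    (hWW : ∀ x : K, algebraMap K M x ∈ W₁ ↔ x ∈ W) (hk : ∀ c : k, algebraMap k M c ∈ W₁)
    (P : k[X]) (hP : P.Separable) (θ : M) (hθ : aeval θ P = 0) (a : K)
    (hne : algebraMap K M a ≠ θ) (hlt : W₁.valuation (algebraMap K M a - θ) < 1)
    (A₀ : Subalgebra k K) (hfg : A₀.FG) (ha : a ∈ A₀) (hA₀ : ∀ x ∈ A₀, x ∈ W)
    (A : Subalgebra k M) (hA : ∀ x ∈ A, x ∈ W₁) (G : Finset M)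
    (hG : A = lft θ A₀ ⊔ Algebra.adjoin k (G : Set M)) (H : M) (hH : H ∈ lft θ A₀) (hH0 : H ≠ 0)
    (hHG : ∀ g ∈ G, H * g ∈ lft θ A₀) (N : ℕ) (ρ : M) (hρ : ρ ∈ oc W₁ A)
    (hρ1 : W₁.valuation ρ < 1) (hπ : (algebraMap K M a - θ) ^ N = H * ρ)
    (H₀ : K) (hH₀ : H₀ ∈ A₀) (L : ℕ) (hL : 2 * N ≤ L) (y₀ : M) (hy₀ : y₀ ∈ lft θ A₀)
    (hH₀H : algebraMap K M H₀ = H + (algebraMap K M a - θ) ^ L * y₀) :
    ∃ A₁ : Subalgebra k K, A₁.FG ∧ A₀ ≤ A₁ ∧ (∀ x ∈ A₁, x ∈ W) ∧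
      oc W₁ (lft θ A₁) = oc W₁ A ∧ ∀ x ∈ A₁, ∃ e : ℕ, H₀ ^ e * x ∈ A₀ := by
  classical
  have hBA : lft θ A₀ ≤ A := by
    rw [hG]
    exact le_sup_left
  have hBW : ∀ x ∈ lft θ A₀, x ∈ W₁ := fun x hx => hA x (hBA hx)
  have hBo : ∀ x ∈ lft θ A₀, x ∈ oc W₁ A := fun x hx => le_oc W₁ A (hBA hx)
  set π := algebraMap K M a - θ with hπd
  have hπB : π ∈ lft θ A₀ := sub_mem (mem_lft θ A₀ ha) (self_mem_lft θ A₀)
  have hπ0 : π ≠ 0 := sub_ne_zero.2 hne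
  obtain ⟨Q, hQB, hPQ, hQ1⟩ := Constr.factor W₁ P hP θ hθ a hlt A₀ ha hBW
  have hQ0 : Q ≠ 0 := by
    rintro rfl
    rw [map_zero] at hQ1
    exact zero_ne_one hQ1
  -- approximations
  obtain ⟨m, hm⟩ := Nat.exists_eq_add_of_le hL
  have e₀ : algebraMap K M H₀ = H + π ^ (N + N) * (π ^ m * y₀) := by
    rw [hH₀H, hm, ← mul_assoc, ← pow_add]
    congr 3
    omega
  replace hy₀ : π ^ m * y₀ ∈ lft θ A₀ := mul_mem (pow_mem hπB m) hy₀
  clear hH₀H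
  generalize π ^ m * y₀ = y₀ at e₀ hy₀
  choose! c hc y hy ec using fun (g : M) (hg : g ∈ G) =>
    Constr.approxK P hP θ hθ a A₀ ha (hHG g hg) (N + N)
  rw [← hπd] at hPQ
  simp only [← hπd] at ec
  obtain ⟨hu, hu1, hu0⟩ := Constr.unit W₁ A hA
    (mul_mem (pow_mem (hBo π hπB) N) (hBo y₀ hy₀)) hρ hρ1
  set w := 1 + ρ * (π ^ N * y₀) with hw
  have eH : algebraMap K M H₀ = H * w := by
    rw [e₀, pow_add, hπ, hw, hπ]
    ring
  have hH₀0 : algebraMap K M H₀ ≠ 0 := by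
    rw [eH]
    exact mul_ne_zero hH0 hu0
  have hwi : w⁻¹ ∈ oc W₁ A := oc_inv W₁ hu hu1
  have e1 : ∀ g ∈ G, algebraMap K M (c g / H₀) = (g + ρ * (π ^ N * y g)) * w⁻¹ := by
    intro g hg
    rw [map_div₀, ec g hg, eH, pow_add, hπ]
    field_simp
  have e2 : algebraMap K M (aeval a P ^ N / H₀) = ρ * Q ^ N * w⁻¹ := by
    rw [map_div₀, map_pow, ← aeval_algebraMap_apply, hPQ, eH, mul_pow, hπ]
    field_simp
  set A₁ : Subalgebra k K := A₀ ⊔ Algebra.adjoin k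
    (insert (aeval a P ^ N / H₀) ((fun g => c g / H₀) '' (G : Set M))) with hA₁
  have hmem1 : aeval a P ^ N / H₀ ∈ A₁ :=
    (le_sup_right : _ ≤ A₁) (Algebra.subset_adjoin (Set.mem_insert _ _))
  have hmem2 : ∀ g ∈ G, c g / H₀ ∈ A₁ := fun g hg =>
    (le_sup_right : _ ≤ A₁) (Algebra.subset_adjoin (Set.mem_insert_of_mem _ ⟨g, hg, rfl⟩))
  have hle : A₁ ≤ (oc W₁ A).comap (IsScalarTower.toAlgHom k K M) := by
    rw [hA₁]
    refine sup_le (fun x hx => ?_) (Algebra.adjoin_le ?_)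
    · exact hBo _ (mem_lft θ A₀ hx)
    · rintro x (rfl | ⟨g, hg, rfl⟩)
      · show algebraMap K M (aeval a P ^ N / H₀) ∈ oc W₁ A
        rw [e2]
        exact mul_mem (mul_mem hρ (pow_mem (hBo Q hQB) N)) hwi
      · show algebraMap K M (c g / H₀) ∈ oc W₁ A
        rw [e1 g hg]
        have hg' : g ∈ oc W₁ A := by
          refine le_oc W₁ A ?_
          rw [hG]
          exact (le_sup_right : Algebra.adjoin k (G : Set M) ≤ _) (Algebra.subset_adjoin hg)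
        exact mul_mem (add_mem hg' (mul_mem hρ (mul_mem (pow_mem (hBo π hπB) N)
          (hBo _ (hy g hg))))) hwi
  have hA₀₁ : A₀ ≤ A₁ := le_sup_left
  refine ⟨A₁, ?_, hA₀₁, fun x hx => ?_, ?_, fun x hx => ?_⟩
  · refine hfg.sup ?_
    have hfin : (insert (aeval a P ^ N / H₀) ((fun g => c g / H₀) '' (G : Set M))).Finite :=
      (G.finite_toSet.image _).insert _
    exact ⟨hfin.toFinset, by rw [hfin.coe_toFinset]⟩
  · rw [← hWW]
    exact oc_mem W₁ hA _ (hle hx)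
  · refine le_antisymm (oc_le W₁ ?_) (oc_le W₁ ?_)
    · refine sup_le ?_ (Algebra.adjoin_le ?_)
      · rintro _ ⟨x, hx, rfl⟩
        exact hle hx
      · rintro x hx
        rw [Set.mem_singleton_iff.1 hx]
        exact hBo θ (self_mem_lft θ A₀)
    · have hBo' : ∀ x ∈ lft θ A₀, x ∈ oc W₁ (lft θ A₁) := fun x hx =>
        le_oc W₁ _ (lft_mono θ hA₀₁ hx)
      have h1 : π ^ N / algebraMap K M H₀ ∈ oc W₁ (lft θ A₁) := by
        have h2 : π ^ N / algebraMap K M H₀ = algebraMap K M (aeval a P ^ N / H₀) * (Q ^ N)⁻¹ := by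
          rw [map_div₀, map_pow, ← aeval_algebraMap_apply, hPQ, mul_pow]
          field_simp
        rw [h2]
        refine mul_mem (le_oc W₁ _ (mem_lft θ A₁ hmem1)) (oc_inv W₁ (pow_mem (hBo' Q hQB) N) ?_)
        rw [map_pow, hQ1, one_pow]
      have h3 : w⁻¹ ∈ oc W₁ (lft θ A₁) := by
        have h4 : w⁻¹ = 1 - y₀ * π ^ N * (π ^ N / algebraMap K M H₀) := by
          have h5 : H = algebraMap K M H₀ - π ^ (N + N) * y₀ := by
            rw [e₀]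
            ring
          have h6 : w⁻¹ = H / algebraMap K M H₀ := by
            rw [eH]
            field_simp
          rw [h6]
          nth_rewrite 1 [h5]
          rw [pow_add]
          field_simp
        rw [h4]
        exact sub_mem (one_mem _) (mul_mem (mul_mem (hBo' _ hy₀) (pow_mem (hBo' _ hπB) N)) h1)
      have h4 : w ∈ oc W₁ (lft θ A₁) := by
        have h5 : W₁.valuation w⁻¹ = 1 := by rw [map_inv₀, hu1, inv_one]
        have h6 := oc_inv W₁ h3 h5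
        rwa [inv_inv] at h6
      rw [hG]
      refine sup_le (fun x hx => hBo' x hx) (Algebra.adjoin_le ?_)
      intro g hg
      have h5 : g = (algebraMap K M (c g / H₀) - y g * π ^ N * (π ^ N / algebraMap K M H₀)) * w := by
        have h6 : H * g = algebraMap K M (c g) - π ^ (N + N) * y g := by
          rw [ec g hg]
          ring
        rw [map_div₀, eH]
        have h7 : g = (H * g) / H := by field_simp
        nth_rewrite 1 [h7]
        rw [h6, pow_add]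
        field_simp
      rw [h5]
      exact mul_mem (sub_mem (le_oc W₁ _ (mem_lft θ A₁ (hmem2 g hg)))
        (mul_mem (mul_mem (hBo' _ (hy g hg)) (pow_mem (hBo' _ hπB) N)) h1)) h4
  · have hH₀K : H₀ ≠ 0 := by
      rintro rfl
      exact hH₀0 (map_zero _)
    exact ConstrB.dom A₀ H₀ hH₀ _ (by
      rintro x (rfl | ⟨g, hg, rfl⟩)
      · rw [mul_div_cancel₀ _ hH₀K]
        have h1 : aeval a P ∈ A₀ := ConstrB.aeval_mem A₀ ha P
        exact pow_mem h1 N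
      · rw [mul_div_cancel₀ _ hH₀K]
        exact hc g hg) x hx

/-- As `approx_chart`, with the given `H₀`. -/
theorem approx_chartB (W : ValuationSubring K) (W₁ : ValuationSubring M)
    (hWW : ∀ x : K, algebraMap K M x ∈ W₁ ↔ x ∈ W) (hk : ∀ c : k, algebraMap k M c ∈ W₁)
    (P : k[X]) (hP : P.Separable) (θ : M) (hθ : aeval θ P = 0) (a : K)
    (hne : algebraMap K M a ≠ θ) (hlt : W₁.valuation (algebraMap K M a - θ) < 1)
    (A₀ : Subalgebra k K) (ha : a ∈ A₀) (hA₀ : ∀ x ∈ A₀, x ∈ W)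
    (A : Subalgebra k M) (hA : ∀ x ∈ A, x ∈ W₁) (hAA : lft θ A₀ ≤ A) (H : M)
    (hH : H ∈ lft θ A₀) (hH0 : H ≠ 0) (N : ℕ) (ρ : M) (hρ : ρ ∈ oc W₁ A)
    (hρ1 : W₁.valuation ρ < 1) (hπ : (algebraMap K M a - θ) ^ N = H * ρ)
    (z : M) (hz : z ∈ A) (e : ℕ) (hez : H ^ e * z ∈ lft θ A₀) (n : ℕ)
    (H₀ : K) (hH₀ : H₀ ∈ A₀) (L : ℕ) (hL : N * (e + 1) + n ≤ L) (y₀ : M) (hy₀ : y₀ ∈ lft θ A₀)
    (hH₀H : algebraMap K M H₀ = H + (algebraMap K M a - θ) ^ L * y₀) :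
    ∃ (z' : K) (y : M), y ∈ oc W₁ A ∧
      algebraMap K M z' = z + (algebraMap K M a - θ) ^ n * y ∧ H₀ ^ e * z' ∈ A₀ := by
  have hBo : ∀ x ∈ lft θ A₀, x ∈ oc W₁ A := fun x hx => le_oc W₁ A (hAA hx)
  set π := algebraMap K M a - θ with hπd
  have hπB : π ∈ lft θ A₀ := sub_mem (mem_lft θ A₀ ha) (self_mem_lft θ A₀)
  obtain ⟨m, hm⟩ := Nat.exists_eq_add_of_le hL
  have e₀ : algebraMap K M H₀ = H + π ^ (N + n) * (π ^ (N * e + m) * y₀) := by
    rw [hH₀H, hm, ← mul_assoc, ← pow_add]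
    congr 3
    ring
  replace hy₀ : π ^ (N * e + m) * y₀ ∈ lft θ A₀ := mul_mem (pow_mem hπB _) hy₀
  clear hH₀H
  generalize π ^ (N * e + m) * y₀ = y₀ at e₀ hy₀
  obtain ⟨c, hc, y₁, hy₁, e₁⟩ := Constr.approxK P hP θ hθ a A₀ ha hez (N * e + n)
  rw [← hπd] at e₁
  obtain ⟨hu, hu1, hu0⟩ := Constr.unit W₁ A hA
    (mul_mem (pow_mem (hBo π hπB) n) (hBo y₀ hy₀)) hρ hρ1
  set w := 1 + ρ * (π ^ n * y₀) with hw
  have eH : algebraMap K M H₀ = H * w := by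
    rw [e₀, pow_add, hπ, hw]
    ring
  have hwi : w⁻¹ ∈ oc W₁ A := oc_inv W₁ hu hu1
  refine ⟨c / H₀ ^ e, (ρ ^ e * y₁ - z * (∑ i ∈ Finset.range e, w ^ i) * (ρ * y₀)) * w⁻¹ ^ e,
    ?_, ?_, ?_⟩
  · refine mul_mem (sub_mem (mul_mem (pow_mem hρ e) (hBo _ hy₁)) (mul_mem (mul_mem
      (le_oc W₁ A hz) (sum_mem fun i _ => pow_mem hu i)) (mul_mem hρ (hBo _ hy₀)))) (pow_mem hwi e)
  · have h1 : (w - 1) * ∑ i ∈ Finset.range e, w ^ i = w ^ e - 1 := mul_geom_sum w e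
    have h2 : w - 1 = ρ * (π ^ n * y₀) := by
      rw [hw]
      ring
    rw [h2] at h1
    have h3 : algebraMap K M (c / H₀ ^ e) = (z + π ^ n * (ρ ^ e * y₁)) * w⁻¹ ^ e := by
      rw [map_div₀, map_pow, e₁, eH, mul_pow, pow_add, pow_mul, hπ, mul_pow, inv_pow]
      field_simp
    rw [h3]
    have h4 : w ^ e * w⁻¹ ^ e = 1 := by rw [← mul_pow, mul_inv_cancel₀ hu0, one_pow]
    have h5 : z * (w ^ e * w⁻¹ ^ e) = z := by rw [h4, mul_one]
    linear_combination (z * w⁻¹ ^ e) * h1 + h5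
  · have hH₀K : H₀ ≠ 0 := by
      rintro rfl
      rw [map_zero] at eH
      exact mul_ne_zero hH0 hu0 eH.symm
    rw [mul_div_cancel₀ _ (pow_ne_zero e hH₀K)]
    exact hc

end LY
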