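import Pool.Agent.helper90.LY.Lift

open Polynomial

namespace LY

universe u

variable {k K M : Type u} [Field k] [Field K] [Field M] [Algebra k K] [Algebra k M] [Algebra K M]
  [IsScalarTower k K M]

/-- Heights do not increase under the contraction along an integral ring homomorphism: the height
of a prime is at most the height of its contraction. -/
theorem DescDim.height_le_comap {R S : Type*} [CommRing R] [CommRing S] (f : R →+* S)
    (hf : f.IsIntegral) (q : Ideal S) [q.IsPrime] (p : Ideal R) [p.IsPrime]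
    (hp : q.comap f = p) : q.height ≤ p.height := by
  let : Algebra R S := f.toAlgebra
  have : Algebra.IsIntegral R S := ⟨hf⟩
  have hmono : StrictMono (PrimeSpectrum.comap f) := by
    intro I J hIJ
    have h1 : I.asIdeal < J.asIdeal := hIJ
    have h2 := Ideal.IsIntegral.comap_lt_comap (R := R) h1
    exact h2
  have h3 := Order.height_le_height_apply_of_strictMono _ hmono
    (⟨q, inferInstance⟩ : PrimeSpectrum S)
  have h4 : PrimeSpectrum.comap f ⟨q, inferInstance⟩ =
      (⟨p, inferInstance⟩ : PrimeSpectrum R) := by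
    ext1
    exact hp
  rw [h4, ← PrimeSpectrum.height_eq_orderHeight, ← PrimeSpectrum.height_eq_orderHeight] at h3
  exact h3

/-- The inclusion `A → A[θ]`. -/
def DescDim.inc (θ : M) (A : Subalgebra k K) : A →+* lft θ A :=
  ((IsScalarTower.toAlgHom k K M).toRingHom.comp (A.val : A →+* K)).codRestrict
    (lft θ A) (fun a => mem_lft θ A a.2)

theorem DescDim.coe_inc (θ : M) (A : Subalgebra k K) (a : A) :
    ((DescDim.inc θ A a : lft θ A) : M) = algebraMap K M (a : K) := rfl

theorem DescDim.inc_integral (θ : M) (A : Subalgebra k K) (P : k[X]) (hP : P ≠ 0)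
    (h : aeval θ P = 0) : (DescDim.inc θ A).IsIntegral := by
  have hθ : IsIntegral k θ := by
    rw [← isAlgebraic_iff_isIntegral]
    exact ⟨P, hP, h⟩
  have hle : ∀ y ∈ lft θ A, ((algebraMap K M).comp (A.val : A →+* K)).IsIntegralElem y := by
    intro y hy
    have : IsScalarTower k A M := IsScalarTower.of_algebraMap_eq (R := k) (S := A) (A := M)
      (fun c => IsScalarTower.algebraMap_apply k K M c)
    have hsub : lft θ A ≤ (integralClosure A M).restrictScalars k := by
      refine sup_le ?_ ?_
      · rintro _ ⟨a, ha, rfl⟩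
        exact isIntegral_algebraMap (R := A) (A := M) (x := ⟨a, ha⟩)
      · refine Algebra.adjoin_le ?_
        intro z hz
        rw [Set.mem_singleton_iff] at hz
        subst hz
        exact hθ.tower_top
    exact hsub hy
  rintro ⟨y, hy⟩
  obtain ⟨p, hp, hp0⟩ := hle y hy
  refine ⟨p, hp, ?_⟩
  apply Subtype.ext
  have h1 := Polynomial.hom_eval₂ p (DescDim.inc θ A) ((lft θ A).val : lft θ A →+* M) ⟨y, hy⟩
  have h2 : ((lft θ A).val : lft θ A →+* M).comp (DescDim.inc θ A) =
      (algebraMap K M).comp (A.val : A →+* K) := rfl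
  rw [h2] at h1
  exact h1.trans hp0

theorem DescDim.mem_center {k K : Type*} [Field k] [Field K] [Algebra k K]
    (W : ValuationSubring K) (A : Subalgebra k K) (h : ∀ a ∈ A, a ∈ W)
    (a : A) : a ∈ LU.center W A h ↔ W.valuation (a : K) < 1 := by
  change LU.toV W A h a ∈ IsLocalRing.maximalIdeal W ↔ _
  rw [W.valuation_lt_one_iff]
  rfl

theorem DescDim.comap_center (W : ValuationSubring K) (W₁ : ValuationSubring M)
    (hWW : ∀ x : K, algebraMap K M x ∈ W₁ ↔ x ∈ W) (θ : M) (A : Subalgebra k K)
    (hA : ∀ a ∈ A, a ∈ W) (hA₁ : ∀ a ∈ lft θ A, a ∈ W₁) :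
    (LU.center W₁ (lft θ A) hA₁).comap (DescDim.inc θ A) = LU.center W A hA := by
  ext a
  rw [Ideal.mem_comap, DescDim.mem_center, DescDim.mem_center, DescDim.coe_inc,
    ← ValuationSubring.mem_nonunits_iff, ← ValuationSubring.mem_nonunits_iff,
    ValuationSubring.mem_nonunits_iff_or, ValuationSubring.mem_nonunits_iff_or,
    ← map_inv₀, hWW, map_eq_zero]

/-- `A[θ]` is integral over `A`, so the height of the centre does not increase by going up (strict
chains of primes of `A[θ]` contract to strict chains of `A`). -/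
theorem desc_dim (W : ValuationSubring K) (W₁ : ValuationSubring M)
    (hWW : ∀ x : K, algebraMap K M x ∈ W₁ ↔ x ∈ W) (θ : M) (A : Subalgebra k K)
    (hA : ∀ a ∈ A, a ∈ W) (hA₁ : ∀ a ∈ lft θ A, a ∈ W₁) (P : k[X]) (hP : P ≠ 0)
    (h : aeval θ P = 0) :
    ringKrullDim (Localization.AtPrime (LU.center W₁ (lft θ A) hA₁)) ≤
      ringKrullDim (Localization.AtPrime (LU.center W A hA)) := by
  rw [IsLocalization.AtPrime.ringKrullDim_eq_height (LU.center W₁ (lft θ A) hA₁),
    IsLocalization.AtPrime.ringKrullDim_eq_height (LU.center W A hA)]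
  exact WithBot.coe_le_coe.2 (DescDim.height_le_comap (DescDim.inc θ A)
    (DescDim.inc_integral θ A P hP h) _ _ (DescDim.comap_center W W₁ hWW θ A hA hA₁))

end LY
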