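import Mathlib

open Polynomial

namespace LY

/-- one step of the iteration, in a ring -/
theorem Newton_step {k C : Type*} [Field k] [CommRing C] [Algebra k C] (P β : k[X])
    (t θ : C) (h : aeval θ P = 0) (hb : aeval θ β * aeval θ (derivative P) = 1) :
    ∃ w : C, t - aeval t β * aeval t P - θ = (t - θ) ^ 2 * w := by
  obtain ⟨q, hq⟩ := Polynomial.binomExpansion (P.map (algebraMap k C)) θ (t - θ)
  obtain ⟨z, hz⟩ := Polynomial.evalSubFactor (β.map (algebraMap k C)) t θ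
  simp only [eval_map_algebraMap, derivative_map, add_sub_cancel] at hq hz
  refine ⟨-(aeval θ β * q + z * aeval θ (derivative P) + z * q * (t - θ)), ?_⟩
  have h1 : aeval t β = aeval θ β + z * (t - θ) := by linear_combination hz
  rw [h1, hq, h]
  linear_combination (-(t - θ)) * hb

theorem Newton_mem {k C : Type*} [Field k] [CommRing C] [Algebra k C] (f : k[X])
    (S : Subalgebra k C) {t : C} (ht : t ∈ S) : aeval t f ∈ S :=
  (Algebra.adjoin_le (by simpa using ht) : Algebra.adjoin k {t} ≤ S)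
    (aeval_mem_adjoin_singleton k t)

theorem Newton_ring {k C : Type*} [Field k] [CommRing C] [Algebra k C] (P : k[X])
    (hP : P.Separable) (a θ : C) (h : aeval θ P = 0) (N : ℕ) :
    ∃ t ∈ Algebra.adjoin k {a}, ∃ y : C, t - θ = (a - θ) ^ N * y := by
  obtain ⟨α, β, hab⟩ := hP
  have hb : aeval θ β * aeval θ (derivative P) = 1 := by
    have h1 := congrArg (aeval θ) hab
    simpa [h] using h1
  have ha : a ∈ Algebra.adjoin k {a} := Algebra.self_mem_adjoin_singleton k a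
  have main : ∀ N : ℕ, ∃ t ∈ Algebra.adjoin k {a}, ∃ y : C, t - θ = (a - θ) ^ (N + 1) * y := by
    intro N
    induction N with
    | zero => exact ⟨a, ha, 1, by ring⟩
    | succ N ih =>
      obtain ⟨t, ht, y, hty⟩ := ih
      obtain ⟨w, hw⟩ := Newton_step P β t θ h hb
      refine ⟨t - aeval t β * aeval t P, ?_, (a - θ) ^ N * y ^ 2 * w, ?_⟩
      · exact sub_mem ht (mul_mem (Newton_mem _ _ ht) (Newton_mem _ _ ht))
      · rw [hw, hty]
        ring
  obtain ⟨t, ht, y, hty⟩ := main N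
  exact ⟨t, ht, (a - θ) * y, by rw [hty]; ring⟩

/-- Newton iteration without denominators: `1 = α P + β P'`, `t ↦ t - β(t) P(t)`; in `k[θ][X]` the
polynomial `X - θ - β(X) P(X)` is divisible by `(X - θ)^2`. -/
theorem newton {k R : Type*} [Field k] [CommRing R] [Algebra k R] (P : k[X]) (hP : P.Separable)
    (a θ : R) (h : aeval θ P = 0) (N : ℕ) :
    ∃ t ∈ Algebra.adjoin k {a}, ∃ y ∈ Algebra.adjoin k {a, θ}, t - θ = (a - θ) ^ N * y := by
  set C := Algebra.adjoin k {a, θ} with hC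
  have ha : a ∈ C := Algebra.subset_adjoin (by simp)
  have hθ : θ ∈ C := Algebra.subset_adjoin (by simp)
  have h' : aeval (⟨θ, hθ⟩ : C) P = 0 := by
    apply Subtype.val_injective
    have h1 := aeval_algHom_apply C.val (⟨θ, hθ⟩ : C) P
    have h2 : C.val (⟨θ, hθ⟩ : C) = θ := rfl
    rw [h2, h] at h1
    exact h1.symm
  obtain ⟨t, ht, y, hty⟩ := Newton_ring P hP (⟨a, ha⟩ : C) ⟨θ, hθ⟩ h' N
  refine ⟨(t : R), ?_, (y : R), y.2, ?_⟩
  · have h1 : (Algebra.adjoin k {(⟨a, ha⟩ : C)}).map C.val ≤ Algebra.adjoin k {a} := by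
      rw [AlgHom.map_adjoin]
      apply Algebra.adjoin_mono
      rw [Set.image_singleton]
      exact subset_rfl
    exact h1 ⟨t, ht, rfl⟩
  · have h1 := congrArg (Subtype.val) hty
    simpa using h1

/-- Approximation of the elements of `A[θ]` by elements of `A`, `a ∈ A`. -/
theorem approx {k R : Type*} [Field k] [CommRing R] [Algebra k R] (P : k[X]) (hP : P.Separable)
    (a θ : R) (h : aeval θ P = 0) (A : Subalgebra k R) (ha : a ∈ A) (z : R)
    (hz : z ∈ A ⊔ Algebra.adjoin k {θ}) (N : ℕ) :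
    ∃ t ∈ A, ∃ y ∈ A ⊔ Algebra.adjoin k {θ}, t = z + (a - θ) ^ N * y := by
  have hA : A ≤ A ⊔ Algebra.adjoin k {θ} := le_sup_left
  have hθ : θ ∈ A ⊔ Algebra.adjoin k {θ} :=
    (le_sup_right : Algebra.adjoin k {θ} ≤ A ⊔ Algebra.adjoin k {θ})
      (Algebra.self_mem_adjoin_singleton k θ)
  have he : (a - θ) ^ N ∈ A ⊔ Algebra.adjoin k {θ} := pow_mem (sub_mem (hA ha) hθ) N
  let S : Subalgebra k R :=
    { carrier := {z | z ∈ A ⊔ Algebra.adjoin k {θ} ∧
        ∃ t ∈ A, ∃ y ∈ A ⊔ Algebra.adjoin k {θ}, t = z + (a - θ) ^ N * y}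
      mul_mem' := by
        rintro z1 z2 ⟨h1, t1, ht1, y1, hy1, e1⟩ ⟨h2, t2, ht2, y2, hy2, e2⟩
        refine ⟨mul_mem h1 h2, t1 * t2, mul_mem ht1 ht2,
          y1 * z2 + z1 * y2 + (a - θ) ^ N * (y1 * y2), ?_, ?_⟩
        · exact add_mem (add_mem (mul_mem hy1 h2) (mul_mem h1 hy2)) (mul_mem he (mul_mem hy1 hy2))
        · rw [e1, e2]
          ring
      add_mem' := by
        rintro z1 z2 ⟨h1, t1, ht1, y1, hy1, e1⟩ ⟨h2, t2, ht2, y2, hy2, e2⟩
        refine ⟨add_mem h1 h2, t1 + t2, add_mem ht1 ht2, y1 + y2, add_mem hy1 hy2, ?_⟩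
        rw [e1, e2]
        ring
      algebraMap_mem' := by
        intro c
        exact ⟨Subalgebra.algebraMap_mem _ c, algebraMap k R c, Subalgebra.algebraMap_mem _ c, 0,
          zero_mem _, by ring⟩ }
  have hAS : A ≤ S := fun x hx => ⟨hA hx, x, hx, 0, zero_mem _, by ring⟩
  have hθS : θ ∈ S := by
    obtain ⟨t, ht, y, hy, e⟩ := newton P hP a θ h N
    refine ⟨hθ, t, ?_, y, ?_, by linear_combination e⟩
    · exact (Algebra.adjoin_le (by simpa using ha) : Algebra.adjoin k {a} ≤ A) ht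
    · refine (Algebra.adjoin_le ?_ : Algebra.adjoin k {a, θ} ≤ A ⊔ Algebra.adjoin k {θ}) hy
      rintro x (rfl | rfl)
      · exact hA ha
      · exact hθ
  have hle : A ⊔ Algebra.adjoin k {θ} ≤ S :=
    sup_le hAS (Algebra.adjoin_le (by simpa using hθS))
  exact (hle hz).2

end LY
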