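import Pool.Agent.helper90.LY.Lift
import Pool.Agent.helper90.LY.Newton

open Polynomial

namespace LY

universe u

variable {k K M : Type u} [Field k] [Field K] [Field M] [Algebra k K] [Algebra k M] [Algebra K M]
  [IsScalarTower k K M]

theorem Constr.approxK (P : k[X]) (hP : P.Separable) (θ : M) (hθ : aeval θ P = 0) (a : K)
    (A₀ : Subalgebra k K) (ha : a ∈ A₀) {z : M} (hz : z ∈ lft θ A₀) (L : ℕ) :
    ∃ t ∈ A₀, ∃ y ∈ lft θ A₀, algebraMap K M t = z + (algebraMap K M a - θ) ^ L * y := by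
  obtain ⟨t, ⟨t', ht', rfl⟩, y, hy, h⟩ := approx P hP (algebraMap K M a) θ hθ
    (A₀.map (IsScalarTower.toAlgHom k K M)) ⟨a, ha, rfl⟩ z hz L
  exact ⟨t', ht', y, hy, h⟩

theorem Constr.taylor {R : Type*} [CommRing R] [Algebra k R] (P : k[X]) (x y : R) :
    ∃ q : R, aeval (x + y) P = aeval x P + aeval x (derivative P) * y + q * y ^ 2 := by
  obtain ⟨q, hq⟩ := (P.map (algebraMap k R)).binomExpansion x y
  refine ⟨q, ?_⟩
  rw [Polynomial.derivative_map] at hq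
  simp only [Polynomial.eval_map, ← aeval_def] at hq
  exact hq

/-- `P(a) = (a - θ) Q(a)` with `Q(a)` of value one -/
theorem Constr.factor (W₁ : ValuationSubring M) (P : k[X]) (hP : P.Separable) (θ : M)
    (hθ : aeval θ P = 0) (a : K) (hlt : W₁.valuation (algebraMap K M a - θ) < 1)
    (A₀ : Subalgebra k K) (ha : a ∈ A₀) (hB : ∀ x ∈ lft θ A₀, x ∈ W₁) :
    ∃ Q ∈ lft θ A₀, aeval (algebraMap K M a) P = (algebraMap K M a - θ) * Q ∧
      W₁.valuation Q = 1 := by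
  have hθB := self_mem_lft θ A₀
  have hπB : algebraMap K M a - θ ∈ lft θ A₀ := sub_mem (mem_lft θ A₀ ha) hθB
  obtain ⟨q, hq⟩ := Constr.taylor P (⟨θ, hθB⟩ : lft θ A₀) ⟨algebraMap K M a - θ, hπB⟩
  have h1 := congrArg (lft θ A₀).val hq
  rw [← Polynomial.aeval_algHom_apply, map_add, map_add, map_add, map_mul, map_mul, map_pow,
    ← Polynomial.aeval_algHom_apply, ← Polynomial.aeval_algHom_apply] at h1
  simp only [Subalgebra.coe_val, add_sub_cancel, hθ, zero_add] at h1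
  have hp : ∀ p : k[X], aeval θ p ∈ lft θ A₀ := fun p =>
    (le_sup_right : Algebra.adjoin k {θ} ≤ lft θ A₀) (aeval_mem_adjoin_singleton k θ)
  have hd : W₁.valuation (aeval θ (derivative P)) = 1 := by
    obtain ⟨u, v, huv⟩ := hP
    have h2 := congrArg (aeval θ) huv
    rw [map_add, map_mul, map_mul, hθ, mul_zero, zero_add, map_one] at h2
    have h3 := congrArg W₁.valuation h2
    rw [map_mul, map_one] at h3
    have h4 := (W₁.valuation_le_one_iff _).2 (hB _ (hp v))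
    have h5 := (W₁.valuation_le_one_iff _).2 (hB _ (hp (derivative P)))
    refine le_antisymm h5 ?_
    rw [← h3]
    exact mul_le_of_le_one_left' h4
  refine ⟨aeval θ (derivative P) + (q : M) * (algebraMap K M a - θ),
    add_mem (hp _) (mul_mem q.2 hπB), ?_, ?_⟩
  · rw [h1]
    ring
  · have h2 : W₁.valuation ((q : M) * (algebraMap K M a - θ)) < 1 := by
      rw [map_mul]
      exact (mul_le_of_le_one_left' ((W₁.valuation_le_one_iff _).2 (hB _ q.2))).trans_lt hlt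
    rw [← hd] at h2
    rw [Valuation.map_add_eq_of_lt_left _ h2, hd]

/-- the unit `1 + π^L ρ y` -/
theorem Constr.unit (W₁ : ValuationSubring M) (A : Subalgebra k M) (hA : ∀ x ∈ A, x ∈ W₁)
    {x ρ : M} (hx : x ∈ oc W₁ A) (hρ : ρ ∈ oc W₁ A) (hρ1 : W₁.valuation ρ < 1) :
    1 + ρ * x ∈ oc W₁ A ∧ W₁.valuation (1 + ρ * x) = 1 ∧ 1 + ρ * x ≠ 0 := by
  have h1 : W₁.valuation (ρ * x) < 1 := by
    rw [map_mul]
    exact mul_lt_one_of_lt_of_le hρ1 ((W₁.valuation_le_one_iff _).2 (oc_mem W₁ hA x hx))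
  have h2 : W₁.valuation (1 + ρ * x) = 1 := Valuation.map_one_add_of_lt _ h1
  refine ⟨add_mem (one_mem _) (mul_mem hρ hx), h2, ?_⟩
  intro h3
  rw [h3, map_zero] at h2
  exact zero_ne_one h2

/-- Descent of the chart. With `π = a - θ`, `B₀ = A₀[θ]`, `A = B₀[G]`, `H g ∈ B₀` for `g ∈ G`,
`π^N = H ρ` with `ρ` in the maximal ideal of the local ring `R = A_q`: choose by `approx` elements
`c_g, H₀ ∈ A₀` with `c_g - H g`, `H₀ - H ∈ π^(2N) B₀` and put
`A₁ = A₀[c_g / H₀, P(a)^N / H₀]`. As `P(a) = π Q(a)` with `Q(a) ∈ k[a, θ]` of value `0`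
(`P'(θ) ≠ 0` is algebraic over `k`), `H₀ = H (1 + ..)` and all generators lie in `R`; conversely
`π^N / H₀ = (P(a)^N / H₀) Q(a)^(-N)`, `H / H₀ = 1 - y π^(2N) / H₀` is a unit, and
`g = (c_g / H₀ - y π^N (π^N / H₀)) (H₀ / H)` lie in the local ring of `A₁[θ]`. -/
theorem constr (W : ValuationSubring K) (W₁ : ValuationSubring M)
    (hWW : ∀ x : K, algebraMap K M x ∈ W₁ ↔ x ∈ W) (hk : ∀ c : k, algebraMap k M c ∈ W₁)
    (P : k[X]) (hP : P.Separable) (θ : M) (hθ : aeval θ P = 0) (a : K)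
    (hne : algebraMap K M a ≠ θ) (hlt : W₁.valuation (algebraMap K M a - θ) < 1)
    (A₀ : Subalgebra k K) (hfg : A₀.FG) (ha : a ∈ A₀) (hA₀ : ∀ x ∈ A₀, x ∈ W)
    (A : Subalgebra k M) (hA : ∀ x ∈ A, x ∈ W₁) (G : Finset M)
    (hG : A = lft θ A₀ ⊔ Algebra.adjoin k (G : Set M)) (H : M) (hH : H ∈ lft θ A₀) (hH0 : H ≠ 0)
    (hHG : ∀ g ∈ G, H * g ∈ lft θ A₀) (N : ℕ) (ρ : M) (hρ : ρ ∈ oc W₁ A)
    (hρ1 : W₁.valuation ρ < 1) (hπ : (algebraMap K M a - θ) ^ N = H * ρ) :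
    ∃ A₁ : Subalgebra k K, A₁.FG ∧ A₀ ≤ A₁ ∧ (∀ x ∈ A₁, x ∈ W) ∧
      oc W₁ (lft θ A₁) = oc W₁ A := by
  classical
  have hBA : lft θ A₀ ≤ A := by
    rw [hG]
    exact le_sup_left
  have hBW : ∀ x ∈ lft θ A₀, x ∈ W₁ := fun x hx => hA x (hBA hx)
  have hBo : ∀ x ∈ lft θ A₀, x ∈ oc W₁ A := fun x hx => le_oc W₁ A (hBA hx)
  set π := algebraMap K M a - θ with hπd
  have hπB : π ∈ lft θ A₀ := sub_mem (mem_lft θ A₀ ha) (self_mem_lft θ A₀)
  have hπ0 : π ≠ 0 := sub_ne_zero.2 hne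
  obtain ⟨Q, hQB, hPQ, hQ1⟩ := Constr.factor W₁ P hP θ hθ a hlt A₀ ha hBW
  have hQ0 : Q ≠ 0 := by
    rintro rfl
    rw [map_zero] at hQ1
    exact zero_ne_one hQ1
  -- approximations
  obtain ⟨H₀, hH₀, y₀, hy₀, e₀⟩ := Constr.approxK P hP θ hθ a A₀ ha hH (N + N)
  choose! c hc y hy ec using fun (g : M) (hg : g ∈ G) =>
    Constr.approxK P hP θ hθ a A₀ ha (hHG g hg) (N + N)
  rw [← hπd] at e₀ hPQ
  simp only [← hπd] at ec
  obtain ⟨hu, hu1, hu0⟩ := Constr.unit W₁ A hA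
    (mul_mem (pow_mem (hBo π hπB) N) (hBo y₀ hy₀)) hρ hρ1
  set w := 1 + ρ * (π ^ N * y₀) with hw
  have eH : algebraMap K M H₀ = H * w := by
    rw [e₀, pow_add, hπ, hw, hπ]
    ring
  have hH₀0 : algebraMap K M H₀ ≠ 0 := by
    rw [eH]
    exact mul_ne_zero hH0 hu0
  have hwi : w⁻¹ ∈ oc W₁ A := oc_inv W₁ hu hu1
  have e1 : ∀ g ∈ G, algebraMap K M (c g / H₀) = (g + ρ * (π ^ N * y g)) * w⁻¹ := by
    intro g hg
    rw [map_div₀, ec g hg, eH, pow_add, hπ]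
    field_simp
  have e2 : algebraMap K M (aeval a P ^ N / H₀) = ρ * Q ^ N * w⁻¹ := by
    rw [map_div₀, map_pow, ← aeval_algebraMap_apply, hPQ, eH, mul_pow, hπ]
    field_simp
  set A₁ : Subalgebra k K := A₀ ⊔ Algebra.adjoin k
    (insert (aeval a P ^ N / H₀) ((fun g => c g / H₀) '' (G : Set M))) with hA₁
  have hmem1 : aeval a P ^ N / H₀ ∈ A₁ :=
    (le_sup_right : _ ≤ A₁) (Algebra.subset_adjoin (Set.mem_insert _ _))
  have hmem2 : ∀ g ∈ G, c g / H₀ ∈ A₁ := fun g hg =>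
    (le_sup_right : _ ≤ A₁) (Algebra.subset_adjoin (Set.mem_insert_of_mem _ ⟨g, hg, rfl⟩))
  have hle : A₁ ≤ (oc W₁ A).comap (IsScalarTower.toAlgHom k K M) := by
    rw [hA₁]
    refine sup_le (fun x hx => ?_) (Algebra.adjoin_le ?_)
    · exact hBo _ (mem_lft θ A₀ hx)
    · rintro x (rfl | ⟨g, hg, rfl⟩)
      · show algebraMap K M (aeval a P ^ N / H₀) ∈ oc W₁ A
        rw [e2]
        exact mul_mem (mul_mem hρ (pow_mem (hBo Q hQB) N)) hwi
      · show algebraMap K M (c g / H₀) ∈ oc W₁ A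
        rw [e1 g hg]
        have hg' : g ∈ oc W₁ A := by
          refine le_oc W₁ A ?_
          rw [hG]
          exact (le_sup_right : Algebra.adjoin k (G : Set M) ≤ _) (Algebra.subset_adjoin hg)
        exact mul_mem (add_mem hg' (mul_mem hρ (mul_mem (pow_mem (hBo π hπB) N)
          (hBo _ (hy g hg))))) hwi
  have hA₀₁ : A₀ ≤ A₁ := le_sup_left
  refine ⟨A₁, ?_, hA₀₁, fun x hx => ?_, ?_⟩
  · refine hfg.sup ?_
    have hfin : (insert (aeval a P ^ N / H₀) ((fun g => c g / H₀) '' (G : Set M))).Finite :=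
      (G.finite_toSet.image _).insert _
    exact ⟨hfin.toFinset, by rw [hfin.coe_toFinset]⟩
  · rw [← hWW]
    exact oc_mem W₁ hA _ (hle hx)
  · refine le_antisymm (oc_le W₁ ?_) (oc_le W₁ ?_)
    · refine sup_le ?_ (Algebra.adjoin_le ?_)
      · rintro _ ⟨x, hx, rfl⟩
        exact hle hx
      · rintro x hx
        rw [Set.mem_singleton_iff.1 hx]
        exact hBo θ (self_mem_lft θ A₀)
    · have hBo' : ∀ x ∈ lft θ A₀, x ∈ oc W₁ (lft θ A₁) := fun x hx =>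
        le_oc W₁ _ (lft_mono θ hA₀₁ hx)
      have h1 : π ^ N / algebraMap K M H₀ ∈ oc W₁ (lft θ A₁) := by
        have h2 : π ^ N / algebraMap K M H₀ = algebraMap K M (aeval a P ^ N / H₀) * (Q ^ N)⁻¹ := by
          rw [map_div₀, map_pow, ← aeval_algebraMap_apply, hPQ, mul_pow]
          field_simp
        rw [h2]
        refine mul_mem (le_oc W₁ _ (mem_lft θ A₁ hmem1)) (oc_inv W₁ (pow_mem (hBo' Q hQB) N) ?_)
        rw [map_pow, hQ1, one_pow]
      have h3 : w⁻¹ ∈ oc W₁ (lft θ A₁) := by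
        have h4 : w⁻¹ = 1 - y₀ * π ^ N * (π ^ N / algebraMap K M H₀) := by
          have h5 : H = algebraMap K M H₀ - π ^ (N + N) * y₀ := by
            rw [e₀]
            ring
          have h6 : w⁻¹ = H / algebraMap K M H₀ := by
            rw [eH]
            field_simp
          rw [h6]
          nth_rewrite 1 [h5]
          rw [pow_add]
          field_simp
        rw [h4]
        exact sub_mem (one_mem _) (mul_mem (mul_mem (hBo' _ hy₀) (pow_mem (hBo' _ hπB) N)) h1)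
      have h4 : w ∈ oc W₁ (lft θ A₁) := by
        have h5 : W₁.valuation w⁻¹ = 1 := by rw [map_inv₀, hu1, inv_one]
        have h6 := oc_inv W₁ h3 h5
        rwa [inv_inv] at h6
      rw [hG]
      refine sup_le (fun x hx => hBo' x hx) (Algebra.adjoin_le ?_)
      intro g hg
      have h5 : g = (algebraMap K M (c g / H₀) - y g * π ^ N * (π ^ N / algebraMap K M H₀)) * w := by
        have h6 : H * g = algebraMap K M (c g) - π ^ (N + N) * y g := by
          rw [ec g hg]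
          ring
        rw [map_div₀, eH]
        have h7 : g = (H * g) / H := by field_simp
        nth_rewrite 1 [h7]
        rw [h6, pow_add]
        field_simp
      rw [h5]
      exact mul_mem (sub_mem (le_oc W₁ _ (mem_lft θ A₁ (hmem2 g hg)))
        (mul_mem (mul_mem (hBo' _ (hy g hg)) (pow_mem (hBo' _ hπB) N)) h1)) h4

/-- Approximation of the elements of the chart by elements of `K`: `H^e z ∈ A₀[θ]`; take
`c, H₀ ∈ A₀` with `c - H^e z`, `H₀ - H ∈ π^L A₀[θ]`, `L` large, `z' = c / H₀^e`. -/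
theorem approx_chart (W : ValuationSubring K) (W₁ : ValuationSubring M)
    (hWW : ∀ x : K, algebraMap K M x ∈ W₁ ↔ x ∈ W) (hk : ∀ c : k, algebraMap k M c ∈ W₁)
    (P : k[X]) (hP : P.Separable) (θ : M) (hθ : aeval θ P = 0) (a : K)
    (hne : algebraMap K M a ≠ θ) (hlt : W₁.valuation (algebraMap K M a - θ) < 1)
    (A₀ : Subalgebra k K) (ha : a ∈ A₀) (hA₀ : ∀ x ∈ A₀, x ∈ W)
    (A : Subalgebra k M) (hA : ∀ x ∈ A, x ∈ W₁) (hAA : lft θ A₀ ≤ A) (H : M)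
    (hH : H ∈ lft θ A₀) (hH0 : H ≠ 0) (N : ℕ) (ρ : M) (hρ : ρ ∈ oc W₁ A)
    (hρ1 : W₁.valuation ρ < 1) (hπ : (algebraMap K M a - θ) ^ N = H * ρ)
    (z : M) (hz : z ∈ A) (e : ℕ) (hez : H ^ e * z ∈ lft θ A₀) (n : ℕ) :
    ∃ (z' : K) (y : M), y ∈ oc W₁ A ∧
      algebraMap K M z' = z + (algebraMap K M a - θ) ^ n * y := by
  have hBo : ∀ x ∈ lft θ A₀, x ∈ oc W₁ A := fun x hx => le_oc W₁ A (hAA hx)
  set π := algebraMap K M a - θ with hπd
  have hπB : π ∈ lft θ A₀ := sub_mem (mem_lft θ A₀ ha) (self_mem_lft θ A₀)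
  obtain ⟨H₀, hH₀, y₀, hy₀, e₀⟩ := Constr.approxK P hP θ hθ a A₀ ha hH (N + n)
  obtain ⟨c, hc, y₁, hy₁, e₁⟩ := Constr.approxK P hP θ hθ a A₀ ha hez (N * e + n)
  rw [← hπd] at e₀ e₁
  obtain ⟨hu, hu1, hu0⟩ := Constr.unit W₁ A hA
    (mul_mem (pow_mem (hBo π hπB) n) (hBo y₀ hy₀)) hρ hρ1
  set w := 1 + ρ * (π ^ n * y₀) with hw
  have eH : algebraMap K M H₀ = H * w := by
    rw [e₀, pow_add, hπ, hw]
    ring
  have hwi : w⁻¹ ∈ oc W₁ A := oc_inv W₁ hu hu1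
  refine ⟨c / H₀ ^ e, (ρ ^ e * y₁ - z * (∑ i ∈ Finset.range e, w ^ i) * (ρ * y₀)) * w⁻¹ ^ e,
    ?_, ?_⟩
  · refine mul_mem (sub_mem (mul_mem (pow_mem hρ e) (hBo _ hy₁)) (mul_mem (mul_mem
      (le_oc W₁ A hz) (sum_mem fun i _ => pow_mem hu i)) (mul_mem hρ (hBo _ hy₀)))) (pow_mem hwi e)
  · have h1 : (w - 1) * ∑ i ∈ Finset.range e, w ^ i = w ^ e - 1 := mul_geom_sum w e
    have h2 : w - 1 = ρ * (π ^ n * y₀) := by
      rw [hw]
      ring
    rw [h2] at h1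
    have h3 : algebraMap K M (c / H₀ ^ e) = (z + π ^ n * (ρ ^ e * y₁)) * w⁻¹ ^ e := by
      rw [map_div₀, map_pow, e₁, eH, mul_pow, pow_add, pow_mul, hπ, mul_pow, inv_pow]
      field_simp
    rw [h3]
    have h4 : w ^ e * w⁻¹ ^ e = 1 := by rw [← mul_pow, mul_inv_cancel₀ hu0, one_pow]
    have h5 : z * (w ^ e * w⁻¹ ^ e) = z := by rw [h4, mul_one]
    linear_combination (z * w⁻¹ ^ e) * h1 + h5

end LY
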