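import Pool.Agent.helper90.LY.Oc

open IsLocalRing

namespace LY

universe u

variable {k K : Type u} [Field k] [Field K] [Algebra k K]

theorem OcReg_mem_center (W : ValuationSubring K) (A : Subalgebra k K) (h : ∀ a ∈ A, a ∈ W)
    (a : A) : a ∈ LU.center W A h ↔ W.valuation (a : K) < 1 := by
  unfold LU.center
  rw [Ideal.mem_comap, ValuationSubring.valuation_lt_one_iff]
  rfl

/-- The local ring as a localization. -/
theorem OcReg_equiv (W : ValuationSubring K) (A : Subalgebra k K) (h : ∀ a ∈ A, a ∈ W) :
    ∃ e : Localization.AtPrime (LU.center W A h) ≃+* oc W A,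
      ∀ a : A, ((e (algebraMap A (Localization.AtPrime (LU.center W A h)) a) : oc W A) : K) = a := by
  let _ : Algebra A (oc W A) := (Subalgebra.inclusion (le_oc W A)).toRingHom.toAlgebra
  have hmap : ∀ a : A, ((algebraMap A (oc W A) a : oc W A) : K) = a := fun a => rfl
  have hval : ∀ y : (LU.center W A h).primeCompl, W.valuation ((y : A) : K) = 1 := by
    intro y
    have h1 : ¬ W.valuation ((y : A) : K) < 1 := fun hc => y.2 ((OcReg_mem_center W A h _).2 hc)
    have h2 : W.valuation ((y : A) : K) ≤ 1 := by
      rw [W.valuation_le_one_iff]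
      exact h _ (y : A).2
    exact le_antisymm h2 (not_lt.1 h1)
  have : IsLocalization (LU.center W A h).primeCompl (oc W A) := by
    refine ⟨?_, ?_, ?_⟩
    · intro y
      have h1 := hval y
      have h0 : ((y : A) : K) ≠ 0 := by
        intro h0
        rw [h0, map_zero] at h1
        exact zero_ne_one h1
      have h2 : ((y : A) : K)⁻¹ ∈ oc W A := oc_inv W (le_oc W A (y : A).2) h1
      refine IsUnit.of_mul_eq_one ⟨_, h2⟩ ?_
      apply Subtype.ext
      change ((y : A) : K) * ((y : A) : K)⁻¹ = 1
      exact mul_inv_cancel₀ h0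
    · rintro ⟨x, b, hb, d, hd, h1, h2⟩
      refine ⟨(⟨b, hb⟩, ⟨⟨d, hd⟩, ?_⟩), ?_⟩
      · intro hc
        rw [SetLike.mem_coe, OcReg_mem_center] at hc
        exact hc.ne h1
      · apply Subtype.ext
        exact h2
    · intro x y hxy
      refine ⟨1, ?_⟩
      have : (x : K) = y := congrArg (fun z : oc W A => (z : K)) hxy
      rw [Subtype.ext this]
  refine ⟨(IsLocalization.algEquiv (LU.center W A h).primeCompl
    (Localization.AtPrime (LU.center W A h)) (oc W A)).toRingEquiv, fun a => ?_⟩
  rw [← hmap]
  congr 1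
  exact AlgEquiv.commutes _ a

theorem OcReg_unit (W : ValuationSubring K) (A : Subalgebra k K) (h : ∀ a ∈ A, a ∈ W)
    (y : oc W A) : IsUnit y ↔ W.valuation (y : K) = 1 := by
  have hle : ∀ z : oc W A, W.valuation (z : K) ≤ 1 := by
    intro z
    rw [W.valuation_le_one_iff]
    exact oc_mem W h _ z.2
  constructor
  · intro hu
    obtain ⟨z, hz⟩ := hu.exists_right_inv
    have h1 : W.valuation (y : K) * W.valuation (z : K) = 1 := by
      rw [← map_mul]
      have : (y : K) * (z : K) = 1 := congrArg (fun t : oc W A => (t : K)) hz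
      rw [this, map_one]
    refine le_antisymm (hle y) ?_
    calc (1 : W.ValueGroup) = W.valuation (y : K) * W.valuation (z : K) := h1.symm
      _ ≤ W.valuation (y : K) * 1 := mul_le_mul_right (hle z) _
      _ = W.valuation (y : K) := mul_one _
  · intro h1
    have h0 : (y : K) ≠ 0 := by
      intro h0
      rw [h0, map_zero] at h1
      exact zero_ne_one h1
    refine IsUnit.of_mul_eq_one ⟨_, oc_inv W y.2 h1⟩ ?_
    apply Subtype.ext
    exact mul_inv_cancel₀ h0

theorem OcReg_mem_max (W : ValuationSubring K) (A : Subalgebra k K) (h : ∀ a ∈ A, a ∈ W)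
    (e : Localization.AtPrime (LU.center W A h) ≃+* oc W A)
    (x : Localization.AtPrime (LU.center W A h)) :
    x ∈ maximalIdeal (Localization.AtPrime (LU.center W A h)) ↔ W.valuation ((e x : oc W A) : K) < 1 := by
  rw [mem_maximalIdeal, mem_nonunits_iff, ← MulEquiv.isUnit_map e, OcReg_unit W A h]
  have hle : W.valuation ((e x : oc W A) : K) ≤ 1 := by
    rw [W.valuation_le_one_iff]
    exact oc_mem W h _ (e x).2
  exact ⟨fun h => lt_of_le_of_ne hle h, fun h => h.ne⟩

theorem pg_iff (W : ValuationSubring K) (A : Subalgebra k K) (h : ∀ a ∈ A, a ∈ W) {n : ℕ}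
    (s : Fin n → A) :
    Ideal.span (Set.range fun i => algebraMap A (Localization.AtPrime (LU.center W A h)) (s i)) =
        maximalIdeal (Localization.AtPrime (LU.center W A h)) ↔ PG W A fun i => (s i : K) := by
  obtain ⟨e, he⟩ := OcReg_equiv W A h
  constructor
  · intro hs
    refine ⟨fun i => le_oc W A (s i).2, fun i => ?_, fun y hy hy1 => ?_⟩
    · have h1 : algebraMap A (Localization.AtPrime (LU.center W A h)) (s i) ∈
          maximalIdeal (Localization.AtPrime (LU.center W A h)) := by
        rw [← hs]
        exact Ideal.subset_span ⟨i, rfl⟩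
      rw [OcReg_mem_max W A h e, he] at h1
      exact h1
    · have h1 : e.symm ⟨y, hy⟩ ∈ maximalIdeal (Localization.AtPrime (LU.center W A h)) := by
        rw [OcReg_mem_max W A h e, RingEquiv.apply_symm_apply]
        exact hy1
      rw [← hs, Ideal.mem_span_range_iff_exists_fun] at h1
      obtain ⟨c, hc⟩ := h1
      refine ⟨fun i => (e (c i) : oc W A), fun i => (e (c i)).2, ?_⟩
      have h2 : ((e (∑ i, c i * algebraMap A (Localization.AtPrime (LU.center W A h)) (s i)) : oc W A) : K) = y := by
        rw [hc, RingEquiv.apply_symm_apply]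
      rw [← h2, map_sum, AddSubmonoidClass.coe_finsetSum]
      refine Finset.sum_congr rfl fun i _ => ?_
      rw [map_mul, MulMemClass.coe_mul, he]
  · rintro ⟨_, h2, h3⟩
    apply le_antisymm
    · rw [Ideal.span_le]
      rintro _ ⟨i, rfl⟩
      rw [SetLike.mem_coe, OcReg_mem_max W A h e, he]
      exact h2 i
    · intro x hx
      rw [OcReg_mem_max W A h e] at hx
      obtain ⟨c, hc, hy⟩ := h3 _ (e x).2 hx
      rw [Ideal.mem_span_range_iff_exists_fun]
      refine ⟨fun i => e.symm ⟨c i, hc i⟩, ?_⟩
      apply e.injective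
      apply Subtype.ext
      rw [hy, map_sum, AddSubmonoidClass.coe_finsetSum]
      refine Finset.sum_congr rfl fun i _ => ?_
      rw [map_mul, MulMemClass.coe_mul, he, RingEquiv.apply_symm_apply]

/-- regularity from parameters -/
theorem reg_of_pg (W : ValuationSubring K) (A : Subalgebra k K) (h : ∀ a ∈ A, a ∈ W)
    (hfg : A.FG) {n : ℕ} (s : Fin n → A) (hs : PG W A fun i => (s i : K))
    (hdim : (n : WithBot ℕ∞) ≤ ringKrullDim (Localization.AtPrime (LU.center W A h))) :
    IsRegularLocalRing (Localization.AtPrime (LU.center W A h)) ∧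
      ringKrullDim (Localization.AtPrime (LU.center W A h)) = n := by
  have : Algebra.FiniteType k A := A.fg_iff_finiteType.1 hfg
  have : IsNoetherianRing A := Algebra.FiniteType.isNoetherianRing k A
  have : IsNoetherianRing (Localization.AtPrime (LU.center W A h)) :=
    IsLocalization.isNoetherianRing (LU.center W A h).primeCompl _ inferInstance
  have h1 := (pg_iff W A h s).2 hs
  have h2 : (maximalIdeal (Localization.AtPrime (LU.center W A h))).spanFinrank ≤ n := by
    rw [← h1]
    refine (Submodule.spanFinrank_span_le_ncard_of_finite (Set.finite_range _)).trans ?_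
    have := Set.ncard_image_le (f := fun i => algebraMap A (Localization.AtPrime (LU.center W A h)) (s i))
      (Set.finite_univ (α := Fin n))
    rw [Set.image_univ] at this
    simpa [Set.ncard_univ] using this
  have h3 : ((maximalIdeal (Localization.AtPrime (LU.center W A h))).spanFinrank : WithBot ℕ∞) ≤ n := by
    exact_mod_cast h2
  exact ⟨IsRegularLocalRing.of_spanFinrank_maximalIdeal_le _ (h3.trans hdim),
    le_antisymm ((ringKrullDim_le_spanFinrank_maximalIdeal _).trans h3) hdim⟩

/-- the dimension depends only on the local ring -/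
theorem dim_oc (W : ValuationSubring K) (A B : Subalgebra k K) (hA : ∀ a ∈ A, a ∈ W)
    (hB : ∀ a ∈ B, a ∈ W) (h : oc W A = oc W B) :
    ringKrullDim (Localization.AtPrime (LU.center W A hA)) =
      ringKrullDim (Localization.AtPrime (LU.center W B hB)) := by
  obtain ⟨e, _⟩ := OcReg_equiv W A hA
  obtain ⟨f, _⟩ := OcReg_equiv W B hB
  rw [ringKrullDim_eq_of_ringEquiv e, ringKrullDim_eq_of_ringEquiv f, h]

end LY
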