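import Pool.Agent.helper90.LY.DescLoc
import Pool.Agent.helper90.LY.DescDim
import Pool.Agent.helper90.LY.Constr
import Pool.Agent.helper90.LY.OcReg

open Polynomial IsLocalRing

namespace LY

universe u

variable {k K M : Type u} [Field k] [Field K] [Field M] [Algebra k K] [Algebra k M] [Algebra K M]
  [IsScalarTower k K M]

/-- powers of `H` clear the denominators of the chart -/
theorem DescFin.clear {k M : Type u} [Field k] [Field M] [Algebra k M] (B : Subalgebra k M)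
    (G : Set M) (H : M) (hH : H ∈ B) (hHG : ∀ g ∈ G, H * g ∈ B) {z : M}
    (hz : z ∈ B ⊔ Algebra.adjoin k G) : ∃ e : ℕ, H ^ e * z ∈ B := by
  let S : Subalgebra k M :=
    { carrier := {z | ∃ e : ℕ, H ^ e * z ∈ B}
      mul_mem' := by
        rintro x y ⟨e, he⟩ ⟨f, hf⟩
        refine ⟨e + f, ?_⟩
        have h1 : H ^ (e + f) * (x * y) = (H ^ e * x) * (H ^ f * y) := by
          rw [pow_add]
          ring
        rw [h1]
        exact mul_mem he hf
      add_mem' := by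
        rintro x y ⟨e, he⟩ ⟨f, hf⟩
        refine ⟨e + f, ?_⟩
        have h1 : H ^ (e + f) * (x + y) = H ^ f * (H ^ e * x) + H ^ e * (H ^ f * y) := by
          rw [pow_add]
          ring
        rw [h1]
        exact add_mem (mul_mem (pow_mem hH f) he) (mul_mem (pow_mem hH e) hf)
      algebraMap_mem' := fun c => ⟨0, by
        rw [pow_zero, one_mul]
        exact B.algebraMap_mem c⟩ }
  have hle : B ⊔ Algebra.adjoin k G ≤ S := by
    refine sup_le (fun x hx => ⟨0, by rwa [pow_zero, one_mul]⟩) (Algebra.adjoin_le ?_)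
    intro g hg
    exact ⟨1, by
      rw [pow_one]
      exact hHG g hg⟩
  exact hle hz

/-- a larger subalgebra has the same field of fractions -/
theorem DescFin.frac {k K : Type u} [Field k] [Field K] [Algebra k K] {A B : Subalgebra k K}
    (h : A ≤ B) (hA : IsFractionRing A K) : IsFractionRing B K := by
  refine IsFractionRing.of_field B K fun z => ?_
  obtain ⟨a, b, hb, hab⟩ := IsFractionRing.div_surjective (A := A) z
  exact ⟨⟨a, h a.2⟩, ⟨b, h b.2⟩, hab.symm⟩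

/-- The perturbed elements generate the maximal ideal too. -/
theorem DescFin.pg {k M : Type u} [Field k] [Field M] [Algebra k M] (W₁ : ValuationSubring M)
    (A : Subalgebra k M) (hA : ∀ x ∈ A, x ∈ W₁) (π : M) (hπ : π ∈ oc W₁ A)
    (hπ1 : W₁.valuation π < 1) {n : ℕ} (s s' y : Fin n → M) (hs : PG W₁ A s)
    (hy : ∀ i, y i ∈ oc W₁ A) (hs' : ∀ i, s' i = s i + π ^ 2 * y i) (i₀ : Fin n) (τ : M)
    (hτ : τ ∈ oc W₁ A) (h0 : π = s' i₀ * τ) : PG W₁ A s' := by
  classical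
  obtain ⟨h1, h2, h3⟩ := hs
  have hle : ∀ z ∈ oc W₁ A, W₁.valuation z ≤ 1 := fun z hz =>
    (W₁.valuation_le_one_iff _).2 (oc_mem W₁ hA z hz)
  refine ⟨fun i => ?_, fun i => ?_, fun z hz hz1 => ?_⟩
  · rw [hs' i]
    exact add_mem (h1 i) (mul_mem (pow_mem hπ 2) (hy i))
  · rw [hs' i]
    refine Valuation.map_add_lt _ (h2 i) ?_
    rw [pow_two, mul_assoc, map_mul]
    exact mul_lt_one_of_lt_of_le hπ1 (hle _ (mul_mem hπ (hy i)))
  · obtain ⟨c, hc, hzc⟩ := h3 z hz hz1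
    refine ⟨fun i => c i - if i = i₀ then τ * π * ∑ j, c j * y j else 0, fun i => ?_, ?_⟩
    · refine sub_mem (hc i) ?_
      split_ifs
      · exact mul_mem (mul_mem hτ hπ) (sum_mem fun j _ => mul_mem (hc j) (hy j))
      · exact zero_mem _
    · have e1 : ∑ i, (c i - if i = i₀ then τ * π * ∑ j, c j * y j else 0) * s' i =
          ∑ i, c i * s' i - τ * π * (∑ j, c j * y j) * s' i₀ := by
        simp only [sub_mul, Finset.sum_sub_distrib, ite_mul, zero_mul, Finset.sum_ite_eq',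
          Finset.mem_univ, if_true]
      have e2 : ∑ i, c i * s' i = z + π ^ 2 * ∑ j, c j * y j := by
        rw [hzc, Finset.mul_sum, ← Finset.sum_add_distrib]
        refine Finset.sum_congr rfl fun i _ => ?_
        rw [hs' i]
        ring
      have e3 : τ * π * (∑ j, c j * y j) * s' i₀ = π ^ 2 * ∑ j, c j * y j := by
        have : τ * π * (∑ j, c j * y j) * s' i₀ = (s' i₀ * τ) * π * (∑ j, c j * y j) := by ring
        rw [this, ← h0]
        ring
      rw [e1, e2, e3]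
      ring

/-- `x = ∏ s_i^(a_i) e` and `s'_i = s_i u_i`: the quotient by `∏ s'_i^(a_i)` is a unit. -/
theorem DescFin.unit {k M : Type u} [Field k] [Field M] [Algebra k M] (W₁ : ValuationSubring M)
    (A : Subalgebra k M) {n : ℕ} (r : ℕ) (s s' u : Fin n → M)
    (hu : ∀ i : Fin n, (i : ℕ) < r → u i ∈ oc W₁ A ∧ W₁.valuation (u i) = 1 ∧ s' i = s i * u i ∧
      s i ≠ 0) (a : Fin n → ℤ) (ha : ∀ i : Fin n, r ≤ (i : ℕ) → a i = 0) (e : M)
    (he : e ∈ oc W₁ A) (he1 : W₁.valuation e = 1) :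
    ∃ w ∈ oc W₁ A, W₁.valuation w = 1 ∧ (∏ i, s i ^ a i) * e = (∏ i, s' i ^ a i) * w := by
  refine ⟨(∏ i : Fin n, (if (i : ℕ) < r then (u i)⁻¹ else 1) ^ a i) * e, ?_, ?_, ?_⟩
  · refine mul_mem (prod_mem fun i _ => ?_) he
    split_ifs with hi
    · obtain ⟨h1, h2, h3, h4⟩ := hu i hi
      have h5 : ∀ m : ℤ, u i ^ m ∈ oc W₁ A := by
        intro m
        rcases m.eq_nat_or_neg with ⟨t, rfl | rfl⟩
        · rw [zpow_natCast]
          exact pow_mem h1 t
        · rw [zpow_neg, zpow_natCast]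
          refine oc_inv W₁ (pow_mem h1 t) ?_
          rw [map_pow, h2, one_pow]
      rw [inv_zpow']
      exact h5 _
    · rw [one_zpow]
      exact one_mem _
  · rw [map_mul, map_prod, he1, mul_one]
    refine Finset.prod_eq_one fun i _ => ?_
    split_ifs with hi
    · obtain ⟨h1, h2, h3, h4⟩ := hu i hi
      rw [map_zpow₀, map_inv₀, h2, inv_one, one_zpow]
    · rw [one_zpow, map_one]
  · rw [← mul_assoc, ← Finset.prod_mul_distrib]
    congr 1
    refine Finset.prod_congr rfl fun i _ => ?_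
    split_ifs with hi
    · obtain ⟨h1, h2, h3, h4⟩ := hu i hi
      have h5 : u i ≠ 0 := by
        intro h5
        rw [h5, map_zero] at h2
        exact zero_ne_one h2
      rw [← mul_zpow, h3, mul_assoc, mul_inv_cancel₀ h5, mul_one]
    · rw [ha i (not_lt.1 hi), zpow_zero, zpow_zero, zpow_zero, mul_one]

/-- The descended chart. `constr` gives `A₁`; `approx_chart` (with exponent `2`) gives `s'_i ∈ K` with
`s'_i = s_i + π^2 y_i`; for `i < r` this is `s_i` times a unit (`π ∈ s_i R`, `π` in the maximal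
ideal), and for all `i` it lies in `s_i + π^2 R`, so that the `s'_i` generate the maximal ideal of
`R = A_q = (A₁[θ])_q` (`π ∈ s'_i R` for one `i < r`). `desc_mem`: `s'_i` and the elements of `F ∩ W`
lie in the local ring of `A₁`; adjoin them to `A₁` (same local ring up to `oc`): `A'`. `desc_pg`,
`desc_dim`, `dim_oc`, `reg_of_pg`, `pg_iff`. Elements of `F`: the unit `N/D` times the units
`(s_i/s'_i)^(a_i)` is an element of `K` which is a unit of `R`, so by `desc_mem` (for it and its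
inverse) a unit of the local ring of `A'`. -/
theorem desc_fin (W : ValuationSubring K) (W₁ : ValuationSubring M)
    (hWW : ∀ x : K, algebraMap K M x ∈ W₁ ↔ x ∈ W) (hW : ∀ c : k, algebraMap k K c ∈ W)
    (P : k[X]) (hP : P.Separable) (θ : M) (hθ : aeval θ P = 0)
    (hθK : IntermediateField.adjoin K {θ} = ⊤) (a : K)
    (hne : algebraMap K M a ≠ θ) (hlt : W₁.valuation (algebraMap K M a - θ) < 1) (r : ℕ)
    (A₀ : Subalgebra k K) (hfg : A₀.FG) (ha : a ∈ A₀) (hA₀ : ∀ x ∈ A₀, x ∈ W)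
    (hfr : IsFractionRing A₀ K) (hmin : ∀ i, (minpoly K θ).coeff i ∈ A₀)
    (A : Subalgebra k M) (hA : ∀ x ∈ A, x ∈ W₁) (G : Finset M)
    (hG : A = lft θ A₀ ⊔ Algebra.adjoin k (G : Set M)) (H : M) (hH : H ∈ lft θ A₀) (hH0 : H ≠ 0)
    (hHG : ∀ g ∈ G, H * g ∈ lft θ A₀) (N : ℕ) (ρ : M) (hρ : ρ ∈ oc W₁ A)
    (hρ1 : W₁.valuation ρ < 1) (hπ : (algebraMap K M a - θ) ^ N = H * ρ) {n : ℕ}
    (s : Fin n → M) (hsA : ∀ i, s i ∈ A) (hs : PG W₁ A s)
    (hdim : (n : WithBot ℕ∞) ≤ ringKrullDim (Localization.AtPrime (LU.center W₁ A hA)))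
    (h0 : ∃ i : Fin n, (i : ℕ) < r)
    (hdiv : ∀ i : Fin n, (i : ℕ) < r → ∃ σ ∈ oc W₁ A, algebraMap K M a - θ = s i * σ)
    (F : Finset K) (hF : ∀ x ∈ F, x ≠ 0) (hFA : ∀ x ∈ F, x ∈ W → algebraMap K M x ∈ A)
    (hFM : ∀ x ∈ F, ∃ (a : Fin n → ℤ) (e : M), e ∈ oc W₁ A ∧ W₁.valuation e = 1 ∧
      algebraMap K M x = (∏ i, s i ^ a i) * e ∧ ∀ i : Fin n, r ≤ (i : ℕ) → a i = 0) :
    ∃ (A' : Subalgebra k K) (h : ∀ a ∈ A', a ∈ W) (s' : Fin n → A'),
      A'.FG ∧ IsFractionRing A' K ∧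
      IsRegularLocalRing (Localization.AtPrime (LU.center W A' h)) ∧
      ringKrullDim (Localization.AtPrime (LU.center W A' h)) = n ∧
      Ideal.span (Set.range fun i =>
        algebraMap A' (Localization.AtPrime (LU.center W A' h)) (s' i)) =
          maximalIdeal (Localization.AtPrime (LU.center W A' h)) ∧
      (∀ x ∈ F, x ∈ W → x ∈ A') ∧
      ∀ x ∈ F, ∃ (a : Fin n → ℤ) (N D : A'), N ∉ LU.center W A' h ∧ D ∉ LU.center W A' h ∧
        x * (D : K) = (∏ i, ((s' i : A') : K) ^ a i) * (N : K) := by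
  classical
  have hk : ∀ c : k, algebraMap k M c ∈ W₁ := fun c => by
    rw [IsScalarTower.algebraMap_apply k K M, hWW]
    exact hW c
  have hAA : lft θ A₀ ≤ A := by
    rw [hG]
    exact le_sup_left
  have hP0 : P ≠ 0 := hP.ne_zero
  have hθk : IsIntegral k θ := by
    rw [← isAlgebraic_iff_isIntegral]
    exact ⟨P, hP0, hθ⟩
  have hint : IsIntegral K θ := hθk.tower_top
  have hθW : θ ∈ W₁ := hA θ (hAA (self_mem_lft θ A₀))
  obtain ⟨A₁, hfg₁, hA₀₁, hA₁W, hoc⟩ := constr W W₁ hWW hk P hP θ hθ a hne hlt A₀ hfg ha hA₀ A hA G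
    hG H hH hH0 hHG N ρ hρ hρ1 hπ
  have hmin₁ : ∀ i, (minpoly K θ).coeff i ∈ A₁ := fun i => hA₀₁ (hmin i)
  -- the approximations
  have happ : ∀ i, ∃ (z' : K) (y : M), y ∈ oc W₁ A ∧
      algebraMap K M z' = s i + (algebraMap K M a - θ) ^ 2 * y := by
    intro i
    have hz := hsA i
    rw [hG] at hz
    obtain ⟨e, he⟩ := DescFin.clear (lft θ A₀) (G : Set M) H hH (fun g hg => hHG g hg) hz
    exact approx_chart W W₁ hWW hk P hP θ hθ a hne hlt A₀ ha hA₀ A hA hAA H hH hH0 N ρ hρ hρ1 hπ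
      (s i) (hsA i) e he 2
  choose s' y hy hs' using happ
  set π := algebraMap K M a - θ with hπd
  have hπA : π ∈ oc W₁ A := le_oc W₁ A (hAA (sub_mem (mem_lft θ A₀ ha) (self_mem_lft θ A₀)))
  have hπ0 : π ≠ 0 := sub_ne_zero.2 hne
  have hle : ∀ z ∈ oc W₁ A, W₁.valuation z ≤ 1 := fun z hz =>
    (W₁.valuation_le_one_iff _).2 (oc_mem W₁ hA z hz)
  choose! σ hσ hπσ using hdiv
  have hu : ∀ i : Fin n, (i : ℕ) < r → 1 + π * (σ i * y i) ∈ oc W₁ A ∧
      W₁.valuation (1 + π * (σ i * y i)) = 1 ∧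
      algebraMap K M (s' i) = s i * (1 + π * (σ i * y i)) ∧ s i ≠ 0 := by
    intro i hi
    obtain ⟨h1, h2, -⟩ := Constr.unit W₁ A hA (mul_mem (hσ i hi) (hy i)) hπA hlt
    refine ⟨h1, h2, ?_, ?_⟩
    · have h3 := hπσ i hi
      calc algebraMap K M (s' i) = s i + π ^ 2 * y i := hs' i
        _ = s i + π * π * y i := by ring
        _ = s i + π * (s i * σ i) * y i := by rw [← h3]
        _ = s i * (1 + π * (σ i * y i)) := by ring
    · intro h3
      apply hπ0
      rw [hπσ i hi, h3, zero_mul]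
  obtain ⟨i₀, hi₀⟩ := h0
  have hpg : PG W₁ A fun i => algebraMap K M (s' i) := by
    obtain ⟨h1, h2, h3, h4⟩ := hu i₀ hi₀
    have h5 : 1 + π * (σ i₀ * y i₀) ≠ 0 := by
      intro h5
      rw [h5, map_zero] at h2
      exact zero_ne_one h2
    refine DescFin.pg W₁ A hA π hπA hlt s _ y hs hy hs' i₀ ((1 + π * (σ i₀ * y i₀))⁻¹ * σ i₀)
      (mul_mem (oc_inv W₁ h1 h2) (hσ i₀ hi₀)) ?_
    show π = algebraMap K M (s' i₀) * _
    rw [h3, mul_assoc, mul_inv_cancel_left₀ h5]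
    exact hπσ i₀ hi₀
  -- the algebra
  have hdesc : ∀ x : K, algebraMap K M x ∈ oc W₁ A → x ∈ oc W A₁ := by
    intro x hx
    rw [← hoc] at hx
    exact desc_mem W W₁ hWW θ hθW hint hθK A₁ hA₁W hmin₁ x hx
  set T : Finset K := Finset.univ.image s' ∪ F.filter (· ∈ W) with hT
  set A' : Subalgebra k K := A₁ ⊔ Algebra.adjoin k (T : Set K) with hA'
  have hA₁' : A₁ ≤ A' := le_sup_left
  have hTA : ∀ x ∈ T, algebraMap K M x ∈ oc W₁ A := by
    intro x hx
    rw [hT, Finset.mem_union, Finset.mem_image, Finset.mem_filter] at hx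
    rcases hx with ⟨i, -, rfl⟩ | ⟨h1, h2⟩
    · exact hpg.1 i
    · exact le_oc W₁ A (hFA x h1 h2)
  have hTA' : ∀ x ∈ T, x ∈ A' := fun x hx =>
    (le_sup_right : _ ≤ A') (Algebra.subset_adjoin hx)
  have hs'A' : ∀ i, s' i ∈ A' := fun i => hTA' _ (by
    rw [hT]
    exact Finset.mem_union_left _ (Finset.mem_image_of_mem _ (Finset.mem_univ i)))
  have hFA' : ∀ x ∈ F, x ∈ W → x ∈ A' := fun x hx hxW => hTA' _ (by
    rw [hT]
    exact Finset.mem_union_right _ (Finset.mem_filter.2 ⟨hx, hxW⟩))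
  have hA'oc : A' ≤ oc W A₁ :=
    sup_le (le_oc W A₁) (Algebra.adjoin_le fun x hx => hdesc x (hTA x hx))
  have hocK : oc W A' = oc W A₁ := le_antisymm (oc_le W hA'oc) (oc_mono W hA₁')
  have hA'W : ∀ x ∈ A', x ∈ W := fun x hx => oc_mem W hA₁W x (hA'oc hx)
  have hmin' : ∀ i, (minpoly K θ).coeff i ∈ A' := fun i => hA₁' (hmin₁ i)
  have hocM : oc W₁ (lft θ A') = oc W₁ A := by
    refine le_antisymm (oc_le W₁ ?_) ?_
    · refine sup_le ?_ (Algebra.adjoin_le ?_)
      · have h1 : A' ≤ (oc W₁ A).comap (IsScalarTower.toAlgHom k K M) := by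
          refine sup_le (fun x hx => ?_) (Algebra.adjoin_le fun x hx => hTA x hx)
          show algebraMap K M x ∈ oc W₁ A
          rw [← hoc]
          exact le_oc W₁ _ (mem_lft θ A₁ hx)
        rintro _ ⟨x, hx, rfl⟩
        exact h1 hx
      · intro x hx
        rw [Set.mem_singleton_iff.1 hx]
        exact le_oc W₁ A (hAA (self_mem_lft θ A₀))
    · rw [← hoc]
      exact oc_mono W₁ (lft_mono θ hA₁')
  have hlW : ∀ x ∈ lft θ A', x ∈ W₁ := fun x hx => by
    have h1 := le_oc W₁ _ hx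
    rw [hocM] at h1
    exact oc_mem W₁ hA x h1
  have hpg' : PG W₁ (lft θ A') fun i => algebraMap K M (s' i) := by
    unfold PG
    rw [hocM]
    exact hpg
  have hPG : PG W A' s' := desc_pg W W₁ hWW θ hθW hint hθK A' hA'W hmin' s' hpg'
  have hfg' : A'.FG := hfg₁.sup ⟨T, rfl⟩
  have hdim' : (n : WithBot ℕ∞) ≤
      ringKrullDim (Localization.AtPrime (LU.center W A' hA'W)) := by
    refine le_trans ?_ (desc_dim W W₁ hWW θ A' hA'W hlW P hP0 hθ)
    rw [dim_oc W₁ (lft θ A') A hlW hA hocM]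
    exact hdim
  have hreg := reg_of_pg W A' hA'W hfg' (fun i => ⟨s' i, hs'A' i⟩) hPG hdim'
  refine ⟨A', hA'W, fun i => ⟨s' i, hs'A' i⟩, hfg', DescFin.frac (hA₀₁.trans hA₁') hfr, hreg.1,
    hreg.2, (pg_iff W A' hA'W fun i => ⟨s' i, hs'A' i⟩).2 hPG, hFA', fun x hx => ?_⟩
  obtain ⟨b, e, he, he1, hxe, hb⟩ := hFM x hx
  obtain ⟨w, hw, hw1, hxw⟩ := DescFin.unit W₁ A r s (fun i => algebraMap K M (s' i))
    (fun i => 1 + π * (σ i * y i)) hu b hb e he he1
  have hprod0 : (∏ i, s' i ^ b i) ≠ 0 := by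
    refine Finset.prod_ne_zero_iff.2 fun i _ => ?_
    by_cases hi : (i : ℕ) < r
    · refine zpow_ne_zero _ ?_
      obtain ⟨h1, h2, h3, h4⟩ := hu i hi
      intro h5
      rw [h5, map_zero] at h3
      rcases mul_eq_zero.1 h3.symm with h6 | h6
      · exact h4 h6
      · rw [h6, map_zero] at h2
        exact zero_ne_one h2
    · rw [hb i (not_lt.1 hi), zpow_zero]
      exact one_ne_zero
  have hmap : algebraMap K M (∏ i, s' i ^ b i) = ∏ i, algebraMap K M (s' i) ^ b i := by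
    rw [map_prod]
    exact Finset.prod_congr rfl fun i _ => map_zpow₀ _ _ _
  have hprod0' : (∏ i, algebraMap K M (s' i) ^ b i) ≠ 0 := by
    rw [← hmap, ne_eq, map_eq_zero]
    exact hprod0
  have hwK : algebraMap K M (x / ∏ i, s' i ^ b i) = w := by
    rw [map_div₀, hmap, hxe, hxw, mul_div_cancel_left₀ _ hprod0']
  have hwoc : x / ∏ i, s' i ^ b i ∈ oc W A' := by
    rw [hocK]
    refine hdesc _ ?_
    rw [hwK]
    exact hw
  have hwval : W.valuation (x / ∏ i, s' i ^ b i) = 1 := by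
    refine le_antisymm ?_ (not_lt.1 fun h1 => ?_)
    · rw [W.valuation_le_one_iff]
      exact oc_mem W hA'W _ hwoc
    · rw [← DescLoc_lt W W₁ hWW, hwK, hw1] at h1
      exact lt_irrefl _ h1
  obtain ⟨c, hc, d, hd, hd1, hcd⟩ := hwoc
  refine ⟨b, ⟨c, hc⟩, ⟨d, hd⟩, ?_, ?_, ?_⟩
  · rw [OcReg_mem_center, not_lt]
    show 1 ≤ W.valuation c
    rw [← hcd, map_mul, hwval, hd1, one_mul]
  · rw [OcReg_mem_center, not_lt]
    show 1 ≤ W.valuation d
    rw [hd1]
  · show x * d = (∏ i, s' i ^ b i) * c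
    rw [← hcd, ← mul_assoc, mul_div_cancel₀ _ hprod0]

end LY
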