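import Pool.Agent.helper90.LY.Oc

open IsLocalRing

namespace LY

universe u

variable {k K : Type u} [Field k] [Field K] [Algebra k K]

/-- `x` is a monomial in the elements `s` of `A` times a unit of the local ring of `A` at the
centre. -/
def MonS (W : ValuationSubring K) (A : Subalgebra k K) (h : ∀ a ∈ A, a ∈ W) {n : ℕ}
    (s : Fin n → A) (x : K) : Prop :=
  ∃ (a : Fin n → ℤ) (N D : A), N ∉ LU.center W A h ∧ D ∉ LU.center W A h ∧
    x * (D : K) = (∏ i, ((s i : A) : K) ^ a i) * (N : K)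

variable (k) in
/-- Relative strong local uniformization, all ranks: `LX.StrongUnif` together with a finite set `B`,
the same for all `F`, such that the chart is contained in `k[B][1/H]`, `H ∈ k[B]` a monomial times a
unit. -/
def RelS (W : ValuationSubring K) : Prop :=
  ∃ B : Finset K, ∀ F : Finset K, (∀ x ∈ F, x ≠ 0) →
    ∃ (A : Subalgebra k K) (h : ∀ a ∈ A, a ∈ W) (n : ℕ) (s : Fin n → A),
      A.FG ∧ IsFractionRing A K ∧
      IsRegularLocalRing (Localization.AtPrime (LU.center W A h)) ∧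
      ringKrullDim (Localization.AtPrime (LU.center W A h)) = n ∧
      Ideal.span (Set.range fun i => algebraMap A (Localization.AtPrime (LU.center W A h)) (s i)) =
        maximalIdeal (Localization.AtPrime (LU.center W A h)) ∧
      (∀ x ∈ F, x ∈ W → x ∈ A) ∧ (∀ x ∈ F, MonS W A h s x) ∧
      ∃ H ∈ Algebra.adjoin k (B : Set K), H ≠ 0 ∧ MonS W A h s H ∧
        ∀ x ∈ A, ∃ e : ℕ, H ^ e * x ∈ Algebra.adjoin k (B : Set K)

theorem RelS.strong {W : ValuationSubring K} (h : RelS k W) : LX.StrongUnif k W := by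
  obtain ⟨B, hB⟩ := h
  intro F hF
  obtain ⟨A, hA, n, s, h1, h2, h3, h4, h5, h6, h7, -⟩ := hB F hF
  exact ⟨A, hA, n, s, h1, h2, h3, h4, h5, h6, h7⟩

theorem strong_ru {W : ValuationSubring K} (h : LX.StrongUnif k W) : RU k W := by
  classical
  intro F hF
  obtain ⟨A, hA, n, s, h1, h2, h3, -, -, h6, -⟩ := h (F.filter fun x => x ≠ 0) (fun x hx =>
    (Finset.mem_filter.1 hx).2)
  refine ⟨A, hA, h1, h2, h3, fun x hx => ?_⟩
  by_cases hx0 : x = 0
  · rw [hx0]
    exact zero_mem _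
  · exact h6 x (Finset.mem_filter.2 ⟨hx, hx0⟩) (hF x hx)

theorem MonS.one (W : ValuationSubring K) (A : Subalgebra k K) (h : ∀ a ∈ A, a ∈ W) {n : ℕ}
    (s : Fin n → A) : MonS W A h s 1 := by
  have h1 : (1 : A) ∉ LU.center W A h := fun h1 =>
    (inferInstance : (LU.center W A h).IsPrime).ne_top ((Ideal.eq_top_iff_one _).2 h1)
  exact ⟨0, 1, 1, h1, h1, by simp⟩

theorem MonS.mul {W : ValuationSubring K} {A : Subalgebra k K} {h : ∀ a ∈ A, a ∈ W} {n : ℕ}
    {s : Fin n → A} (hs : ∀ i, ((s i : A) : K) ≠ 0) {x y : K} (hx : MonS W A h s x)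
    (hy : MonS W A h s y) : MonS W A h s (x * y) := by
  obtain ⟨a, N, D, h1, h2, h3⟩ := hx
  obtain ⟨a', N', D', h1', h2', h3'⟩ := hy
  refine ⟨a + a', N * N', D * D', ?_, ?_, ?_⟩
  · exact fun h4 => ((inferInstance : (LU.center W A h).IsPrime).mem_or_mem h4).elim h1 h1'
  · exact fun h4 => ((inferInstance : (LU.center W A h).IsPrime).mem_or_mem h4).elim h2 h2'
  · have h4 : (∏ i, ((s i : A) : K) ^ (a + a') i) =
        (∏ i, ((s i : A) : K) ^ a i) * ∏ i, ((s i : A) : K) ^ a' i := by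
      rw [← Finset.prod_mul_distrib]
      exact Finset.prod_congr rfl fun i _ => zpow_add₀ (hs i) _ _
    rw [h4]
    calc x * y * ((D * D' : A) : K) = (x * D) * (y * D') := by
          rw [show ((D * D' : A) : K) = D * D' from rfl]; ring
      _ = _ := by
          rw [h3, h3', show ((N * N' : A) : K) = N * N' from rfl]; ring

theorem MonS.inv {W : ValuationSubring K} {A : Subalgebra k K} {h : ∀ a ∈ A, a ∈ W} {n : ℕ}
    {s : Fin n → A} (hs : ∀ i, ((s i : A) : K) ≠ 0) {x : K} (hx : MonS W A h s x) :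
    MonS W A h s x⁻¹ := by
  obtain ⟨a, N, D, h1, h2, h3⟩ := hx
  have hne : ∀ z : A, z ∉ LU.center W A h → (z : K) ≠ 0 := fun z hz h0 => hz (by
    have : z = 0 := Subtype.ext h0
    rw [this]
    exact zero_mem _)
  have hp : (∏ i, ((s i : A) : K) ^ a i) ≠ 0 := Finset.prod_ne_zero_iff.2 fun i _ =>
    zpow_ne_zero _ (hs i)
  have hx0 : x ≠ 0 := by
    rintro rfl
    rw [zero_mul] at h3
    exact mul_ne_zero hp (hne N h1) h3.symm
  refine ⟨-a, D, N, h2, h1, ?_⟩
  have h4 : (∏ i, ((s i : A) : K) ^ (-a) i) = (∏ i, ((s i : A) : K) ^ a i)⁻¹ := by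
    rw [← Finset.prod_inv_distrib]
    exact Finset.prod_congr rfl fun i _ => zpow_neg _ _
  rw [h4, inv_mul_eq_iff_eq_mul₀ hx0]
  field_simp
  rw [mul_comm, ← h3]

end LY
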