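import Pool.Agent.helper90.LY.DescLoc
import Pool.Agent.helper90.LY.DescDim
import Pool.Agent.helper90.LY.ConstrB
import Pool.Agent.helper90.LY.OcReg
import Pool.Agent.helper90.LY.RelS
import Pool.Agent.helper90.LY.DescFin

open Polynomial IsLocalRing

namespace LY

universe u

variable {k K M : Type u} [Field k] [Field K] [Field M] [Algebra k K] [Algebra k M] [Algebra K M]
  [IsScalarTower k K M]

/-- `x` is a monomial in the `s_i`, `i < r`, times a unit. -/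
def DescFinB.Rep {k M : Type u} [Field k] [Field M] [Algebra k M] (W₁ : ValuationSubring M)
    (A : Subalgebra k M) {n : ℕ} (r : ℕ) (s : Fin n → M) (x : M) : Prop :=
  ∃ (b : Fin n → ℤ) (e : M), e ∈ oc W₁ A ∧ W₁.valuation e = 1 ∧
    x = (∏ i, s i ^ b i) * e ∧ ∀ i : Fin n, r ≤ (i : ℕ) → b i = 0

theorem DescFinB.rep_one {k M : Type u} [Field k] [Field M] [Algebra k M]
    (W₁ : ValuationSubring M) (A : Subalgebra k M) {n : ℕ} (r : ℕ) (s : Fin n → M) :
    DescFinB.Rep W₁ A r s 1 :=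
  ⟨0, 1, one_mem _, map_one _, by simp, fun _ _ => rfl⟩

theorem DescFinB.rep_mul {k M : Type u} [Field k] [Field M] [Algebra k M]
    (W₁ : ValuationSubring M) (A : Subalgebra k M) {n : ℕ} (r : ℕ) (s : Fin n → M)
    (hs0 : ∀ i : Fin n, (i : ℕ) < r → s i ≠ 0) {x y : M} (hx : DescFinB.Rep W₁ A r s x)
    (hy : DescFinB.Rep W₁ A r s y) : DescFinB.Rep W₁ A r s (x * y) := by
  obtain ⟨b, e, he, he1, hxe, hb⟩ := hx
  obtain ⟨b', e', he', he1', hxe', hb'⟩ := hy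
  refine ⟨b + b', e * e', mul_mem he he', by rw [map_mul, he1, he1', one_mul], ?_, fun i hi => ?_⟩
  · have h1 : (∏ i, s i ^ (b + b') i) = (∏ i, s i ^ b i) * ∏ i, s i ^ b' i := by
      rw [← Finset.prod_mul_distrib]
      refine Finset.prod_congr rfl fun i _ => ?_
      rw [Pi.add_apply]
      rcases lt_or_ge (i : ℕ) r with hi | hi
      · exact zpow_add₀ (hs0 i hi) _ _
      · rw [hb i hi, hb' i hi, add_zero, zpow_zero, one_mul]
    rw [h1, hxe, hxe']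
    ring
  · rw [Pi.add_apply, hb i hi, hb' i hi, add_zero]

theorem DescFinB.rep_prod {k M : Type u} [Field k] [Field M] [Algebra k M]
    (W₁ : ValuationSubring M) (A : Subalgebra k M) {n : ℕ} (r : ℕ) (s : Fin n → M)
    (hs0 : ∀ i : Fin n, (i : ℕ) < r → s i ≠ 0) {ι : Type*} (t : Finset ι) (f : ι → M)
    (h : ∀ i ∈ t, DescFinB.Rep W₁ A r s (f i)) : DescFinB.Rep W₁ A r s (∏ i ∈ t, f i) := by
  classical
  induction t using Finset.induction_on with
  | empty =>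
    rw [Finset.prod_empty]
    exact DescFinB.rep_one W₁ A r s
  | insert j t hj ih =>
    rw [Finset.prod_insert hj]
    exact DescFinB.rep_mul W₁ A r s hs0 (h j (Finset.mem_insert_self _ _))
      (ih fun i hi => h i (Finset.mem_insert_of_mem hi))

/-- powers of `H` clear the denominators -/
theorem DescFinB.clear {k M : Type u} [Field k] [Field M] [Algebra k M] (B C : Subalgebra k M)
    (T : Set M) (H : M) (hH : H ∈ B) (hC : ∀ x ∈ C, ∃ e : ℕ, H ^ e * x ∈ B)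
    (hT : ∀ x ∈ T, ∃ e : ℕ, H ^ e * x ∈ B) {z : M} (hz : z ∈ C ⊔ Algebra.adjoin k T) :
    ∃ e : ℕ, H ^ e * z ∈ B := by
  let S : Subalgebra k M :=
    { carrier := {z | ∃ e : ℕ, H ^ e * z ∈ B}
      mul_mem' := by
        rintro x y ⟨e, he⟩ ⟨f, hf⟩
        refine ⟨e + f, ?_⟩
        have h1 : H ^ (e + f) * (x * y) = (H ^ e * x) * (H ^ f * y) := by
          rw [pow_add]
          ring
        rw [h1]
        exact mul_mem he hf
      add_mem' := by
        rintro x y ⟨e, he⟩ ⟨f, hf⟩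
        refine ⟨e + f, ?_⟩
        have h1 : H ^ (e + f) * (x + y) = H ^ f * (H ^ e * x) + H ^ e * (H ^ f * y) := by
          rw [pow_add]
          ring
        rw [h1]
        exact add_mem (mul_mem (pow_mem hH f) he) (mul_mem (pow_mem hH e) hf)
      algebraMap_mem' := fun c => ⟨0, by
        rw [pow_zero, one_mul]
        exact B.algebraMap_mem c⟩ }
  have hle : C ⊔ Algebra.adjoin k T ≤ S := sup_le (fun x hx => hC x hx) (Algebra.adjoin_le hT)
  exact hle hz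

/-- As `desc_fin` (see its docstring), with domination. Choose `L` large (for all the finitely many
approximations: `constrB`, and `approx_chartB` with exponent `2` for the `s_i`), `H₀ ∈ A₀` by
`approx`; `constrB` gives `A₁`, `approx_chartB` gives `s'_i ∈ K` with `s'_i = s_i + π^2 y_i` and
`H₀^e s'_i ∈ A₀`. `A'` = `A₁` with the `s'_i` and `F ∩ W` adjoined; `H₁ = H₀ * ∏ d_x` (`x ∈ F ∩ W`,
`d_x ∈ F ∩ A₀` a denominator). `H₀ = H * unit` is a monomial in the `s_i` (`i < r`) times a unit of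
`R`, so it is treated as the elements of `F`. -/
theorem desc_finB (W : ValuationSubring K) (W₁ : ValuationSubring M)
    (hWW : ∀ x : K, algebraMap K M x ∈ W₁ ↔ x ∈ W) (hW : ∀ c : k, algebraMap k K c ∈ W)
    (P : k[X]) (hP : P.Separable) (θ : M) (hθ : aeval θ P = 0)
    (hθK : IntermediateField.adjoin K {θ} = ⊤) (a : K)
    (hne : algebraMap K M a ≠ θ) (hlt : W₁.valuation (algebraMap K M a - θ) < 1) (r : ℕ)
    (A₀ : Subalgebra k K) (hfg : A₀.FG) (ha : a ∈ A₀) (hA₀ : ∀ x ∈ A₀, x ∈ W)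
    (hfr : IsFractionRing A₀ K) (hmin : ∀ i, (minpoly K θ).coeff i ∈ A₀)
    (A : Subalgebra k M) (hA : ∀ x ∈ A, x ∈ W₁) (G : Finset M)
    (hG : A = lft θ A₀ ⊔ Algebra.adjoin k (G : Set M)) (H : M) (hH : H ∈ lft θ A₀) (hH0 : H ≠ 0)
    (hHG : ∀ g ∈ G, H * g ∈ lft θ A₀) (N : ℕ) (ρ : M) (hρ : ρ ∈ oc W₁ A)
    (hρ1 : W₁.valuation ρ < 1) (hπ : (algebraMap K M a - θ) ^ N = H * ρ) {n : ℕ}
    (s : Fin n → M) (hsA : ∀ i, s i ∈ A) (hs : PG W₁ A s)
    (hdim : (n : WithBot ℕ∞) ≤ ringKrullDim (Localization.AtPrime (LU.center W₁ A hA)))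
    (h0 : ∃ i : Fin n, (i : ℕ) < r)
    (hdiv : ∀ i : Fin n, (i : ℕ) < r → ∃ σ ∈ oc W₁ A, algebraMap K M a - θ = s i * σ)
    (hHM : ∃ (b : Fin n → ℤ) (e : M), e ∈ oc W₁ A ∧ W₁.valuation e = 1 ∧
      H = (∏ i, s i ^ b i) * e ∧ ∀ i : Fin n, r ≤ (i : ℕ) → b i = 0)
    (F : Finset K) (hF : ∀ x ∈ F, x ≠ 0) (hFA : ∀ x ∈ F, x ∈ W → algebraMap K M x ∈ A)
    (hFd : ∀ x ∈ F, x ∈ W → ∃ d ∈ F, d ∈ A₀ ∧ x * d ∈ A₀)
    (hFM : ∀ x ∈ F, ∃ (a : Fin n → ℤ) (e : M), e ∈ oc W₁ A ∧ W₁.valuation e = 1 ∧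
      algebraMap K M x = (∏ i, s i ^ a i) * e ∧ ∀ i : Fin n, r ≤ (i : ℕ) → a i = 0) :
    ∃ (A' : Subalgebra k K) (h : ∀ a ∈ A', a ∈ W) (s' : Fin n → A'),
      A'.FG ∧ IsFractionRing A' K ∧
      IsRegularLocalRing (Localization.AtPrime (LU.center W A' h)) ∧
      ringKrullDim (Localization.AtPrime (LU.center W A' h)) = n ∧
      Ideal.span (Set.range fun i =>
        algebraMap A' (Localization.AtPrime (LU.center W A' h)) (s' i)) =
          maximalIdeal (Localization.AtPrime (LU.center W A' h)) ∧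
      (∀ x ∈ F, x ∈ W → x ∈ A') ∧ (∀ x ∈ F, MonS W A' h s' x) ∧
      ∃ H₁ ∈ A₀, H₁ ≠ 0 ∧ MonS W A' h s' H₁ ∧ ∀ x ∈ A', ∃ e : ℕ, H₁ ^ e * x ∈ A₀ := by
  classical
  have hk : ∀ c : k, algebraMap k M c ∈ W₁ := fun c => by
    rw [IsScalarTower.algebraMap_apply k K M, hWW]
    exact hW c
  have hAA : lft θ A₀ ≤ A := by
    rw [hG]
    exact le_sup_left
  have hP0 : P ≠ 0 := hP.ne_zero
  have hθk : IsIntegral k θ := by
    rw [← isAlgebraic_iff_isIntegral]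
    exact ⟨P, hP0, hθ⟩
  have hint : IsIntegral K θ := hθk.tower_top
  have hθW : θ ∈ W₁ := hA θ (hAA (self_mem_lft θ A₀))
  -- the exponents
  have hclr : ∀ i, ∃ e : ℕ, H ^ e * s i ∈ lft θ A₀ := by
    intro i
    have hz := hsA i
    rw [hG] at hz
    exact DescFin.clear (lft θ A₀) (G : Set M) H hH (fun g hg => hHG g hg) hz
  choose ex hex using hclr
  obtain ⟨L, hL2, hLe⟩ : ∃ L : ℕ, 2 * N ≤ L ∧ ∀ i, N * (ex i + 1) + 2 ≤ L := by
    refine ⟨2 * N + ∑ i, (N * (ex i + 1) + 2), Nat.le_add_right _ _, fun i => ?_⟩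
    exact (Finset.single_le_sum (f := fun i => N * (ex i + 1) + 2) (fun _ _ => Nat.zero_le _)
      (Finset.mem_univ i)).trans (Nat.le_add_left _ _)
  obtain ⟨H₀, hH₀, y₀, hy₀, e₀⟩ := Constr.approxK P hP θ hθ a A₀ ha hH L
  obtain ⟨A₁, hfg₁, hA₀₁, hA₁W, hoc, hdom⟩ := constrB W W₁ hWW hk P hP θ hθ a hne hlt A₀ hfg ha hA₀
    A hA G hG H hH hH0 hHG N ρ hρ hρ1 hπ H₀ hH₀ L hL2 y₀ hy₀ e₀
  have hmin₁ : ∀ i, (minpoly K θ).coeff i ∈ A₁ := fun i => hA₀₁ (hmin i)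
  -- the approximations
  have happ : ∀ i, ∃ (z' : K) (y : M), y ∈ oc W₁ A ∧
      algebraMap K M z' = s i + (algebraMap K M a - θ) ^ 2 * y ∧ H₀ ^ ex i * z' ∈ A₀ := fun i =>
    approx_chartB W W₁ hWW hk P hP θ hθ a hne hlt A₀ ha hA₀ A hA hAA H hH hH0 N ρ hρ hρ1 hπ
      (s i) (hsA i) (ex i) (hex i) 2 H₀ hH₀ L (hLe i) y₀ hy₀ e₀
  choose s' y hy hs' hs'H using happ
  set π := algebraMap K M a - θ with hπd
  have hπA : π ∈ oc W₁ A := le_oc W₁ A (hAA (sub_mem (mem_lft θ A₀ ha) (self_mem_lft θ A₀)))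
  have hπ0 : π ≠ 0 := sub_ne_zero.2 hne
  have hle : ∀ z ∈ oc W₁ A, W₁.valuation z ≤ 1 := fun z hz =>
    (W₁.valuation_le_one_iff _).2 (oc_mem W₁ hA z hz)
  choose! σ hσ hπσ using hdiv
  have hu : ∀ i : Fin n, (i : ℕ) < r → 1 + π * (σ i * y i) ∈ oc W₁ A ∧
      W₁.valuation (1 + π * (σ i * y i)) = 1 ∧
      algebraMap K M (s' i) = s i * (1 + π * (σ i * y i)) ∧ s i ≠ 0 := by
    intro i hi
    obtain ⟨h1, h2, -⟩ := Constr.unit W₁ A hA (mul_mem (hσ i hi) (hy i)) hπA hlt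
    refine ⟨h1, h2, ?_, ?_⟩
    · have h3 := hπσ i hi
      calc algebraMap K M (s' i) = s i + π ^ 2 * y i := hs' i
        _ = s i + π * π * y i := by ring
        _ = s i + π * (s i * σ i) * y i := by rw [← h3]
        _ = s i * (1 + π * (σ i * y i)) := by ring
    · intro h3
      apply hπ0
      rw [hπσ i hi, h3, zero_mul]
  obtain ⟨i₀, hi₀⟩ := h0
  have hpg : PG W₁ A fun i => algebraMap K M (s' i) := by
    obtain ⟨h1, h2, h3, h4⟩ := hu i₀ hi₀
    have h5 : 1 + π * (σ i₀ * y i₀) ≠ 0 := by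
      intro h5
      rw [h5, map_zero] at h2
      exact zero_ne_one h2
    refine DescFin.pg W₁ A hA π hπA hlt s _ y hs hy hs' i₀ ((1 + π * (σ i₀ * y i₀))⁻¹ * σ i₀)
      (mul_mem (oc_inv W₁ h1 h2) (hσ i₀ hi₀)) ?_
    show π = algebraMap K M (s' i₀) * _
    rw [h3, mul_assoc, mul_inv_cancel_left₀ h5]
    exact hπσ i₀ hi₀
  -- the algebra
  have hdesc : ∀ x : K, algebraMap K M x ∈ oc W₁ A → x ∈ oc W A₁ := by
    intro x hx
    rw [← hoc] at hx
    exact desc_mem W W₁ hWW θ hθW hint hθK A₁ hA₁W hmin₁ x hx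
  set T : Finset K := Finset.univ.image s' ∪ F.filter (· ∈ W) with hT
  set A' : Subalgebra k K := A₁ ⊔ Algebra.adjoin k (T : Set K) with hA'
  have hA₁' : A₁ ≤ A' := le_sup_left
  have hTA : ∀ x ∈ T, algebraMap K M x ∈ oc W₁ A := by
    intro x hx
    rw [hT, Finset.mem_union, Finset.mem_image, Finset.mem_filter] at hx
    rcases hx with ⟨i, -, rfl⟩ | ⟨h1, h2⟩
    · exact hpg.1 i
    · exact le_oc W₁ A (hFA x h1 h2)
  have hTA' : ∀ x ∈ T, x ∈ A' := fun x hx =>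
    (le_sup_right : _ ≤ A') (Algebra.subset_adjoin hx)
  have hs'A' : ∀ i, s' i ∈ A' := fun i => hTA' _ (by
    rw [hT]
    exact Finset.mem_union_left _ (Finset.mem_image_of_mem _ (Finset.mem_univ i)))
  have hFA' : ∀ x ∈ F, x ∈ W → x ∈ A' := fun x hx hxW => hTA' _ (by
    rw [hT]
    exact Finset.mem_union_right _ (Finset.mem_filter.2 ⟨hx, hxW⟩))
  have hA'oc : A' ≤ oc W A₁ :=
    sup_le (le_oc W A₁) (Algebra.adjoin_le fun x hx => hdesc x (hTA x hx))
  have hocK : oc W A' = oc W A₁ := le_antisymm (oc_le W hA'oc) (oc_mono W hA₁')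
  have hA'W : ∀ x ∈ A', x ∈ W := fun x hx => oc_mem W hA₁W x (hA'oc hx)
  have hmin' : ∀ i, (minpoly K θ).coeff i ∈ A' := fun i => hA₁' (hmin₁ i)
  have hocM : oc W₁ (lft θ A') = oc W₁ A := by
    refine le_antisymm (oc_le W₁ ?_) ?_
    · refine sup_le ?_ (Algebra.adjoin_le ?_)
      · have h1 : A' ≤ (oc W₁ A).comap (IsScalarTower.toAlgHom k K M) := by
          refine sup_le (fun x hx => ?_) (Algebra.adjoin_le fun x hx => hTA x hx)
          show algebraMap K M x ∈ oc W₁ A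
          rw [← hoc]
          exact le_oc W₁ _ (mem_lft θ A₁ hx)
        rintro _ ⟨x, hx, rfl⟩
        exact h1 hx
      · intro x hx
        rw [Set.mem_singleton_iff.1 hx]
        exact le_oc W₁ A (hAA (self_mem_lft θ A₀))
    · rw [← hoc]
      exact oc_mono W₁ (lft_mono θ hA₁')
  have hlW : ∀ x ∈ lft θ A', x ∈ W₁ := fun x hx => by
    have h1 := le_oc W₁ _ hx
    rw [hocM] at h1
    exact oc_mem W₁ hA x h1
  have hpg' : PG W₁ (lft θ A') fun i => algebraMap K M (s' i) := by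
    unfold PG
    rw [hocM]
    exact hpg
  have hPG : PG W A' s' := desc_pg W W₁ hWW θ hθW hint hθK A' hA'W hmin' s' hpg'
  have hfg' : A'.FG := hfg₁.sup ⟨T, rfl⟩
  have hdim' : (n : WithBot ℕ∞) ≤
      ringKrullDim (Localization.AtPrime (LU.center W A' hA'W)) := by
    refine le_trans ?_ (desc_dim W W₁ hWW θ A' hA'W hlW P hP0 hθ)
    rw [dim_oc W₁ (lft θ A') A hlW hA hocM]
    exact hdim
  have hreg := reg_of_pg W A' hA'W hfg' (fun i => ⟨s' i, hs'A' i⟩) hPG hdim'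
  -- monomials
  have hmon : ∀ x : K, DescFinB.Rep W₁ A r s (algebraMap K M x) →
      MonS W A' hA'W (fun i => ⟨s' i, hs'A' i⟩) x := by
    rintro x ⟨b, e, he, he1, hxe, hb⟩
    obtain ⟨w, hw, hw1, hxw⟩ := DescFin.unit W₁ A r s (fun i => algebraMap K M (s' i))
      (fun i => 1 + π * (σ i * y i)) hu b hb e he he1
    have hprod0 : (∏ i, s' i ^ b i) ≠ 0 := by
      refine Finset.prod_ne_zero_iff.2 fun i _ => ?_
      by_cases hi : (i : ℕ) < r
      · refine zpow_ne_zero _ ?_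
        obtain ⟨h1, h2, h3, h4⟩ := hu i hi
        intro h5
        rw [h5, map_zero] at h3
        rcases mul_eq_zero.1 h3.symm with h6 | h6
        · exact h4 h6
        · rw [h6, map_zero] at h2
          exact zero_ne_one h2
      · rw [hb i (not_lt.1 hi), zpow_zero]
        exact one_ne_zero
    have hmap : algebraMap K M (∏ i, s' i ^ b i) = ∏ i, algebraMap K M (s' i) ^ b i := by
      rw [map_prod]
      exact Finset.prod_congr rfl fun i _ => map_zpow₀ _ _ _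
    have hprod0' : (∏ i, algebraMap K M (s' i) ^ b i) ≠ 0 := by
      rw [← hmap, ne_eq, map_eq_zero]
      exact hprod0
    have hwK : algebraMap K M (x / ∏ i, s' i ^ b i) = w := by
      rw [map_div₀, hmap, hxe, hxw, mul_div_cancel_left₀ _ hprod0']
    have hwoc : x / ∏ i, s' i ^ b i ∈ oc W A' := by
      rw [hocK]
      refine hdesc _ ?_
      rw [hwK]
      exact hw
    have hwval : W.valuation (x / ∏ i, s' i ^ b i) = 1 := by
      refine le_antisymm ?_ (not_lt.1 fun h1 => ?_)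
      · rw [W.valuation_le_one_iff]
        exact oc_mem W hA'W _ hwoc
      · rw [← DescLoc_lt W W₁ hWW, hwK, hw1] at h1
        exact lt_irrefl _ h1
    obtain ⟨c, hc, d, hd, hd1, hcd⟩ := hwoc
    refine ⟨b, ⟨c, hc⟩, ⟨d, hd⟩, ?_, ?_, ?_⟩
    · rw [OcReg_mem_center, not_lt]
      show 1 ≤ W.valuation c
      rw [← hcd, map_mul, hwval, hd1, one_mul]
    · rw [OcReg_mem_center, not_lt]
      show 1 ≤ W.valuation d
      rw [hd1]
    · show x * d = (∏ i, s' i ^ b i) * c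
      rw [← hcd, ← mul_assoc, mul_div_cancel₀ _ hprod0]
  -- the denominator
  obtain ⟨hw, hw1, hw0⟩ := Constr.unit W₁ A hA
    (mul_mem (pow_mem hπA (L - N)) (le_oc W₁ A (hAA hy₀))) hρ hρ1
  have eH : algebraMap K M H₀ = H * (1 + ρ * (π ^ (L - N) * y₀)) := by
    have h1 : π ^ L = π ^ N * π ^ (L - N) := by
      rw [← pow_add, Nat.add_sub_cancel' (by omega)]
    rw [e₀, h1, hπ]
    ring
  have hH₀0 : H₀ ≠ 0 := by
    intro h1
    rw [h1, map_zero] at eH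
    exact mul_ne_zero hH0 hw0 eH.symm
  have hH₀M : DescFinB.Rep W₁ A r s (algebraMap K M H₀) := by
    obtain ⟨b, e, he, he1, hHe, hb⟩ := hHM
    refine ⟨b, e * (1 + ρ * (π ^ (L - N) * y₀)), mul_mem he hw, ?_, ?_, hb⟩
    · rw [map_mul, he1, hw1, one_mul]
    · rw [eH, ← mul_assoc (∏ i, s i ^ b i) e, ← hHe]
  choose! d hdF hdA hdx using hFd
  have hdA' : ∀ x ∈ F.filter (· ∈ W), d x ∈ A₀ := fun x hx =>
    hdA x (Finset.mem_filter.1 hx).1 (Finset.mem_filter.1 hx).2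
  have hdF' : ∀ x ∈ F.filter (· ∈ W), d x ∈ F := fun x hx =>
    hdF x (Finset.mem_filter.1 hx).1 (Finset.mem_filter.1 hx).2
  have hDA : (∏ x ∈ F.filter (· ∈ W), d x) ∈ A₀ := Subalgebra.prod_mem _ hdA'
  have hH₁A : H₀ * ∏ x ∈ F.filter (· ∈ W), d x ∈ A₀ := mul_mem hH₀ hDA
  refine ⟨A', hA'W, fun i => ⟨s' i, hs'A' i⟩, hfg', DescFin.frac (hA₀₁.trans hA₁') hfr, hreg.1,
    hreg.2, (pg_iff W A' hA'W fun i => ⟨s' i, hs'A' i⟩).2 hPG, hFA', fun x hx => hmon x (hFM x hx),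
    H₀ * ∏ x ∈ F.filter (· ∈ W), d x, hH₁A, ?_, hmon _ ?_, ?_⟩
  · exact mul_ne_zero hH₀0 (Finset.prod_ne_zero_iff.2 fun x hx => hF _ (hdF' x hx))
  · rw [map_mul, map_prod]
    exact DescFinB.rep_mul W₁ A r s (fun i hi => (hu i hi).2.2.2) hH₀M
      (DescFinB.rep_prod W₁ A r s (fun i hi => (hu i hi).2.2.2) _ _ fun x hx => hFM _ (hdF' x hx))
  · intro x hx
    have hpow : ∀ (z : K) (e : ℕ), H₀ ^ e * z ∈ A₀ →
        (H₀ * ∏ x ∈ F.filter (· ∈ W), d x) ^ e * z ∈ A₀ := by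
      intro z e hz
      have h1 : (H₀ * ∏ x ∈ F.filter (· ∈ W), d x) ^ e * z =
          (∏ x ∈ F.filter (· ∈ W), d x) ^ e * (H₀ ^ e * z) := by
        rw [mul_pow]
        ring
      rw [h1]
      exact mul_mem (pow_mem hDA e) hz
    refine DescFinB.clear A₀ A₁ (T : Set K) _ hH₁A (fun z hz => ?_) (fun z hz => ?_) hx
    · obtain ⟨e, he⟩ := hdom z hz
      exact ⟨e, hpow z e he⟩
    · rw [Finset.mem_coe, hT, Finset.mem_union, Finset.mem_image] at hz
      rcases hz with ⟨i, -, rfl⟩ | hz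
      · exact ⟨ex i, hpow _ _ (hs'H i)⟩
      · refine ⟨1, ?_⟩
        have h1 : (H₀ * ∏ x ∈ F.filter (· ∈ W), d x) ^ 1 * z =
            H₀ * (∏ x ∈ (F.filter (· ∈ W)).erase z, d x) * (z * d z) := by
          rw [← Finset.mul_prod_erase _ _ hz, pow_one]
          ring
        rw [h1]
        exact mul_mem (mul_mem hH₀ (Subalgebra.prod_mem _ fun x hx =>
          hdA' x (Finset.mem_of_mem_erase hx)))
          (hdx z (Finset.mem_filter.1 hz).1 (Finset.mem_filter.1 hz).2)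

end LY
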