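import Pool.Agent.helper90.LY.Model
import Pool.Agent.helper90.LY.DescDataB
import Pool.Agent.helper90.LY.DescFinB

open Polynomial IsLocalRing

namespace LY

universe u

variable {k K M : Type u} [Field k] [Field K] [Field M] [Algebra k K] [Algebra k M] [Algebra K M]
  [IsScalarTower k K M]

/-- Descent of relative strong local uniformization from `M = K(θ)` to `K`, where `θ` is algebraic and
separable over `k` and `a ∈ K` is close to `θ`. -/
theorem desc_rel [Algebra.EssFiniteType k K] (W : ValuationSubring K) (W₁ : ValuationSubring M)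
    (hWW : ∀ x : K, algebraMap K M x ∈ W₁ ↔ x ∈ W) (hW : ∀ c : k, algebraMap k K c ∈ W)
    (P : k[X]) (hP : P.Separable) (θ : M) (hθ : aeval θ P = 0)
    (hθK : IntermediateField.adjoin K {θ} = ⊤) (a : K) (haW : a ∈ W)
    (hne : algebraMap K M a ≠ θ) (hlt : W₁.valuation (algebraMap K M a - θ) < 1) (r : ℕ)
    (h : RelU (IntermediateField.adjoin k {θ}) W₁ r) : RelS k W := by
  classical
  have hk : ∀ c : k, algebraMap k M c ∈ W₁ := fun c => by
    rw [IsScalarTower.algebraMap_apply k K M, hWW]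
    exact hW c
  have hP0 : P ≠ 0 := hP.ne_zero
  obtain ⟨B, hB⟩ := h
  -- the model over `k`
  obtain ⟨A₀, hA₀fg, hA₀W, hA₀fr, hA₀T⟩ := exists_model W hW
    (insert a ((Finset.range ((minpoly K θ).natDegree + 1)).image (minpoly K θ).coeff)) (by
      intro x hx
      rcases Finset.mem_insert.1 hx with rfl | hx
      · exact haW
      · obtain ⟨i, -, rfl⟩ := Finset.mem_image.1 hx
        exact minpoly_mem W hW P hP0 θ hθ i)
  have ha : a ∈ A₀ := hA₀T _ (Finset.mem_insert_self _ _)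
  have hmin : ∀ i, (minpoly K θ).coeff i ∈ A₀ := by
    intro i
    by_cases hi : i ≤ (minpoly K θ).natDegree
    · refine hA₀T _ (Finset.mem_insert_of_mem (Finset.mem_image.2 ⟨i, ?_, rfl⟩))
      rw [Finset.mem_range]
      omega
    · rw [Polynomial.coeff_eq_zero_of_natDegree_lt (not_le.1 hi)]
      exact zero_mem _
  obtain ⟨T₀, hT₀⟩ := hA₀fg
  -- common denominator
  obtain ⟨Δ, hΔ, hΔ0, hΔB⟩ : ∃ Δ ∈ lft θ A₀, Δ ≠ 0 ∧ ∀ b ∈ B, Δ * b ∈ lft θ A₀ := by
    clear hB
    induction B using Finset.induction_on with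
    | empty => exact ⟨1, one_mem _, one_ne_zero, fun b hb => absurd hb (Finset.notMem_empty b)⟩
    | insert b B hb ih =>
      obtain ⟨Δ, h1, h2, h3⟩ := ih
      obtain ⟨n, hn, d, hd, hd0, hnd⟩ := frac_lft A₀ hA₀fr P hP0 θ hθ hθK b
      refine ⟨Δ * d, mul_mem h1 hd, mul_ne_zero h2 hd0, fun c hc => ?_⟩
      rcases Finset.mem_insert.1 hc with rfl | hc
      · rw [show Δ * d * c = Δ * (c * d) by ring, hnd]
        exact mul_mem h1 hn
      · rw [show Δ * d * c = d * (Δ * c) by ring]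
        exact mul_mem hd (h3 c hc)
  refine ⟨T₀, fun F₀ hF₀ => ?_⟩
  rw [hT₀]
  -- denominators of the elements of `F₀`
  have hfrac : ∀ x : K, ∃ d ∈ A₀, d ≠ 0 ∧ x * d ∈ A₀ := by
    intro x
    obtain ⟨n, d, hd, hnd⟩ := IsFractionRing.div_surjective (A := A₀) x
    have hd0 : ((d : A₀) : K) ≠ 0 := fun h0 => nonZeroDivisors.ne_zero hd (Subtype.ext h0)
    refine ⟨d, d.2, hd0, ?_⟩
    rw [← hnd]
    change (n : K) / (d : K) * (d : K) ∈ A₀
    rw [div_mul_cancel₀ _ hd0]
    exact n.2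
  choose dn hdn1 hdn2 hdn3 using hfrac
  obtain ⟨F, hFdef⟩ : ∃ F : Finset K, F = F₀ ∪ F₀.image dn := ⟨_, rfl⟩
  have hF : ∀ x ∈ F, x ≠ 0 := by
    intro x hx
    rw [hFdef, Finset.mem_union, Finset.mem_image] at hx
    rcases hx with hx | ⟨y, -, rfl⟩
    · exact hF₀ x hx
    · exact hdn2 y
  have hF₀F : ∀ x ∈ F₀, x ∈ F := fun x hx => by
    rw [hFdef]
    exact Finset.mem_union_left _ hx
  have hFd : ∀ x ∈ F, x ∈ W → ∃ d ∈ F, d ∈ A₀ ∧ x * d ∈ A₀ := by
    intro x hx _
    rw [hFdef, Finset.mem_union, Finset.mem_image] at hx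
    rcases hx with hx | ⟨y, hy, rfl⟩
    · refine ⟨dn x, ?_, hdn1 x, hdn3 x⟩
      rw [hFdef]
      exact Finset.mem_union_right _ (Finset.mem_image_of_mem _ hx)
    · refine ⟨dn y, ?_, hdn1 y, mul_mem (hdn1 y) (hdn1 y)⟩
      rw [hFdef]
      exact Finset.mem_union_right _ (Finset.mem_image_of_mem _ hy)
  set π : M := algebraMap K M a - θ with hπ
  have hπ0 : π ≠ 0 := sub_ne_zero.2 hne
  obtain ⟨AC, hAC, n, s, hACfg, hACfr, hACreg, hACdim, hACs, hACF, hACM, H, hH, hH0, hHM, hHA⟩ :=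
    hB (insert Δ (insert π (((F ∪ T₀).filter (fun x => x ≠ 0)).image (algebraMap K M)))) (by
      intro x hx
      rcases Finset.mem_insert.1 hx with rfl | hx
      · exact hΔ0
      rcases Finset.mem_insert.1 hx with rfl | hx
      · exact hπ0
      obtain ⟨y, hy, rfl⟩ := Finset.mem_image.1 hx
      rw [Ne, map_eq_zero]
      exact (Finset.mem_filter.1 hy).2)
  have hθAC : θ ∈ AC := AC.algebraMap_mem
    (⟨θ, IntermediateField.mem_adjoin_simple_self k θ⟩ : IntermediateField.adjoin k {θ})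
  have hT₀AC : ∀ x ∈ T₀, algebraMap K M x ∈ AC := by
    intro x hx
    by_cases hx0 : x = 0
    · rw [hx0, map_zero]
      exact zero_mem _
    · refine hACF _ (Finset.mem_insert_of_mem (Finset.mem_insert_of_mem
        (Finset.mem_image_of_mem _ (Finset.mem_filter.2 ⟨Finset.mem_union_right _ hx, hx0⟩)))) ?_
      rw [hWW]
      refine hA₀W _ ?_
      rw [← hT₀]
      exact Algebra.subset_adjoin hx
  have hgen : lft θ A₀ ≤ AC.restrictScalars k := by
    refine sup_le ?_ ?_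
    · rw [← hT₀, AlgHom.map_adjoin, Algebra.adjoin_le_iff]
      rintro _ ⟨x, hx, rfl⟩
      exact hT₀AC x hx
    · rw [Algebra.adjoin_le_iff, Set.singleton_subset_iff]
      exact hθAC
  have hs1 : ∀ i, W₁.valuation ((s i : AC) : M) < 1 := by
    intro i
    have h1 : algebraMap AC (Localization.AtPrime (LU.center W₁ AC hAC)) (s i) ∈
        maximalIdeal (Localization.AtPrime (LU.center W₁ AC hAC)) := by
      rw [← hACs]
      exact Ideal.subset_span ⟨i, rfl⟩
    have h2 : s i ∈ LU.center W₁ AC hAC := by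
      have h3 : s i ∈ Ideal.under AC
          (maximalIdeal (Localization.AtPrime (LU.center W₁ AC hAC))) := h1
      rwa [IsLocalization.AtPrime.under_maximalIdeal _ (LU.center W₁ AC hAC)] at h3
    exact (W₁.valuation_lt_one_iff _).1 h2
  obtain ⟨G, H₂, N, ρ, hG, hH₂, hH₂0, hH₂G, hρ, hρ1, hπN, h0, hdiv, hHM⟩ :=
    desc_dataB W₁ hk P hP0 θ hθ A₀ π hπ0 hlt B Δ hΔ hΔ0 hΔB r AC hAC s hACfg hgen hs1
      (hACM _ (Finset.mem_insert_self _ _))
      (hACM _ (Finset.mem_insert_of_mem (Finset.mem_insert_self _ _))) H hH hH0 hHM hHA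
  have hA : ∀ x ∈ AC.restrictScalars k, x ∈ W₁ := hAC
  have hPG : PG W₁ (AC.restrictScalars k) fun i => ((s i : AC) : M) :=
    (pg_iff W₁ AC hAC s).1 hACs
  have hdim : (n : WithBot ℕ∞) ≤
      ringKrullDim (Localization.AtPrime (LU.center W₁ (AC.restrictScalars k) hA)) :=
    hACdim.ge
  obtain ⟨A', h', s', h1, h2, h3, h4, h5, h6, h7, h8⟩ := desc_finB W W₁ hWW hW P hP θ hθ hθK a hne hlt r
    A₀ ⟨T₀, hT₀⟩ ha hA₀W hA₀fr hmin (AC.restrictScalars k) hA G hG H₂ hH₂ hH₂0 hH₂G N ρ hρ hρ1 hπN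
    (fun i => ((s i : AC) : M)) (fun i => (s i).2) hPG hdim h0 hdiv hHM F hF (by
      intro x hx hxW
      exact hACF _ (Finset.mem_insert_of_mem (Finset.mem_insert_of_mem (Finset.mem_image_of_mem _
        (Finset.mem_filter.2 ⟨Finset.mem_union_left _ hx, hF x hx⟩)))) ((hWW x).2 hxW)) hFd (by
      intro x hx
      obtain ⟨b, N', D', hN, hD, he, hb, -⟩ := hACM _ (Finset.mem_insert_of_mem
        (Finset.mem_insert_of_mem (Finset.mem_image_of_mem (algebraMap K M)
        (Finset.mem_filter.2 ⟨Finset.mem_union_left _ hx, hF x hx⟩))))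
      have hval : ∀ z : AC, z ∉ LU.center W₁ AC hAC → W₁.valuation (z : M) = 1 := by
        intro z hz
        refine le_antisymm ((W₁.valuation_le_one_iff _).2 (hAC z z.2)) (not_lt.1 fun hlt' => hz ?_)
        exact (W₁.valuation_lt_one_iff (⟨(z : M), hAC z z.2⟩ : W₁)).2 hlt'
      have hD1 := hval D' hD
      have hD0 : ((D' : AC) : M) ≠ 0 := by
        intro h0'
        rw [h0', map_zero] at hD1
        exact zero_ne_one hD1
      refine ⟨b, (N' : M) / (D' : M), ⟨N', N'.2, D', D'.2, hD1, div_mul_cancel₀ _ hD0⟩, ?_, ?_, hb⟩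
      · rw [map_div₀, hval N' hN, hD1, div_one]
      · rw [mul_div_assoc', eq_div_iff hD0]
        exact he)
  exact ⟨A', h', n, s', h1, h2, h3, h4, h5, fun x hx hxW => h6 x (hF₀F x hx) hxW,
    fun x hx => h7 x (hF₀F x hx), h8⟩

end LY
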