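import Pool.Agent.helper90.LY.CompLoc
import Pool.Agent.helper90.LY.RelS

open IsLocalRing

namespace LY

universe u

variable {k K : Type u} [Field k] [Field K] [Algebra k K]

/-- the maximal ideal is generated by generators of the kernel and lifts of generators -/
theorem CompLocB.span_eq {R S : Type u} [CommRing R] [IsLocalRing R] [CommRing S] [IsLocalRing S]
    (ψ : R →+* S) (hψ : Function.Surjective ψ) (J : Ideal R) (hk : RingHom.ker ψ ≤ J)
    (hJ : J.map ψ = maximalIdeal S) : J = maximalIdeal R := by
  have : IsLocalHom ψ := IsLocalHom.of_surjective ψ hψ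
  have h1 := Ideal.comap_map_of_surjective ψ hψ J
  rw [hJ, maximalIdeal_comap, ← RingHom.ker_eq_comap_bot, sup_eq_left.2 hk] at h1
  exact h1.symm

/-- Parameters of the composite chart: `s'` and lifts `w'` of parameters of `B`. -/
theorem comp_locB (W W₁ : ValuationSubring K)
    (κ : Type u) [Field κ] [Algebra k κ] (W' : ValuationSubring κ)
    (D : Comp (k := k) W W₁ κ W') (B : Subalgebra k κ) (hB : ∀ b ∈ B, b ∈ W')
    (hBreg : IsRegularLocalRing (Localization.AtPrime (LU.center W' B hB)))
    (C : Subalgebra k K) (hC : ∀ c ∈ C, c ∈ W) (hC₁ : ∀ c ∈ C, c ∈ W₁) (hfg : C.FG)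
    (m : ℕ) (s' : Fin m → C) (hs : Ideal.span (Set.range s') = LU.center W₁ C hC₁)
    (hdim : ringKrullDim (Localization.AtPrime (LU.center W₁ C hC₁)) = m)
    (hBC : ∀ b : κ, b ∈ B ↔ ∃ c : C, D.π ⟨(c : K), hC₁ c c.2⟩ = b)
    (l : ℕ) (w : Fin l → B) (hdimB : ringKrullDim (Localization.AtPrime (LU.center W' B hB)) = l)
    (hw : Ideal.span (Set.range fun i =>
      algebraMap B (Localization.AtPrime (LU.center W' B hB)) (w i)) =
        maximalIdeal (Localization.AtPrime (LU.center W' B hB)))
    (w' : Fin l → C) (hw' : ∀ j, D.π ⟨(w' j : K), hC₁ _ (w' j).2⟩ = w j) :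
    IsRegularLocalRing (Localization.AtPrime (LU.center W C hC)) ∧
      ringKrullDim (Localization.AtPrime (LU.center W C hC)) = (m + l : ℕ) ∧
      Ideal.span (Set.range fun i => algebraMap C (Localization.AtPrime (LU.center W C hC))
        (Fin.append s' w' i)) = maximalIdeal (Localization.AtPrime (LU.center W C hC)) := by
  have hreg : IsRegularLocalRing (Localization.AtPrime (LU.center W C hC)) :=
    comp_loc W W₁ κ W' D B hB hBreg C hC hC₁ hfg m s' hs hdim.ge hBC
  -- the residue map on `C`
  let φ : C →+* B :=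
    { toFun := fun c => ⟨D.π ⟨(c : K), hC₁ c c.2⟩, (hBC _).2 ⟨c, rfl⟩⟩
      map_one' := by
        ext
        exact map_one D.π
      map_mul' := fun a b => by
        ext
        exact map_mul D.π ⟨(a : K), hC₁ a a.2⟩ ⟨(b : K), hC₁ b b.2⟩
      map_zero' := by
        ext
        exact map_zero D.π
      map_add' := fun a b => by
        ext
        exact map_add D.π ⟨(a : K), hC₁ a a.2⟩ ⟨(b : K), hC₁ b b.2⟩ }
  have hφ : Function.Surjective φ := by
    intro b
    obtain ⟨c, hc⟩ := (hBC b).1 b.2
    exact ⟨c, Subtype.ext hc⟩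
  have hker : RingHom.ker φ = LU.center W₁ C hC₁ := by
    ext c
    rw [RingHom.mem_ker, CompLoc.mem_center, ← D.ker ⟨(c : K), hC₁ c c.2⟩]
    exact Subtype.ext_iff
  have hcom : LU.center W C hC = (LU.center W' B hB).comap φ := by
    ext c
    rw [Ideal.mem_comap, CompLoc.mem_center, CompLoc.mem_center]
    exact (CompLoc.val_lt W W₁ κ W' D ⟨(c : K), hC₁ c c.2⟩).symm
  obtain ⟨hsur, hk⟩ := CompLoc.loc_surj φ hφ (LU.center W C hC) (LU.center W' B hB) hcom
  rw [hker] at hk
  set ψ := Localization.localRingHom (LU.center W C hC) (LU.center W' B hB) φ hcom with hψ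
  set P := (LU.center W₁ C hC₁).map (algebraMap C (Localization.AtPrime (LU.center W C hC)))
    with hP
  have hle : LU.center W₁ C hC₁ ≤ LU.center W C hC := by
    rw [← hker, hcom, RingHom.ker_eq_comap_bot]
    exact Ideal.comap_mono bot_le
  have hPprime : P.IsPrime := by
    rw [← hk]
    exact RingHom.ker_isPrime ψ
  have hPh : P.height = (LU.center W₁ C hC₁).height := by
    refine IsLocalization.height_map_of_disjoint (LU.center W C hC).primeCompl _ ?_
    rw [Set.disjoint_left]
    intro a ha hb
    exact ha (hle hb)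
  have hφs : ∀ i, φ (s' i) = 0 := by
    intro i
    rw [← RingHom.mem_ker, hker, ← hs]
    exact Ideal.subset_span ⟨i, rfl⟩
  have hφw : ∀ j, φ (w' j) = w j := fun j => Subtype.ext (hw' j)
  -- the generators
  set J := Ideal.span (Set.range fun i => algebraMap C
    (Localization.AtPrime (LU.center W C hC)) (Fin.append s' w' i)) with hJ
  have hJs : ∀ i, algebraMap C (Localization.AtPrime (LU.center W C hC)) (s' i) ∈ J := by
    intro i
    refine Ideal.subset_span ⟨Fin.castAdd l i, ?_⟩
    simp only [Fin.append_left]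
  have hJw : ∀ j, algebraMap C (Localization.AtPrime (LU.center W C hC)) (w' j) ∈ J := by
    intro j
    refine Ideal.subset_span ⟨Fin.natAdd m j, ?_⟩
    simp only [Fin.append_right]
  have hPJ : P ≤ J := by
    rw [hP, ← hs, Ideal.map_span, Ideal.span_le]
    rintro _ ⟨_, ⟨i, rfl⟩, rfl⟩
    exact hJs i
  have hmap : J.map ψ = maximalIdeal (Localization.AtPrime (LU.center W' B hB)) := by
    apply le_antisymm
    · rw [hJ, Ideal.map_span, Ideal.span_le]
      rintro _ ⟨_, ⟨i, rfl⟩, rfl⟩
      show ψ (algebraMap C _ (Fin.append s' w' i)) ∈ _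
      rw [hψ, Localization.localRingHom_to_map]
      refine Fin.addCases (fun i => ?_) (fun j => ?_) i
      · rw [Fin.append_left, hφs, map_zero]
        exact zero_mem _
      · rw [Fin.append_right, hφw, ← hw]
        exact Ideal.subset_span ⟨j, rfl⟩
    · rw [← hw, Ideal.span_le]
      rintro _ ⟨j, rfl⟩
      show algebraMap B (Localization.AtPrime (LU.center W' B hB)) (w j) ∈ _
      rw [← hφw, ← Localization.localRingHom_to_map (LU.center W C hC) (LU.center W' B hB) φ hcom]
      exact Ideal.mem_map_of_mem _ (hJw j)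
  have hJm : J = maximalIdeal (Localization.AtPrime (LU.center W C hC)) :=
    CompLocB.span_eq ψ hsur J (hk.le.trans hPJ) hmap
  refine ⟨hreg, le_antisymm ?_ ?_, hJm⟩
  · rw [← hreg.spanFinrank_maximalIdeal, ← hJm, hJ]
    have h1 := Submodule.spanFinrank_span_le_ncard_of_finite
      (R := Localization.AtPrime (LU.center W C hC)) (Set.finite_range fun i => algebraMap C
      (Localization.AtPrime (LU.center W C hC)) (Fin.append s' w' i))
    have h2 := Set.ncard_image_le (f := fun i => algebraMap C
      (Localization.AtPrime (LU.center W C hC)) (Fin.append s' w' i))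
      (Set.finite_univ (α := Fin (m + l)))
    rw [Set.image_univ, Set.ncard_univ, Nat.card_eq_fintype_card, Fintype.card_fin] at h2
    exact_mod_cast h1.trans h2
  · have h1 := CompReg.dim_ge P
    have h2 : ringKrullDim (Localization.AtPrime (LU.center W C hC) ⧸ P) = l := by
      rw [← hdimB]
      exact ringKrullDim_eq_of_ringEquiv
        ((Ideal.quotEquivOfEq hk).symm.trans (RingHom.quotientKerEquivOfSurjective hsur))
    rw [hPh, h2] at h1
    rw [IsLocalization.AtPrime.ringKrullDim_eq_height (LU.center W₁ C hC₁)] at hdim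
    rw [hdim] at h1
    exact_mod_cast h1

end LY
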