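import Pool.Agent.helper90.LY.Defs

open IsLocalRing

namespace LY

universe u

variable {k K : Type u} [Field k] [Field K] [Algebra k K]

/-- an element of the algebra lies outside the centre iff its value is one -/
theorem DimEq_notMem (W₁ : ValuationSubring K) (A : Subalgebra k K) (hA : ∀ a ∈ A, a ∈ W₁)
    (a : A) : a ∉ LU.center W₁ A hA ↔ W₁.valuation (a : K) = 1 := by
  have h0 : a ∈ LU.center W₁ A hA ↔ W₁.valuation (a : K) < 1 := by
    unfold LU.center
    rw [Ideal.mem_comap]
    have := ValuationSubring.valuation_lt_one_iff W₁ (LU.toV W₁ A hA a)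
    rw [this]
    rfl
  have h1 : W₁.valuation (a : K) ≤ 1 := (ValuationSubring.valuation_le_one_iff W₁ _).2
    (hA a a.2)
  rw [h0, not_lt]
  exact ⟨fun h => le_antisymm h1 h, fun h => h.ge⟩

/-- the map of the local ring at the centre to the field -/
noncomputable def DimEq_phi (W₁ : ValuationSubring K) (A : Subalgebra k K)
    (hA : ∀ a ∈ A, a ∈ W₁) : Localization.AtPrime (LU.center W₁ A hA) →+* K :=
  IsLocalization.lift (M := (LU.center W₁ A hA).primeCompl)
    (S := Localization.AtPrime (LU.center W₁ A hA)) (g := (A.val : A →+* K)) (by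
      intro y
      have hy : W₁.valuation ((y : A) : K) = 1 := (DimEq_notMem W₁ A hA y).1 y.2
      have : ((y : A) : K) ≠ 0 := by
        intro h0
        rw [h0, map_zero] at hy
        exact zero_ne_one hy
      exact IsUnit.mk0 _ this)

theorem DimEq_phi_mk (W₁ : ValuationSubring K) (A : Subalgebra k K)
    (hA : ∀ a ∈ A, a ∈ W₁) (a : A) (b : (LU.center W₁ A hA).primeCompl) :
    DimEq_phi W₁ A hA (IsLocalization.mk' _ a b) * ((b : A) : K) = (a : K) := by
  unfold DimEq_phi
  rw [mul_comm]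
  have := (IsLocalization.lift_mk'_spec (M := (LU.center W₁ A hA).primeCompl)
    (S := Localization.AtPrime (LU.center W₁ A hA)) (g := (A.val : A →+* K)) (hg := by
      intro y
      have hy : W₁.valuation ((y : A) : K) = 1 := (DimEq_notMem W₁ A hA y).1 y.2
      have : ((y : A) : K) ≠ 0 := by
        intro h0
        rw [h0, map_zero] at hy
        exact zero_ne_one hy
      exact IsUnit.mk0 _ this) a
      (IsLocalization.lift (M := (LU.center W₁ A hA).primeCompl)
    (S := Localization.AtPrime (LU.center W₁ A hA)) (g := (A.val : A →+* K)) (by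
      intro y
      have hy : W₁.valuation ((y : A) : K) = 1 := (DimEq_notMem W₁ A hA y).1 y.2
      have : ((y : A) : K) ≠ 0 := by
        intro h0
        rw [h0, map_zero] at hy
        exact zero_ne_one hy
      exact IsUnit.mk0 _ this) (IsLocalization.mk' _ a b)) b).1 rfl
  exact this.symm

theorem DimEq_ne_zero (W₁ : ValuationSubring K) (A : Subalgebra k K)
    (hA : ∀ a ∈ A, a ∈ W₁) (b : (LU.center W₁ A hA).primeCompl) : ((b : A) : K) ≠ 0 := by
  have hy : W₁.valuation ((b : A) : K) = 1 := (DimEq_notMem W₁ A hA b).1 b.2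
  intro h0
  rw [h0, map_zero] at hy
  exact zero_ne_one hy

theorem DimEq_injective (W₁ : ValuationSubring K) (A : Subalgebra k K)
    (hA : ∀ a ∈ A, a ∈ W₁) : Function.Injective (DimEq_phi W₁ A hA) := by
  rw [injective_iff_map_eq_zero]
  intro x hx
  obtain ⟨a, b, rfl⟩ := IsLocalization.exists_mk'_eq (LU.center W₁ A hA).primeCompl x
  have h := DimEq_phi_mk W₁ A hA a b
  rw [hx, zero_mul] at h
  have ha : a = 0 := by
    apply Subtype.ext
    exact h.symm
  rw [ha, IsLocalization.mk'_zero]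

theorem DimEq_range_le (W₁ : ValuationSubring K) (A C : Subalgebra k K)
    (hA : ∀ a ∈ A, a ∈ W₁) (hC : ∀ c ∈ C, c ∈ W₁)
    (h1 : ∀ a : A, ∃ c d : C, d ∉ LU.center W₁ C hC ∧ (a : K) * (d : K) = c) :
    (DimEq_phi W₁ A hA).range ≤ (DimEq_phi W₁ C hC).range := by
  rintro _ ⟨x, rfl⟩
  obtain ⟨a, b, rfl⟩ := IsLocalization.exists_mk'_eq (LU.center W₁ A hA).primeCompl x
  have hx := DimEq_phi_mk W₁ A hA a b
  set y : K := DimEq_phi W₁ A hA (IsLocalization.mk' _ a b) with hy
  have hb0 := DimEq_ne_zero W₁ A hA b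
  have hb1 : W₁.valuation ((b : A) : K) = 1 := (DimEq_notMem W₁ A hA b).1 b.2
  obtain ⟨c, d, hd, hcd⟩ := h1 a
  obtain ⟨c', d', hd', hcd'⟩ := h1 (b : A)
  have hd1 := (DimEq_notMem W₁ C hC d).1 hd
  have hd1' := (DimEq_notMem W₁ C hC d').1 hd'
  have hc' : c' ∉ LU.center W₁ C hC := by
    rw [DimEq_notMem, ← hcd', map_mul, hb1, hd1', one_mul]
  have hden : d * c' ∉ LU.center W₁ C hC := by
    intro h
    rcases (inferInstance : (LU.center W₁ C hC).IsPrime).mem_or_mem h with h | h
    · exact hd h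
    · exact hc' h
  refine ⟨IsLocalization.mk' _ (c * d') (⟨d * c', hden⟩ : (LU.center W₁ C hC).primeCompl), ?_⟩
  have hz := DimEq_phi_mk W₁ C hC (c * d')
    (⟨d * c', hden⟩ : (LU.center W₁ C hC).primeCompl)
  have hn := DimEq_ne_zero W₁ C hC (⟨d * c', hden⟩ : (LU.center W₁ C hC).primeCompl)
  apply mul_right_cancel₀ hn
  rw [hz]
  have e1 : ((c * d' : C) : K) = (c : K) * (d' : K) := rfl
  have e2 : ((d * c' : C) : K) = (d : K) * (c' : K) := rfl
  show ((c * d' : C) : K) = y * ((d * c' : C) : K)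
  rw [e1, e2, ← hcd, ← hcd', ← hx]
  ring

/-- The dimension of the local ring at the centre does not change when both algebras have the same
local ring. -/
theorem dim_eq (W₁ : ValuationSubring K) (A C : Subalgebra k K) (hA : ∀ a ∈ A, a ∈ W₁)
    (hC : ∀ c ∈ C, c ∈ W₁)
    (h1 : ∀ a : A, ∃ c d : C, d ∉ LU.center W₁ C hC ∧ (a : K) * (d : K) = c)
    (h2 : ∀ c : C, ∃ a b : A, b ∉ LU.center W₁ A hA ∧ (c : K) * (b : K) = a) :
    ringKrullDim (Localization.AtPrime (LU.center W₁ C hC)) =
      ringKrullDim (Localization.AtPrime (LU.center W₁ A hA)) := by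
  have hr : (DimEq_phi W₁ C hC).range = (DimEq_phi W₁ A hA).range :=
    le_antisymm (DimEq_range_le W₁ C A hC hA h2) (DimEq_range_le W₁ A C hA hC h1)
  have eC : Localization.AtPrime (LU.center W₁ C hC) ≃+* (DimEq_phi W₁ C hC).range :=
    RingEquiv.ofBijective (DimEq_phi W₁ C hC).rangeRestrict
      ⟨fun x y h => DimEq_injective W₁ C hC (congrArg Subtype.val h),
        (DimEq_phi W₁ C hC).rangeRestrict_surjective⟩
  have eA : Localization.AtPrime (LU.center W₁ A hA) ≃+* (DimEq_phi W₁ A hA).range :=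
    RingEquiv.ofBijective (DimEq_phi W₁ A hA).rangeRestrict
      ⟨fun x y h => DimEq_injective W₁ A hA (congrArg Subtype.val h),
        (DimEq_phi W₁ A hA).rangeRestrict_surjective⟩
  rw [ringKrullDim_eq_of_ringEquiv eC, ringKrullDim_eq_of_ringEquiv eA, hr]

end LY
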