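import Pool.Agent.helper90.LY.CompAlgB
import Pool.Agent.helper90.LY.CompLocB
import Pool.Agent.helper90.LY.DimEq

open IsLocalRing

namespace LY

universe u

variable {k K : Type u} [Field k] [Field K] [Algebra k K]

theorem MonS.pow {W : ValuationSubring K} {A : Subalgebra k K} {h : ∀ a ∈ A, a ∈ W} {n : ℕ}
    {s : Fin n → A} (hs : ∀ i, ((s i : A) : K) ≠ 0) {x : K} (hx : MonS W A h s x) (j : ℕ) :
    MonS W A h s (x ^ j) := by
  induction j with
  | zero =>
    rw [pow_zero]
    exact MonS.one W A h s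
  | succ j ih =>
    rw [pow_succ]
    exact MonS.mul hs ih hx

theorem MonS.zpow {W : ValuationSubring K} {A : Subalgebra k K} {h : ∀ a ∈ A, a ∈ W} {n : ℕ}
    {s : Fin n → A} (hs : ∀ i, ((s i : A) : K) ≠ 0) {x : K} (hx : MonS W A h s x) (j : ℤ) :
    MonS W A h s (x ^ j) := by
  obtain ⟨j, rfl | rfl⟩ := j.eq_nat_or_neg
  · rw [zpow_natCast]
    exact MonS.pow hs hx j
  · rw [zpow_neg, zpow_natCast]
    exact MonS.inv hs (MonS.pow hs hx j)

theorem MonS.prod {W : ValuationSubring K} {A : Subalgebra k K} {h : ∀ a ∈ A, a ∈ W} {n : ℕ}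
    {s : Fin n → A} (hs : ∀ i, ((s i : A) : K) ≠ 0) {ι : Type*} (t : Finset ι) (f : ι → K)
    (hf : ∀ i ∈ t, MonS W A h s (f i)) : MonS W A h s (∏ i ∈ t, f i) := by
  classical
  induction t using Finset.induction_on with
  | empty =>
    rw [Finset.prod_empty]
    exact MonS.one W A h s
  | insert i t hi ih =>
    rw [Finset.prod_insert hi]
    exact MonS.mul hs (hf i (Finset.mem_insert_self _ _))
      (ih fun j hj => hf j (Finset.mem_insert_of_mem hj))

theorem MonS.self {W : ValuationSubring K} {A : Subalgebra k K} {h : ∀ a ∈ A, a ∈ W} {n : ℕ}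
    (s : Fin n → A) (i : Fin n) : MonS W A h s (s i : K) := by
  classical
  have h1 : (1 : A) ∉ LU.center W A h := fun h1 =>
    (inferInstance : (LU.center W A h).IsPrime).ne_top ((Ideal.eq_top_iff_one _).2 h1)
  refine ⟨Pi.single i 1, 1, 1, h1, h1, ?_⟩
  rw [Finset.prod_eq_single i]
  · simp
  · intro j _ hj
    rw [Pi.single_eq_of_ne hj, zpow_zero]
  · intro hi
    exact absurd (Finset.mem_univ i) hi

/-- monomials in the second half of the parameters -/
theorem MonS.append {W : ValuationSubring K} {A : Subalgebra k K} {h : ∀ a ∈ A, a ∈ W} {m l : ℕ}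
    (s : Fin m → A) {w : Fin l → A} {x : K} (hx : MonS W A h w x) :
    MonS W A h (Fin.append s w) x := by
  obtain ⟨a, N, D, h1, h2, h3⟩ := hx
  refine ⟨Fin.append 0 a, N, D, h1, h2, ?_⟩
  rw [h3, Fin.prod_univ_add]
  simp

/-- a denominator for the generation of the centre by local parameters -/
theorem exists_gamma (W : ValuationSubring K) (A : Subalgebra k K) (hA : ∀ a ∈ A, a ∈ W)
    (hfg : A.FG) {m : ℕ} (s : Fin m → A)
    (hs : Ideal.span (Set.range fun i =>
      algebraMap A (Localization.AtPrime (LU.center W A hA)) (s i)) =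
        maximalIdeal (Localization.AtPrime (LU.center W A hA))) :
    ∃ γ : A, γ ∉ LU.center W A hA ∧
      ∀ y ∈ LU.center W A hA, γ * y ∈ Ideal.span (Set.range s) := by
  classical
  have hN : IsNoetherianRing A := by
    have : Algebra.FiniteType k A := (Subalgebra.fg_iff_finiteType A).1 hfg
    exact Algebra.FiniteType.isNoetherianRing k A
  obtain ⟨T, hT⟩ := hN.noetherian (LU.center W A hA)
  have key : ∀ y ∈ LU.center W A hA, ∃ γ : A, γ ∉ LU.center W A hA ∧
      γ * y ∈ Ideal.span (Set.range s) := by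
    intro y hy
    have h1 : algebraMap A (Localization.AtPrime (LU.center W A hA)) y ∈
        (Ideal.span (Set.range s)).map (algebraMap A (Localization.AtPrime (LU.center W A hA))) := by
      rw [Ideal.map_span, ← Set.range_comp]
      change _ ∈ Ideal.span (Set.range fun i =>
        algebraMap A (Localization.AtPrime (LU.center W A hA)) (s i))
      rw [hs]
      have h2 : y ∈ Ideal.under A
          (maximalIdeal (Localization.AtPrime (LU.center W A hA))) := by
        rwa [IsLocalization.AtPrime.under_maximalIdeal _ (LU.center W A hA)]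
      exact h2
    rw [IsLocalization.algebraMap_mem_map_algebraMap_iff (LU.center W A hA).primeCompl] at h1
    obtain ⟨γ, hγ, h2⟩ := h1
    exact ⟨γ, hγ, h2⟩
  have key2 : ∀ T' : Finset A, (∀ y ∈ T', y ∈ LU.center W A hA) → ∃ γ : A,
      γ ∉ LU.center W A hA ∧ ∀ y ∈ T', γ * y ∈ Ideal.span (Set.range s) := by
    intro T'
    induction T' using Finset.induction_on with
    | empty =>
      intro _
      refine ⟨1, fun h1 => ?_, fun y hy => absurd hy (Finset.notMem_empty y)⟩
      exact (inferInstance : (LU.center W A hA).IsPrime).ne_top ((Ideal.eq_top_iff_one _).2 h1)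
    | insert z T' hz ih =>
      intro h
      obtain ⟨γ, h1, h2⟩ := ih fun y hy => h y (Finset.mem_insert_of_mem hy)
      obtain ⟨δ, h3, h4⟩ := key z (h z (Finset.mem_insert_self _ _))
      refine ⟨γ * δ, fun h5 => ?_, fun y hy => ?_⟩
      · exact ((inferInstance : (LU.center W A hA).IsPrime).mem_or_mem h5).elim h1 h3
      · rcases Finset.mem_insert.1 hy with rfl | hy
        · rw [mul_assoc]
          exact Ideal.mul_mem_left _ _ h4
        · rw [mul_comm γ δ, mul_assoc]
          exact Ideal.mul_mem_left _ _ (h2 y hy)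
  obtain ⟨γ, h1, h2⟩ := key2 T fun y hy => by
    rw [← hT]
    exact Ideal.subset_span hy
  refine ⟨γ, h1, fun y hy => ?_⟩
  rw [← hT] at hy
  induction hy using Submodule.span_induction with
  | mem y hy => exact h2 y hy
  | zero =>
    rw [mul_zero]
    exact zero_mem _
  | add x y _ _ hx hy =>
    rw [mul_add]
    exact add_mem hx hy
  | smul a x _ hx =>
    rw [smul_eq_mul, mul_left_comm]
    exact Ideal.mul_mem_left _ _ hx

/-- parameters are non zero -/
theorem par_ne_zero {R : Type*} [CommRing R] [IsLocalRing R] [IsNoetherianRing R] {n : ℕ}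
    (f : Fin n → R) (hf : Ideal.span (Set.range f) = maximalIdeal R) (hn : ringKrullDim R = n)
    (i : Fin n) : f i ≠ 0 := by
  intro h0
  have h1 : Ideal.span (f '' {i}ᶜ) = maximalIdeal R := by
    rw [← hf]
    apply le_antisymm (Ideal.span_mono (Set.image_subset_range _ _))
    rw [Ideal.span_le]
    rintro _ ⟨j, rfl⟩
    by_cases hj : j = i
    · rw [hj, h0]
      exact zero_mem _
    · exact Ideal.subset_span ⟨j, hj, rfl⟩
  have h2 : (maximalIdeal R).spanFinrank ≤ (f '' {i}ᶜ).ncard := by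
    rw [← h1]
    exact Submodule.spanFinrank_span_le_ncard_of_finite (Set.toFinite _)
  have h3 : (f '' {i}ᶜ).ncard ≤ ({i}ᶜ : Set (Fin n)).ncard := Set.ncard_image_le (Set.toFinite _)
  have h4 : ({i}ᶜ : Set (Fin n)).ncard = n - 1 := by
    rw [Set.ncard_compl, Set.ncard_singleton, Nat.card_eq_fintype_card, Fintype.card_fin]
  have h5 := ringKrullDim_le_spanFinrank_maximalIdeal (R := R)
  rw [hn] at h5
  have h6 : n ≤ (maximalIdeal R).spanFinrank := by exact_mod_cast h5
  have h7 : 0 < n := Fin.pos i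
  omega

theorem par_ne_zero' {F : Type*} [Field F] [Algebra k F] (V : ValuationSubring F)
    (A : Subalgebra k F) (hA : ∀ a ∈ A, a ∈ V) (hfg : A.FG) {n : ℕ} (s : Fin n → A)
    (hs : Ideal.span (Set.range fun i =>
      algebraMap A (Localization.AtPrime (LU.center V A hA)) (s i)) =
        maximalIdeal (Localization.AtPrime (LU.center V A hA)))
    (hn : ringKrullDim (Localization.AtPrime (LU.center V A hA)) = n) (i : Fin n) : s i ≠ 0 := by
  have hN : IsNoetherianRing A := by
    have : Algebra.FiniteType k A := (Subalgebra.fg_iff_finiteType A).1 hfg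
    exact Algebra.FiniteType.isNoetherianRing k A
  have hN' : IsNoetherianRing (Localization.AtPrime (LU.center V A hA)) :=
    IsLocalization.isNoetherianRing (LU.center V A hA).primeCompl _ hN
  intro h0
  apply par_ne_zero _ hs hn i
  rw [h0, map_zero]

/-- Composites: relative strong local uniformization of `W₁` (on `K`) and of `W' = W/m_{W₁}` (on the
residue field `κ` of `W₁`, finitely generated over `k`) gives the same for `W`. -/
theorem comp_rel (W W₁ : ValuationSubring K) (hW : ∀ c : k, algebraMap k K c ∈ W)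
    (κ : Type u) [Field κ] [Algebra k κ] (W' : ValuationSubring κ)
    (D : Comp (k := k) W W₁ κ W') (h1 : RelS k W₁) (h2 : RelS k W') : RelS k W := by
  classical
  obtain ⟨B₁, hB₁⟩ := h1
  obtain ⟨B₂, hB₂⟩ := h2
  choose g hg using D.surj
  refine ⟨B₁, fun F hF => ?_⟩
  have hF₁0 : ∀ x ∈ F ∪ (B₂.image fun b => ((g b : W₁) : K)).filter (fun x => x ≠ 0), x ≠ 0 := by
    intro x hx
    rcases Finset.mem_union.1 hx with hx | hx
    · exact hF x hx
    · exact (Finset.mem_filter.1 hx).2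
  obtain ⟨A, hA, m, s, hAfg, hAfr, hAreg, hAdim, hAs, hAF, hAM, H₁, hH₁, hH₁0, hH₁M, hH₁A⟩ :=
    hB₁ _ hF₁0
  obtain ⟨γ, hγ, hγs⟩ := exists_gamma W₁ A hA hAfg s hAs
  -- the residue map on `A`
  let πA : A →ₐ[k] κ :=
    { D.π.comp (LU.toV W₁ A hA) with
      commutes' := fun c => D.alg c _ rfl }
  have hπA : ∀ a : A, πA a = D.π ⟨(a : K), hA a a.2⟩ := fun a => rfl
  have hπ0 : ∀ a : A, πA a = 0 ↔ a ∈ LU.center W₁ A hA := by
    intro a
    rw [hπA, D.ker]
    exact (W₁.valuation_lt_one_iff (⟨(a : K), hA a a.2⟩ : W₁)).symm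
  have hgA : ∀ b ∈ B₂, ((g b : W₁) : K) ∈ A := by
    intro b hb
    by_cases h0 : ((g b : W₁) : K) = 0
    · rw [h0]
      exact zero_mem _
    · exact hAF _ (Finset.mem_union_right _ (Finset.mem_filter.2
        ⟨Finset.mem_image_of_mem _ hb, h0⟩)) (g b).2
  have hBA : Algebra.adjoin k (B₂ : Set κ) ≤ πA.range := by
    rw [Algebra.adjoin_le_iff]
    intro b hb
    exact ⟨⟨g b, hgA b hb⟩, hg b⟩
  -- numerators and denominators
  have hM : ∀ x : K, MonS W₁ A hA s x → ∃ (a : Fin m → ℤ) (N E : A), N ∉ LU.center W₁ A hA ∧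
      E ∉ LU.center W₁ A hA ∧ x * (E : K) = (∏ i, ((s i : A) : K) ^ a i) * (N : K) := fun x h => h
  have hMF : ∀ x ∈ insert H₁ F, MonS W₁ A hA s x := by
    intro x hx
    rcases Finset.mem_insert.1 hx with rfl | hx
    · exact hH₁M
    · exact hAM x (Finset.mem_union_left _ hx)
  choose! ea Nn Dd hNn hDd hND using fun x (hx : x ∈ insert H₁ F) => hM x (hMF x hx)
  have hAfg' := hAfg
  obtain ⟨G, hG⟩ := hAfg
  have hGA : ∀ x ∈ G, x ∈ A := fun x hx => by
    rw [← hG]
    exact Algebra.subset_adjoin hx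
  -- the finite set of units of `A_p`
  obtain ⟨S₀, hS₀⟩ : ∃ S₀ : Finset A, S₀ = insert γ ((insert H₁ F).image Nn ∪
      (insert H₁ F).image Dd ∪ (G.attach.image fun x : {x // x ∈ G} => (⟨(x : K), hGA x x.2⟩ : A)).filter
        fun a => a ∉ LU.center W₁ A hA) := ⟨_, rfl⟩
  have hS₀1 : ∀ T ∈ S₀, T ∉ LU.center W₁ A hA := by
    intro T hT
    rw [hS₀, Finset.mem_insert, Finset.mem_union, Finset.mem_union, Finset.mem_image,
      Finset.mem_image, Finset.mem_filter] at hT
    rcases hT with rfl | ((⟨x, hx, rfl⟩ | ⟨x, hx, rfl⟩) | hT)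
    · exact hγ
    · exact hNn x hx
    · exact hDd x hx
    · exact hT.2
  obtain ⟨FW, hFW⟩ : ∃ FW : Finset K, FW = F.filter fun x => x ∈ W := ⟨_, rfl⟩
  have hFW1 : ∀ x ∈ FW, x ∈ W := fun x hx => by
    rw [hFW] at hx
    exact (Finset.mem_filter.1 hx).2
  have hFWA : ∀ x ∈ FW, x ∈ A := fun x hx => by
    rw [hFW] at hx
    exact hAF x (Finset.mem_union_left _ (Finset.mem_filter.1 hx).1)
      (D.le (Finset.mem_filter.1 hx).2)
  obtain ⟨B, hB, l, w, hBfg, hBfr, hBreg, hBdim, hBw, hBF, hBM, Hb, hHb, hHb0, hHbM, hHbB⟩ :=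
    hB₂ ((S₀.image πA ∪ FW.attach.image fun x : {x // x ∈ FW} => πA ⟨(x : K), hFWA x x.2⟩).filter
      fun y => y ≠ 0) (fun x hx => (Finset.mem_filter.1 hx).2)
  obtain ⟨Hd, hHd⟩ := hBA hHb
  have hHd' : πA Hd = Hb := hHd
  have hHdc : Hd ∉ LU.center W₁ A hA := fun h => hHb0 (by rw [← hHd', (hπ0 Hd).2 h])
  have hs1 : ∀ i, s i ∈ LU.center W₁ A hA := by
    intro i
    have h2 : algebraMap A (Localization.AtPrime (LU.center W₁ A hA)) (s i) ∈
        maximalIdeal (Localization.AtPrime (LU.center W₁ A hA)) := by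
      rw [← hAs]
      exact Ideal.subset_span ⟨i, rfl⟩
    have h3 : s i ∈ Ideal.under A
        (maximalIdeal (Localization.AtPrime (LU.center W₁ A hA))) := h2
    rwa [IsLocalization.AtPrime.under_maximalIdeal _ (LU.center W₁ A hA)] at h3
  have hw1 : ∀ i, w i ∈ LU.center W' B hB := by
    intro i
    have h2 : algebraMap B (Localization.AtPrime (LU.center W' B hB)) (w i) ∈
        maximalIdeal (Localization.AtPrime (LU.center W' B hB)) := by
      rw [← hBw]
      exact Ideal.subset_span ⟨i, rfl⟩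
    have h3 : w i ∈ Ideal.under B
        (maximalIdeal (Localization.AtPrime (LU.center W' B hB))) := h2
    rwa [IsLocalization.AtPrime.under_maximalIdeal _ (LU.center W' B hB)] at h3
  have hs0 : ∀ i, s i ≠ 0 := par_ne_zero' W₁ A hA hAfg' s hAs hAdim
  have hw0 : ∀ i, w i ≠ 0 := par_ne_zero' W' B hB hBfg w hBw hBdim
  have hFWB : ∀ x : W₁, (x : K) ∈ FW → D.π x ∈ B := by
    intro x hx
    by_cases h0 : D.π x = 0
    · rw [h0]
      exact zero_mem _
    · refine hBF _ (Finset.mem_filter.2 ⟨Finset.mem_union_right _ (Finset.mem_image.2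
        ⟨⟨(x : K), hx⟩, Finset.mem_attach _ _, rfl⟩), h0⟩) ?_
      rw [D.mem]
      exact hFW1 _ hx
  have hSM : ∀ T ∈ insert Hd S₀, MonS W' B hB w (D.π ⟨(T : K), hA T T.2⟩) := by
    intro T hT
    rcases Finset.mem_insert.1 hT with rfl | hT
    · rw [← hπA, hHd']
      exact hHbM
    · refine hBM _ (Finset.mem_filter.2 ⟨Finset.mem_union_left _ (Finset.mem_image_of_mem _ hT),
        fun h => hS₀1 T hT ((hπ0 T).1 h)⟩)
  obtain ⟨C, hC, hC₁, s', w', E₀, E₁, hCfg, hCfr, hCF, hCs, hCB, hAC, hCA, hw', hsE, hME₀, hMS,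
      hME₁, hCE₁⟩ := comp_algB W W₁ hW κ W' D A hA ⟨G, hG⟩ hAfr m s hs1 hs0 γ hγs B hB hBfg hBfr l w
    hw1 hw0 Hd hHdc (by
      intro b hb
      obtain ⟨e, he⟩ := hHbB b hb
      obtain ⟨α, hα⟩ := hBA he
      refine ⟨e, α, ?_⟩
      rw [← hπA, ← hπA, hHd', mul_comm b]
      exact hα) (insert Hd S₀) (by
      intro T hT
      rcases Finset.mem_insert.1 hT with rfl | hT
      · exact hHdc
      · exact hS₀1 T hT) (Finset.mem_insert_of_mem (by rw [hS₀]; exact Finset.mem_insert_self _ _))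
    (Finset.mem_insert_self _ _) (by
      rw [eq_top_iff]
      rintro a -
      have h1 : Algebra.adjoin k (G : Set K) ≤ (Algebra.adjoin k
          (((insert Hd S₀ : Finset A) : Set A) ∪ LU.center W₁ A hA)).map A.val := by
        rw [Algebra.adjoin_le_iff]
        intro x hx
        refine ⟨⟨x, hGA x hx⟩, Algebra.subset_adjoin ?_, rfl⟩
        by_cases h2 : (⟨x, hGA x hx⟩ : A) ∈ LU.center W₁ A hA
        · exact Or.inr h2
        · refine Or.inl ?_
          rw [Finset.mem_coe]
          refine Finset.mem_insert_of_mem ?_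
          rw [hS₀]
          refine Finset.mem_insert_of_mem (Finset.mem_union_right _ (Finset.mem_filter.2 ⟨?_, h2⟩))
          exact Finset.mem_image.2 ⟨⟨x, hx⟩, Finset.mem_attach _ _, rfl⟩
      have h3 : (a : K) ∈ Algebra.adjoin k (G : Set K) := by
        rw [hG]
        exact a.2
      obtain ⟨b, hb, hba⟩ := h1 h3
      have h4 : b = a := Subtype.ext hba
      rw [← h4]
      exact hb) hSM FW hFW1 hFWA hFWB
  have hs'0 : ∀ i, ((s' i : C) : K) ≠ 0 := by
    intro i h0
    apply hs0 i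
    apply Subtype.ext
    rw [hsE i, h0, zero_mul]
    rfl
  have hw'0 : ∀ j, ((w' j : C) : K) ≠ 0 := by
    intro j h0
    apply hw0 j
    apply Subtype.ext
    rw [← hw' j]
    have h1 : (⟨((w' j : C) : K), hC₁ _ (w' j).2⟩ : W₁) = 0 := Subtype.ext h0
    rw [h1, map_zero]
    rfl
  obtain ⟨hreg, hdim, hspan⟩ := comp_locB W W₁ κ W' D B hB hBreg C hC hC₁ hCfg m s' hCs
    (by rw [dim_eq W₁ A C hA hC₁ hAC hCA, hAdim]) hCB l w hBdim hBw w' hw'
  have hq0 : ∀ i, ((Fin.append s' w' i : C) : K) ≠ 0 := by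
    intro i
    refine Fin.addCases (fun i => ?_) (fun j => ?_) i
    · rw [Fin.append_left]
      exact hs'0 i
    · rw [Fin.append_right]
      exact hw'0 j
  have happ : ∀ x : K, MonS W C hC w' x → MonS W C hC (Fin.append s' w') x := fun x hx =>
    MonS.append s' hx
  have hsM : ∀ i, MonS W C hC (Fin.append s' w') ((s i : A) : K) := by
    intro i
    rw [hsE i]
    refine MonS.mul hq0 ?_ (happ _ hME₀)
    have h1 := MonS.self (W := W) (h := hC) (Fin.append s' w') (Fin.castAdd l i)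
    rwa [Fin.append_left] at h1
  have hne : ∀ z : A, z ∉ LU.center W₁ A hA → (z : K) ≠ 0 := fun z hz h0 => hz (by
    have : z = 0 := Subtype.ext h0
    rw [this]
    exact zero_mem _)
  have hMx : ∀ x ∈ insert H₁ F, MonS W C hC (Fin.append s' w') x := by
    intro x hx
    have h1 : x = (∏ i, ((s i : A) : K) ^ ea x i) * (Nn x : K) * (Dd x : K)⁻¹ := by
      rw [← hND x hx, mul_inv_cancel_right₀ (hne _ (hDd x hx))]
    rw [h1]
    refine MonS.mul hq0 (MonS.mul hq0 (MonS.prod hq0 _ _ fun i _ => MonS.zpow hq0 (hsM i) _)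
      (happ _ (hMS _ ?_))) (MonS.inv hq0 (happ _ (hMS _ ?_)))
    · refine Finset.mem_insert_of_mem ?_
      rw [hS₀]
      exact Finset.mem_insert_of_mem (Finset.mem_union_left _ (Finset.mem_union_left _
        (Finset.mem_image_of_mem _ hx)))
    · refine Finset.mem_insert_of_mem ?_
      rw [hS₀]
      exact Finset.mem_insert_of_mem (Finset.mem_union_left _ (Finset.mem_union_right _
        (Finset.mem_image_of_mem _ hx)))
  obtain ⟨e, he⟩ := hH₁A E₁ E₁.2
  have hE₁0 : (E₁ : K) ≠ 0 := by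
    obtain ⟨b, N, E, h1, h2, h3⟩ := hME₁
    intro h0
    rw [h0, zero_mul] at h3
    refine mul_ne_zero (Finset.prod_ne_zero_iff.2 fun i _ => zpow_ne_zero _ (hw'0 i)) ?_ h3.symm
    intro h4
    exact h1 (by
      have : N = 0 := Subtype.ext h4
      rw [this]
      exact zero_mem _)
  refine ⟨C, hC, m + l, Fin.append s' w', hCfg, hCfr, hreg, hdim, hspan, ?_, ?_,
    H₁ ^ (e + 1) * (E₁ : K), ?_, ?_, ?_, ?_⟩
  · intro x hx hxW
    refine hCF x ?_
    rw [hFW]
    exact Finset.mem_filter.2 ⟨hx, hxW⟩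
  · intro x hx
    exact hMx x (Finset.mem_insert_of_mem hx)
  · rw [pow_succ', mul_assoc]
    exact mul_mem hH₁ he
  · exact mul_ne_zero (pow_ne_zero _ hH₁0) hE₁0
  · exact MonS.mul hq0 (MonS.pow hq0 (hMx H₁ (Finset.mem_insert_self _ _)) _) (happ _ hME₁)
  · intro c hc
    obtain ⟨e₁, h1⟩ := hCE₁ c hc
    obtain ⟨e₂, h2⟩ := hH₁A _ h1
    refine ⟨e₁ + e₂, ?_⟩
    have h3 : (H₁ ^ (e + 1) * (E₁ : K)) ^ (e₁ + e₂) * c =
        (H₁ ^ e₂ * ((E₁ : K) ^ e₁ * c)) * (H₁ ^ e * (E₁ : K)) ^ e₂ * H₁ ^ (e₁ + e * e₁) := by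
      ring
    rw [h3]
    exact mul_mem (mul_mem h2 (pow_mem he _)) (pow_mem hH₁ _)

end LY
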