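import Pool.Agent.helper90.LY.CompLoc

open IsLocalRing

namespace LY

universe u

variable {k K : Type u} [Field k] [Field K] [Algebra k K]

/-- Composites: relative local uniformization of `W₁` (on `K`) and of `W' = W/m_{W₁}` (on the residue
field `κ` of `W₁`, finitely generated over `k`) gives relative local uniformization of `W`. -/
theorem comp (W W₁ : ValuationSubring K) (hW : ∀ c : k, algebraMap k K c ∈ W)
    (κ : Type u) [Field κ] [Algebra k κ] [Algebra.EssFiniteType k κ] (W' : ValuationSubring κ)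
    (D : Comp (k := k) W W₁ κ W') (h1 : RU k W₁) (h2 : RU k W') : RU k W := by
  classical
  intro F hF
  -- lifts of generators of `κ`
  obtain ⟨T, hT⟩ := IntermediateField.fg_top k κ
  choose g hg using D.surj
  obtain ⟨A, hA, hAfg, hAfr, hAreg, hAF⟩ := h1 (F ∪ T.image fun t => ((g t : W₁) : K)) (by
    intro x hx
    rcases Finset.mem_union.1 hx with hx | hx
    · exact D.le (hF x hx)
    · obtain ⟨t, -, rfl⟩ := Finset.mem_image.1 hx
      exact (g t).2)
  obtain ⟨B, hB, hBfg, hBfr, hBreg, hBF⟩ := h2 (F.image fun x => if hx : x ∈ W₁ then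
      D.π ⟨x, hx⟩ else 0) (by
    intro y hy
    obtain ⟨x, hx, rfl⟩ := Finset.mem_image.1 hy
    rw [dif_pos (D.le (hF x hx)), D.mem]
    exact hF x hx)
  obtain ⟨m, s, hm, hs⟩ := exists_par W₁ A hA hAreg
  -- the residue field of the centre on `A` is `κ`
  have hκ : ∀ x : W₁, ∃ α β : A, β ∉ LU.center W₁ A hA ∧
      W₁.valuation ((x : K) * (β : K) - (α : K)) < 1 := by
    let πA : A →ₐ[k] κ :=
      { D.π.comp (LU.toV W₁ A hA) with
        commutes' := fun c => D.alg c _ rfl }
    have hA1 : Algebra.adjoin k (T : Set κ) ≤ πA.range := by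
      rw [Algebra.adjoin_le_iff]
      intro t ht
      exact ⟨⟨g t, hAF _ (Finset.mem_union_right _ (Finset.mem_image_of_mem _ ht))⟩, hg t⟩
    intro x
    have hx : D.π x ∈ IntermediateField.adjoin k (T : Set κ) := by
      rw [hT]
      exact IntermediateField.mem_top
    rw [IntermediateField.mem_adjoin_iff_div] at hx
    obtain ⟨r, hr, q, hq, hrq⟩ := hx
    obtain ⟨α, hα⟩ := hA1 hr
    obtain ⟨β, hβ⟩ := hA1 hq
    by_cases hq0 : q = 0
    · refine ⟨0, 1, ?_, ?_⟩
      · intro h
        exact (Ideal.ne_top_iff_one _).1 (inferInstance : (LU.center W₁ A hA).IsPrime).ne_top h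
      · have : D.π x = 0 := by rw [hrq, hq0, div_zero]
        simpa using (D.ker x).1 this
    · have key : ∀ y : W₁, D.π y = 0 ↔ W₁.valuation (y : K) < 1 := D.ker
      refine ⟨α, β, ?_, ?_⟩
      · intro h
        have h3 : LU.toV W₁ A hA β ∈ maximalIdeal W₁ := h
        have h4 : W₁.valuation ((LU.toV W₁ A hA β : W₁) : K) < 1 :=
          (W₁.valuation_lt_one_iff _).1 h3
        have h5 := (key _).2 h4
        apply hq0
        rw [← hβ]
        exact h5
      · have h6 : D.π (x * LU.toV W₁ A hA β - LU.toV W₁ A hA α) = 0 := by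
          rw [map_sub, map_mul]
          have h7 : D.π (LU.toV W₁ A hA β) = q := hβ
          have h8 : D.π (LU.toV W₁ A hA α) = r := hα
          rw [h7, h8, hrq, div_mul_cancel₀ _ hq0, sub_self]
        exact (key _).1 h6
  obtain ⟨C, hC, hC₁, s', hCfg, hCfr, hCF, hCs, hCB, hAC, hCA⟩ :=
    comp_alg W W₁ hW κ W' D A hA hAfg hAfr hκ m s hs B hB hBfg hBfr F hF
      (fun x hx => hAF x (Finset.mem_union_left _ hx)) (fun x hx => by
        have := hBF _ (Finset.mem_image_of_mem (fun x => if hx : x ∈ W₁ then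
          D.π ⟨x, hx⟩ else 0) hx)
        rw [dif_pos x.2] at this
        exact this)
  refine ⟨C, hC, hCfg, hCfr, ?_, hCF⟩
  refine comp_loc W W₁ κ W' D B hB hBreg C hC hC₁ hCfg m s' hCs ?_ hCB
  rw [dim_eq W₁ A C hA hC₁ hAC hCA, hm]

end LY
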