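import Pool.Agent.helper90.LY.Par

open IsLocalRing

namespace LY

universe u

variable {k K : Type u} [Field k] [Field K] [Algebra k K]

/-- `x` is a quotient of elements of `A`, with denominator of value one -/
def CompAlg.Loc (W₁ : ValuationSubring K) (A : Subalgebra k K) (x : K) : Prop :=
  ∃ a b : K, a ∈ A ∧ b ∈ A ∧ W₁.valuation b = 1 ∧ x * b = a

theorem CompAlg.Loc.of_mem {W₁ : ValuationSubring K} {A : Subalgebra k K} {x : K} (hx : x ∈ A) :
    CompAlg.Loc W₁ A x := ⟨x, 1, hx, one_mem _, map_one _, mul_one _⟩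

theorem CompAlg.Loc.add {W₁ : ValuationSubring K} {A : Subalgebra k K} {x y : K}
    (hx : CompAlg.Loc W₁ A x) (hy : CompAlg.Loc W₁ A y) : CompAlg.Loc W₁ A (x + y) := by
  obtain ⟨a, b, ha, hb, hvb, h⟩ := hx
  obtain ⟨a', b', ha', hb', hvb', h'⟩ := hy
  refine ⟨a * b' + a' * b, b * b', add_mem (mul_mem ha hb') (mul_mem ha' hb), mul_mem hb hb', ?_, ?_⟩
  · rw [map_mul, hvb, hvb', one_mul]
  · rw [← h, ← h']
    ring

theorem CompAlg.Loc.mul {W₁ : ValuationSubring K} {A : Subalgebra k K} {x y : K}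
    (hx : CompAlg.Loc W₁ A x) (hy : CompAlg.Loc W₁ A y) : CompAlg.Loc W₁ A (x * y) := by
  obtain ⟨a, b, ha, hb, hvb, h⟩ := hx
  obtain ⟨a', b', ha', hb', hvb', h'⟩ := hy
  refine ⟨a * a', b * b', mul_mem ha ha', mul_mem hb hb', ?_, ?_⟩
  · rw [map_mul, hvb, hvb', one_mul]
  · rw [← h, ← h']
    ring

theorem CompAlg.Loc.pow {W₁ : ValuationSubring K} {A : Subalgebra k K} {x : K}
    (hx : CompAlg.Loc W₁ A x) (n : ℕ) : CompAlg.Loc W₁ A (x ^ n) := by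
  induction n with
  | zero =>
    rw [pow_zero]
    exact CompAlg.Loc.of_mem (one_mem _)
  | succ n ih =>
    rw [pow_succ]
    exact ih.mul hx

theorem CompAlg.Loc.inv {W₁ : ValuationSubring K} {A : Subalgebra k K} {x : K}
    (hx : CompAlg.Loc W₁ A x) (hv : W₁.valuation x = 1) : CompAlg.Loc W₁ A x⁻¹ := by
  obtain ⟨a, b, ha, hb, hvb, h⟩ := hx
  have hx0 : x ≠ 0 := by
    rintro rfl
    rw [map_zero] at hv
    exact zero_ne_one hv
  refine ⟨b, a, hb, ha, ?_, ?_⟩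
  · rw [← h, map_mul, hv, hvb, one_mul]
  · rw [← h, ← mul_assoc, inv_mul_cancel₀ hx0, one_mul]

theorem CompAlg.mem_center (W₁ : ValuationSubring K) (A : Subalgebra k K)
    (hA : ∀ a ∈ A, a ∈ W₁) (a : A) :
    a ∈ LU.center W₁ A hA ↔ W₁.valuation (a : K) < 1 :=
  W₁.valuation_lt_one_iff (LU.toV W₁ A hA a)

theorem CompAlg.notMem_center (W₁ : ValuationSubring K) (A : Subalgebra k K)
    (hA : ∀ a ∈ A, a ∈ W₁) (a : A) :
    a ∉ LU.center W₁ A hA ↔ W₁.valuation (a : K) = 1 := by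
  rw [CompAlg.mem_center, not_lt]
  have h1 : W₁.valuation (a : K) ≤ 1 := (W₁.valuation_le_one_iff _).2 (hA a a.2)
  exact ⟨fun h => le_antisymm h1 h, fun h => h.ge⟩

/-- good elements -/
def CompAlg.Gd {W₁ : ValuationSubring K} {κ : Type u} [Field κ] [Algebra k κ]
    (D : Res (k := k) W₁ κ) (A : Subalgebra k K) (B : Subalgebra k κ) (x : K) : Prop :=
  (∃ h : x ∈ W₁, D.π ⟨x, h⟩ ∈ B) ∧ CompAlg.Loc W₁ A x

theorem CompAlg.Gd_adjoin {W₁ : ValuationSubring K} (hW : ∀ c : k, algebraMap k K c ∈ W₁)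
    {κ : Type u} [Field κ] [Algebra k κ]
    (D : Res (k := k) W₁ κ) (A : Subalgebra k K) (B : Subalgebra k κ) {G : Set K}
    (hG : ∀ g ∈ G, CompAlg.Gd D A B g) : ∀ x ∈ Algebra.adjoin k G, CompAlg.Gd D A B x := by
  intro x hx
  induction hx using Algebra.adjoin_induction with
  | mem x hx => exact hG x hx
  | algebraMap c =>
    refine ⟨⟨hW c, ?_⟩, CompAlg.Loc.of_mem (A.algebraMap_mem c)⟩
    rw [D.alg c _ rfl]
    exact B.algebraMap_mem c
  | add x y _ _ hx hy =>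
    obtain ⟨⟨h1, h2⟩, h3⟩ := hx
    obtain ⟨⟨h4, h5⟩, h6⟩ := hy
    refine ⟨⟨add_mem h1 h4, ?_⟩, h3.add h6⟩
    have e : (⟨x + y, add_mem h1 h4⟩ : W₁) = ⟨x, h1⟩ + ⟨y, h4⟩ := rfl
    rw [e, map_add]
    exact add_mem h2 h5
  | mul x y _ _ hx hy =>
    obtain ⟨⟨h1, h2⟩, h3⟩ := hx
    obtain ⟨⟨h4, h5⟩, h6⟩ := hy
    refine ⟨⟨mul_mem h1 h4, ?_⟩, h3.mul h6⟩
    have e : (⟨x * y, mul_mem h1 h4⟩ : W₁) = ⟨x, h1⟩ * ⟨y, h4⟩ := rfl
    rw [e, map_mul]
    exact mul_mem h2 h5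

theorem CompAlg.pow_adjoin (C₀ : Subalgebra k K) {d : K} (hd : d ∈ C₀) {S : Set K}
    (hS : ∀ a ∈ S, d * a ∈ C₀) : ∀ a ∈ Algebra.adjoin k S, ∃ N : ℕ, d ^ N * a ∈ C₀ := by
  intro a ha
  induction ha using Algebra.adjoin_induction with
  | mem x hx => exact ⟨1, by rw [pow_one]; exact hS x hx⟩
  | algebraMap c => exact ⟨0, by rw [pow_zero, one_mul]; exact C₀.algebraMap_mem c⟩
  | add x y _ _ hx hy =>
    obtain ⟨N, hN⟩ := hx
    obtain ⟨N', hN'⟩ := hy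
    refine ⟨N + N', ?_⟩
    have e : d ^ (N + N') * (x + y) = d ^ N' * (d ^ N * x) + d ^ N * (d ^ N' * y) := by ring
    rw [e]
    exact add_mem (mul_mem (pow_mem hd _) hN) (mul_mem (pow_mem hd _) hN')
  | mul x y _ _ hx hy =>
    obtain ⟨N, hN⟩ := hx
    obtain ⟨N', hN'⟩ := hy
    refine ⟨N + N', ?_⟩
    have e : d ^ (N + N') * (x * y) = (d ^ N * x) * (d ^ N' * y) := by ring
    rw [e]
    exact mul_mem hN hN'

theorem CompAlg.pow_fin (C₀ : Subalgebra k K) {d : K} (hd : d ∈ C₀) (T : Finset K)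
    (hT : ∀ a ∈ T, ∃ N : ℕ, d ^ N * a ∈ C₀) : ∃ N : ℕ, ∀ a ∈ T, d ^ N * a ∈ C₀ := by
  classical
  induction T using Finset.induction_on with
  | empty => exact ⟨0, fun a ha => absurd ha (Finset.notMem_empty a)⟩
  | insert b T _ ih =>
    obtain ⟨N, hN⟩ := ih fun a ha => hT a (Finset.mem_insert_of_mem ha)
    obtain ⟨N', hN'⟩ := hT b (Finset.mem_insert_self _ _)
    refine ⟨N + N', fun a ha => ?_⟩
    rcases Finset.mem_insert.1 ha with rfl | ha
    · rw [pow_add, mul_assoc]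
      exact mul_mem (pow_mem hd _) hN'
    · rw [add_comm, pow_add, mul_assoc]
      exact mul_mem (pow_mem hd _) (hN a ha)

theorem CompAlg.par (W₁ : ValuationSubring K) (A : Subalgebra k K) (hA : ∀ a ∈ A, a ∈ W₁)
    {m : ℕ} (s : Fin m → A)
    (hs : Ideal.span (Set.range fun i =>
      algebraMap A (Localization.AtPrime (LU.center W₁ A hA)) (s i)) =
        maximalIdeal (Localization.AtPrime (LU.center W₁ A hA)))
    {y : K} (hy : CompAlg.Loc W₁ A y) (hv : W₁.valuation y < 1) :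
    ∃ Δ : K, Δ ∈ A ∧ W₁.valuation Δ = 1 ∧
      ∃ α : Fin m → K, (∀ i, α i ∈ A) ∧ Δ * y = ∑ i, α i * (s i : K) := by
  obtain ⟨a, b, ha, hb, hvb, h⟩ := hy
  have hva : W₁.valuation a < 1 := by rw [← h, map_mul, hvb, mul_one]; exact hv
  have h1 : algebraMap A (Localization.AtPrime (LU.center W₁ A hA)) ⟨a, ha⟩ ∈
      maximalIdeal (Localization.AtPrime (LU.center W₁ A hA)) := by
    rw [IsLocalization.AtPrime.to_map_mem_maximal_iff _ (LU.center W₁ A hA)]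
    exact (CompAlg.mem_center W₁ A hA ⟨a, ha⟩).2 hva
  rw [← hs, Ideal.mem_span_range_iff_exists_fun] at h1
  obtain ⟨c, hc⟩ := h1
  obtain ⟨γ, hγ⟩ := IsLocalization.exist_integer_multiples_of_finite
    (LU.center W₁ A hA).primeCompl c
  choose α hα using hγ
  have hinj : Function.Injective
      (algebraMap A (Localization.AtPrime (LU.center W₁ A hA))) :=
    IsLocalization.injective _ (LU.center W₁ A hA).primeCompl_le_nonZeroDivisors
  have h2 : (γ : A) * ⟨a, ha⟩ = ∑ i, α i * s i := by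
    apply hinj
    rw [map_mul, ← hc, map_sum, Finset.mul_sum]
    refine Finset.sum_congr rfl fun i _ => ?_
    rw [map_mul, hα i, Algebra.smul_def]
    ring
  refine ⟨(γ : A) * b, mul_mem (γ : A).2 hb, ?_, fun i => α i, fun i => (α i).2, ?_⟩
  · rw [map_mul, hvb, mul_one]
    exact (CompAlg.notMem_center W₁ A hA γ).1 γ.2
  · have h3 : ((γ : A) : K) * a = ∑ i, (α i : K) * (s i : K) := by
      have := congrArg (fun z : A => (z : K)) h2
      simpa using this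
    rw [mul_assoc, mul_comm b y, h, h3]

theorem CompAlg.par_fin (W₁ : ValuationSubring K) (A : Subalgebra k K) (hA : ∀ a ∈ A, a ∈ W₁)
    {m : ℕ} (s : Fin m → A)
    (hs : Ideal.span (Set.range fun i =>
      algebraMap A (Localization.AtPrime (LU.center W₁ A hA)) (s i)) =
        maximalIdeal (Localization.AtPrime (LU.center W₁ A hA)))
    (Y : Finset K) (hY : ∀ y ∈ Y, CompAlg.Loc W₁ A y ∧ W₁.valuation y < 1) :
    ∃ Δ : K, Δ ∈ A ∧ W₁.valuation Δ = 1 ∧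
      ∀ y ∈ Y, ∃ α : Fin m → K, (∀ i, α i ∈ A) ∧ Δ * y = ∑ i, α i * (s i : K) := by
  classical
  induction Y using Finset.induction_on with
  | empty =>
    exact ⟨1, one_mem _, map_one _, fun y hy => absurd hy (Finset.notMem_empty y)⟩
  | insert z Y _ ih =>
    obtain ⟨Δ, hΔ, hv, H⟩ := ih fun y hy => hY y (Finset.mem_insert_of_mem hy)
    obtain ⟨h1, h2⟩ := hY z (Finset.mem_insert_self _ _)
    obtain ⟨Δ', hΔ', hv', α', hα', h'⟩ := CompAlg.par W₁ A hA s hs h1 h2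
    refine ⟨Δ * Δ', mul_mem hΔ hΔ', by rw [map_mul, hv, hv', one_mul], fun y hy => ?_⟩
    rcases Finset.mem_insert.1 hy with rfl | hy
    · refine ⟨fun i => Δ * α' i, fun i => mul_mem hΔ (hα' i), ?_⟩
      rw [mul_assoc, h', Finset.mul_sum]
      exact Finset.sum_congr rfl fun i _ => by ring
    · obtain ⟨α, hα, h⟩ := H y hy
      refine ⟨fun i => Δ' * α i, fun i => mul_mem hΔ' (hα i), ?_⟩
      rw [mul_comm Δ Δ', mul_assoc, h, Finset.mul_sum]
      exact Finset.sum_congr rfl fun i _ => by ring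

theorem CompAlg.lift {W₁ : ValuationSubring K} {κ : Type u} [Field κ] [Algebra k κ]
    (D : Res (k := k) W₁ κ) (A : Subalgebra k K) (hA : ∀ a ∈ A, a ∈ W₁)
    (hκ : ∀ x : W₁, ∃ α β : A, β ∉ LU.center W₁ A hA ∧
      W₁.valuation ((x : K) * (β : K) - (α : K)) < 1) (t : κ) :
    ∃ x : W₁, D.π x = t ∧ CompAlg.Loc W₁ A (x : K) := by
  obtain ⟨x, rfl⟩ := D.surj t
  obtain ⟨α, β, hβ, hv⟩ := hκ x
  rw [CompAlg.notMem_center] at hβ
  have hβ0 : (β : K) ≠ 0 := by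
    intro h0
    rw [h0, map_zero] at hβ
    exact zero_ne_one hβ
  have hmem : (α : K) / (β : K) ∈ W₁ := by
    rw [← W₁.valuation_le_one_iff, map_div₀, hβ, div_one, W₁.valuation_le_one_iff]
    exact hA α α.2
  refine ⟨⟨(α : K) / (β : K), hmem⟩, ?_, ⟨α, β, α.2, β.2, hβ, div_mul_cancel₀ _ hβ0⟩⟩
  have h1 : D.π (⟨(α : K) / (β : K), hmem⟩ * ⟨(β : K), hA β β.2⟩) = D.π ⟨(α : K), hA α α.2⟩ := by
    congr 1
    exact Subtype.ext (div_mul_cancel₀ _ hβ0)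
  have h2 : D.π (x * ⟨(β : K), hA β β.2⟩ - ⟨(α : K), hA α α.2⟩) = 0 := (D.ker _).2 hv
  have h3 : D.π ⟨(β : K), hA β β.2⟩ ≠ 0 := by
    intro h0
    have h4 := (D.ker _).1 h0
    change W₁.valuation (β : K) < 1 at h4
    rw [hβ] at h4
    exact lt_irrefl _ h4
  rw [map_sub, map_mul, sub_eq_zero] at h2
  rw [map_mul, ← h2] at h1
  exact mul_right_cancel₀ h3 h1

/-- Construction of the composite chart. Notation: `p = A ∩ m_{W₁}`, `b i ∈ A_p` lifts `α i / β i`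
of generators of `B` (including `π f`, `f ∈ F`), `d` a polynomial in the `b i` with `π d ≠ 0` and
`π (d * a) ∈ B` for the generators `a` of `A`; `C₀ = k[b, d * a, F]`; the ideal `C₀ ∩ m_{W₁}` has
finitely many generators `y`, and `(d * ∏ β i) ^ E * y = ∑ q j * (element of C₀)`, `q j` generators
of `p`, `γ j * q j = ∑ α j i * s i` with `γ j ∈ A \ p`. Put `C = C₀[s' i]`,
`s' i = s i / (d ^ e * ∏ γ j * (d * ∏ β i) ^ E)`. -/
theorem comp_alg (W W₁ : ValuationSubring K) (hW : ∀ c : k, algebraMap k K c ∈ W)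
    (κ : Type u) [Field κ] [Algebra k κ] (W' : ValuationSubring κ)
    (D : Comp (k := k) W W₁ κ W') (A : Subalgebra k K) (hA : ∀ a ∈ A, a ∈ W₁) (hfg : A.FG)
    (hfr : IsFractionRing A K)
    (hκ : ∀ x : W₁, ∃ α β : A, β ∉ LU.center W₁ A hA ∧
      W₁.valuation ((x : K) * (β : K) - (α : K)) < 1)
    (m : ℕ) (s : Fin m → A)
    (hs : Ideal.span (Set.range fun i =>
      algebraMap A (Localization.AtPrime (LU.center W₁ A hA)) (s i)) =
        maximalIdeal (Localization.AtPrime (LU.center W₁ A hA)))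
    (B : Subalgebra k κ) (hB : ∀ b ∈ B, b ∈ W') (hBfg : B.FG) (hBfr : IsFractionRing B κ)
    (F : Finset K) (hF : ∀ x ∈ F, x ∈ W) (hFA : ∀ x ∈ F, x ∈ A)
    (hFB : ∀ x : W₁, (x : K) ∈ F → D.π x ∈ B) :
    ∃ (C : Subalgebra k K) (hC : ∀ c ∈ C, c ∈ W) (hC₁ : ∀ c ∈ C, c ∈ W₁) (s' : Fin m → C),
      C.FG ∧ IsFractionRing C K ∧ (∀ x ∈ F, x ∈ C) ∧
      Ideal.span (Set.range s') = LU.center W₁ C hC₁ ∧
      (∀ b : κ, b ∈ B ↔ ∃ c : C, D.π ⟨(c : K), hC₁ c c.2⟩ = b) ∧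
      (∀ a : A, ∃ c d : C, d ∉ LU.center W₁ C hC₁ ∧ (a : K) * (d : K) = c) ∧
      (∀ c : C, ∃ a b : A, b ∉ LU.center W₁ A hA ∧ (c : K) * (b : K) = a) := by
  classical
  obtain ⟨AG, hAG⟩ := hfg
  obtain ⟨BG, hBG⟩ := hBfg
  have hW₁ : ∀ c : k, algebraMap k K c ∈ W₁ := fun c => D.le (hW c)
  have hAGA : ∀ a ∈ AG, a ∈ A := fun a ha => by
    rw [← hAG]
    exact Algebra.subset_adjoin ha
  have hBGB : ∀ t ∈ BG, t ∈ B := fun t ht => by
    rw [← hBG]
    exact Algebra.subset_adjoin ht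
  choose lf hlf hlL using CompAlg.lift D.toRes A hA hκ
  -- the denominator
  obtain ⟨δ, hδ⟩ := IsLocalization.exist_integer_multiples_of_finset (nonZeroDivisors B)
    (AG.attach.image fun a : {x // x ∈ AG} => D.π ⟨(a : K), hA a (hAGA a a.2)⟩)
  have hδ0 : ((δ : B) : κ) ≠ 0 := by
    intro h0
    exact nonZeroDivisors.coe_ne_zero δ (Subtype.ext h0)
  have hδa : ∀ a (ha : a ∈ AG), ((δ : B) : κ) * D.π ⟨a, hA a (hAGA a ha)⟩ ∈ B := by
    intro a ha
    obtain ⟨b, hb⟩ := hδ _ (Finset.mem_image_of_mem _ (Finset.mem_attach AG ⟨a, ha⟩))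
    have h1 : ((δ : B) : κ) * D.π ⟨a, hA a (hAGA a ha)⟩ = b := hb.symm
    rw [h1]
    exact b.2
  obtain ⟨d, hd⟩ : ∃ d : W₁, d = lf ((δ : B) : κ) := ⟨_, rfl⟩
  have hπd : D.π d = ((δ : B) : κ) := by rw [hd]; exact hlf _
  have hdL : CompAlg.Loc W₁ A (d : K) := by rw [hd]; exact hlL _
  have hvd : W₁.valuation (d : K) = 1 := by
    have h1 : W₁.valuation (d : K) ≤ 1 := (W₁.valuation_le_one_iff _).2 d.2
    have h2 : ¬ W₁.valuation (d : K) < 1 := fun h => hδ0 (by rw [← hπd]; exact (D.ker d).2 h)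
    exact le_antisymm h1 (not_lt.1 h2)
  have hd0 : (d : K) ≠ 0 := by
    intro h0
    rw [h0, map_zero] at hvd
    exact zero_ne_one hvd
  -- the first algebra
  obtain ⟨G, hGdef⟩ : ∃ G : Finset K, G = BG.image (fun t => (lf t : K)) ∪ {(d : K)} ∪
      AG.image (fun a => (d : K) * a) ∪ F := ⟨_, rfl⟩
  have hG1 : ∀ t ∈ BG, (lf t : K) ∈ G := fun t ht => by
    rw [hGdef]
    simp only [Finset.mem_union]
    exact Or.inl (Or.inl (Or.inl (Finset.mem_image_of_mem _ ht)))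
  have hG2 : (d : K) ∈ G := by
    rw [hGdef]
    simp only [Finset.mem_union]
    exact Or.inl (Or.inl (Or.inr (Finset.mem_singleton_self _)))
  have hG3 : ∀ a ∈ AG, (d : K) * a ∈ G := fun a ha => by
    rw [hGdef]
    simp only [Finset.mem_union]
    exact Or.inl (Or.inr (Finset.mem_image_of_mem _ ha))
  have hG4 : ∀ x ∈ F, x ∈ G := fun x hx => by
    rw [hGdef]
    simp only [Finset.mem_union]
    exact Or.inr hx
  have hG : ∀ g ∈ G, CompAlg.Gd D.toRes A B g := by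
    intro g hg
    rw [hGdef] at hg
    simp only [Finset.mem_union] at hg
    rcases hg with ((hg | hg) | hg) | hg
    · obtain ⟨t, ht, rfl⟩ := Finset.mem_image.1 hg
      refine ⟨⟨(lf t).2, ?_⟩, hlL t⟩
      have h1 : D.π ⟨(lf t : K), (lf t).2⟩ = t := hlf t
      rw [h1]
      exact hBGB t ht
    · rw [Finset.mem_singleton] at hg
      subst hg
      refine ⟨⟨d.2, ?_⟩, hdL⟩
      have h1 : D.π ⟨(d : K), d.2⟩ = ((δ : B) : κ) := hπd
      rw [h1]
      exact (δ : B).2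
    · obtain ⟨a, ha, rfl⟩ := Finset.mem_image.1 hg
      refine ⟨⟨mul_mem d.2 (hA a (hAGA a ha)), ?_⟩, hdL.mul (CompAlg.Loc.of_mem (hAGA a ha))⟩
      have h1 : D.π ⟨(d : K) * a, mul_mem d.2 (hA a (hAGA a ha))⟩ =
          ((δ : B) : κ) * D.π ⟨a, hA a (hAGA a ha)⟩ := by
        rw [← hπd, ← map_mul]
        rfl
      rw [h1]
      exact hδa a ha
    · exact ⟨⟨D.le (hF g hg), hFB ⟨g, D.le (hF g hg)⟩ hg⟩, CompAlg.Loc.of_mem (hFA g hg)⟩
  obtain ⟨C₀, hC₀def⟩ : ∃ C₀ : Subalgebra k K, C₀ = Algebra.adjoin k (G : Set K) := ⟨_, rfl⟩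
  have hC₀G : ∀ g ∈ G, g ∈ C₀ := fun g hg => by
    rw [hC₀def]
    exact Algebra.subset_adjoin hg
  have hC₀ : ∀ c ∈ C₀, CompAlg.Gd D.toRes A B c := by
    rw [hC₀def]
    exact CompAlg.Gd_adjoin hW₁ D.toRes A B hG
  have hC₀1 : ∀ c ∈ C₀, c ∈ W₁ := fun c hc => (hC₀ c hc).1.1
  have hC₀fg : C₀.FG := by
    rw [hC₀def]
    exact Subalgebra.fg_adjoin_finset G
  have hpow : ∀ a ∈ A, ∃ N : ℕ, (d : K) ^ N * a ∈ C₀ := by
    rw [← hAG]
    exact CompAlg.pow_adjoin C₀ (hC₀G _ hG2) fun a ha => hC₀G _ (hG3 a ha)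
  have hC₀N : IsNoetherianRing C₀ := by
    have : Algebra.FiniteType k C₀ := (Subalgebra.fg_iff_finiteType C₀).1 hC₀fg
    exact Algebra.FiniteType.isNoetherianRing k C₀
  obtain ⟨Y₀, hY₀⟩ : (LU.center W₁ C₀ hC₀1).FG := IsNoetherian.noetherian _
  have hY₀m : ∀ y ∈ Y₀, y ∈ LU.center W₁ C₀ hC₀1 := fun y hy => by
    rw [← hY₀]
    exact Ideal.subset_span hy
  obtain ⟨Δ, hΔA, hΔv, hΔ⟩ := CompAlg.par_fin W₁ A hA s hs (Y₀.image fun y : C₀ => (y : K)) (by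
    intro y hy
    obtain ⟨z, hz, rfl⟩ := Finset.mem_image.1 hy
    exact ⟨(hC₀ z z.2).2, (CompAlg.mem_center W₁ C₀ hC₀1 z).1 (hY₀m z hz)⟩)
  choose! α hαA hα using hΔ
  obtain ⟨e, he⟩ := CompAlg.pow_fin C₀ (hC₀G _ hG2)
    ((Y₀.image fun y : C₀ => (y : K)).biUnion fun y => Finset.univ.image (α y)) (by
      intro a ha
      obtain ⟨y, hy, hy'⟩ := Finset.mem_biUnion.1 ha
      obtain ⟨i, -, rfl⟩ := Finset.mem_image.1 hy'
      exact hpow _ (hαA y hy i))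
  have he' : ∀ y ∈ Y₀, ∀ i, (d : K) ^ e * α (y : K) i ∈ C₀ := fun y hy i =>
    he _ (Finset.mem_biUnion.2 ⟨(y : K), Finset.mem_image_of_mem _ hy,
      Finset.mem_image_of_mem _ (Finset.mem_univ i)⟩)
  -- the new parameters
  obtain ⟨η, hη⟩ : ∃ η : K, η = (d : K) ^ e * Δ := ⟨_, rfl⟩
  have hηv : W₁.valuation η = 1 := by rw [hη, map_mul, map_pow, hvd, hΔv, one_pow, one_mul]
  have hη0 : η ≠ 0 := by
    intro h0
    rw [h0, map_zero] at hηv
    exact zero_ne_one hηv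
  have hηL : CompAlg.Loc W₁ A η⁻¹ := by
    refine CompAlg.Loc.inv ?_ hηv
    rw [hη]
    exact (hdL.pow e).mul (CompAlg.Loc.of_mem hΔA)
  have hsv : ∀ i, W₁.valuation (s i : K) < 1 := by
    intro i
    rw [← CompAlg.mem_center W₁ A hA,
      ← IsLocalization.AtPrime.to_map_mem_maximal_iff
        (Localization.AtPrime (LU.center W₁ A hA)) (LU.center W₁ A hA), ← hs]
    exact Ideal.subset_span ⟨i, rfl⟩
  have hs'v : ∀ i, W₁.valuation ((s i : K) * η⁻¹) < 1 := by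
    intro i
    rw [map_mul, map_inv₀, hηv, inv_one, mul_one]
    exact hsv i
  have hs'G : ∀ i, CompAlg.Gd D.toRes A B ((s i : K) * η⁻¹) := by
    intro i
    have h1 : (s i : K) * η⁻¹ ∈ W₁ := (W₁.valuation_le_one_iff _).1 (hs'v i).le
    refine ⟨⟨h1, ?_⟩, (CompAlg.Loc.of_mem (s i).2).mul hηL⟩
    have h2 : D.π ⟨(s i : K) * η⁻¹, h1⟩ = 0 := (D.ker _).2 (hs'v i)
    rw [h2]
    exact zero_mem _
  obtain ⟨C, hCdef⟩ : ∃ C : Subalgebra k K, C = Algebra.adjoin k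
      ((G ∪ Finset.univ.image fun i => (s i : K) * η⁻¹ : Finset K) : Set K) := ⟨_, rfl⟩
  have hCG : ∀ c ∈ C, CompAlg.Gd D.toRes A B c := by
    rw [hCdef]
    refine CompAlg.Gd_adjoin hW₁ D.toRes A B fun g hg => ?_
    rw [Finset.mem_coe, Finset.mem_union] at hg
    rcases hg with hg | hg
    · exact hG g hg
    · obtain ⟨i, -, rfl⟩ := Finset.mem_image.1 hg
      exact hs'G i
  have hCs : ∀ i, (s i : K) * η⁻¹ ∈ C := fun i => by
    rw [hCdef]
    refine Algebra.subset_adjoin ?_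
    rw [Finset.mem_coe, Finset.mem_union]
    exact Or.inr (Finset.mem_image_of_mem _ (Finset.mem_univ i))
  have hC₀C : C₀ ≤ C := by
    rw [hC₀def, hCdef]
    refine Algebra.adjoin_mono ?_
    intro g hg
    rw [Finset.mem_coe, Finset.mem_union]
    exact Or.inl hg
  have hC₁ : ∀ c ∈ C, c ∈ W₁ := fun c hc => (hCG c hc).1.1
  have hC : ∀ c ∈ C, c ∈ W := fun c hc => by
    obtain ⟨h1, h2⟩ := (hCG c hc).1
    exact (D.mem ⟨c, h1⟩).1 (hB _ h2)
  obtain ⟨s', hs'⟩ : ∃ s' : Fin m → C, s' = fun i => ⟨(s i : K) * η⁻¹, hCs i⟩ := ⟨_, rfl⟩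
  have hs'K : ∀ i, (s' i : K) = (s i : K) * η⁻¹ := fun i => by rw [hs']
  have hdC : (d : K) ∈ C := hC₀C (hC₀G _ hG2)
  -- the ideal of the centre
  have hJ1 : Ideal.span (Set.range s') ≤ LU.center W₁ C hC₁ := by
    rw [Ideal.span_le]
    rintro _ ⟨i, rfl⟩
    refine (CompAlg.mem_center W₁ C hC₁ (s' i)).2 ?_
    rw [hs'K]
    exact hs'v i
  have hJ0 : ∀ z : C₀, z ∈ LU.center W₁ C₀ hC₀1 →
      (⟨(z : K), hC₀C z.2⟩ : C) ∈ Ideal.span (Set.range s') := by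
    have h1 : LU.center W₁ C₀ hC₀1 ≤
        (Ideal.span (Set.range s')).comap (Subalgebra.inclusion hC₀C : C₀ →+* C) := by
      rw [← hY₀, Ideal.span_le]
      intro y hy
      have h2 := hα (y : K) (Finset.mem_image_of_mem _ hy)
      have h3 : (Subalgebra.inclusion hC₀C : C₀ →+* C) y =
          ∑ i, (⟨(d : K) ^ e * α (y : K) i, hC₀C (he' y hy i)⟩ : C) * s' i := by
        apply Subtype.ext
        have h4 : ((∑ i, (⟨(d : K) ^ e * α (y : K) i, hC₀C (he' y hy i)⟩ : C) * s' i : C) : K) =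
            ∑ i, ((d : K) ^ e * α (y : K) i) * ((s i : K) * η⁻¹) := by
          rw [AddSubmonoidClass.coe_finsetSum]
          refine Finset.sum_congr rfl fun i _ => ?_
          change ((d : K) ^ e * α (y : K) i) * (s' i : K) = _
          rw [hs'K]
        rw [h4]
        have h5 : ∑ i, ((d : K) ^ e * α (y : K) i) * ((s i : K) * η⁻¹) =
            (d : K) ^ e * η⁻¹ * ∑ i, α (y : K) i * (s i : K) := by
          rw [Finset.mul_sum]
          exact Finset.sum_congr rfl fun i _ => by ring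
        rw [h5, ← h2]
        change (y : K) = _
        have h6 : (d : K) ^ e * η⁻¹ * (Δ * (y : K)) = (((d : K) ^ e * Δ) * η⁻¹) * (y : K) := by
          ring
        rw [h6, ← hη, mul_inv_cancel₀ hη0, one_mul]
      change (Subalgebra.inclusion hC₀C : C₀ →+* C) y ∈ Ideal.span (Set.range s')
      rw [h3]
      exact sum_mem fun i _ => Ideal.mul_mem_left _ _ (Ideal.subset_span ⟨i, rfl⟩)
    intro z hz
    exact h1 hz
  have hdec : ∀ (c : K) (hc : c ∈ C), ∃ (c₀ : K) (h₀ : c₀ ∈ C₀),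
      (⟨c, hc⟩ : C) - ⟨c₀, hC₀C h₀⟩ ∈ Ideal.span (Set.range s') := by
    intro c hc
    have hc' := hc
    rw [hCdef] at hc'
    revert hc
    induction hc' using Algebra.adjoin_induction with
    | mem x hx =>
      intro hc
      rw [Finset.mem_coe, Finset.mem_union] at hx
      rcases hx with hx | hx
      · refine ⟨x, hC₀G x hx, ?_⟩
        rw [sub_self]
        exact zero_mem _
      · obtain ⟨i, -, rfl⟩ := Finset.mem_image.1 hx
        refine ⟨0, zero_mem _, ?_⟩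
        have h1 : (⟨(s i : K) * η⁻¹, hc⟩ : C) - ⟨0, hC₀C (zero_mem _)⟩ = s' i := by
          apply Subtype.ext
          change (s i : K) * η⁻¹ - 0 = _
          rw [sub_zero, hs'K]
        rw [h1]
        exact Ideal.subset_span ⟨i, rfl⟩
    | algebraMap r =>
      intro hc
      refine ⟨_, C₀.algebraMap_mem r, ?_⟩
      rw [sub_self]
      exact zero_mem _
    | add x y hx hy ihx ihy =>
      intro hc
      have hx' : x ∈ C := by rw [hCdef]; exact hx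
      have hy' : y ∈ C := by rw [hCdef]; exact hy
      obtain ⟨x₀, hx₀, h1⟩ := ihx hx'
      obtain ⟨y₀, hy₀, h2⟩ := ihy hy'
      refine ⟨x₀ + y₀, add_mem hx₀ hy₀, ?_⟩
      have h3 : (⟨x + y, hc⟩ : C) - ⟨x₀ + y₀, hC₀C (add_mem hx₀ hy₀)⟩ =
          ((⟨x, hx'⟩ : C) - ⟨x₀, hC₀C hx₀⟩) + ((⟨y, hy'⟩ : C) - ⟨y₀, hC₀C hy₀⟩) := by
        apply Subtype.ext
        change (x + y) - (x₀ + y₀) = (x - x₀) + (y - y₀)
        ring
      rw [h3]
      exact add_mem h1 h2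
    | mul x y hx hy ihx ihy =>
      intro hc
      have hx' : x ∈ C := by rw [hCdef]; exact hx
      have hy' : y ∈ C := by rw [hCdef]; exact hy
      obtain ⟨x₀, hx₀, h1⟩ := ihx hx'
      obtain ⟨y₀, hy₀, h2⟩ := ihy hy'
      refine ⟨x₀ * y₀, mul_mem hx₀ hy₀, ?_⟩
      have h3 : (⟨x * y, hc⟩ : C) - ⟨x₀ * y₀, hC₀C (mul_mem hx₀ hy₀)⟩ =
          (⟨y, hy'⟩ : C) * ((⟨x, hx'⟩ : C) - ⟨x₀, hC₀C hx₀⟩) +
          (⟨x₀, hC₀C hx₀⟩ : C) * ((⟨y, hy'⟩ : C) - ⟨y₀, hC₀C hy₀⟩) := by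
        apply Subtype.ext
        change x * y - x₀ * y₀ = y * (x - x₀) + x₀ * (y - y₀)
        ring
      rw [h3]
      exact add_mem (Ideal.mul_mem_left _ _ h1) (Ideal.mul_mem_left _ _ h2)
  have hJ : Ideal.span (Set.range s') = LU.center W₁ C hC₁ := by
    refine le_antisymm hJ1 fun c hc => ?_
    obtain ⟨c₀, h₀, h1⟩ := hdec c c.2
    have h2 : (⟨c₀, hC₀C h₀⟩ : C) ∈ LU.center W₁ C hC₁ := by
      have h3 := sub_mem hc (hJ1 h1)
      rw [sub_sub_cancel] at h3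
      exact h3
    have h4 : (⟨c₀, h₀⟩ : C₀) ∈ LU.center W₁ C₀ hC₀1 :=
      (CompAlg.mem_center W₁ C₀ hC₀1 ⟨c₀, h₀⟩).2
        ((CompAlg.mem_center W₁ C hC₁ ⟨c₀, hC₀C h₀⟩).1 h2)
    have h5 := add_mem h1 (hJ0 _ h4)
    rw [sub_add_cancel] at h5
    exact h5
  refine ⟨C, hC, hC₁, s', ?_, ?_, fun x hx => hC₀C (hC₀G _ (hG4 x hx)), hJ, ?_, ?_, ?_⟩
  · rw [hCdef]
    exact Subalgebra.fg_adjoin_finset _
  · refine IsFractionRing.of_field C K fun z => ?_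
    obtain ⟨x, y, hy, rfl⟩ := IsFractionRing.div_surjective (A := A) z
    obtain ⟨N, hN⟩ := hpow x x.2
    obtain ⟨N', hN'⟩ := hpow y y.2
    refine ⟨⟨(d : K) ^ N' * ((d : K) ^ N * (x : K)), mul_mem (pow_mem hdC _) (hC₀C hN)⟩,
      ⟨(d : K) ^ N * ((d : K) ^ N' * (y : K)), mul_mem (pow_mem hdC _) (hC₀C hN')⟩, ?_⟩
    have hy0 : (y : K) ≠ 0 := by
      intro h0
      exact (nonZeroDivisors.ne_zero hy) (Subtype.ext h0)
    change (x : K) / (y : K) = ((d : K) ^ N' * ((d : K) ^ N * (x : K))) /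
      ((d : K) ^ N * ((d : K) ^ N' * (y : K)))
    field_simp
  · intro b
    constructor
    · intro hb
      rw [← hBG] at hb
      have key : ∃ (c : K) (hc : c ∈ C₀), D.π ⟨c, hC₀1 c hc⟩ = b := by
        induction hb using Algebra.adjoin_induction with
        | mem t ht => exact ⟨(lf t : K), hC₀G _ (hG1 t ht), hlf t⟩
        | algebraMap r => exact ⟨algebraMap k K r, C₀.algebraMap_mem r, D.alg r _ rfl⟩
        | add x y _ _ ihx ihy =>
          obtain ⟨x₀, hx₀, h1⟩ := ihx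
          obtain ⟨y₀, hy₀, h2⟩ := ihy
          refine ⟨x₀ + y₀, add_mem hx₀ hy₀, ?_⟩
          rw [← h1, ← h2, ← map_add]
          rfl
        | mul x y _ _ ihx ihy =>
          obtain ⟨x₀, hx₀, h1⟩ := ihx
          obtain ⟨y₀, hy₀, h2⟩ := ihy
          refine ⟨x₀ * y₀, mul_mem hx₀ hy₀, ?_⟩
          rw [← h1, ← h2, ← map_mul]
          rfl
      obtain ⟨c, hc, h1⟩ := key
      exact ⟨⟨c, hC₀C hc⟩, h1⟩
    · rintro ⟨c, rfl⟩
      exact (hCG c c.2).1.2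
  · intro a
    obtain ⟨N, hN⟩ := hpow a a.2
    refine ⟨⟨(d : K) ^ N * (a : K), hC₀C hN⟩, ⟨(d : K) ^ N, pow_mem hdC _⟩, ?_, mul_comm _ _⟩
    rw [CompAlg.notMem_center]
    change W₁.valuation ((d : K) ^ N) = 1
    rw [map_pow, hvd, one_pow]
  · intro c
    obtain ⟨a, b, ha, hb, hv, h⟩ := (hCG c c.2).2
    exact ⟨⟨a, ha⟩, ⟨b, hb⟩, (CompAlg.notMem_center W₁ A hA ⟨b, hb⟩).2 hv, h⟩

end LY
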