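import Pool.Agent.helper90.LY.CompAlg
import Pool.Agent.helper90.LY.RelS

open IsLocalRing

namespace LY

universe u

variable {k K : Type u} [Field k] [Field K] [Algebra k K]

/-- elements with a power of `H` as denominator -/
def CompAlgB.Inv (A : Subalgebra k K) (H : A) : Subalgebra k K where
  carrier := {x | ∃ e : ℕ, (H : K) ^ e * x ∈ A}
  mul_mem' := by
    rintro x y ⟨e, he⟩ ⟨e', he'⟩
    refine ⟨e + e', ?_⟩
    have h : (H : K) ^ (e + e') * (x * y) = ((H : K) ^ e * x) * ((H : K) ^ e' * y) := by ring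
    rw [h]
    exact mul_mem he he'
  add_mem' := by
    rintro x y ⟨e, he⟩ ⟨e', he'⟩
    refine ⟨e + e', ?_⟩
    have h : (H : K) ^ (e + e') * (x + y) =
        (H : K) ^ e' * ((H : K) ^ e * x) + (H : K) ^ e * ((H : K) ^ e' * y) := by ring
    rw [h]
    exact add_mem (mul_mem (pow_mem H.2 _) he) (mul_mem (pow_mem H.2 _) he')
  algebraMap_mem' := fun c => ⟨0, by rw [pow_zero, one_mul]; exact A.algebraMap_mem c⟩

theorem CompAlgB.mem_Inv {A : Subalgebra k K} {H : A} {x : K} :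
    x ∈ CompAlgB.Inv A H ↔ ∃ e : ℕ, (H : K) ^ e * x ∈ A := Iff.rfl

theorem CompAlgB.le_Inv (A : Subalgebra k K) (H : A) : A ≤ CompAlgB.Inv A H :=
  fun x hx => ⟨0, by rw [pow_zero, one_mul]; exact hx⟩

/-- elements with residue in `B` -/
def CompAlgB.Ri {W₁ : ValuationSubring K} (hW : ∀ c : k, algebraMap k K c ∈ W₁)
    {κ : Type u} [Field κ] [Algebra k κ] (D : Res (k := k) W₁ κ) (B : Subalgebra k κ) :
    Subalgebra k K where
  carrier := {x | ∃ h : x ∈ W₁, D.π ⟨x, h⟩ ∈ B}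
  mul_mem' := by
    rintro x y ⟨h1, h2⟩ ⟨h3, h4⟩
    refine ⟨mul_mem h1 h3, ?_⟩
    have e : (⟨x * y, mul_mem h1 h3⟩ : W₁) = ⟨x, h1⟩ * ⟨y, h3⟩ := rfl
    rw [e, map_mul]
    exact mul_mem h2 h4
  add_mem' := by
    rintro x y ⟨h1, h2⟩ ⟨h3, h4⟩
    refine ⟨add_mem h1 h3, ?_⟩
    have e : (⟨x + y, add_mem h1 h3⟩ : W₁) = ⟨x, h1⟩ + ⟨y, h3⟩ := rfl
    rw [e, map_add]
    exact add_mem h2 h4
  algebraMap_mem' := fun c => ⟨hW c, by rw [D.alg c _ rfl]; exact B.algebraMap_mem c⟩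

theorem CompAlgB.mem_Ri {W₁ : ValuationSubring K} (hW : ∀ c : k, algebraMap k K c ∈ W₁)
    {κ : Type u} [Field κ] [Algebra k κ] (D : Res (k := k) W₁ κ) (B : Subalgebra k κ) (x : W₁)
    (h : D.π x ∈ B) : (x : K) ∈ CompAlgB.Ri hW D B := ⟨x.2, h⟩

theorem CompAlgB.MonS_pow {W : ValuationSubring K} {A : Subalgebra k K} {h : ∀ a ∈ A, a ∈ W}
    {n : ℕ} {s : Fin n → A} (hs : ∀ i, ((s i : A) : K) ≠ 0) {x : K} (hx : MonS W A h s x)
    (e : ℕ) : MonS W A h s (x ^ e) := by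
  induction e with
  | zero =>
    rw [pow_zero]
    exact MonS.one W A h s
  | succ e ih =>
    rw [pow_succ]
    exact MonS.mul hs ih hx

theorem CompAlgB.val {W₁ : ValuationSubring K} {κ : Type u} [Field κ] [Algebra k κ]
    (D : Res (k := k) W₁ κ) (x : W₁) (h : D.π x ≠ 0) : W₁.valuation (x : K) = 1 := by
  have h1 : W₁.valuation (x : K) ≤ 1 := (W₁.valuation_le_one_iff _).2 x.2
  exact le_antisymm h1 (not_lt.1 fun h2 => h ((D.ker x).2 h2))

theorem CompAlgB.ne {W₁ : ValuationSubring K} {x : K} (h : W₁.valuation x = 1) : x ≠ 0 := by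
  rintro rfl
  rw [map_zero] at h
  exact zero_ne_one h

theorem CompAlgB.unit {W W₁ : ValuationSubring K} {κ : Type u} [Field κ] [Algebra k κ]
    {W' : ValuationSubring κ} (D : Comp (k := k) W W₁ κ W') (x : W₁)
    (h : W'.valuation (D.π x) = 1) : W.valuation (x : K) = 1 := by
  have h0 : D.π x ≠ 0 := CompAlgB.ne h
  have hv := CompAlgB.val D.toRes x h0
  have hx0 : (x : K) ≠ 0 := CompAlgB.ne hv
  have hi : (x : K)⁻¹ ∈ W₁ := by
    rw [← W₁.valuation_le_one_iff, map_inv₀, hv, inv_one]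
  have h1 : D.π ⟨(x : K)⁻¹, hi⟩ * D.π x = 1 := by
    rw [← map_mul, ← map_one D.π]
    congr 1
    exact Subtype.ext (inv_mul_cancel₀ hx0)
  have h2 : D.π ⟨(x : K)⁻¹, hi⟩ = (D.π x)⁻¹ := eq_inv_of_mul_eq_one_left h1
  have h3 : (x : K) ∈ W := (D.mem x).1 ((W'.valuation_le_one_iff _).1 h.le)
  have h4 : (x : K)⁻¹ ∈ W := (D.mem ⟨(x : K)⁻¹, hi⟩).1 (by
    rw [h2, ← W'.valuation_le_one_iff, map_inv₀, h, inv_one])
  rw [← W.valuation_le_one_iff] at h3 h4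
  rw [map_inv₀] at h4
  have h5 : W.valuation (x : K) ≠ 0 := (Valuation.ne_zero_iff _).2 hx0
  exact le_antisymm h3 ((inv_le_one₀ (zero_lt_iff.2 h5)).1 h4)

theorem CompAlgB.prodz {F : Type*} [Field F] {l : ℕ} (x : Fin l → F) (hx : ∀ i, x i ≠ 0)
    (a : Fin l → ℤ) (u : Fin l → ℕ) (M : ℕ) (h : ∀ i, (u i : ℤ) = M + a i) :
    (∏ i, x i ^ a i) * (∏ i, x i) ^ M = ∏ i, x i ^ u i := by
  rw [← Finset.prod_pow, ← Finset.prod_mul_distrib]
  refine Finset.prod_congr rfl fun i _ => ?_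
  rw [← zpow_natCast (x i) (u i), h i, zpow_add₀ (hx i), zpow_natCast, mul_comm]

theorem CompAlgB.fin {A : Type u} [CommRing A] [Algebra k A] {X : Set A}
    (h : Algebra.adjoin k X = ⊤) (hfg : (⊤ : Subalgebra k A).FG) :
    ∃ X₀ : Finset A, (∀ x ∈ X₀, x ∈ X) ∧ Algebra.adjoin k (X₀ : Set A) = ⊤ := by
  classical
  have key : ∀ a ∈ Algebra.adjoin k X, ∃ Y : Finset A, (∀ x ∈ Y, x ∈ X) ∧
      a ∈ Algebra.adjoin k (Y : Set A) := by
    intro a ha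
    induction ha using Algebra.adjoin_induction with
    | mem x hx =>
      refine ⟨{x}, fun y hy => ?_, Algebra.subset_adjoin (by simp)⟩
      rw [Finset.mem_singleton] at hy
      rw [hy]
      exact hx
    | algebraMap c => exact ⟨∅, fun y hy => absurd hy (Finset.notMem_empty y),
        Subalgebra.algebraMap_mem _ c⟩
    | add x y _ _ hx hy =>
      obtain ⟨Y, h1, h2⟩ := hx
      obtain ⟨Y', h1', h2'⟩ := hy
      refine ⟨Y ∪ Y', fun z hz => (Finset.mem_union.1 hz).elim (h1 z) (h1' z), ?_⟩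
      refine add_mem (Algebra.adjoin_mono ?_ h2) (Algebra.adjoin_mono ?_ h2')
      · exact fun z hz => Finset.mem_union_left _ hz
      · exact fun z hz => Finset.mem_union_right _ hz
    | mul x y _ _ hx hy =>
      obtain ⟨Y, h1, h2⟩ := hx
      obtain ⟨Y', h1', h2'⟩ := hy
      refine ⟨Y ∪ Y', fun z hz => (Finset.mem_union.1 hz).elim (h1 z) (h1' z), ?_⟩
      refine mul_mem (Algebra.adjoin_mono ?_ h2) (Algebra.adjoin_mono ?_ h2')
      · exact fun z hz => Finset.mem_union_left _ hz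
      · exact fun z hz => Finset.mem_union_right _ hz
  obtain ⟨G, hG⟩ := hfg
  choose Y hY1 hY2 using fun a : A => key a (by rw [h]; exact Algebra.mem_top)
  refine ⟨G.biUnion Y, fun x hx => ?_, ?_⟩
  · obtain ⟨g, -, hg⟩ := Finset.mem_biUnion.1 hx
    exact hY1 g x hg
  · rw [eq_top_iff, ← hG, Algebra.adjoin_le_iff]
    intro g hg
    exact Algebra.adjoin_mono (fun z hz => Finset.mem_biUnion.2 ⟨g, hg, hz⟩) (hY2 g)

theorem CompAlgB.par (W₁ : ValuationSubring K) (A : Subalgebra k K) (hA : ∀ a ∈ A, a ∈ W₁)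
    {m : ℕ} (s : Fin m → A) (γ : A)
    (hγ : ∀ y ∈ LU.center W₁ A hA, γ * y ∈ Ideal.span (Set.range s)) (H : A)
    (Y : Finset K) (hY : ∀ y ∈ Y, y ∈ CompAlgB.Inv A H ∧ W₁.valuation y < 1) :
    ∃ E : ℕ, ∀ y ∈ Y, ∃ α : Fin m → K, (∀ i, α i ∈ A) ∧
      (γ : K) * (H : K) ^ E * y = ∑ i, α i * (s i : K) := by
  classical
  induction Y using Finset.induction_on with
  | empty => exact ⟨0, fun y hy => absurd hy (Finset.notMem_empty y)⟩
  | insert z Y _ ih =>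
    obtain ⟨E, hE⟩ := ih fun y hy => hY y (Finset.mem_insert_of_mem hy)
    obtain ⟨⟨e, he⟩, hv⟩ := hY z (Finset.mem_insert_self _ _)
    have h1 : (⟨(H : K) ^ e * z, he⟩ : A) ∈ LU.center W₁ A hA := by
      rw [CompAlg.mem_center, map_mul, map_pow]
      have h2 : W₁.valuation (H : K) ≤ 1 := (W₁.valuation_le_one_iff _).2 (hA H H.2)
      exact (mul_le_of_le_one_left' (pow_le_one' h2 e)).trans_lt hv
    have h2 := hγ _ h1
    rw [Ideal.mem_span_range_iff_exists_fun] at h2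
    obtain ⟨c, hc⟩ := h2
    have h3 : (γ : K) * ((H : K) ^ e * z) = ∑ i, (c i : K) * (s i : K) := by
      have := congrArg (fun z : A => (z : K)) hc
      simpa using this.symm
    refine ⟨E + e, fun y hy => ?_⟩
    rcases Finset.mem_insert.1 hy with rfl | hy
    · refine ⟨fun i => (H : K) ^ E * (c i : K), fun i => mul_mem (pow_mem H.2 _) (c i).2, ?_⟩
      have h4 : (γ : K) * (H : K) ^ (E + e) * y = (H : K) ^ E * ((γ : K) * ((H : K) ^ e * y)) := by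
        ring
      rw [h4, h3, Finset.mul_sum]
      exact Finset.sum_congr rfl fun i _ => by ring
    · obtain ⟨α, hα, h⟩ := hE y hy
      refine ⟨fun i => (H : K) ^ e * α i, fun i => mul_mem (pow_mem H.2 _) (hα i), ?_⟩
      have h4 : (γ : K) * (H : K) ^ (E + e) * y = (H : K) ^ e * ((γ : K) * (H : K) ^ E * y) := by
        ring
      rw [h4, h, Finset.mul_sum]
      exact Finset.sum_congr rfl fun i _ => by ring


/-- Construction of the composite chart with monomialization (see `comp_alg`, store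
LUY_CompAlg.lean). Data: the chart `A` of `W₁` with parameters `s`, `γ ∈ A \ p` with
`γ (A ∩ m_{W₁}) ⊆ (s)`; the chart `B` of `W'` with parameters `w`; `Hd ∈ A \ p` with
`B ⊆ π(A)[1/π(Hd)]`; a finite set `S ⊆ A \ p` containing `γ`, `Hd` and generators of `A` outside `p`,
all of whose residues are monomials in `w` times units. Lifts `b_i = α_i / Hd^e` of the generators of
`B` (among them the `w_j`), `w'_j` the lift of `w_j`; `d = ∏ w'^c * (lifts of the denominators)` with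
`π(d a) ∈ B` for the generators `a` of `A`, so `π(d)` is again a monomial times a unit;
`C₀ = k[b_i, d, d a, F]`; for the generators `y` of `C₀ ∩ m_{W₁}`: `(Hd d)^E y ∈ A ∩ m_{W₁}`, so
`γ (Hd d)^E y = ∑ α_i s_i`, `α_i ∈ A`, `d^e α_i ∈ C₀`. `s'_i = s_i / E₀`,
`E₀ = γ Hd^(e₁) d^(e₂) (∏ w'_j)^L`, `C = C₀[s']`. For `T ∈ S` (and `T = d`): `d^e T ∈ C₀` and, with
lifts `N, D` of the numerator and denominator, `d^e T D - w'^c N ∈ C ∩ m_{W₁}`, which is `(s')` times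
elements of `C`; for `L` large (compare with `L = 0`: `s' = s'' / ...`) it is divisible by
`w'^c ∏ w'_j`, so `T` is a monomial in `w'` times a unit. Domination: `C ⊆ A[1/E₁]`,
`E₁ ∈ A` a product of `γ`, `Hd` and numerators of `d`, `w'_j` (`Hd^e d ∈ A`, `Hd^e w'_j ∈ A`). -/
theorem comp_algB (W W₁ : ValuationSubring K) (hW : ∀ c : k, algebraMap k K c ∈ W)
    (κ : Type u) [Field κ] [Algebra k κ] (W' : ValuationSubring κ)
    (D : Comp (k := k) W W₁ κ W') (A : Subalgebra k K) (hA : ∀ a ∈ A, a ∈ W₁) (hfg : A.FG)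
    (hfr : IsFractionRing A K) (m : ℕ) (s : Fin m → A)
    (hs1 : ∀ i, s i ∈ LU.center W₁ A hA) (hs0 : ∀ i, s i ≠ 0)
    (γ : A) (hγ : ∀ y ∈ LU.center W₁ A hA, γ * y ∈ Ideal.span (Set.range s))
    (B : Subalgebra k κ) (hB : ∀ b ∈ B, b ∈ W') (hBfg : B.FG) (hBfr : IsFractionRing B κ)
    (l : ℕ) (w : Fin l → B) (hw1 : ∀ i, w i ∈ LU.center W' B hB) (hw0 : ∀ i, w i ≠ 0)
    (Hd : A) (hHd : Hd ∉ LU.center W₁ A hA)
    (hdom : ∀ b ∈ B, ∃ (e : ℕ) (α : A), D.π ⟨(α : K), hA α α.2⟩ =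
      b * D.π ⟨(Hd : K), hA Hd Hd.2⟩ ^ e)
    (S : Finset A) (hS : ∀ T ∈ S, T ∉ LU.center W₁ A hA) (hγS : γ ∈ S) (hHS : Hd ∈ S)
    (hgen : Algebra.adjoin k ((S : Set A) ∪ LU.center W₁ A hA) = ⊤)
    (hSM : ∀ T ∈ S, MonS W' B hB w (D.π ⟨(T : K), hA T T.2⟩))
    (F : Finset K) (hF : ∀ x ∈ F, x ∈ W) (hFA : ∀ x ∈ F, x ∈ A)
    (hFB : ∀ x : W₁, (x : K) ∈ F → D.π x ∈ B) :
    ∃ (C : Subalgebra k K) (hC : ∀ c ∈ C, c ∈ W) (hC₁ : ∀ c ∈ C, c ∈ W₁) (s' : Fin m → C)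
      (w' : Fin l → C) (E₀ : K) (E₁ : A),
      C.FG ∧ IsFractionRing C K ∧ (∀ x ∈ F, x ∈ C) ∧
      Ideal.span (Set.range s') = LU.center W₁ C hC₁ ∧
      (∀ b : κ, b ∈ B ↔ ∃ c : C, D.π ⟨(c : K), hC₁ c c.2⟩ = b) ∧
      (∀ a : A, ∃ c d : C, d ∉ LU.center W₁ C hC₁ ∧ (a : K) * (d : K) = c) ∧
      (∀ c : C, ∃ a b : A, b ∉ LU.center W₁ A hA ∧ (c : K) * (b : K) = a) ∧
      (∀ j, D.π ⟨(w' j : K), hC₁ _ (w' j).2⟩ = w j) ∧
      (∀ i, (s i : K) = (s' i : K) * E₀) ∧ MonS W C hC w' E₀ ∧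
      (∀ T ∈ S, MonS W C hC w' (T : K)) ∧ MonS W C hC w' (E₁ : K) ∧
      ∀ c ∈ C, ∃ e : ℕ, (E₁ : K) ^ e * c ∈ A := by
  classical
  have hW₁ : ∀ c : k, algebraMap k K c ∈ W₁ := fun c => D.le (hW c)
  obtain ⟨X₀, hX₀, hX₀'⟩ := CompAlgB.fin hgen ((Subalgebra.fg_top A).2 hfg)
  obtain ⟨BG, hBG⟩ := hBfg
  have hBGB : ∀ t ∈ BG, t ∈ B := fun t ht => by
    rw [← hBG]
    exact Algebra.subset_adjoin ht
  have hHv : W₁.valuation (Hd : K) = 1 := (CompAlg.notMem_center W₁ A hA Hd).1 hHd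
  have hγv : W₁.valuation (γ : K) = 1 := (CompAlg.notMem_center W₁ A hA γ).1 (hS γ hγS)
  have hH0 : (Hd : K) ≠ 0 := CompAlgB.ne hHv
  have hπH : D.π ⟨(Hd : K), hA Hd Hd.2⟩ ≠ 0 := by
    intro h0
    have h1 := (D.ker _).1 h0
    change W₁.valuation (Hd : K) < 1 at h1
    rw [hHv] at h1
    exact lt_irrefl _ h1
  -- lifts
  have hlift : ∀ b ∈ B, ∃ x : W₁, D.π x = b ∧ (x : K) ∈ CompAlgB.Inv A Hd := by
    intro b hb
    obtain ⟨e, α, hα⟩ := hdom b hb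
    have hmem : (α : K) / (Hd : K) ^ e ∈ W₁ := by
      rw [← W₁.valuation_le_one_iff, map_div₀, map_pow, hHv, one_pow, div_one,
        W₁.valuation_le_one_iff]
      exact hA α α.2
    refine ⟨⟨_, hmem⟩, ?_, ⟨e, ?_⟩⟩
    · have h1 : D.π ⟨(α : K) / (Hd : K) ^ e, hmem⟩ * D.π ⟨(Hd : K), hA Hd Hd.2⟩ ^ e =
          D.π ⟨(α : K), hA α α.2⟩ := by
        rw [← map_pow, ← map_mul]
        congr 1
        exact Subtype.ext (div_mul_cancel₀ _ (pow_ne_zero _ hH0))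
      rw [hα] at h1
      exact mul_right_cancel₀ (pow_ne_zero _ hπH) h1
    · change (Hd : K) ^ e * ((α : K) / (Hd : K) ^ e) ∈ A
      rw [mul_div_cancel₀ _ (pow_ne_zero _ hH0)]
      exact α.2
  choose! lf hlf hlA using hlift
  -- data of the monomials
  have hSM' : ∀ T ∈ S, ∃ (a : Fin l → ℤ) (N Q : B), W'.valuation (N : κ) = 1 ∧
      W'.valuation (Q : κ) = 1 ∧
      D.π ⟨(T : K), hA T T.2⟩ * (Q : κ) = (∏ i, ((w i : B) : κ) ^ a i) * (N : κ) := by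
    intro T hT
    obtain ⟨a, N, Q, h1, h2, h3⟩ := hSM T hT
    exact ⟨a, N, Q, (CompAlg.notMem_center W' B hB N).1 h1,
      (CompAlg.notMem_center W' B hB Q).1 h2, h3⟩
  choose! aT NT QT hNv hQv hNQ using hSM'
  obtain ⟨M, hM⟩ : ∃ M : ℕ, ∀ T ∈ S, ∀ j, (aT T j).natAbs ≤ M :=
    ⟨∑ T ∈ S, ∑ j, (aT T j).natAbs, fun T hT j =>
      (Finset.single_le_sum (f := fun j => (aT T j).natAbs) (fun _ _ => Nat.zero_le _)
        (Finset.mem_univ j)).trans (Finset.single_le_sum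
        (f := fun T => ∑ j, (aT T j).natAbs) (fun _ _ => Nat.zero_le _) hT)⟩
  obtain ⟨uT, huT⟩ : ∃ u : A → Fin l → ℕ, ∀ T ∈ S, ∀ j, (u T j : ℤ) = M + aT T j ∧
      u T j ≤ 2 * M :=
    ⟨fun T j => (M + aT T j).toNat, fun T hT j => by
      have := hM T hT j
      constructor
      · exact Int.toNat_of_nonneg (by omega)
      · change (M + aT T j).toNat ≤ 2 * M
        omega⟩
  have hw0' : ∀ j, ((w j : B) : κ) ≠ 0 := fun j h0 => hw0 j (Subtype.ext h0)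
  obtain ⟨wl, hwl⟩ : ∃ wl : Fin l → W₁, ∀ j, wl j = lf ((w j : B) : κ) := ⟨_, fun _ => rfl⟩
  have hπwl : ∀ j, D.π (wl j) = w j := fun j => by rw [hwl]; exact hlf _ (w j).2
  obtain ⟨Wp, hWp⟩ : ∃ Wp : W₁, Wp = ∏ j, wl j := ⟨_, rfl⟩
  have hπWp : D.π Wp = ∏ j, ((w j : B) : κ) := by
    rw [hWp, map_prod]
    exact Finset.prod_congr rfl fun j _ => hπwl j
  obtain ⟨Qh, hQh⟩ : ∃ Qh : W₁, Qh = ∏ T ∈ S, lf ((QT T : B) : κ) := ⟨_, rfl⟩
  have hπQh : D.π Qh = ∏ T ∈ S, ((QT T : B) : κ) := by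
    rw [hQh, map_prod]
    exact Finset.prod_congr rfl fun T _ => hlf _ (QT T).2
  have hπQhv : W'.valuation (D.π Qh) = 1 := by
    rw [hπQh, map_prod]
    exact Finset.prod_eq_one fun T hT => hQv T hT
  obtain ⟨d, hd⟩ : ∃ d : W₁, d = Qh * Wp ^ M := ⟨_, rfl⟩
  have hπd : D.π d = (∏ T ∈ S, ((QT T : B) : κ)) * (∏ j, ((w j : B) : κ)) ^ M := by
    rw [hd, map_mul, map_pow, hπQh, hπWp]
  have hπW0 : (∏ j, ((w j : B) : κ)) ≠ 0 := Finset.prod_ne_zero_iff.2 fun j _ => hw0' j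
  have hWpv : W₁.valuation (Wp : K) = 1 := CompAlgB.val D.toRes Wp (by rw [hπWp]; exact hπW0)
  have hWp0 : (Wp : K) ≠ 0 := CompAlgB.ne hWpv
  have hdv : W₁.valuation (d : K) = 1 := CompAlgB.val D.toRes d (by
    rw [hd, map_mul, map_pow, hπWp]
    exact mul_ne_zero (CompAlgB.ne hπQhv) (pow_ne_zero _ hπW0))
  have hd0 : (d : K) ≠ 0 := CompAlgB.ne hdv
  have hwlv : ∀ j, W₁.valuation (wl j : K) = 1 := fun j =>
    CompAlgB.val D.toRes (wl j) (by rw [hπwl]; exact hw0' j)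
  -- key residue computation
  have hres : ∀ T (hT : T ∈ S), D.π (d * ⟨(T : K), hA T T.2⟩) =
      (∏ T' ∈ S.erase T, ((QT T' : B) : κ)) *
        ((∏ j, ((w j : B) : κ) ^ uT T j) * (NT T : κ)) := by
    intro T hT
    rw [map_mul, hπd, ← Finset.mul_prod_erase S (fun T => ((QT T : B) : κ)) hT,
      ← CompAlgB.prodz _ hw0' (aT T) (uT T) M fun j => (huT T hT j).1]
    calc _ = (∏ T' ∈ S.erase T, ((QT T' : B) : κ)) * ((D.π ⟨(T : K), hA T T.2⟩ * (QT T : κ)) *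
          (∏ j, ((w j : B) : κ)) ^ M) := by ring
      _ = _ := by
          rw [hNQ T hT]
          ring
  -- the first algebra
  obtain ⟨G, hGdef⟩ : ∃ G : Finset K, G = BG.image (fun t => (lf t : K)) ∪
      Finset.univ.image (fun j => (wl j : K)) ∪
      S.image (fun T : A => (lf ((NT T : B) : κ) : K)) ∪
      S.image (fun T : A => (lf ((QT T : B) : κ) : K)) ∪
      S.image (fun T : A => (d : K) * (T : K)) ∪
      (X₀.filter fun a : A => a ∈ LU.center W₁ A hA).image (fun a : A => (a : K)) ∪ F := ⟨_, rfl⟩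
  have hG1 : ∀ t ∈ BG, (lf t : K) ∈ G := fun t ht => by
    rw [hGdef]
    simp only [Finset.mem_union]
    exact Or.inl (Or.inl (Or.inl (Or.inl (Or.inl (Or.inl (Finset.mem_image_of_mem _ ht))))))
  have hG2 : ∀ j, (wl j : K) ∈ G := fun j => by
    rw [hGdef]
    simp only [Finset.mem_union]
    exact Or.inl (Or.inl (Or.inl (Or.inl (Or.inl (Or.inr
      (Finset.mem_image_of_mem _ (Finset.mem_univ j)))))))
  have hG3 : ∀ T ∈ S, (lf ((NT T : B) : κ) : K) ∈ G := fun T hT => by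
    rw [hGdef]
    simp only [Finset.mem_union]
    exact Or.inl (Or.inl (Or.inl (Or.inl (Or.inr (Finset.mem_image_of_mem _ hT)))))
  have hG4 : ∀ T ∈ S, (lf ((QT T : B) : κ) : K) ∈ G := fun T hT => by
    rw [hGdef]
    simp only [Finset.mem_union]
    exact Or.inl (Or.inl (Or.inl (Or.inr (Finset.mem_image_of_mem _ hT))))
  have hG5 : ∀ T ∈ S, (d : K) * (T : K) ∈ G := fun T hT => by
    rw [hGdef]
    simp only [Finset.mem_union]
    exact Or.inl (Or.inl (Or.inr (Finset.mem_image_of_mem _ hT)))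
  have hG6 : ∀ a ∈ X₀, a ∈ LU.center W₁ A hA → (a : K) ∈ G := fun a ha ha' => by
    rw [hGdef]
    simp only [Finset.mem_union]
    exact Or.inl (Or.inr (Finset.mem_image_of_mem _ (Finset.mem_filter.2 ⟨ha, ha'⟩)))
  have hG7 : ∀ x ∈ F, x ∈ G := fun x hx => by
    rw [hGdef]
    simp only [Finset.mem_union]
    exact Or.inr hx
  have hdInv : (d : K) ∈ CompAlgB.Inv A Hd := by
    have h1 : (d : K) = (∏ T ∈ S, (lf ((QT T : B) : κ) : K)) * (∏ j, (wl j : K)) ^ M := by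
      rw [hd, hQh, hWp]
      change W₁.subtype ((∏ T ∈ S, lf ((QT T : B) : κ)) * (∏ j, wl j) ^ M) = _
      rw [map_mul, map_pow, map_prod, map_prod]
      rfl
    rw [h1]
    exact mul_mem (prod_mem fun T _ => hlA _ (QT T).2) (pow_mem (prod_mem fun j _ => by
      rw [hwl]
      exact hlA _ (w j).2) _)
  have hGR : ∀ g ∈ G, g ∈ CompAlgB.Ri hW₁ D.toRes B ⊓ CompAlgB.Inv A Hd := by
    intro g hg
    rw [hGdef] at hg
    simp only [Finset.mem_union] at hg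
    rcases hg with (((((hg | hg) | hg) | hg) | hg) | hg) | hg
    · obtain ⟨t, ht, rfl⟩ := Finset.mem_image.1 hg
      exact ⟨CompAlgB.mem_Ri hW₁ D.toRes B _ (by rw [hlf t (hBGB t ht)]; exact hBGB t ht),
        hlA t (hBGB t ht)⟩
    · obtain ⟨j, -, rfl⟩ := Finset.mem_image.1 hg
      refine ⟨CompAlgB.mem_Ri hW₁ D.toRes B _ (by rw [hπwl]; exact (w j).2), ?_⟩
      rw [hwl]
      exact hlA _ (w j).2
    · obtain ⟨T, -, rfl⟩ := Finset.mem_image.1 hg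
      exact ⟨CompAlgB.mem_Ri hW₁ D.toRes B _ (by rw [hlf _ (NT T).2]; exact (NT T).2),
        hlA _ (NT T).2⟩
    · obtain ⟨T, -, rfl⟩ := Finset.mem_image.1 hg
      exact ⟨CompAlgB.mem_Ri hW₁ D.toRes B _ (by rw [hlf _ (QT T).2]; exact (QT T).2),
        hlA _ (QT T).2⟩
    · obtain ⟨T, hT, rfl⟩ := Finset.mem_image.1 hg
      refine ⟨CompAlgB.mem_Ri hW₁ D.toRes B (d * ⟨(T : K), hA T T.2⟩) ?_,
        mul_mem hdInv (CompAlgB.le_Inv A Hd T.2)⟩
      rw [hres T hT]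
      exact mul_mem (prod_mem fun T' _ => (QT T').2)
        (mul_mem (prod_mem fun j _ => pow_mem (w j).2 _) (NT T).2)
    · obtain ⟨a, ha, rfl⟩ := Finset.mem_image.1 hg
      have h1 := (Finset.mem_filter.1 ha).2
      refine ⟨CompAlgB.mem_Ri hW₁ D.toRes B ⟨(a : K), hA a a.2⟩ ?_, CompAlgB.le_Inv A Hd a.2⟩
      rw [(D.ker ⟨(a : K), hA a a.2⟩).2 ((CompAlg.mem_center W₁ A hA a).1 h1)]
      exact zero_mem _
    · exact ⟨CompAlgB.mem_Ri hW₁ D.toRes B ⟨g, D.le (hF g hg)⟩ (hFB ⟨g, D.le (hF g hg)⟩ hg),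
        CompAlgB.le_Inv A Hd (hFA g hg)⟩
  obtain ⟨C₀, hC₀def⟩ : ∃ C₀ : Subalgebra k K, C₀ = Algebra.adjoin k (G : Set K) := ⟨_, rfl⟩
  have hC₀G : ∀ g ∈ G, g ∈ C₀ := fun g hg => by
    rw [hC₀def]
    exact Algebra.subset_adjoin hg
  have hC₀R : C₀ ≤ CompAlgB.Ri hW₁ D.toRes B ⊓ CompAlgB.Inv A Hd := by
    rw [hC₀def]
    exact Algebra.adjoin_le hGR
  have hC₀1 : ∀ c ∈ C₀, c ∈ W₁ := fun c hc => (hC₀R hc).1.1
  have hC₀fg : C₀.FG := by
    rw [hC₀def]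
    exact Subalgebra.fg_adjoin_finset G
  have hWpC₀ : (Wp : K) ∈ C₀ := by
    have h1 : (Wp : K) = ∏ j, (wl j : K) := by
      rw [hWp]
      exact map_prod W₁.subtype _ _
    rw [h1]
    exact prod_mem fun j _ => hC₀G _ (hG2 j)
  have hQhC₀ : (Qh : K) ∈ C₀ := by
    have h1 : (Qh : K) = ∏ T ∈ S, (lf ((QT T : B) : κ) : K) := by
      rw [hQh]
      exact map_prod W₁.subtype _ _
    rw [h1]
    exact prod_mem fun T hT => hC₀G _ (hG4 T hT)
  have hdK : (d : K) = (Qh : K) * (Wp : K) ^ M := by rw [hd]; rfl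
  have hdC₀ : (d : K) ∈ C₀ := by
    rw [hdK]
    exact mul_mem hQhC₀ (pow_mem hWpC₀ _)
  have hpow : ∀ a ∈ A, ∃ N : ℕ, (d : K) ^ N * a ∈ C₀ := by
    have h1 : (⊤ : Subalgebra k A) ≤ (CompAlgB.Inv C₀ ⟨(d : K), hdC₀⟩).comap A.val := by
      rw [← hX₀', Algebra.adjoin_le_iff]
      intro a ha
      change (a : K) ∈ CompAlgB.Inv C₀ ⟨(d : K), hdC₀⟩
      refine ⟨1, ?_⟩
      change (d : K) ^ 1 * (a : K) ∈ C₀
      rw [pow_one]
      rcases hX₀ a ha with h | h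
      · exact hC₀G _ (hG5 a h)
      · exact mul_mem hdC₀ (hC₀G _ (hG6 a ha h))
    intro a ha
    exact h1 (x := ⟨a, ha⟩) Algebra.mem_top
  have hC₀N : IsNoetherianRing C₀ := by
    have : Algebra.FiniteType k C₀ := (Subalgebra.fg_iff_finiteType C₀).1 hC₀fg
    exact Algebra.FiniteType.isNoetherianRing k C₀
  obtain ⟨Y₀, hY₀⟩ : (LU.center W₁ C₀ hC₀1).FG := IsNoetherian.noetherian _
  have hY₀m : ∀ y ∈ Y₀, y ∈ LU.center W₁ C₀ hC₀1 := fun y hy => by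
    rw [← hY₀]
    exact Ideal.subset_span hy
  obtain ⟨E, hE⟩ := CompAlgB.par W₁ A hA s γ hγ Hd (Y₀.image fun y : C₀ => (y : K)) (by
    intro y hy
    obtain ⟨z, hz, rfl⟩ := Finset.mem_image.1 hy
    exact ⟨(hC₀R z.2).2, (CompAlg.mem_center W₁ C₀ hC₀1 z).1 (hY₀m z hz)⟩)
  choose! α hαA hα using hE
  obtain ⟨e, he⟩ := CompAlg.pow_fin C₀ hdC₀
    ((Y₀.image fun y : C₀ => (y : K)).biUnion fun y => Finset.univ.image (α y)) (by
      intro a ha
      obtain ⟨y, hy, hy'⟩ := Finset.mem_biUnion.1 ha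
      obtain ⟨i, -, rfl⟩ := Finset.mem_image.1 hy'
      exact hpow _ (hαA y hy i))
  have he' : ∀ y ∈ Y₀, ∀ i, (d : K) ^ e * α (y : K) i ∈ C₀ := fun y hy i =>
    he _ (Finset.mem_biUnion.2 ⟨(y : K), Finset.mem_image_of_mem _ hy,
      Finset.mem_image_of_mem _ (Finset.mem_univ i)⟩)
  -- the new parameters
  obtain ⟨L, hL⟩ : ∃ L : ℕ, L = 2 * M := ⟨_, rfl⟩
  obtain ⟨η, hη⟩ : ∃ η : K, η = (γ : K) * (Hd : K) ^ E * (d : K) ^ e * (Wp : K) ^ L := ⟨_, rfl⟩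
  have hηv : W₁.valuation η = 1 := by
    rw [hη, map_mul, map_mul, map_mul, map_pow, map_pow, map_pow, hγv, hHv, hdv, hWpv]
    simp
  have hη0 : η ≠ 0 := CompAlgB.ne hηv
  have hsv : ∀ i, W₁.valuation (s i : K) < 1 := fun i => (CompAlg.mem_center W₁ A hA _).1 (hs1 i)
  have hs'v : ∀ i, W₁.valuation ((s i : K) * η⁻¹) < 1 := by
    intro i
    rw [map_mul, map_inv₀, hηv, inv_one, mul_one]
    exact hsv i
  have hs'R : ∀ i, (s i : K) * η⁻¹ ∈ CompAlgB.Ri hW₁ D.toRes B := by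
    intro i
    have h1 : (s i : K) * η⁻¹ ∈ W₁ := (W₁.valuation_le_one_iff _).1 (hs'v i).le
    refine ⟨h1, ?_⟩
    have h2 : D.π ⟨(s i : K) * η⁻¹, h1⟩ = 0 := (D.ker _).2 (hs'v i)
    rw [h2]
    exact zero_mem _
  obtain ⟨C, hCdef⟩ : ∃ C : Subalgebra k K, C = Algebra.adjoin k
      ((G ∪ Finset.univ.image fun i => (s i : K) * η⁻¹ : Finset K) : Set K) := ⟨_, rfl⟩
  have hCR : C ≤ CompAlgB.Ri hW₁ D.toRes B := by
    rw [hCdef, Algebra.adjoin_le_iff]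
    intro g hg
    rw [Finset.mem_coe, Finset.mem_union] at hg
    rcases hg with hg | hg
    · exact (hGR g hg).1
    · obtain ⟨i, -, rfl⟩ := Finset.mem_image.1 hg
      exact hs'R i
  have hCs : ∀ i, (s i : K) * η⁻¹ ∈ C := fun i => by
    rw [hCdef]
    refine Algebra.subset_adjoin ?_
    rw [Finset.mem_coe, Finset.mem_union]
    exact Or.inr (Finset.mem_image_of_mem _ (Finset.mem_univ i))
  have hC₀C : C₀ ≤ C := by
    rw [hC₀def, hCdef]
    refine Algebra.adjoin_mono ?_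
    intro g hg
    rw [Finset.mem_coe, Finset.mem_union]
    exact Or.inl hg
  have hC₁ : ∀ c ∈ C, c ∈ W₁ := fun c hc => (hCR hc).1
  have hC : ∀ c ∈ C, c ∈ W := fun c hc => by
    obtain ⟨h1, h2⟩ := hCR hc
    exact (D.mem ⟨c, h1⟩).1 (hB _ h2)
  obtain ⟨s', hs'⟩ : ∃ s' : Fin m → C, s' = fun i => ⟨(s i : K) * η⁻¹, hCs i⟩ := ⟨_, rfl⟩
  have hs'K : ∀ i, (s' i : K) = (s i : K) * η⁻¹ := fun i => by rw [hs']
  have hdC : (d : K) ∈ C := hC₀C hdC₀
  have hWpC : (Wp : K) ∈ C := hC₀C hWpC₀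
  obtain ⟨w', hw'⟩ : ∃ w' : Fin l → C, ∀ j, (w' j : K) = (wl j : K) :=
    ⟨fun j => ⟨(wl j : K), hC₀C (hC₀G _ (hG2 j))⟩, fun _ => rfl⟩
  have hw'0 : ∀ j, (w' j : K) ≠ 0 := fun j => by
    rw [hw']
    exact CompAlgB.ne (hwlv j)
  have hWp' : (Wp : K) = ∏ j, (w' j : K) := by
    have h1 : (Wp : K) = ∏ j, (wl j : K) := by
      rw [hWp]
      exact map_prod W₁.subtype _ _
    rw [h1]
    exact Finset.prod_congr rfl fun j _ => (hw' j).symm
  -- units of the chart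
  have hunit : ∀ (c : C) (x : W₁), (c : K) = (x : K) → W'.valuation (D.π x) = 1 →
      c ∉ LU.center W C hC := by
    intro c x hcx hv
    rw [CompAlg.notMem_center, hcx]
    exact CompAlgB.unit D x hv
  -- the ideal of the centre
  have hJ1 : Ideal.span (Set.range s') ≤ LU.center W₁ C hC₁ := by
    rw [Ideal.span_le]
    rintro _ ⟨i, rfl⟩
    refine (CompAlg.mem_center W₁ C hC₁ (s' i)).2 ?_
    rw [hs'K]
    exact hs'v i
  have hJ0 : ∀ z : C₀, z ∈ LU.center W₁ C₀ hC₀1 →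
      ∃ q ∈ Ideal.span (Set.range s'), (z : K) = (Wp : K) ^ L * (q : K) := by
    have h1 : LU.center W₁ C₀ hC₀1 ≤
        (Ideal.span {(⟨(Wp : K) ^ L, pow_mem hWpC L⟩ : C)} * Ideal.span (Set.range s')).comap
          (Subalgebra.inclusion hC₀C : C₀ →+* C) := by
      rw [← hY₀, Ideal.span_le]
      intro y hy
      have h2 := hα (y : K) (Finset.mem_image_of_mem _ hy)
      change (Subalgebra.inclusion hC₀C : C₀ →+* C) y ∈
        Ideal.span {(⟨(Wp : K) ^ L, pow_mem hWpC L⟩ : C)} * Ideal.span (Set.range s')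
      rw [Ideal.mem_span_singleton_mul]
      refine ⟨∑ i, (⟨(d : K) ^ e * α (y : K) i, hC₀C (he' y hy i)⟩ : C) * s' i,
        sum_mem fun i _ => Ideal.mul_mem_left _ _ (Ideal.subset_span ⟨i, rfl⟩), ?_⟩
      apply Subtype.ext
      have h4 : ((∑ i, (⟨(d : K) ^ e * α (y : K) i, hC₀C (he' y hy i)⟩ : C) * s' i : C) : K) =
          ∑ i, ((d : K) ^ e * α (y : K) i) * ((s i : K) * η⁻¹) := by
        rw [AddSubmonoidClass.coe_finsetSum]
        refine Finset.sum_congr rfl fun i _ => ?_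
        change ((d : K) ^ e * α (y : K) i) * (s' i : K) = _
        rw [hs'K]
      change (Wp : K) ^ L * ((∑ i, (⟨(d : K) ^ e * α (y : K) i, hC₀C (he' y hy i)⟩ : C) * s' i :
        C) : K) = (y : K)
      rw [h4]
      have h5 : ∑ i, ((d : K) ^ e * α (y : K) i) * ((s i : K) * η⁻¹) =
          (d : K) ^ e * η⁻¹ * ∑ i, α (y : K) i * (s i : K) := by
        rw [Finset.mul_sum]
        exact Finset.sum_congr rfl fun i _ => by ring
      rw [h5, ← h2]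
      have h6 : (Wp : K) ^ L * ((d : K) ^ e * η⁻¹ * ((γ : K) * (Hd : K) ^ E * (y : K))) =
          (((γ : K) * (Hd : K) ^ E * (d : K) ^ e * (Wp : K) ^ L) * η⁻¹) * (y : K) := by
        ring
      rw [h6, ← hη, mul_inv_cancel₀ hη0, one_mul]
    intro z hz
    have h2 := h1 hz
    change (Subalgebra.inclusion hC₀C : C₀ →+* C) z ∈
      Ideal.span {(⟨(Wp : K) ^ L, pow_mem hWpC L⟩ : C)} * Ideal.span (Set.range s') at h2
    rw [Ideal.mem_span_singleton_mul] at h2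
    obtain ⟨q, hq, hqz⟩ := h2
    refine ⟨q, hq, ?_⟩
    have h3 := congrArg (fun z : C => (z : K)) hqz
    exact h3.symm
  have hJ0' : ∀ z : C₀, z ∈ LU.center W₁ C₀ hC₀1 →
      (⟨(z : K), hC₀C z.2⟩ : C) ∈ Ideal.span (Set.range s') := by
    intro z hz
    obtain ⟨q, hq, hzq⟩ := hJ0 z hz
    have h1 : (⟨(z : K), hC₀C z.2⟩ : C) = ⟨(Wp : K) ^ L, pow_mem hWpC L⟩ * q := by
      apply Subtype.ext
      exact hzq
    rw [h1]
    exact Ideal.mul_mem_left _ _ hq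
  have hdec : ∀ (c : K) (hc : c ∈ C), ∃ (c₀ : K) (h₀ : c₀ ∈ C₀),
      (⟨c, hc⟩ : C) - ⟨c₀, hC₀C h₀⟩ ∈ Ideal.span (Set.range s') := by
    intro c hc
    have hc' := hc
    rw [hCdef] at hc'
    revert hc
    induction hc' using Algebra.adjoin_induction with
    | mem x hx =>
      intro hc
      rw [Finset.mem_coe, Finset.mem_union] at hx
      rcases hx with hx | hx
      · refine ⟨x, hC₀G x hx, ?_⟩
        rw [sub_self]
        exact zero_mem _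
      · obtain ⟨i, -, rfl⟩ := Finset.mem_image.1 hx
        refine ⟨0, zero_mem _, ?_⟩
        have h1 : (⟨(s i : K) * η⁻¹, hc⟩ : C) - ⟨0, hC₀C (zero_mem _)⟩ = s' i := by
          apply Subtype.ext
          change (s i : K) * η⁻¹ - 0 = _
          rw [sub_zero, hs'K]
        rw [h1]
        exact Ideal.subset_span ⟨i, rfl⟩
    | algebraMap r =>
      intro hc
      refine ⟨_, C₀.algebraMap_mem r, ?_⟩
      rw [sub_self]
      exact zero_mem _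
    | add x y hx hy ihx ihy =>
      intro hc
      have hx' : x ∈ C := by rw [hCdef]; exact hx
      have hy' : y ∈ C := by rw [hCdef]; exact hy
      obtain ⟨x₀, hx₀, h1⟩ := ihx hx'
      obtain ⟨y₀, hy₀, h2⟩ := ihy hy'
      refine ⟨x₀ + y₀, add_mem hx₀ hy₀, ?_⟩
      have h3 : (⟨x + y, hc⟩ : C) - ⟨x₀ + y₀, hC₀C (add_mem hx₀ hy₀)⟩ =
          ((⟨x, hx'⟩ : C) - ⟨x₀, hC₀C hx₀⟩) + ((⟨y, hy'⟩ : C) - ⟨y₀, hC₀C hy₀⟩) := by
        apply Subtype.ext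
        change (x + y) - (x₀ + y₀) = (x - x₀) + (y - y₀)
        ring
      rw [h3]
      exact add_mem h1 h2
    | mul x y hx hy ihx ihy =>
      intro hc
      have hx' : x ∈ C := by rw [hCdef]; exact hx
      have hy' : y ∈ C := by rw [hCdef]; exact hy
      obtain ⟨x₀, hx₀, h1⟩ := ihx hx'
      obtain ⟨y₀, hy₀, h2⟩ := ihy hy'
      refine ⟨x₀ * y₀, mul_mem hx₀ hy₀, ?_⟩
      have h3 : (⟨x * y, hc⟩ : C) - ⟨x₀ * y₀, hC₀C (mul_mem hx₀ hy₀)⟩ =
          (⟨y, hy'⟩ : C) * ((⟨x, hx'⟩ : C) - ⟨x₀, hC₀C hx₀⟩) +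
          (⟨x₀, hC₀C hx₀⟩ : C) * ((⟨y, hy'⟩ : C) - ⟨y₀, hC₀C hy₀⟩) := by
        apply Subtype.ext
        change x * y - x₀ * y₀ = y * (x - x₀) + x₀ * (y - y₀)
        ring
      rw [h3]
      exact add_mem (Ideal.mul_mem_left _ _ h1) (Ideal.mul_mem_left _ _ h2)
  have hJ : Ideal.span (Set.range s') = LU.center W₁ C hC₁ := by
    refine le_antisymm hJ1 fun c hc => ?_
    obtain ⟨c₀, h₀, h1⟩ := hdec c c.2
    have h2 : (⟨c₀, hC₀C h₀⟩ : C) ∈ LU.center W₁ C hC₁ := by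
      have h3 := sub_mem hc (hJ1 h1)
      rw [sub_sub_cancel] at h3
      exact h3
    have h4 : (⟨c₀, h₀⟩ : C₀) ∈ LU.center W₁ C₀ hC₀1 :=
      (CompAlg.mem_center W₁ C₀ hC₀1 ⟨c₀, h₀⟩).2
        ((CompAlg.mem_center W₁ C hC₁ ⟨c₀, hC₀C h₀⟩).1 h2)
    have h5 := add_mem h1 (hJ0' _ h4)
    rw [sub_add_cancel] at h5
    exact h5
  -- monomials
  have hone : (1 : C) ∉ LU.center W C hC := by
    rw [CompAlg.notMem_center]
    exact map_one _
  have hQhu : (⟨(Qh : K), hC₀C hQhC₀⟩ : C) ∉ LU.center W C hC := hunit _ Qh rfl hπQhv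
  have hMW : MonS W C hC w' (Wp : K) := by
    refine ⟨fun _ => 1, 1, 1, hone, hone, ?_⟩
    rw [hWp']
    simp
  have hMQ : MonS W C hC w' (Qh : K) := by
    refine ⟨0, ⟨(Qh : K), hC₀C hQhC₀⟩, 1, hQhu, hone, ?_⟩
    simp
  have hMd : MonS W C hC w' (d : K) := by
    rw [hdK]
    exact MonS.mul hw'0 hMQ (CompAlgB.MonS_pow hw'0 hMW M)
  have hMS : ∀ T ∈ S, MonS W C hC w' (T : K) := by
    intro T hT
    -- the element `z`
    obtain ⟨z, hz⟩ : ∃ z : W₁, z = d * ⟨(T : K), hA T T.2⟩ * lf ((QT T : B) : κ) -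
        Qh * ((∏ j, wl j ^ uT T j) * lf ((NT T : B) : κ)) := ⟨_, rfl⟩
    have hπz : D.π z = 0 := by
      rw [hz, map_sub, map_mul D.π (d * _), hres T hT, hlf _ (QT T).2, map_mul D.π Qh,
        map_mul D.π (∏ j, wl j ^ uT T j), hlf _ (NT T).2, map_prod, hπQh,
        ← Finset.mul_prod_erase S (fun T => ((QT T : B) : κ)) hT]
      have h1 : ∏ j, D.π (wl j ^ uT T j) = ∏ j, ((w j : B) : κ) ^ uT T j :=
        Finset.prod_congr rfl fun j _ => by rw [map_pow, hπwl]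
      rw [h1]
      ring
    have hprodK : ∀ u : Fin l → ℕ, ((∏ j, wl j ^ u j : W₁) : K) = ∏ j, (wl j : K) ^ u j := by
      intro u
      exact (map_prod W₁.subtype _ _).trans (Finset.prod_congr rfl fun j _ => map_pow _ _ _)
    have hzK : (z : K) = (d : K) * (T : K) * (lf ((QT T : B) : κ) : K) -
        (Qh : K) * ((∏ j, (wl j : K) ^ uT T j) * (lf ((NT T : B) : κ) : K)) := by
      rw [← hprodK, hz]
      rfl
    have hzC₀ : (z : K) ∈ C₀ := by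
      rw [hzK]
      exact sub_mem (mul_mem (hC₀G _ (hG5 T hT)) (hC₀G _ (hG4 T hT)))
        (mul_mem hQhC₀ (mul_mem (prod_mem fun j _ => pow_mem (hC₀G _ (hG2 j)) _)
          (hC₀G _ (hG3 T hT))))
    obtain ⟨q, hq, hzq⟩ := hJ0 ⟨(z : K), hzC₀⟩
      ((CompAlg.mem_center W₁ C₀ hC₀1 _).2 ((D.ker z).1 hπz))
    change (z : K) = (Wp : K) ^ L * (q : K) at hzq
    have hq1 := hJ1 hq
    rw [CompAlg.mem_center] at hq1
    -- the unit
    have hprodC : ∀ u : Fin l → ℕ, (∏ j, (wl j : K) ^ u j) ∈ C := fun u =>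
      prod_mem fun j _ => pow_mem (hC₀C (hC₀G _ (hG2 j))) _
    obtain ⟨r, hr⟩ : ∃ r : Fin l → ℕ, ∀ j, uT T j + r j = L :=
      ⟨fun j => L - uT T j, fun j => by
        have := (huT T hT j).2
        change uT T j + (L - uT T j) = L
        omega⟩
    have hWL : (Wp : K) ^ L = (∏ j, (wl j : K) ^ uT T j) * ∏ j, (wl j : K) ^ r j := by
      have h1 : (Wp : K) = ∏ j, (wl j : K) := by
        rw [hWp]
        exact map_prod W₁.subtype _ _
      rw [h1, ← Finset.prod_pow, ← Finset.prod_mul_distrib]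
      exact Finset.prod_congr rfl fun j _ => by rw [← pow_add, hr]
    obtain ⟨N, hN⟩ : ∃ N : C, (N : K) = (Qh : K) * (lf ((NT T : B) : κ) : K) +
        (∏ j, (wl j : K) ^ r j) * (q : K) :=
      ⟨⟨_, add_mem (mul_mem (hC₀C hQhC₀) (hC₀C (hC₀G _ (hG3 T hT))))
        (mul_mem (hprodC r) q.2)⟩, rfl⟩
    have hNu : N ∉ LU.center W C hC := by
      refine hunit N (Qh * lf ((NT T : B) : κ) + (∏ j, wl j ^ r j) * ⟨(q : K), hC₁ q q.2⟩) ?_ ?_
      · rw [hN, ← hprodK]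
        rfl
      · have h1 : D.π ⟨(q : K), hC₁ q q.2⟩ = 0 := (D.ker _).2 hq1
        rw [map_add, map_mul, map_mul, h1, mul_zero, add_zero, map_mul, hπQhv,
          hlf _ (NT T).2, hNv T hT, one_mul]
    have hQu : (⟨(Qh : K) * (lf ((QT T : B) : κ) : K),
        mul_mem (hC₀C hQhC₀) (hC₀C (hC₀G _ (hG4 T hT)))⟩ : C) ∉ LU.center W C hC := by
      refine hunit _ (Qh * lf ((QT T : B) : κ)) rfl ?_
      rw [map_mul, map_mul, hπQhv, hlf _ (QT T).2, hQv T hT, one_mul]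
    refine ⟨aT T, N, _, hNu, hQu, ?_⟩
    change (T : K) * ((Qh : K) * (lf ((QT T : B) : κ) : K)) = _
    have h1 := CompAlgB.prodz (fun j => (w' j : K)) hw'0 (aT T) (uT T) M
      fun j => (huT T hT j).1
    have h2 : (∏ j, (wl j : K) ^ uT T j) = ∏ j, (w' j : K) ^ uT T j :=
      Finset.prod_congr rfl fun j _ => by rw [hw']
    apply mul_right_cancel₀ (pow_ne_zero M hWp0)
    rw [hWp']
    calc (T : K) * ((Qh : K) * (lf ((QT T : B) : κ) : K)) * (∏ j, (w' j : K)) ^ M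
        = (d : K) * (T : K) * (lf ((QT T : B) : κ) : K) := by
          rw [hdK, hWp']
          ring
      _ = (∏ j, (wl j : K) ^ uT T j) * (N : K) := by
          rw [hN]
          have h3 : (d : K) * (T : K) * (lf ((QT T : B) : κ) : K) = (z : K) +
            (Qh : K) * ((∏ j, (wl j : K) ^ uT T j) * (lf ((NT T : B) : κ) : K)) := by
            rw [hzK]
            ring
          rw [h3, hzq, hWL]
          ring
      _ = (∏ j, (w' j : K) ^ aT T j) * (N : K) * (∏ j, (w' j : K)) ^ M := by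
          rw [h2, ← h1]
          ring
  have hMη : MonS W C hC w' η := by
    rw [hη]
    exact MonS.mul hw'0 (MonS.mul hw'0 (MonS.mul hw'0 (hMS γ hγS)
      (CompAlgB.MonS_pow hw'0 (hMS Hd hHS) E)) (CompAlgB.MonS_pow hw'0 hMd e))
      (CompAlgB.MonS_pow hw'0 hMW L)
  -- the denominator
  obtain ⟨h, hh⟩ := CompAlgB.mem_Inv.1 hdInv
  obtain ⟨h', hh'⟩ := CompAlgB.mem_Inv.1 (hC₀R hWpC₀).2
  obtain ⟨E₁, hE₁⟩ : ∃ E₁ : A, (E₁ : K) = (γ : K) * (Hd : K) * ((Hd : K) ^ h * (d : K)) *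
      ((Hd : K) ^ h' * (Wp : K)) := ⟨⟨_, mul_mem (mul_mem (mul_mem γ.2 Hd.2) hh) hh'⟩, rfl⟩
  have hE₁v : W₁.valuation (E₁ : K) = 1 := by
    rw [hE₁]
    simp [map_mul, map_pow, hγv, hHv, hdv, hWpv]
  have hME : MonS W C hC w' (E₁ : K) := by
    rw [hE₁]
    exact MonS.mul hw'0 (MonS.mul hw'0 (MonS.mul hw'0 (hMS γ hγS) (hMS Hd hHS))
      (MonS.mul hw'0 (CompAlgB.MonS_pow hw'0 (hMS Hd hHS) h) hMd))
      (MonS.mul hw'0 (CompAlgB.MonS_pow hw'0 (hMS Hd hHS) h') hMW)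
  have hInv : CompAlgB.Inv A Hd ≤ CompAlgB.Inv A E₁ := by
    rintro x ⟨n, hn⟩
    refine ⟨n, ?_⟩
    rw [hE₁]
    have h1 : ((γ : K) * (Hd : K) * ((Hd : K) ^ h * (d : K)) * ((Hd : K) ^ h' * (Wp : K))) ^ n * x =
        ((γ : K) * ((Hd : K) ^ h * (d : K)) * ((Hd : K) ^ h' * (Wp : K))) ^ n *
          ((Hd : K) ^ n * x) := by ring
    rw [h1]
    exact mul_mem (pow_mem (mul_mem (mul_mem γ.2 hh) hh') _) hn
  have hγ0 : (γ : K) ≠ 0 := CompAlgB.ne hγv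
  have hi1 : (γ : K)⁻¹ ∈ CompAlgB.Inv A E₁ := by
    refine ⟨1, ?_⟩
    rw [hE₁, pow_one]
    have h1 : (γ : K) * (Hd : K) * ((Hd : K) ^ h * (d : K)) * ((Hd : K) ^ h' * (Wp : K)) *
        (γ : K)⁻¹ = (Hd : K) * ((Hd : K) ^ h * (d : K)) * ((Hd : K) ^ h' * (Wp : K)) := by
      field_simp
    rw [h1]
    exact mul_mem (mul_mem Hd.2 hh) hh'
  have hi2 : (Hd : K)⁻¹ ∈ CompAlgB.Inv A E₁ := by
    refine ⟨1, ?_⟩
    rw [hE₁, pow_one]
    have h1 : (γ : K) * (Hd : K) * ((Hd : K) ^ h * (d : K)) * ((Hd : K) ^ h' * (Wp : K)) *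
        (Hd : K)⁻¹ = (γ : K) * ((Hd : K) ^ h * (d : K)) * ((Hd : K) ^ h' * (Wp : K)) := by
      field_simp
    rw [h1]
    exact mul_mem (mul_mem γ.2 hh) hh'
  have hi3 : (d : K)⁻¹ ∈ CompAlgB.Inv A E₁ := by
    refine ⟨1, ?_⟩
    rw [hE₁, pow_one]
    have h1 : (γ : K) * (Hd : K) * ((Hd : K) ^ h * (d : K)) * ((Hd : K) ^ h' * (Wp : K)) *
        (d : K)⁻¹ = (γ : K) * (Hd : K) * (Hd : K) ^ h * ((Hd : K) ^ h' * (Wp : K)) := by
      field_simp
    rw [h1]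
    exact mul_mem (mul_mem (mul_mem γ.2 Hd.2) (pow_mem Hd.2 _)) hh'
  have hi4 : (Wp : K)⁻¹ ∈ CompAlgB.Inv A E₁ := by
    refine ⟨1, ?_⟩
    rw [hE₁, pow_one]
    have h1 : (γ : K) * (Hd : K) * ((Hd : K) ^ h * (d : K)) * ((Hd : K) ^ h' * (Wp : K)) *
        (Wp : K)⁻¹ = (γ : K) * (Hd : K) * ((Hd : K) ^ h * (d : K)) * (Hd : K) ^ h' := by
      field_simp
    rw [h1]
    exact mul_mem (mul_mem (mul_mem γ.2 Hd.2) hh) (pow_mem Hd.2 _)
  have hiη : η⁻¹ ∈ CompAlgB.Inv A E₁ := by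
    rw [hη, mul_inv, mul_inv, mul_inv, ← inv_pow, ← inv_pow, ← inv_pow]
    exact mul_mem (mul_mem (mul_mem hi1 (pow_mem hi2 _)) (pow_mem hi3 _)) (pow_mem hi4 _)
  have hCI : C ≤ CompAlgB.Inv A E₁ := by
    rw [hCdef, Algebra.adjoin_le_iff]
    intro g hg
    rw [Finset.mem_coe, Finset.mem_union] at hg
    rcases hg with hg | hg
    · exact hInv (hGR g hg).2
    · obtain ⟨i, -, rfl⟩ := Finset.mem_image.1 hg
      exact mul_mem (CompAlgB.le_Inv A E₁ (s i).2) hiη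
  refine ⟨C, hC, hC₁, s', w', η, E₁, ?_, ?_, fun x hx => hC₀C (hC₀G _ (hG7 x hx)), hJ, ?_, ?_,
    ?_, ?_, ?_, hMη, hMS, hME, fun c hc => CompAlgB.mem_Inv.1 (hCI hc)⟩
  · rw [hCdef]
    exact Subalgebra.fg_adjoin_finset _
  · refine IsFractionRing.of_field C K fun z => ?_
    obtain ⟨x, y, hy, rfl⟩ := IsFractionRing.div_surjective (A := A) z
    obtain ⟨N, hN⟩ := hpow x x.2
    obtain ⟨N', hN'⟩ := hpow y y.2
    refine ⟨⟨(d : K) ^ N' * ((d : K) ^ N * (x : K)), mul_mem (pow_mem hdC _) (hC₀C hN)⟩,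
      ⟨(d : K) ^ N * ((d : K) ^ N' * (y : K)), mul_mem (pow_mem hdC _) (hC₀C hN')⟩, ?_⟩
    have hy0 : (y : K) ≠ 0 := by
      intro h0
      exact (nonZeroDivisors.ne_zero hy) (Subtype.ext h0)
    change (x : K) / (y : K) = ((d : K) ^ N' * ((d : K) ^ N * (x : K))) /
      ((d : K) ^ N * ((d : K) ^ N' * (y : K)))
    field_simp
  · intro b
    constructor
    · intro hb
      rw [← hBG] at hb
      have key : ∃ (c : K) (hc : c ∈ C₀), D.π ⟨c, hC₀1 c hc⟩ = b := by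
        induction hb using Algebra.adjoin_induction with
        | mem t ht => exact ⟨(lf t : K), hC₀G _ (hG1 t ht), hlf t (hBGB t ht)⟩
        | algebraMap r => exact ⟨algebraMap k K r, C₀.algebraMap_mem r, D.alg r _ rfl⟩
        | add x y _ _ ihx ihy =>
          obtain ⟨x₀, hx₀, h1⟩ := ihx
          obtain ⟨y₀, hy₀, h2⟩ := ihy
          refine ⟨x₀ + y₀, add_mem hx₀ hy₀, ?_⟩
          rw [← h1, ← h2, ← map_add]
          rfl
        | mul x y _ _ ihx ihy =>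
          obtain ⟨x₀, hx₀, h1⟩ := ihx
          obtain ⟨y₀, hy₀, h2⟩ := ihy
          refine ⟨x₀ * y₀, mul_mem hx₀ hy₀, ?_⟩
          rw [← h1, ← h2, ← map_mul]
          rfl
      obtain ⟨c, hc, h1⟩ := key
      exact ⟨⟨c, hC₀C hc⟩, h1⟩
    · rintro ⟨c, rfl⟩
      exact (hCR c.2).2
  · intro a
    obtain ⟨N, hN⟩ := hpow a a.2
    refine ⟨⟨(d : K) ^ N * (a : K), hC₀C hN⟩, ⟨(d : K) ^ N, pow_mem hdC _⟩, ?_, mul_comm _ _⟩
    rw [CompAlg.notMem_center]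
    change W₁.valuation ((d : K) ^ N) = 1
    rw [map_pow, hdv, one_pow]
  · intro c
    obtain ⟨n, hn⟩ := CompAlgB.mem_Inv.1 (hCI c.2)
    refine ⟨⟨_, hn⟩, E₁ ^ n, ?_, mul_comm _ _⟩
    rw [CompAlg.notMem_center]
    change W₁.valuation ((E₁ : K) ^ n) = 1
    rw [map_pow, hE₁v, one_pow]
  · intro j
    rw [← hπwl j]
    congr 1
    exact Subtype.ext (hw' j)
  · intro i
    rw [hs'K, mul_assoc, inv_mul_cancel₀ hη0, mul_one]

end LY
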