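import Pool.Agent.helper90.LY.CompReg
import Pool.Agent.helper90.LY.CompAlg
import Pool.Agent.helper90.LY.DimEq

open IsLocalRing

namespace LY

universe u

variable {k K : Type u} [Field k] [Field K] [Algebra k K]

/-- membership in the centre, valuation form -/
theorem CompLoc.mem_center (V : ValuationSubring K) (A : Subalgebra k K) (h : ∀ a ∈ A, a ∈ V)
    (a : A) : a ∈ LU.center V A h ↔ V.valuation (a : K) < 1 := by
  rw [← V.valuation_lt_one_iff ⟨(a : K), h a a.2⟩]
  rfl

/-- the residue of an element of `W` is a nonunit of `W'` iff the element is a nonunit of `W` -/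
theorem CompLoc.val_lt (W W₁ : ValuationSubring K)
    (κ : Type u) [Field κ] [Algebra k κ] (W' : ValuationSubring κ)
    (D : Comp (k := k) W W₁ κ W') (x : W₁) :
    W'.valuation (D.π x) < 1 ↔ W.valuation (x : K) < 1 := by
  have hle : ∀ z : K, W₁.valuation z < 1 → W.valuation z < 1 := by
    intro z hz
    by_contra hcon
    have h1 : (1 : W.ValueGroup) ≤ W.valuation z := not_lt.1 hcon
    have hz0 : z ≠ 0 := by
      rintro rfl
      rw [map_zero] at h1
      exact absurd h1 (by simp)
    have h2 : z⁻¹ ∈ W := by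
      rw [← W.valuation_le_one_iff, map_inv₀]
      exact inv_le_one_of_one_le₀ h1
    have h3 : z⁻¹ ∈ W₁ := D.le h2
    rw [← W₁.valuation_le_one_iff, map_inv₀] at h3
    have h4 : W₁.valuation z ≠ 0 := (Valuation.ne_zero_iff _).2 hz0
    have h5 : (1 : W₁.ValueGroup) ≤ W₁.valuation z := by
      have := (inv_le_one₀ (zero_lt_iff.2 h4)).1 h3
      exact this
    exact absurd hz (not_lt.2 h5)
  by_cases hx0 : D.π x = 0
  · have h1 := (D.ker x).1 hx0
    rw [hx0, map_zero]
    exact ⟨fun _ => hle _ h1, fun _ => by simp⟩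
  · have h1 : ¬ W₁.valuation (x : K) < 1 := fun h => hx0 ((D.ker x).2 h)
    have hxne : (x : K) ≠ 0 := by
      intro h
      apply h1
      rw [h, map_zero]
      simp
    have hxi : (x : K)⁻¹ ∈ W₁ := by
      rw [← W₁.valuation_le_one_iff, map_inv₀]
      exact inv_le_one_of_one_le₀ (not_lt.1 h1)
    have h2 : D.π x * D.π ⟨(x : K)⁻¹, hxi⟩ = 1 := by
      rw [← map_mul, ← map_one D.π]
      congr 1
      ext
      exact mul_inv_cancel₀ hxne
    have h3 : D.π ⟨(x : K)⁻¹, hxi⟩ = (D.π x)⁻¹ := eq_inv_of_mul_eq_one_right h2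
    have h4 := D.mem ⟨(x : K)⁻¹, hxi⟩
    rw [h3] at h4
    have e1 : W'.valuation (D.π x) < 1 ↔ ¬ (D.π x)⁻¹ ∈ W' := by
      rw [← W'.valuation_le_one_iff, map_inv₀,
        inv_le_one₀ (zero_lt_iff.2 ((Valuation.ne_zero_iff _).2 hx0)), not_le]
    have e2 : W.valuation (x : K) < 1 ↔ ¬ (x : K)⁻¹ ∈ W := by
      rw [← W.valuation_le_one_iff, map_inv₀,
        inv_le_one₀ (zero_lt_iff.2 ((Valuation.ne_zero_iff _).2 hxne)), not_le]
    rw [e1, e2, h4]

/-- surjectivity and kernel of the map of local rings induced by a surjection onto a domain -/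
theorem CompLoc.loc_surj {C B : Type u} [CommRing C] [CommRing B] [IsDomain B] (φ : C →+* B)
    (hφ : Function.Surjective φ) (q : Ideal C) [q.IsPrime] (q' : Ideal B) [q'.IsPrime]
    (h : q = q'.comap φ) :
    Function.Surjective (Localization.localRingHom q q' φ h) ∧
      RingHom.ker (Localization.localRingHom q q' φ h) =
        (RingHom.ker φ).map (algebraMap C (Localization.AtPrime q)) := by
  constructor
  · intro y
    obtain ⟨b, t, rfl⟩ := IsLocalization.exists_mk'_eq q'.primeCompl y
    obtain ⟨c, rfl⟩ := hφ b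
    obtain ⟨d, hd⟩ := hφ t
    have hdq : d ∈ q.primeCompl := by
      intro h1
      have h2 : d ∈ q'.comap φ := by
        rw [← h]
        exact h1
      apply t.2
      rw [← hd]
      exact h2
    refine ⟨IsLocalization.mk' _ c ⟨d, hdq⟩, ?_⟩
    rw [Localization.localRingHom_mk']
    congr 1
    ext
    exact hd
  · ext y
    obtain ⟨c, t, rfl⟩ := IsLocalization.exists_mk'_eq q.primeCompl y
    have hinj : Function.Injective (algebraMap B (Localization.AtPrime q')) :=
      IsLocalization.injective _ q'.primeCompl_le_nonZeroDivisors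
    rw [RingHom.mem_ker, Localization.localRingHom_mk', IsLocalization.mk'_eq_zero_iff]
    constructor
    · rintro ⟨m, hm⟩
      have hm0 : (m : B) ≠ 0 := by
        intro h0
        apply m.2
        rw [h0]
        exact q'.zero_mem
      have h1 : φ c = 0 := (mul_eq_zero.1 hm).resolve_left hm0
      have h2 : algebraMap C (Localization.AtPrime q) c ∈
          (RingHom.ker φ).map (algebraMap C (Localization.AtPrime q)) :=
        Ideal.mem_map_of_mem _ h1
      rw [← IsLocalization.mk'_spec (Localization.AtPrime q) c t] at h2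
      exact (Ideal.unit_mul_mem_iff_mem _ (IsLocalization.map_units _ t)).1
        (by rwa [mul_comm] at h2)
    · intro h1
      refine ⟨1, ?_⟩
      rw [OneMemClass.coe_one, one_mul]
      apply hinj
      rw [map_zero, ← Localization.localRingHom_to_map q q' φ h]
      have h2 : algebraMap C (Localization.AtPrime q) c ∈
          (RingHom.ker φ).map (algebraMap C (Localization.AtPrime q)) := by
        rw [← IsLocalization.mk'_spec (Localization.AtPrime q) c t]
        exact Ideal.mul_mem_right _ _ h1
      have h3 : (RingHom.ker φ).map (algebraMap C (Localization.AtPrime q)) ≤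
          RingHom.ker (Localization.localRingHom q q' φ h) := by
        rw [Ideal.map_le_iff_le_comap]
        intro z hz
        rw [Ideal.mem_comap, RingHom.mem_ker, Localization.localRingHom_to_map,
          (RingHom.mem_ker).1 hz, map_zero]
      exact h3 h2

/-- Regularity of the composite chart: apply `reg_of_quot` to the local ring `R` of `C` at the centre
of `W` and `P = (C ∩ m_{W₁}) R = (s')`; `R/P` is the local ring of `B` at the centre of `W'`. -/
theorem comp_loc (W W₁ : ValuationSubring K)
    (κ : Type u) [Field κ] [Algebra k κ] (W' : ValuationSubring κ)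
    (D : Comp (k := k) W W₁ κ W') (B : Subalgebra k κ) (hB : ∀ b ∈ B, b ∈ W')
    (hBreg : IsRegularLocalRing (Localization.AtPrime (LU.center W' B hB)))
    (C : Subalgebra k K) (hC : ∀ c ∈ C, c ∈ W) (hC₁ : ∀ c ∈ C, c ∈ W₁) (hfg : C.FG)
    (m : ℕ) (s' : Fin m → C) (hs : Ideal.span (Set.range s') = LU.center W₁ C hC₁)
    (hdim : (m : WithBot ℕ∞) ≤ ringKrullDim (Localization.AtPrime (LU.center W₁ C hC₁)))
    (hBC : ∀ b : κ, b ∈ B ↔ ∃ c : C, D.π ⟨(c : K), hC₁ c c.2⟩ = b) :
    IsRegularLocalRing (Localization.AtPrime (LU.center W C hC)) := by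
  -- the residue map on `C`
  let φ : C →+* B :=
    { toFun := fun c => ⟨D.π ⟨(c : K), hC₁ c c.2⟩, (hBC _).2 ⟨c, rfl⟩⟩
      map_one' := by
        ext
        exact map_one D.π
      map_mul' := fun a b => by
        ext
        exact map_mul D.π ⟨(a : K), hC₁ a a.2⟩ ⟨(b : K), hC₁ b b.2⟩
      map_zero' := by
        ext
        exact map_zero D.π
      map_add' := fun a b => by
        ext
        exact map_add D.π ⟨(a : K), hC₁ a a.2⟩ ⟨(b : K), hC₁ b b.2⟩ }
  have hφ : Function.Surjective φ := by
    intro b
    obtain ⟨c, hc⟩ := (hBC b).1 b.2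
    exact ⟨c, Subtype.ext hc⟩
  have hker : RingHom.ker φ = LU.center W₁ C hC₁ := by
    ext c
    rw [RingHom.mem_ker, CompLoc.mem_center, ← D.ker ⟨(c : K), hC₁ c c.2⟩]
    exact Subtype.ext_iff
  have hcom : LU.center W C hC = (LU.center W' B hB).comap φ := by
    ext c
    rw [Ideal.mem_comap, CompLoc.mem_center, CompLoc.mem_center]
    exact (CompLoc.val_lt W W₁ κ W' D ⟨(c : K), hC₁ c c.2⟩).symm
  obtain ⟨hsur, hk⟩ := CompLoc.loc_surj φ hφ (LU.center W C hC) (LU.center W' B hB) hcom
  rw [hker] at hk
  have : IsNoetherianRing C := by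
    have : Algebra.FiniteType k C := C.fg_iff_finiteType.1 hfg
    exact Algebra.FiniteType.isNoetherianRing k C
  have : IsNoetherianRing (Localization.AtPrime (LU.center W C hC)) :=
    IsLocalization.isNoetherianRing (LU.center W C hC).primeCompl _ inferInstance
  set ψ := Localization.localRingHom (LU.center W C hC) (LU.center W' B hB) φ hcom with hψ
  set P := (LU.center W₁ C hC₁).map (algebraMap C (Localization.AtPrime (LU.center W C hC)))
    with hP
  have hle : LU.center W₁ C hC₁ ≤ LU.center W C hC := by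
    rw [← hker, hcom, RingHom.ker_eq_comap_bot]
    exact Ideal.comap_mono bot_le
  have hPprime : P.IsPrime := by
    rw [← hk]
    exact RingHom.ker_isPrime ψ
  have hPh : P.height = (LU.center W₁ C hC₁).height := by
    refine IsLocalization.height_map_of_disjoint (LU.center W C hC).primeCompl _ ?_
    rw [Set.disjoint_left]
    intro a ha hb
    exact ha (hle hb)
  refine reg_of_quot (Localization.AtPrime (LU.center W C hC)) P m
    (fun i => algebraMap C (Localization.AtPrime (LU.center W C hC)) (s' i)) ?_ ?_ ?_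
  · rw [hP, ← hs, Ideal.map_span, ← Set.range_comp]
    rfl
  · rw [hPh]
    rw [IsLocalization.AtPrime.ringKrullDim_eq_height (LU.center W₁ C hC₁)] at hdim
    exact_mod_cast hdim
  · exact IsRegularLocalRing.of_ringEquiv
      ((Ideal.quotEquivOfEq hk).symm.trans (RingHom.quotientKerEquivOfSurjective hsur)).symm

end LY
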