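import Mathlib

open IsLocalRing

namespace LY

universe u

/-- `height P + dim R/P ≤ dim R` -/
theorem CompReg.dim_ge {R : Type u} [CommRing R] (P : Ideal R) [hP : P.IsPrime] :
    (P.height : WithBot ℕ∞) + ringKrullDim (R ⧸ P) ≤ ringKrullDim R := by
  have h1 : ringKrullDim (R ⧸ P) = Order.coheight (⟨P, hP⟩ : PrimeSpectrum R) := by
    rw [ringKrullDim_quotient, Order.coheight_eq_krullDim_Ici]
    rfl
  have : Nonempty (PrimeSpectrum R) := ⟨⟨P, hP⟩⟩
  have h2 : P.height = Order.height (⟨P, hP⟩ : PrimeSpectrum R) :=
    PrimeSpectrum.height_eq_orderHeight (⟨P, hP⟩ : PrimeSpectrum R)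
  rw [h1, h2, ringKrullDim, Order.krullDim_eq_iSup_height_add_coheight_of_nonempty,
    ← WithBot.coe_add, WithBot.coe_le_coe]
  exact le_iSup (fun a : PrimeSpectrum R => Order.height a + Order.coheight a) ⟨P, hP⟩

/-- A noetherian local ring `R` with a prime ideal `P` generated by `m ≤ height P` elements such that
`R/P` is regular is regular. Proof: the maximal ideal is generated by `m + dim (R/P)` elements (lift
generators), and `dim R ≥ height P + dim (R/P)` (concatenate chains of primes). -/
theorem reg_of_quot (R : Type u) [CommRing R] [IsLocalRing R] [IsNoetherianRing R] (P : Ideal R)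
    [P.IsPrime] (m : ℕ) (s : Fin m → R) (hs : Ideal.span (Set.range s) = P)
    (hh : (m : ℕ∞) ≤ P.height) (hreg : IsRegularLocalRing (R ⧸ P)) : IsRegularLocalRing R := by
  apply IsRegularLocalRing.of_spanFinrank_maximalIdeal_le
  set Q := maximalIdeal (R ⧸ P) with hQ
  have fgQ : Q.FG := Q.fg_of_isNoetherianRing
  have finG : Q.generators.Finite := Submodule.FG.finite_generators fgQ
  have cardG : Q.generators.ncard = Q.spanFinrank := Submodule.FG.generators_ncard fgQ
  have hsurj : Function.Surjective (Ideal.Quotient.mk P) := Ideal.Quotient.mk_surjective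
  let l : (R ⧸ P) → R := Function.surjInv hsurj
  have hl : ∀ x, Ideal.Quotient.mk P (l x) = x := Function.surjInv_eq hsurj
  set T : Set R := Set.range s ∪ l '' Q.generators with hT
  have finT : T.Finite := (Set.finite_range s).union (finG.image l)
  have cardT : T.ncard ≤ m + Q.spanFinrank := by
    refine (Set.ncard_union_le _ _).trans (add_le_add ?_ ?_)
    · have := Set.ncard_image_le (f := s) (Set.finite_univ (α := Fin m))
      rw [Set.image_univ] at this
      simpa [Set.ncard_univ] using this
    · rw [← cardG]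
      exact Set.ncard_image_le finG
  have hPT : P ≤ Ideal.span T := by
    rw [← hs]
    exact Ideal.span_mono Set.subset_union_left
  have hmap : (Ideal.span T).map (Ideal.Quotient.mk P) = Q := by
    apply le_antisymm
    · rw [Ideal.map_span, Ideal.span_le]
      rintro _ ⟨x, (⟨i, rfl⟩ | ⟨y, hy, rfl⟩), rfl⟩
      · have : s i ∈ P := by
          rw [← hs]
          exact Ideal.subset_span ⟨i, rfl⟩
        rw [Ideal.Quotient.eq_zero_iff_mem.mpr this]
        exact Q.zero_mem
      · rw [hl]
        exact Submodule.FG.generators_mem Q hy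
    · have : Q = Ideal.span Q.generators := (Submodule.span_generators Q).symm
      rw [this, Ideal.span_le]
      intro y hy
      rw [← hl y]
      exact Ideal.mem_map_of_mem _ (Ideal.subset_span (Or.inr ⟨y, hy, rfl⟩))
  have hTm : Ideal.span T = maximalIdeal R := by
    have := IsLocalHom.of_surjective (Ideal.Quotient.mk P) hsurj
    rw [← Ideal.comap_map_mk hPT, hmap, hQ]
    exact maximalIdeal_comap _
  have h2 : (maximalIdeal R).spanFinrank ≤ m + Q.spanFinrank := by
    rw [← hTm]
    exact (Submodule.spanFinrank_span_le_ncard_of_finite finT).trans cardT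
  have h3 : (Q.spanFinrank : WithBot ℕ∞) = ringKrullDim (R ⧸ P) :=
    hreg.spanFinrank_maximalIdeal
  calc ((maximalIdeal R).spanFinrank : WithBot ℕ∞) ≤ ((m + Q.spanFinrank : ℕ) : WithBot ℕ∞) := by
        exact_mod_cast h2
    _ = ((m : ℕ∞) : WithBot ℕ∞) + (Q.spanFinrank : WithBot ℕ∞) := by push_cast; rfl
    _ ≤ (P.height : WithBot ℕ∞) + ringKrullDim (R ⧸ P) := by
        rw [h3]
        exact add_le_add_left (WithBot.coe_le_coe.mpr hh) _
    _ ≤ ringKrullDim R := CompReg.dim_ge P

end LY
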