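import Pool.Agent.helper90.LY.Lift

open Polynomial

namespace LY

universe u

variable {k K M : Type u} [Field k] [Field K] [Field M] [Algebra k K] [Algebra k M] [Algebra K M]
  [IsScalarTower k K M]

/-- elements of `A[θ]` are values at `θ` of polynomials with coefficients in `A` -/
theorem Coords.exists_poly (θ : M) (A : Subalgebra k K) (z : M) (hz : z ∈ lft θ A) :
    ∃ q : Polynomial A, aeval θ (q.map (algebraMap A K)) = z := by
  -- the subalgebra of values
  let φ : Polynomial A →ₐ[k] M :=
    ((aeval θ : Polynomial K →ₐ[K] M).restrictScalars k).comp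
      (mapAlgHom (IsScalarTower.toAlgHom k A K))
  have hφ : ∀ q : Polynomial A, φ q = aeval θ (q.map (algebraMap A K)) := fun q => rfl
  have hle : lft θ A ≤ φ.range := by
    refine sup_le ?_ ?_
    · rintro x ⟨y, hy, rfl⟩
      refine ⟨C ⟨y, hy⟩, ?_⟩
      change φ _ = _
      rw [hφ, Polynomial.map_C, aeval_C]
      rfl
    · refine Algebra.adjoin_le ?_
      rintro x rfl
      refine ⟨X, ?_⟩
      change φ _ = _
      rw [hφ, Polynomial.map_X, aeval_X]
  obtain ⟨q, hq⟩ := hle hz
  exact ⟨q, (hφ q).symm.trans hq⟩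

/-- Coordinates with respect to `1, θ, …, θ^(m-1)`: the coordinates of the elements of `A[θ]` lie in
`A` if `A` contains the coefficients of the minimal polynomial of `θ`. -/
theorem coords (θ : M) (hint : IsIntegral K θ) (hθ : IntermediateField.adjoin K {θ} = ⊤) :
    ∃ (m : ℕ) (l : Fin m → (M →ₗ[K] K)),
      (∀ d : M, d = ∑ j, algebraMap K M (l j d) * θ ^ (j : ℕ)) ∧
      ∀ A : Subalgebra k K, (∀ i, (minpoly K θ).coeff i ∈ A) → ∀ z ∈ lft θ A, ∀ j, l j z ∈ A := by
  let e : IntermediateField.adjoin K {θ} ≃ₐ[K] M :=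
    (IntermediateField.equivOfEq hθ).trans IntermediateField.topEquiv
  let pb : PowerBasis K M := (IntermediateField.adjoin.powerBasis hint).map e
  have hgen : pb.gen = θ := rfl
  have hdim : pb.dim = (minpoly K θ).natDegree := rfl
  have hbas : ∀ j : Fin pb.dim, pb.basis j = θ ^ (j : ℕ) := by
    intro j
    rw [pb.basis_eq_pow, hgen]
  refine ⟨pb.dim, fun j => pb.basis.coord j, ?_, ?_⟩
  · intro d
    conv_lhs => rw [← pb.basis.sum_repr d]
    refine Finset.sum_congr rfl fun j _ => ?_
    rw [hbas j, Algebra.smul_def]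
    rfl
  · intro A hA z hz j
    obtain ⟨q, hq⟩ := Coords.exists_poly θ A z hz
    have hmon : (minpoly K θ).Monic := minpoly.monic hint
    -- the minimal polynomial comes from `A`
    have hlift : minpoly K θ ∈ Polynomial.lifts (algebraMap A K) := by
      rw [Polynomial.lifts_iff_coeff_lifts]
      intro i
      exact ⟨⟨_, hA i⟩, rfl⟩
    obtain ⟨p', hp', -, hp'm⟩ := Polynomial.lifts_and_natDegree_eq_and_monic hlift hmon
    have hz2 : z = aeval θ ((q %ₘ p').map (algebraMap A K)) := by
      rw [Polynomial.map_modByMonic _ hp'm, hp', ← hq]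
      have h1 := Polynomial.modByMonic_add_div (q.map (algebraMap A K)) (minpoly K θ)
      have h2 := congrArg (aeval θ) h1
      rw [map_add, map_mul, minpoly.aeval, zero_mul, add_zero] at h2
      exact h2.symm
    have hdeg : ((q %ₘ p').map (algebraMap A K)).degree < (pb.dim : ℕ) := by
      rw [Polynomial.map_modByMonic _ hp'm, hp', hdim]
      have h3 := Polynomial.degree_modByMonic_lt (q.map (algebraMap A K)) hmon
      rwa [Polynomial.degree_eq_natDegree hmon.ne_zero] at h3
    have hnat : ((q %ₘ p').map (algebraMap A K)).natDegree < pb.dim := by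
      by_cases h0 : (q %ₘ p').map (algebraMap A K) = 0
      · rw [h0, Polynomial.natDegree_zero, hdim]
        exact minpoly.natDegree_pos hint
      · exact (Polynomial.natDegree_lt_iff_degree_lt h0).2 hdeg
    have hz3 : z = ∑ j : Fin pb.dim, ((q %ₘ p').map (algebraMap A K)).coeff j • pb.basis j := by
      rw [hz2, Polynomial.aeval_eq_sum_range' (n := pb.dim) hnat, Finset.sum_range]
      exact Finset.sum_congr rfl fun j _ => by rw [hbas j]
    have h4 : pb.basis.coord j z = ((q %ₘ p').map (algebraMap A K)).coeff j := by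
      rw [hz3, pb.basis.coord_apply, pb.basis.repr_sum_self]
    change pb.basis.coord j z ∈ A
    rw [h4, Polynomial.coeff_map]
    exact SetLike.coe_mem _

end LY
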