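import Pool.Agent.helper90.LX.SUCrit

/-!
Project LUY: relative local uniformization, composites of valuations, residue fields.
-/

open IsLocalRing

namespace LY

universe u

variable {k K : Type u} [Field k] [Field K] [Algebra k K]

variable (k) in
/-- Relative local uniformization: every finite subset of the valuation ring lies in an affine model
with regular centre. -/
def RU (W : ValuationSubring K) : Prop :=
  ∀ F : Finset K, (∀ x ∈ F, x ∈ W) →
    ∃ (A : Subalgebra k K) (h : ∀ a ∈ A, a ∈ W), A.FG ∧ IsFractionRing A K ∧
      IsRegularLocalRing (Localization.AtPrime (LU.center W A h)) ∧ ∀ x ∈ F, x ∈ A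

/-- The residue map of a valuation ring onto a field `κ` over `k`. -/
structure Res (W : ValuationSubring K) (κ : Type u) [Field κ] [Algebra k κ] where
  /-- the residue map -/
  π : W →+* κ
  surj : Function.Surjective π
  ker : ∀ x : W, π x = 0 ↔ W.valuation (x : K) < 1
  alg : ∀ (c : k) (x : W), (x : K) = algebraMap k K c → π x = algebraMap k κ c

/-- `W'` is the valuation ring of the residue field of `W₁` induced by `W ≤ W₁`. -/
structure Comp (W W₁ : ValuationSubring K) (κ : Type u) [Field κ] [Algebra k κ]
    (W' : ValuationSubring κ) extends Res (k := k) W₁ κ where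
  le : W ≤ W₁
  mem : ∀ x : W₁, π x ∈ W' ↔ (x : K) ∈ W

end LY
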