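import Pool.Agent.helper90.LY.Lift

open Polynomial

namespace LY

universe u

variable {k K M : Type u} [Field k] [Field K] [Field M] [Algebra k K] [Algebra k M] [Algebra K M]
  [IsScalarTower k K M]

omit [Field K] [Algebra k K] [Algebra K M] [IsScalarTower k K M] in
theorem DescData.prod_mem (A : Subalgebra k M) {n : ℕ} (s : Fin n → M) (hs : ∀ i, s i ∈ A)
    (a : Fin n → ℤ) (ha : ∀ i, 0 ≤ a i) (t : Finset (Fin n)) : ∏ i ∈ t, s i ^ a i ∈ A := by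
  refine Subalgebra.prod_mem _ fun i _ => ?_
  obtain ⟨m, hm⟩ := Int.eq_ofNat_of_zero_le (ha i)
  rw [hm, zpow_natCast]
  exact pow_mem (hs i) m

omit [Field K] [Algebra k K] [Algebra K M] [IsScalarTower k K M] in
theorem DescData.split (A : Subalgebra k M) {n : ℕ} (s : Fin n → M) (hs : ∀ i, s i ∈ A)
    (a : Fin n → ℤ) (ha : ∀ i, 0 ≤ a i) (i₀ : Fin n) (h : 1 ≤ a i₀) :
    ∃ y ∈ A, ∏ i, s i ^ a i = s i₀ * y := by
  obtain ⟨m, hm⟩ := Int.eq_ofNat_of_zero_le (ha i₀)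
  have hm1 : 1 ≤ m := by
    rw [hm] at h
    exact_mod_cast h
  refine ⟨s i₀ ^ (m - 1) * ∏ i ∈ Finset.univ.erase i₀, s i ^ a i,
    mul_mem (pow_mem (hs i₀) _) (DescData.prod_mem A s hs a ha _), ?_⟩
  rw [← Finset.mul_prod_erase Finset.univ _ (Finset.mem_univ i₀), hm, zpow_natCast, ← mul_assoc,
    ← pow_succ', Nat.sub_add_cancel hm1]

omit [Field K] [Algebra k K] [Algebra K M] [IsScalarTower k K M] in
theorem DescData.unpack (W₁ : ValuationSubring M) (θ : M)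
    (AC : Subalgebra (IntermediateField.adjoin k {θ}) M) (hAC : ∀ x ∈ AC, x ∈ W₁) {n : ℕ} (r : ℕ)
    (s : Fin n → AC) (x : M) (hM : MonA W₁ AC hAC r s x) :
    ∃ (a : Fin n → ℤ) (u : M), u ∈ oc W₁ (AC.restrictScalars k) ∧ W₁.valuation u = 1 ∧
      x = (∏ i, (s i : M) ^ a i) * u ∧ (∀ i : Fin n, r ≤ (i : ℕ) → a i = 0) ∧
      (W₁.valuation x < 1 → ∀ i : Fin n, (i : ℕ) < r → 1 ≤ a i) := by
  obtain ⟨a, N, D, hN, hD, h1, h2, h3⟩ := hM
  have hN1 := LX.SUCrit.val_eq_one W₁ AC hAC N hN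
  have hD1 := LX.SUCrit.val_eq_one W₁ AC hAC D hD
  have hD0 : (D : M) ≠ 0 := by
    intro h
    rw [h, map_zero] at hD1
    exact zero_ne_one hD1
  refine ⟨a, (N : M) * (D : M)⁻¹, ?_, ?_, ?_, h2, h3⟩
  · refine mul_mem (le_oc W₁ _ N.2) (oc_inv W₁ (le_oc W₁ _ D.2) hD1)
  · rw [map_mul, map_inv₀, hN1, hD1, inv_one, one_mul]
  · rw [← mul_assoc, ← h1, mul_inv_cancel_right₀ hD0]

/-- From the chart `AC` of `RelU` (over `C = k(θ)`) to the data of `constr`. `G` = generators of `AC`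
over `C` (`C = k[θ] ⊆ A₀[θ]` as `θ` is algebraic); `H^e g ∈ C[B]` for all `g ∈ G`, `Δ^E` times any
of the finitely many elements `H`, `H^e g` of `C[B]` lies in `A₀[θ]`; `H₂ = (Δ^E H)^e Δ^E'`.
`H₂ = ∏ s^β * unit`, `π = ∏ s^γ * unit`, `γ_i ≥ 1` for `i < r`, both supported in `i < r`; `N` larger
than all `β_i`: `π^N / H₂ = ∏ s^(Nγ - β) * unit`. There is an index `i < r` because `π` is not a
unit. -/
theorem desc_data (W₁ : ValuationSubring M) (hk : ∀ c : k, algebraMap k M c ∈ W₁) (P : k[X])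
    (hP0 : P ≠ 0) (θ : M) (hθ : aeval θ P = 0) (A₀ : Subalgebra k K) (π : M)
    (hπ0 : π ≠ 0) (hπ1 : W₁.valuation π < 1) (B : Finset M) (Δ : M) (hΔ : Δ ∈ lft θ A₀)
    (hΔ0 : Δ ≠ 0) (hΔB : ∀ b ∈ B, Δ * b ∈ lft θ A₀) (r : ℕ)
    (AC : Subalgebra (IntermediateField.adjoin k {θ}) M) (hAC : ∀ x ∈ AC, x ∈ W₁) {n : ℕ}
    (s : Fin n → AC) (hfg : AC.FG) (hgen : lft θ A₀ ≤ AC.restrictScalars k)
    (hs1 : ∀ i, W₁.valuation ((s i : AC) : M) < 1)
    (hMΔ : MonA W₁ AC hAC r s Δ) (hMπ : MonA W₁ AC hAC r s π) (H : M)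
    (hH : H ∈ Algebra.adjoin (IntermediateField.adjoin k {θ}) (B : Set M)) (hH0 : H ≠ 0)
    (hMH : MonA W₁ AC hAC r s H)
    (hHA : ∀ x ∈ AC, ∃ e : ℕ, H ^ e * x ∈
      Algebra.adjoin (IntermediateField.adjoin k {θ}) (B : Set M)) :
    ∃ (G : Finset M) (H₂ : M) (N : ℕ) (ρ : M),
      AC.restrictScalars k = lft θ A₀ ⊔ Algebra.adjoin k (G : Set M) ∧ H₂ ∈ lft θ A₀ ∧ H₂ ≠ 0 ∧
      (∀ g ∈ G, H₂ * g ∈ lft θ A₀) ∧ ρ ∈ oc W₁ (AC.restrictScalars k) ∧ W₁.valuation ρ < 1 ∧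
      π ^ N = H₂ * ρ ∧ (∃ i : Fin n, (i : ℕ) < r) ∧
      ∀ i : Fin n, (i : ℕ) < r → ∃ σ ∈ oc W₁ (AC.restrictScalars k), π = (s i : M) * σ := by
  classical
  -- `C ⊆ A₀[θ]`
  have hCL : ∀ c : IntermediateField.adjoin k {θ}, (c : M) ∈ lft θ A₀ := by
    intro c
    have halg : IsAlgebraic k θ := ⟨P, hP0, hθ⟩
    have h1 : (c : M) ∈ (IntermediateField.adjoin k {θ}).toSubalgebra := c.2
    rw [IntermediateField.adjoin_simple_toSubalgebra_of_isAlgebraic halg] at h1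
    exact (le_sup_right : Algebra.adjoin k {θ} ≤ lft θ A₀) h1
  -- `C[B]` is in the localization
  have hCB : ∀ x ∈ Algebra.adjoin (IntermediateField.adjoin k {θ}) (B : Set M),
      ∃ E : ℕ, Δ ^ E * x ∈ lft θ A₀ := by
    intro x hx
    induction hx using Algebra.adjoin_induction with
    | mem x hx => exact ⟨1, by rw [pow_one]; exact hΔB x hx⟩
    | algebraMap c => exact ⟨0, by rw [pow_zero, one_mul]; exact hCL c⟩
    | add x y _ _ h1 h2 =>
      obtain ⟨E1, h1⟩ := h1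
      obtain ⟨E2, h2⟩ := h2
      refine ⟨E1 + E2, ?_⟩
      have h3 : Δ ^ (E1 + E2) * (x + y) = Δ ^ E2 * (Δ ^ E1 * x) + Δ ^ E1 * (Δ ^ E2 * y) := by
        ring
      rw [h3]
      exact add_mem (mul_mem (pow_mem hΔ _) h1) (mul_mem (pow_mem hΔ _) h2)
    | mul x y _ _ h1 h2 =>
      obtain ⟨E1, h1⟩ := h1
      obtain ⟨E2, h2⟩ := h2
      refine ⟨E1 + E2, ?_⟩
      have h3 : Δ ^ (E1 + E2) * (x * y) = (Δ ^ E1 * x) * (Δ ^ E2 * y) := by
        ring
      rw [h3]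
      exact mul_mem h1 h2
  obtain ⟨EH, hEH⟩ := hCB H hH
  -- every element of `AC`
  have hx1 : ∀ x ∈ AC, ∃ a e : ℕ, (Δ ^ a * (Δ ^ EH * H) ^ e) * x ∈ lft θ A₀ := by
    intro x hx
    obtain ⟨e, he⟩ := hHA x hx
    obtain ⟨E, hE⟩ := hCB _ he
    refine ⟨E, e, ?_⟩
    have h3 : (Δ ^ E * (Δ ^ EH * H) ^ e) * x = (Δ ^ EH) ^ e * (Δ ^ E * (H ^ e * x)) := by
      ring
    rw [h3]
    exact mul_mem (pow_mem (pow_mem hΔ _) _) hE
  have hx2 : ∀ G : Finset M, (∀ g ∈ G, g ∈ AC) →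
      ∃ a e : ℕ, ∀ g ∈ G, (Δ ^ a * (Δ ^ EH * H) ^ e) * g ∈ lft θ A₀ := by
    intro G
    induction G using Finset.induction_on with
    | empty => intro _; exact ⟨0, 0, by simp⟩
    | insert g G _ ih =>
      intro hG
      obtain ⟨a, e, h1⟩ := ih fun g' hg' => hG g' (Finset.mem_insert_of_mem hg')
      obtain ⟨a', e', h2⟩ := hx1 g (hG g (Finset.mem_insert_self _ _))
      refine ⟨a + a', e + e', ?_⟩
      intro g' hg'
      have h3 : ∀ y : M, (Δ ^ (a + a') * (Δ ^ EH * H) ^ (e + e')) * y =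
          (Δ ^ a' * (Δ ^ EH * H) ^ e') * ((Δ ^ a * (Δ ^ EH * H) ^ e) * y) := by
        intro y; ring
      have h4 : ∀ y : M, (Δ ^ (a + a') * (Δ ^ EH * H) ^ (e + e')) * y =
          (Δ ^ a * (Δ ^ EH * H) ^ e) * ((Δ ^ a' * (Δ ^ EH * H) ^ e') * y) := by
        intro y; ring
      rcases Finset.mem_insert.1 hg' with rfl | hg'
      · rw [h4]
        exact mul_mem (mul_mem (pow_mem hΔ _) (pow_mem hEH _)) h2
      · rw [h3]
        exact mul_mem (mul_mem (pow_mem hΔ _) (pow_mem hEH _)) (h1 g' hg')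
  obtain ⟨G, hG⟩ := hfg
  have hGA : ∀ g ∈ G, g ∈ AC := by
    intro g hg
    rw [← hG]
    exact Algebra.subset_adjoin hg
  obtain ⟨ea, ee, hH₂⟩ := hx2 G hGA
  have hGeq : AC.restrictScalars k = lft θ A₀ ⊔ Algebra.adjoin k (G : Set M) := by
    apply le_antisymm
    · intro x hx
      have hx' : x ∈ Algebra.adjoin (IntermediateField.adjoin k {θ}) (G : Set M) := by
        rw [hG]
        exact hx
      clear hx
      induction hx' using Algebra.adjoin_induction with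
      | mem x hx =>
        exact (le_sup_right : Algebra.adjoin k (G : Set M) ≤ _) (Algebra.subset_adjoin hx)
      | algebraMap c => exact (le_sup_left : lft θ A₀ ≤ _) (hCL c)
      | add x y _ _ h1 h2 => exact add_mem h1 h2
      | mul x y _ _ h1 h2 => exact mul_mem h1 h2
    · refine sup_le hgen (Algebra.adjoin_le ?_)
      intro g hg
      exact hGA g hg
  -- monomials
  obtain ⟨α, u, hu, hu1, hΔe, hα, -⟩ := DescData.unpack W₁ θ AC hAC r s Δ hMΔ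
  obtain ⟨β, v, hv, hv1, hHe, hβ, -⟩ := DescData.unpack W₁ θ AC hAC r s H hMH
  obtain ⟨γ, w, hw, hw1, hπe, hγ, hγ1⟩ := DescData.unpack W₁ θ AC hAC r s π hMπ
  have hγ1 := hγ1 hπ1
  have hγ0 : ∀ i, 0 ≤ γ i := by
    intro i
    rcases lt_or_ge (i : ℕ) r with hi | hi
    · exact le_trans zero_le_one (hγ1 i hi)
    · rw [hγ i hi]
  have hs0 : ∀ i : Fin n, (i : ℕ) < r → (s i : M) ≠ 0 := by
    intro i hi h
    apply hπ0
    rw [hπe, ← Finset.mul_prod_erase Finset.univ _ (Finset.mem_univ i), h,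
      zero_zpow _ (by have := hγ1 i hi; omega), zero_mul, zero_mul]
  have hsA : ∀ i, (s i : M) ∈ AC.restrictScalars k := fun i => (s i).2
  have hocW : ∀ x ∈ AC.restrictScalars k, x ∈ W₁ := fun x hx => hAC x hx
  have hsplit : ∀ (a : Fin n → ℤ), (∀ i, 0 ≤ a i) → ∀ i₀ : Fin n, 1 ≤ a i₀ →
      ∃ y ∈ AC.restrictScalars k, ∏ i, (s i : M) ^ a i = (s i₀ : M) * y :=
    fun a ha i₀ h => DescData.split (AC.restrictScalars k) (fun i => (s i : M)) hsA a ha i₀ h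
  have hex : ∃ i : Fin n, (i : ℕ) < r := by
    by_contra hne
    push Not at hne
    have h1 : ∏ i, (s i : M) ^ γ i = 1 := by
      refine Finset.prod_eq_one fun i _ => ?_
      rw [hγ i (hne i), zpow_zero]
    rw [hπe, h1, one_mul, hw1] at hπ1
    exact lt_irrefl _ hπ1
  have hu0 : u ≠ 0 := by
    rintro rfl
    rw [map_zero] at hu1
    exact zero_ne_one hu1
  have hv0 : v ≠ 0 := by
    rintro rfl
    rw [map_zero] at hv1
    exact zero_ne_one hv1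
  have hΔH : Δ ^ EH * H ≠ 0 := mul_ne_zero (pow_ne_zero _ hΔ0) hH0
  -- the exponents of `H₂`
  let A : ℕ := ea + EH * ee
  let b : Fin n → ℤ := fun i => (A : ℤ) * α i + (ee : ℤ) * β i
  have hb0 : ∀ i : Fin n, r ≤ (i : ℕ) → b i = 0 := by
    intro i hi
    simp only [b]
    rw [hα i hi, hβ i hi, mul_zero, mul_zero, add_zero]
  have hH₂e : Δ ^ ea * (Δ ^ EH * H) ^ ee = (∏ i, (s i : M) ^ b i) * (u ^ A * v ^ ee) := by
    have h1 : ∏ i, (s i : M) ^ b i = (∏ i, (s i : M) ^ α i) ^ A * (∏ i, (s i : M) ^ β i) ^ ee := by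
      rw [← Finset.prod_pow, ← Finset.prod_pow, ← Finset.prod_mul_distrib]
      refine Finset.prod_congr rfl fun i _ => ?_
      rcases lt_or_ge (i : ℕ) r with hi | hi
      · simp only [b]
        rw [zpow_add₀ (hs0 i hi), mul_comm (A : ℤ), mul_comm (ee : ℤ), zpow_mul, zpow_mul,
          zpow_natCast, zpow_natCast]
      · rw [hb0 i hi, hα i hi, hβ i hi]
        simp
    have h2 : Δ ^ ea * (Δ ^ EH * H) ^ ee = Δ ^ A * H ^ ee := by
      simp only [A]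
      rw [pow_add, pow_mul, mul_pow, mul_assoc]
    rw [h2, h1]
    conv_lhs => rw [hΔe, hHe]
    rw [mul_pow, mul_pow]
    ring
  -- the exponent `N`
  let N : ℕ := 1 + ∑ i, (b i).natAbs
  have hN : ∀ i : Fin n, (i : ℕ) < r → 1 ≤ (N : ℤ) * γ i - b i := by
    intro i hi
    have h1 : (b i).natAbs ≤ ∑ i, (b i).natAbs :=
      Finset.single_le_sum (f := fun i => (b i).natAbs) (fun _ _ => Nat.zero_le _)
        (Finset.mem_univ i)
    have h2 : b i ≤ (b i).natAbs := Int.le_natAbs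
    have h3 : ((b i).natAbs : ℤ) + 1 ≤ (N : ℤ) := by
      simp only [N]
      push_cast
      have : ((b i).natAbs : ℤ) ≤ ∑ i, ((b i).natAbs : ℤ) := by exact_mod_cast h1
      simp only [Int.natCast_natAbs] at this ⊢
      omega
    have h4 : (N : ℤ) ≤ (N : ℤ) * γ i := by
      have := hγ1 i hi
      nlinarith [Int.natCast_nonneg N]
    omega
  let c : Fin n → ℤ := fun i => (N : ℤ) * γ i - b i
  have hc0 : ∀ i, 0 ≤ c i := by
    intro i
    rcases lt_or_ge (i : ℕ) r with hi | hi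
    · exact le_trans zero_le_one (hN i hi)
    · simp only [c]
      rw [hγ i hi, hb0 i hi]
      simp
  have hu2 : u ^ A * v ^ ee ∈ oc W₁ (AC.restrictScalars k) := mul_mem (pow_mem hu _) (pow_mem hv _)
  have hu21 : W₁.valuation (u ^ A * v ^ ee) = 1 := by
    rw [map_mul, map_pow, map_pow, hu1, hv1, one_pow, one_pow, one_mul]
  have hu20 : u ^ A * v ^ ee ≠ 0 := mul_ne_zero (pow_ne_zero _ hu0) (pow_ne_zero _ hv0)
  refine ⟨G, Δ ^ ea * (Δ ^ EH * H) ^ ee, N,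
    (∏ i, (s i : M) ^ c i) * (w ^ N * (u ^ A * v ^ ee)⁻¹), hGeq,
    mul_mem (pow_mem hΔ _) (pow_mem hEH _), mul_ne_zero (pow_ne_zero _ hΔ0) (pow_ne_zero _ hΔH),
    hH₂, ?_, ?_, ?_, hex, ?_⟩
  · refine mul_mem (le_oc W₁ _ ?_) (mul_mem (pow_mem hw _) (oc_inv W₁ hu2 hu21))
    exact DescData.prod_mem (AC.restrictScalars k) (fun i => (s i : M)) hsA c hc0 _
  · obtain ⟨i₀, hi₀⟩ := hex
    obtain ⟨y, hy, hye⟩ := hsplit c hc0 i₀ (hN i₀ hi₀)
    rw [hye, map_mul, map_mul, map_mul, map_inv₀, hu21, map_pow, hw1, one_pow, inv_one, one_mul,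
      mul_one]
    have h1 : W₁.valuation y ≤ 1 := (W₁.valuation_le_one_iff _).2 (hocW y hy)
    exact mul_lt_one_of_lt_of_le (hs1 i₀) h1
  · have h1 : (∏ i, (s i : M) ^ γ i) ^ N = (∏ i, (s i : M) ^ b i) * ∏ i, (s i : M) ^ c i := by
      rw [← Finset.prod_pow, ← Finset.prod_mul_distrib]
      refine Finset.prod_congr rfl fun i _ => ?_
      rcases lt_or_ge (i : ℕ) r with hi | hi
      · rw [← zpow_add₀ (hs0 i hi)]
        simp only [c]
        rw [← zpow_natCast, ← zpow_mul]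
        congr 1
        ring
      · simp only [c]
        rw [hb0 i hi, hγ i hi]
        simp
    rw [hH₂e]
    conv_lhs => rw [hπe]
    rw [mul_pow, h1]
    have h2 : (∏ i, (s i : M) ^ b i) * (u ^ A * v ^ ee) *
        ((∏ i, (s i : M) ^ c i) * (w ^ N * (u ^ A * v ^ ee)⁻¹)) =
        (∏ i, (s i : M) ^ b i) * (∏ i, (s i : M) ^ c i) * w ^ N *
          ((u ^ A * v ^ ee) * (u ^ A * v ^ ee)⁻¹) := by ring
    rw [h2, mul_inv_cancel₀ hu20, mul_one]
  · intro i hi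
    obtain ⟨y, hy, hye⟩ := hsplit γ hγ0 i (hγ1 i hi)
    refine ⟨y * w, mul_mem (le_oc W₁ _ hy) hw, ?_⟩
    conv_lhs => rw [hπe, hye]
    ring

end LY
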