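import Pool.Agent.helper90.LY.Coords

open Polynomial

namespace LY

universe u

theorem DescLoc_inv {L : Type u} [Field L] (W : ValuationSubring L) {x : L} (hx : x ≠ 0) :
    W.valuation x < 1 ↔ x⁻¹ ∉ W := by
  have h1 : 0 < W.valuation x := by
    rw [zero_lt_iff]
    exact (Valuation.ne_zero_iff _).2 hx
  rw [← W.valuation_le_one_iff, map_inv₀, inv_le_one₀ h1, not_le]

section

variable {K M : Type u} [Field K] [Field M] [Algebra K M]

/-- the valuations agree -/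
theorem DescLoc_lt (W : ValuationSubring K) (W₁ : ValuationSubring M)
    (hWW : ∀ x : K, algebraMap K M x ∈ W₁ ↔ x ∈ W) (x : K) :
    W₁.valuation (algebraMap K M x) < 1 ↔ W.valuation x < 1 := by
  by_cases hx : x = 0
  · rw [hx, map_zero, map_zero, map_zero]
    exact ⟨fun _ => zero_lt_one, fun _ => zero_lt_one⟩
  · have hx' : algebraMap K M x ≠ 0 := by
      rw [ne_eq, map_eq_zero]
      exact hx
    rw [DescLoc_inv W hx, DescLoc_inv W₁ hx', ← map_inv₀, hWW]

theorem DescLoc_one (W : ValuationSubring K) (W₁ : ValuationSubring M)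
    (hWW : ∀ x : K, algebraMap K M x ∈ W₁ ↔ x ∈ W) {x : K} (hx : W.valuation x = 1) :
    W₁.valuation (algebraMap K M x) = 1 := by
  refine le_antisymm ?_ ?_
  · rw [W₁.valuation_le_one_iff, hWW, ← W.valuation_le_one_iff]
    exact hx.le
  · by_contra h
    rw [not_le, DescLoc_lt W W₁ hWW, hx] at h
    exact lt_irrefl _ h

end

variable {k K M : Type u} [Field k] [Field K] [Field M] [Algebra k K] [Algebra k M] [Algebra K M]
  [IsScalarTower k K M]

/-- a coordinate of value `0` -/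
theorem DescLoc_key (W : ValuationSubring K) (W₁ : ValuationSubring M)
    (hWW : ∀ x : K, algebraMap K M x ∈ W₁ ↔ x ∈ W) (θ : M) (hθW : θ ∈ W₁)
    (hint : IsIntegral K θ) (hθ : IntermediateField.adjoin K {θ} = ⊤) (A : Subalgebra k K)
    (hA : ∀ a ∈ A, a ∈ W) (hmin : ∀ i, (minpoly K θ).coeff i ∈ A) {d : M} (hd : d ∈ lft θ A)
    (hd1 : W₁.valuation d = 1) :
    ∃ l : M →ₗ[K] K, W.valuation (l d) = 1 ∧ ∀ z ∈ lft θ A, l z ∈ A := by
  obtain ⟨m, l, h1, h2⟩ := coords (k := k) θ hint hθ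
  have h3 := h2 A hmin
  by_contra hcon
  push Not at hcon
  have h4 : ∀ j, W.valuation (l j d) < 1 := by
    intro j
    have h5 : W.valuation (l j d) ≠ 1 := by
      intro h6
      obtain ⟨z, hz, hz'⟩ := hcon (l j) h6
      exact hz' (h3 z hz j)
    exact lt_of_le_of_ne ((W.valuation_le_one_iff _).2 (hA _ (h3 d hd j))) h5
  have h5 : W₁.valuation (∑ j, algebraMap K M (l j d) * θ ^ (j : ℕ)) < 1 := by
    refine Valuation.map_sum_lt _ one_ne_zero fun j _ => ?_
    rw [map_mul]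
    have h6 : W₁.valuation (θ ^ (j : ℕ)) ≤ 1 := by
      rw [W₁.valuation_le_one_iff]
      exact pow_mem hθW _
    exact lt_of_le_of_lt (mul_le_of_le_one_right' h6) ((DescLoc_lt W W₁ hWW _).2 (h4 j))
  rw [← h1 d, hd1] at h5
  exact lt_irrefl _ h5

theorem DescLoc_lin (l : M →ₗ[K] K) (y : K) (d : M) : l (algebraMap K M y * d) = y * l d := by
  rw [← Algebra.smul_def, map_smul, smul_eq_mul]

/-- `A[θ]_q ∩ K = A_p`. If `y d = b` with `b, d ∈ A[θ]`, `d` of value `0`, then `y l_j(d) = l_j(b)`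
for all coordinates, and some `l_j(d)` has value `0` (otherwise `d = ∑ l_j(d) θ^j` has positive
value). -/
theorem desc_mem (W : ValuationSubring K) (W₁ : ValuationSubring M)
    (hWW : ∀ x : K, algebraMap K M x ∈ W₁ ↔ x ∈ W) (θ : M) (hθW : θ ∈ W₁)
    (hint : IsIntegral K θ) (hθ : IntermediateField.adjoin K {θ} = ⊤) (A : Subalgebra k K)
    (hA : ∀ a ∈ A, a ∈ W) (hmin : ∀ i, (minpoly K θ).coeff i ∈ A) (y : K)
    (hy : algebraMap K M y ∈ oc W₁ (lft θ A)) : y ∈ oc W A := by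
  obtain ⟨b, hb, d, hd, hd1, hyd⟩ := hy
  obtain ⟨l, hl, hlA⟩ := DescLoc_key W W₁ hWW θ hθW hint hθ A hA hmin hd hd1
  exact ⟨l b, hlA b hb, l d, hlA d hd, hl, by rw [← hyd, DescLoc_lin]⟩

/-- a common denominator -/
theorem DescLoc_den (W₁ : ValuationSubring M) (B : Subalgebra k M) {n : ℕ} (c : Fin n → M)
    (hc : ∀ i, c i ∈ oc W₁ B) : ∃ d ∈ B, W₁.valuation d = 1 ∧ ∀ i, c i * d ∈ B := by
  choose b hb d hd hd1 hcd using hc
  refine ⟨∏ i, d i, prod_mem fun i _ => hd i, ?_, fun i => ?_⟩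
  · rw [map_prod]
    exact Finset.prod_eq_one fun i _ => hd1 i
  · rw [← Finset.mul_prod_erase Finset.univ d (Finset.mem_univ i), ← mul_assoc, hcd]
    exact mul_mem (hb i) (prod_mem fun j _ => hd j)

/-- Descent of parameters: if `y = ∑ c_i s_i` with `c_i ∈ A[θ]_q`, `y, s_i ∈ A_p`, take a common
denominator `d ∈ A[θ]` of value `0` of the `c_i` and compare coordinates. -/
theorem desc_pg (W : ValuationSubring K) (W₁ : ValuationSubring M)
    (hWW : ∀ x : K, algebraMap K M x ∈ W₁ ↔ x ∈ W) (θ : M) (hθW : θ ∈ W₁)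
    (hint : IsIntegral K θ) (hθ : IntermediateField.adjoin K {θ} = ⊤) (A : Subalgebra k K)
    (hA : ∀ a ∈ A, a ∈ W) (hmin : ∀ i, (minpoly K θ).coeff i ∈ A) {n : ℕ} (s : Fin n → K)
    (hs : PG W₁ (lft θ A) fun i => algebraMap K M (s i)) : PG W A s := by
  obtain ⟨hs1, hs2, hs3⟩ := hs
  refine ⟨fun i => desc_mem W W₁ hWW θ hθW hint hθ A hA hmin (s i) (hs1 i),
    fun i => (DescLoc_lt W W₁ hWW _).1 (hs2 i), fun y hy hy1 => ?_⟩
  have hy' : algebraMap K M y ∈ oc W₁ (lft θ A) := by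
    obtain ⟨b, hb, d, hd, hd1, hyd⟩ := hy
    exact ⟨algebraMap K M b, mem_lft θ A hb, algebraMap K M d, mem_lft θ A hd,
      DescLoc_one W W₁ hWW hd1, by rw [← hyd, map_mul]⟩
  obtain ⟨c, hc, hyc⟩ := hs3 _ hy' ((DescLoc_lt W W₁ hWW _).2 hy1)
  obtain ⟨d, hd, hd1, hcd⟩ := DescLoc_den W₁ (lft θ A) c hc
  obtain ⟨l, hl, hlA⟩ := DescLoc_key W W₁ hWW θ hθW hint hθ A hA hmin hd hd1
  have hl0 : l d ≠ 0 := by
    intro h0
    rw [h0, map_zero] at hl
    exact zero_ne_one hl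
  have h1 : y * l d = ∑ i, l (c i * d) * s i := by
    rw [← DescLoc_lin, hyc, Finset.sum_mul, map_sum]
    refine Finset.sum_congr rfl fun i _ => ?_
    have e : c i * algebraMap K M (s i) * d = algebraMap K M (s i) * (c i * d) := by ring
    rw [e, DescLoc_lin, mul_comm]
  refine ⟨fun i => l (c i * d) / l d, fun i =>
    ⟨l (c i * d), hlA _ (hcd i), l d, hlA _ hd, hl, div_mul_cancel₀ _ hl0⟩, ?_⟩
  have h2 : y = (∑ i, l (c i * d) * s i) / l d := by
    rw [← h1, mul_div_cancel_right₀ _ hl0]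
  rw [h2, Finset.sum_div]
  refine Finset.sum_congr rfl fun i _ => ?_
  ring

end LY
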