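import Pool.Agent.helper90.LY.Defs
import Pool.Agent.helper90.LY.Newton
import Pool.Agent.LUV.ComplAlg

open Polynomial

namespace LY

universe u

variable {k K : Type u} [Field k] [Field K] [Algebra k K]

omit [Field k] [Algebra k K] in
/-- A rank one valuation is equivalent to a real absolute value. -/
theorem Ext_exists_abs (V : ValuationSubring K) (harch : MulArchimedean V.ValueGroup) :
    ∃ f : AbsoluteValue K ℝ, (∀ x y, f x ≤ f y ↔ V.valuation x ≤ V.valuation y) ∧
      ∀ x y, f (x + y) ≤ max (f x) (f y) := by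
  classical
  have _ := harch
  obtain ⟨φ, hφ⟩ := Archimedean.exists_orderAddMonoidHom_real_injective
    (Additive (V.ValueGroup)ˣ)
  have hmono : StrictMono φ := φ.monotone'.strictMono_of_injective hφ
  have hv0 : ∀ {x : K}, x ≠ 0 → V.valuation x ≠ 0 := fun {x} hx => (_root_.map_ne_zero _).2 hx
  set F : K → ℝ := fun x => if h : x = 0 then 0 else
    Real.exp (φ (Additive.ofMul (Units.mk0 (V.valuation x) (hv0 h)))) with hF
  have F0 : F 0 = 0 := by simp [hF]
  have Fne : ∀ {x : K} (h : x ≠ 0), F x =
      Real.exp (φ (Additive.ofMul (Units.mk0 (V.valuation x) (hv0 h)))) := by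
    intro x h
    simp only [hF, dif_neg h]
  have Fpos : ∀ {x : K}, x ≠ 0 → 0 < F x := by
    intro x h
    rw [Fne h]
    exact Real.exp_pos _
  have Fle : ∀ x y, F x ≤ F y ↔ V.valuation x ≤ V.valuation y := by
    intro x y
    by_cases hx : x = 0
    · subst hx
      simp only [F0, map_zero, zero_le, iff_true]
      by_cases hy : y = 0
      · subst hy
        exact F0.ge
      · exact (Fpos hy).le
    · by_cases hy : y = 0
      · subst hy
        constructor
        · intro h
          rw [F0] at h
          exact absurd (Fpos hx) (not_lt.2 h)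
        · intro h
          rw [map_zero, le_zero_iff] at h
          exact absurd h (hv0 hx)
      · rw [Fne hx, Fne hy, Real.exp_le_exp, hmono.le_iff_le]
        exact Units.val_le_val.symm
  have Fmul : ∀ x y, F (x * y) = F x * F y := by
    intro x y
    by_cases hx : x = 0
    · subst hx
      rw [zero_mul, F0, zero_mul]
    · by_cases hy : y = 0
      · subst hy
        rw [mul_zero, F0, mul_zero]
      · rw [Fne hx, Fne hy, Fne (mul_ne_zero hx hy), ← Real.exp_add, ← map_add, ← ofMul_mul]
        congr 3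
        ext
        simp
  have Fadd : ∀ x y, F (x + y) ≤ max (F x) (F y) := by
    intro x y
    rcases le_total (V.valuation x) (V.valuation y) with h | h
    · refine le_trans ?_ (le_max_right _ _)
      rw [Fle]
      exact (V.valuation.map_add x y).trans (max_le h le_rfl)
    · refine le_trans ?_ (le_max_left _ _)
      rw [Fle]
      exact (V.valuation.map_add x y).trans (max_le le_rfl h)
  have Fnn : ∀ x, 0 ≤ F x := by
    intro x
    by_cases hx : x = 0
    · subst hx
      exact F0.ge
    · exact (Fpos hx).le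
  refine ⟨⟨⟨F, Fmul⟩, Fnn, ?_, ?_⟩, Fle, Fadd⟩
  · intro x
    constructor
    · intro h
      by_contra hx
      exact absurd h (Fpos hx).ne'
    · rintro rfl
      exact F0
  · intro x y
    exact (Fadd x y).trans (max_le (le_add_of_nonneg_right (Fnn y)) (le_add_of_nonneg_left (Fnn x)))


/-- The valuation ring of an ultrametric normed field, on a subfield. -/
theorem Ext_ring {M Ω : Type u} [Field M] [NormedField Ω] [IsUltrametricDist Ω] (e : M →+* Ω) :
    ∃ W₁ : ValuationSubring M, (∀ z, z ∈ W₁ ↔ ‖e z‖ ≤ 1) ∧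
      ∀ z c : M, W₁.valuation z < W₁.valuation c ↔ ‖e z‖ < ‖e c‖ := by
  let W₁ : ValuationSubring M :=
    { carrier := {z | ‖e z‖ ≤ 1}
      mul_mem' := by
        intro a b ha hb
        simp only [Set.mem_ofPred_eq, map_mul, norm_mul] at *
        exact mul_le_one₀ ha (norm_nonneg _) hb
      one_mem' := by simp
      add_mem' := by
        intro a b ha hb
        simp only [Set.mem_ofPred_eq, map_add] at *
        exact (IsUltrametricDist.norm_add_le_max _ _).trans (max_le ha hb)
      zero_mem' := by simp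
      neg_mem' := by
        intro a ha
        simpa using ha
      mem_or_inv_mem' := by
        intro a
        simp only [Set.mem_ofPred_eq, map_inv₀, norm_inv]
        by_cases h : ‖e a‖ ≤ 1
        · exact Or.inl h
        · exact Or.inr (inv_le_one_of_one_le₀ (not_le.1 h).le) }
  have hm : ∀ z, z ∈ W₁ ↔ ‖e z‖ ≤ 1 := fun z => Iff.rfl
  have hle : ∀ c z : M, W₁.valuation c ≤ W₁.valuation z ↔ ‖e c‖ ≤ ‖e z‖ := by
    intro c z
    by_cases hz : z = 0
    · subst hz
      by_cases hc : c = 0
      · subst hc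
        simp
      · have h1 : W₁.valuation c ≠ 0 := (_root_.map_ne_zero _).2 hc
        have h2 : ‖e c‖ ≠ 0 := norm_ne_zero_iff.2 ((_root_.map_ne_zero _).2 hc)
        constructor
        · intro h
          rw [map_zero, le_zero_iff] at h
          exact absurd h h1
        · intro h
          rw [map_zero, norm_zero] at h
          exact absurd (le_antisymm h (norm_nonneg _)) h2
    · have h1 : W₁.valuation c ≤ W₁.valuation z ↔ c / z ∈ W₁ := by
        rw [← ValuationSubring.valuation_le_one_iff, map_div₀, div_le_one₀]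
        exact zero_lt_iff.2 ((_root_.map_ne_zero _).2 hz)
      rw [h1, hm, map_div₀, norm_div, div_le_one₀]
      exact norm_pos_iff.2 ((_root_.map_ne_zero _).2 hz)
  exact ⟨W₁, hm, fun z c => by rw [← not_le, hle, not_le]⟩

/-- A root near an approximate root, in an algebraically closed field. -/
theorem Ext_root {Ω : Type u} [NormedField Ω] [IsAlgClosed Ω] [Algebra k Ω]
    (hk : ∀ c : k, c ≠ 0 → ‖algebraMap k Ω c‖ = 1) (P : k[X]) (hP : P.Separable) (a : Ω)
    (ha : ‖aeval a P‖ < 1) : ∃ θ : Ω, aeval θ P = 0 ∧ ‖a - θ‖ < 1 := by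
  by_contra hcon
  push Not at hcon
  have hP0 : P ≠ 0 := hP.ne_zero
  set Q := P.map (algebraMap k Ω) with hQ
  have hQ0 : Q ≠ 0 := (Polynomial.map_ne_zero_iff (algebraMap k Ω).injective).2 hP0
  have hsp : Q.Splits := IsAlgClosed.splits Q
  have h1 : Q = C Q.leadingCoeff * (Q.roots.map (fun r => X - C r)).prod := hsp.eq_prod_roots
  have hlc : ‖Q.leadingCoeff‖ = 1 := by
    rw [hQ, leadingCoeff_map]
    exact hk _ (leadingCoeff_ne_zero.2 hP0)
  have h2 : ‖Q.eval a‖ = ‖Q.leadingCoeff‖ * (Q.roots.map (fun r => ‖a - r‖)).prod := by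
    conv_lhs => rw [h1]
    rw [eval_mul, eval_C, norm_mul, eval_multiset_prod, Multiset.map_map]
    congr 1
    generalize Q.roots = s
    induction s using Multiset.induction with
    | empty => simp
    | cons b s ih =>
      rw [Multiset.map_cons, Multiset.prod_cons, norm_mul, ih, Multiset.map_cons, Multiset.prod_cons]
      simp
  have h3 : 1 ≤ (Q.roots.map (fun r => ‖a - r‖)).prod := by
    have h4 : ∀ r ∈ Q.roots, 1 ≤ ‖a - r‖ := by
      intro r hr
      refine hcon r ?_
      have := (mem_roots hQ0).1 hr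
      rwa [IsRoot, hQ, eval_map_algebraMap] at this
    revert h4
    generalize Q.roots = s
    intro h4
    induction s using Multiset.induction with
    | empty => simp
    | cons b s ih =>
      rw [Multiset.map_cons, Multiset.prod_cons]
      have h5 := h4 b (Multiset.mem_cons_self b s)
      have h6 := ih fun r hr => h4 r (Multiset.mem_cons_of_mem hr)
      nlinarith
  have h7 : ‖Q.eval a‖ < 1 := by rwa [hQ, eval_map_algebraMap]
  rw [h2, hlc, one_mul] at h7
  exact absurd h3 (not_le.2 h7)

/-- Immediate extension generated by a root `θ` of a separable polynomial with an approximate root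
`a`. -/
theorem exists_ext (W : ValuationSubring K) (hW : ∀ c : k, algebraMap k K c ∈ W)
    (harch : MulArchimedean W.ValueGroup) (hnt : ∃ c : K, c ≠ 0 ∧ W.valuation c < 1)
    (P : k[X]) (hP : P.Separable) (a : K) (haW : a ∈ W) (ha : W.valuation (aeval a P) < 1) :
    ∃ (M : Type u) (_ : Field M) (_ : Algebra k M) (_ : Algebra K M) (_ : IsScalarTower k K M)
      (W₁ : ValuationSubring M) (θ : M), aeval θ P = 0 ∧ IntermediateField.adjoin K {θ} = ⊤ ∧
      (∀ x : K, algebraMap K M x ∈ W₁ ↔ x ∈ W) ∧ W₁.valuation (algebraMap K M a - θ) < 1 ∧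
      ∀ z c : M, c ≠ 0 → ∃ x : K, W₁.valuation (z - algebraMap K M x) < W₁.valuation c := by
  classical
  obtain ⟨f, hf, hadd⟩ := Ext_exists_abs W harch
  have hle1 : ∀ x, f x ≤ 1 ↔ x ∈ W := by
    intro x
    rw [← W.valuation_le_one_iff, ← map_one f, hf, map_one]
  have hlt1 : ∀ x, f x < 1 ↔ W.valuation x < 1 := by
    intro x
    rw [← not_le, ← not_le, ← map_one f, hf, map_one]
  have hnt' : f.IsNontrivial := by
    obtain ⟨c, hc0, hc⟩ := hnt
    exact ⟨c, hc0, ((hlt1 c).2 hc).ne⟩
  obtain ⟨Ω, iN, j, hu, hc, hac, hj, -⟩ := LUV.exists_complete_closure K f (fun x y => hadd x y) hnt'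
  let _ : Algebra K Ω := j.toAlgebra
  let _ : Algebra k Ω := (j.comp (algebraMap k K)).toAlgebra
  have htow : IsScalarTower k K Ω := IsScalarTower.of_algebraMap_eq fun c => rfl
  have hjK : ∀ x : K, algebraMap K Ω x = j x := fun _ => rfl
  have hk1 : ∀ c : k, c ≠ 0 → ‖algebraMap k Ω c‖ = 1 := by
    intro c hc0
    change ‖j (algebraMap k K c)‖ = 1
    rw [hj]
    apply le_antisymm
    · exact (hle1 _).2 (hW c)
    · have h1 : f (algebraMap k K c⁻¹) ≤ 1 := (hle1 _).2 (hW c⁻¹)
      have h2 : f (algebraMap k K c) * f (algebraMap k K c⁻¹) = 1 := by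
        rw [← map_mul, ← map_mul, mul_inv_cancel₀ hc0, map_one, map_one]
      calc (1 : ℝ) = f (algebraMap k K c) * f (algebraMap k K c⁻¹) := h2.symm
        _ ≤ f (algebraMap k K c) * 1 := mul_le_mul_of_nonneg_left h1 (f.nonneg _)
        _ = f (algebraMap k K c) := mul_one _
  have hPa : ‖aeval (j a) P‖ < 1 := by
    have h1 : aeval (j a) P = j (aeval a P) := by
      have := aeval_algHom_apply (IsScalarTower.toAlgHom k K Ω) a P
      exact this
    rw [h1, hj]
    exact (hlt1 _).2 ha
  obtain ⟨θ, hθ, haθ⟩ := Ext_root hk1 P hP (j a) hPa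
  have hja1 : ‖j a‖ ≤ 1 := by
    rw [hj]
    exact (hle1 a).2 haW
  have hθ1 : ‖θ‖ ≤ 1 := by
    have h1 : θ = j a + -(j a - θ) := by ring
    rw [h1]
    exact (IsUltrametricDist.norm_add_le_max _ _).trans (max_le hja1 (by rw [norm_neg]; exact haθ.le))
  -- elements of norm at most one
  let B : Subalgebra k Ω :=
    { carrier := {z | ‖z‖ ≤ 1}
      mul_mem' := by
        intro x y hx hy
        simp only [Set.mem_ofPred_eq, norm_mul] at *
        exact mul_le_one₀ hx (norm_nonneg _) hy
      add_mem' := by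
        intro x y hx hy
        exact (IsUltrametricDist.norm_add_le_max _ _).trans (max_le hx hy)
      algebraMap_mem' := by
        intro c
        by_cases hc0 : c = 0
        · subst hc0
          simp
        · exact (hk1 c hc0).le }
  -- `θ` is a limit of elements of `K`
  have hθcl : θ ∈ closure (Set.range j) := by
    rw [Metric.mem_closure_iff]
    intro ε hε
    obtain ⟨N, hN⟩ := exists_pow_lt_of_lt_one hε haθ
    obtain ⟨t, ht, y, hy, hty⟩ := newton P hP (j a) θ hθ N
    have h1 : Algebra.adjoin k {j a} ≤ (IsScalarTower.toAlgHom k K Ω).range :=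
      Algebra.adjoin_le (by
        rintro x rfl
        exact ⟨a, rfl⟩)
    obtain ⟨x, hx⟩ := h1 ht
    have hx' : j x = t := hx
    have h2 : Algebra.adjoin k {j a, θ} ≤ B := Algebra.adjoin_le (by
      rintro x (rfl | rfl)
      · exact hja1
      · exact hθ1)
    have h3 : ‖y‖ ≤ 1 := h2 hy
    refine ⟨j x, ⟨x, rfl⟩, ?_⟩
    rw [dist_comm, dist_eq_norm, hx', hty, norm_mul, norm_pow]
    calc ‖j a - θ‖ ^ N * ‖y‖ ≤ ‖j a - θ‖ ^ N * 1 := by gcongr
      _ < ε := by rw [mul_one]; exact hN
  -- the closure of `K` is a field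
  let L : IntermediateField K Ω :=
    { (Subfield.topologicalClosure j.fieldRange) with
      algebraMap_mem' := fun x => Subfield.le_topologicalClosure _ ⟨x, rfl⟩ }
  have hLmem : ∀ z, z ∈ L ↔ z ∈ closure (Set.range j) := fun z => Iff.rfl
  have hMle : IntermediateField.adjoin K {θ} ≤ L := by
    rw [IntermediateField.adjoin_le_iff]
    rintro x rfl
    exact (hLmem _).2 hθcl
  obtain ⟨W₁, hW₁, hlt⟩ := Ext_ring (M := IntermediateField.adjoin K {θ})
    (algebraMap (IntermediateField.adjoin K {θ}) Ω)
  have hθM : θ ∈ IntermediateField.adjoin K {θ} := IntermediateField.mem_adjoin_simple_self K θ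
  refine ⟨IntermediateField.adjoin K {θ}, inferInstance, inferInstance, inferInstance, inferInstance,
    W₁, ⟨θ, hθM⟩, ?_, ?_, ?_, ?_, ?_⟩
  · apply Subtype.val_injective
    have h1 := aeval_algHom_apply ((IntermediateField.adjoin K {θ}).val.restrictScalars k)
      (⟨θ, hθM⟩ : IntermediateField.adjoin K {θ}) P
    have h2 : ((IntermediateField.adjoin K {θ}).val.restrictScalars k)
      (⟨θ, hθM⟩ : IntermediateField.adjoin K {θ}) = θ := rfl
    rw [h2, hθ] at h1
    exact h1.symm
  · apply IntermediateField.map_injective (IntermediateField.adjoin K {θ}).val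
    rw [IntermediateField.adjoin_map, ← AlgHom.fieldRange_eq_map, IntermediateField.fieldRange_val]
    simp
  · intro x
    rw [hW₁, ← hle1, ← hj]
    rfl
  · have h1 := (hlt (algebraMap K _ a - ⟨θ, hθM⟩) 1).2 (by
      rw [map_sub, map_one, norm_one]
      exact haθ)
    rwa [map_one] at h1
  · intro z c hc0
    have hz : (z : Ω) ∈ closure (Set.range j) := (hLmem _).1 (hMle z.2)
    have hc' : 0 < ‖(c : Ω)‖ := norm_pos_iff.2 (by
      intro h
      exact hc0 (Subtype.val_injective h))
    obtain ⟨_, ⟨x, rfl⟩, hx⟩ := Metric.mem_closure_iff.1 hz _ hc'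
    refine ⟨x, (hlt _ _).2 ?_⟩
    rw [dist_eq_norm] at hx
    rw [map_sub]
    exact hx

end LY
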