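import Pool.Agent.helper90.LY.Defs

open Polynomial

namespace LY

universe u

variable {k K M : Type u} [Field k] [Field K] [Field M] [Algebra k K] [Algebra k M] [Algebra K M]
  [IsScalarTower k K M]

/-- Comparison of two surjective equivalent valuations. -/
theorem ExtVal.equiv_of_surj {K : Type u} [Field K] {Γ₀ Γ₁ : Type u}
    [LinearOrderedCommGroupWithZero Γ₀] [LinearOrderedCommGroupWithZero Γ₁]
    (v : Valuation K Γ₀) (w : Valuation K Γ₁) (hvw : v.IsEquiv w)
    (hv : Function.Surjective v) (hw : Function.Surjective w) :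
    ∃ f : Γ₀ ≃* Γ₁, (∀ x, f (v x) = w x) ∧ Monotone f := by
  classical
  have key : ∀ x y, v x ≤ v y ↔ w x ≤ w y := fun x y => hvw x y
  let g : Γ₀ → Γ₁ := fun γ => w (Classical.choose (hv γ))
  have hg : ∀ x, g (v x) = w x := by
    intro x
    have h := Classical.choose_spec (hv (v x))
    exact le_antisymm ((key _ _).1 h.le) ((key _ _).1 h.ge)
  let F : Γ₀ →* Γ₁ :=
    { toFun := g
      map_one' := by
        have := hg 1
        simpa using this
      map_mul' := by
        intro a b
        obtain ⟨x, rfl⟩ := hv a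
        obtain ⟨y, rfl⟩ := hv b
        rw [← map_mul v, hg, hg, hg, map_mul] }
  have hbij : Function.Bijective F := by
    constructor
    · intro a b hab
      obtain ⟨x, rfl⟩ := hv a
      obtain ⟨y, rfl⟩ := hv b
      change g (v x) = g (v y) at hab
      rw [hg, hg] at hab
      exact le_antisymm ((key _ _).2 hab.le) ((key _ _).2 hab.ge)
    · intro c
      obtain ⟨z, rfl⟩ := hw c
      exact ⟨v z, hg z⟩
  refine ⟨MulEquiv.ofBijective F hbij, fun x => hg x, ?_⟩
  intro a b hab
  obtain ⟨x, rfl⟩ := hv a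
  obtain ⟨y, rfl⟩ := hv b
  change g (v x) ≤ g (v y)
  rw [hg, hg]
  exact (key _ _).1 hab

/-- The value group does not change in an extension in which `K` is dense. -/
theorem ext_group (W : ValuationSubring K) (W₁ : ValuationSubring M)
    (hWW : ∀ x : K, algebraMap K M x ∈ W₁ ↔ x ∈ W)
    (hd : ∀ z c : M, c ≠ 0 → ∃ x : K, W₁.valuation (z - algebraMap K M x) < W₁.valuation c) :
    Nonempty ((W.ValueGroup)ˣ ≃* (W₁.ValueGroup)ˣ) ∧
      (MulArchimedean W.ValueGroup → MulArchimedean W₁.ValueGroup) := by
  have hw : Function.Surjective (W₁.valuation.comap (algebraMap K M)) := by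
    intro γ
    obtain ⟨z, rfl⟩ := W₁.valuation_surjective γ
    by_cases hz : z = 0
    · exact ⟨0, by simp [hz]⟩
    · obtain ⟨x, hx⟩ := hd z z hz
      refine ⟨x, ?_⟩
      rw [Valuation.comap_apply]
      have h2 : algebraMap K M x = z + -(z - algebraMap K M x) := by ring
      rw [h2]
      exact Valuation.map_add_eq_of_lt_left _ (by rwa [Valuation.map_neg])
  have heq : W.valuation.IsEquiv (W₁.valuation.comap (algebraMap K M)) := by
    rw [Valuation.isEquiv_iff_val_le_one]
    intro x
    rw [Valuation.comap_apply, ValuationSubring.valuation_le_one_iff,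
      ValuationSubring.valuation_le_one_iff, hWW]
  obtain ⟨f, hf, hmono⟩ := ExtVal.equiv_of_surj _ _ heq W.valuation_surjective hw
  refine ⟨⟨Units.mapEquiv f⟩, ?_⟩
  intro hA
  constructor
  intro x y hy
  obtain ⟨x', rfl⟩ := f.surjective x
  obtain ⟨y', rfl⟩ := f.surjective y
  have hy' : 1 < y' := by
    by_contra hcon
    have := hmono (not_lt.1 hcon)
    rw [map_one] at this
    exact absurd hy (not_lt.2 this)
  obtain ⟨n, hn⟩ := MulArchimedean.arch x' hy'
  refine ⟨n, ?_⟩
  rw [← map_pow]
  exact hmono hn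

/-- The residue field: if the residue field of `W` is generated by the residue of `a`, the one of
`W₁` is represented by `k(θ)`, `θ` close to `a`. -/
theorem ext_res (W : ValuationSubring K) (W₁ : ValuationSubring M)
    (hWW : ∀ x : K, algebraMap K M x ∈ W₁ ↔ x ∈ W) (hW : ∀ c : k, algebraMap k K c ∈ W)
    (hd : ∀ z c : M, c ≠ 0 → ∃ x : K, W₁.valuation (z - algebraMap K M x) < W₁.valuation c)
    (a : K) (haW : a ∈ W) (θ : M) (hlt : W₁.valuation (algebraMap K M a - θ) < 1)
    (hres : ∀ x ∈ W, ∃ Q : k[X], W.valuation (x - aeval a Q) < 1) :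
    ∀ x ∈ W₁, ∃ c : IntermediateField.adjoin k {θ},
      W₁.valuation (x - algebraMap (IntermediateField.adjoin k {θ}) M c) < 1 := by
  have heq : W.valuation.IsEquiv (W₁.valuation.comap (algebraMap K M)) := by
    rw [Valuation.isEquiv_iff_val_le_one]
    intro x
    rw [Valuation.comap_apply, ValuationSubring.valuation_le_one_iff,
      ValuationSubring.valuation_le_one_iff, hWW]
  have hlt1 : ∀ y : K, W.valuation y < 1 → W₁.valuation (algebraMap K M y) < 1 := by
    intro y hy
    have := (Valuation.isEquiv_iff_val_lt_one.1 heq) |>.1 hy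
    rwa [Valuation.comap_apply] at this
  have haM : algebraMap K M a ∈ W₁ := (hWW a).2 haW
  have hθ : θ ∈ W₁ := by
    have h1 : algebraMap K M a - θ ∈ W₁ := (ValuationSubring.valuation_le_one_iff _ _).1 hlt.le
    have : θ = algebraMap K M a - (algebraMap K M a - θ) := by ring
    rw [this]
    exact W₁.sub_mem haM h1
  have hk : ∀ c : k, algebraMap k M c ∈ W₁ := by
    intro c
    rw [IsScalarTower.algebraMap_apply k K M]
    exact (hWW _).2 (hW c)
  -- polynomial continuity
  have hpoly : ∀ Q : k[X], W₁.valuation (aeval (algebraMap K M a) Q - aeval θ Q) < 1 := by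
    intro Q
    let f : k →+* W₁ := (algebraMap k M).codRestrict W₁.toSubring hk
    have hf : ∀ c, ((f c : W₁) : M) = algebraMap k M c := fun c => rfl
    have hev : ∀ (z : M) (hz : z ∈ W₁), (((Q.map f).eval (⟨z, hz⟩ : W₁) : W₁) : M) = aeval z Q := by
      intro z hz
      rw [Polynomial.eval_map, Polynomial.aeval_def]
      have := Polynomial.hom_eval₂ Q f W₁.subtype (⟨z, hz⟩ : W₁)
      change W₁.subtype _ = _
      rw [this]
      rfl
    obtain ⟨q, hq⟩ := Polynomial.sub_dvd_eval_sub (⟨algebraMap K M a, haM⟩ : W₁)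
      (⟨θ, hθ⟩ : W₁) (Q.map f)
    have h2 : ((((Q.map f).eval (⟨algebraMap K M a, haM⟩ : W₁) : W₁) : M) -
        (((Q.map f).eval (⟨θ, hθ⟩ : W₁) : W₁) : M)) = (algebraMap K M a - θ) * (q : M) :=
      congrArg (fun y : W₁ => (y : M)) hq
    rw [hev, hev] at h2
    rw [h2, map_mul]
    calc _ ≤ W₁.valuation (algebraMap K M a - θ) * 1 := by
          gcongr
          exact W₁.valuation_le_one q
      _ < 1 := by rwa [mul_one]
  intro x hx
  obtain ⟨x', hx'⟩ := hd x 1 one_ne_zero
  rw [map_one] at hx'
  have hx'W : x' ∈ W := by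
    rw [← hWW]
    have h1 : x - algebraMap K M x' ∈ W₁ := (ValuationSubring.valuation_le_one_iff _ _).1 hx'.le
    have : algebraMap K M x' = x - (x - algebraMap K M x') := by ring
    rw [this]
    exact W₁.sub_mem hx h1
  obtain ⟨Q, hQ⟩ := hres x' hx'W
  refine ⟨aeval (IntermediateField.AdjoinSimple.gen k θ) Q, ?_⟩
  have hc : algebraMap (IntermediateField.adjoin k {θ}) M
      (aeval (IntermediateField.AdjoinSimple.gen k θ) Q) = aeval θ Q := by
    rw [← Polynomial.aeval_algebraMap_apply, IntermediateField.AdjoinSimple.algebraMap_gen]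
  rw [hc]
  have h3 := hlt1 _ hQ
  rw [map_sub, ← Polynomial.aeval_algebraMap_apply] at h3
  have h4 := hpoly Q
  have h5 : x - aeval θ Q = (x - algebraMap K M x') + ((algebraMap K M x' -
      aeval (algebraMap K M a) Q) + (aeval (algebraMap K M a) Q - aeval θ Q)) := by ring
  rw [h5]
  exact Valuation.map_add_lt _ hx' (Valuation.map_add_lt _ h3 h4)

/-- Finiteness and transcendence degree over `C = k(θ)`. -/
theorem ext_trdeg [Algebra.EssFiniteType k K] (θ : M) (hk : IsIntegral k θ)
    (hθ : IntermediateField.adjoin K {θ} = ⊤) :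
    Algebra.EssFiniteType (IntermediateField.adjoin k {θ}) M ∧
      Algebra.trdeg (IntermediateField.adjoin k {θ}) M = Algebra.trdeg k K := by
  have hK : IsIntegral K θ := hk.tower_top
  have hfin : Module.Finite K M := by
    have h1 : FiniteDimensional K (IntermediateField.adjoin K {θ}) :=
      IntermediateField.adjoin.finiteDimensional hK
    rw [hθ] at h1
    exact Module.Finite.equiv (IntermediateField.topEquiv (F := K) (E := M)).toLinearEquiv
  have hkM : Algebra.EssFiniteType k M := Algebra.EssFiniteType.comp k K M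
  have halg : Algebra.IsAlgebraic k (IntermediateField.adjoin k {θ}) :=
    IntermediateField.isAlgebraic_adjoin_simple hk
  have halg2 : Algebra.IsAlgebraic K M := Algebra.IsAlgebraic.of_finite K M
  refine ⟨Algebra.EssFiniteType.of_comp k _ M, ?_⟩
  have e1 := trdeg_add_eq k (IntermediateField.adjoin k {θ}) (A := M)
  have e2 := trdeg_add_eq k K (A := M)
  rw [_root_.trdeg_eq_zero (R := k) (A := IntermediateField.adjoin k {θ}), zero_add] at e1
  rw [_root_.trdeg_eq_zero (R := K) (A := M), add_zero] at e2
  rw [e1, e2]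

/-- The subfield `k(θ)`, `θ` algebraic over `k`, lies in the valuation ring. -/
theorem ext_const (W₁ : ValuationSubring M) (hk : ∀ c : k, algebraMap k M c ∈ W₁) (θ : M)
    (hint : IsIntegral k θ) : ∀ c : IntermediateField.adjoin k {θ},
      algebraMap (IntermediateField.adjoin k {θ}) M c ∈ W₁ := by
  have halg : Algebra.IsAlgebraic k (IntermediateField.adjoin k {θ}) :=
    IntermediateField.isAlgebraic_adjoin_simple hint
  intro c
  have hc : IsIntegral k (algebraMap (IntermediateField.adjoin k {θ}) M c) :=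
    (Algebra.IsIntegral.isIntegral (R := k) c).algebraMap
  obtain ⟨p, hp, hp0⟩ := hc
  let f : k →+* W₁ := (algebraMap k M).codRestrict W₁.toSubring hk
  have h2 : IsIntegral W₁ (algebraMap (IntermediateField.adjoin k {θ}) M c) := by
    refine ⟨p.map f, hp.map f, ?_⟩
    rw [Polynomial.eval₂_map]
    exact hp0
  obtain ⟨y, hy⟩ := IsIntegrallyClosed.isIntegral_iff.1 h2
  rw [← hy]
  exact y.2

end LY
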