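import Pool.Agent.helper90.LX.FrMon

namespace LY

open Polynomial LX

variable {k K : Type*} [Field k] [Field K] [Algebra k K] {V : RV k K} {r : ℕ}

/-- `e` is a Laurent polynomial in the monomials and a polynomial in `x` -/
def LPol (S : Fr V r) (e : K) : Prop := ∃ h : LA k[X] r, e = evP S.U S.x h

/-- The frame `S'` dominates `S`: monomials times units remain such, and the ring `k[U', x']` is
contained in `k[U, x][1/Q]` where `Q` is a monomial times a unit for `S'`. -/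
def Dm (S S' : Fr V r) : Prop :=
  (∀ e, MU S e → MU S' e) ∧ ∃ Q : K, LPol S Q ∧ Q ≠ 0 ∧ MU S' Q ∧
    ∀ e, LPol S' e → ∃ N : ℕ, LPol S (Q ^ N * e)

theorem FrRel_add {S : Fr V r} {e f : K} (he : LPol S e) (hf : LPol S f) : LPol S (e + f) := by
  obtain ⟨h, rfl⟩ := he
  obtain ⟨g, rfl⟩ := hf
  exact ⟨h + g, (map_add _ _ _).symm⟩

theorem FrRel_mul {S : Fr V r} {e f : K} (he : LPol S e) (hf : LPol S f) : LPol S (e * f) := by
  obtain ⟨h, rfl⟩ := he
  obtain ⟨g, rfl⟩ := hf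
  exact ⟨h * g, (map_mul _ _ _).symm⟩

theorem FrRel_one (S : Fr V r) : LPol S 1 := ⟨1, (map_one _).symm⟩

theorem FrRel_pow {S : Fr V r} {e : K} (he : LPol S e) (n : ℕ) : LPol S (e ^ n) := by
  induction n with
  | zero => rw [pow_zero]; exact FrRel_one S
  | succ n ih => rw [pow_succ]; exact FrRel_mul ih he

theorem FrRel_single (S : Fr V r) (a : Fin r → ℤ) (p : k[X]) :
    evP S.U S.x (AddMonoidAlgebra.single a p : LA k[X] r) =
      aeval S.x p * S.U (Multiplicative.ofAdd a) := by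
  rw [evP, ev_single]
  rfl

theorem FrRel_const (S : Fr V r) (c : k) : LPol S (algebraMap k K c) := by
  refine ⟨AddMonoidAlgebra.single 0 (Polynomial.C c), ?_⟩
  rw [FrRel_single, aeval_C, ofAdd_zero, map_one, mul_one]

theorem FrRel_U (S : Fr V r) (a : Fin r → ℤ) : LPol S (S.U (Multiplicative.ofAdd a)) := by
  refine ⟨AddMonoidAlgebra.single a 1, ?_⟩
  rw [FrRel_single, map_one, one_mul]

theorem FrRel_x (S : Fr V r) : LPol S S.x := by
  refine ⟨AddMonoidAlgebra.single 0 Polynomial.X, ?_⟩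
  rw [FrRel_single, aeval_X, ofAdd_zero, map_one, mul_one]

theorem FrRel_MU (S : Fr V r) (a : Fin r → ℤ) : MU S (S.U (Multiplicative.ofAdd a)) := by
  have h1 : ((1 : LA k[X] r).coeff 0).coeff 0 ≠ 0 := by
    rw [AddMonoidAlgebra.one_def, AddMonoidAlgebra.coeff_single, Finsupp.single_eq_same]
    simp
  exact ⟨a, 1, 1, geL_one, h1, geL_one, h1, rfl⟩

theorem FrRel_MU_pow (S : Fr V r) {e : K} (he : MU S e) (n : ℕ) : MU S (e ^ n) := by
  induction n with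
  | zero => rw [pow_zero]; exact FrMon_one S
  | succ n ih => rw [pow_succ]; exact FrMon_mul S ih he

theorem Dm.refl (S : Fr V r) : Dm S S :=
  ⟨fun _ he => he, 1, FrRel_one S, one_ne_zero, FrMon_one S, fun e he => ⟨0, by
    rw [pow_zero, one_mul]; exact he⟩⟩

theorem Dm.trans {S S' S'' : Fr V r} (h1 : Dm S S') (h2 : Dm S' S'') : Dm S S'' := by
  obtain ⟨m1, Q1, p1, n1, u1, d1⟩ := h1
  obtain ⟨m2, Q2, p2, n2, u2, d2⟩ := h2
  obtain ⟨N0, hN0⟩ := d1 Q2 p2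
  refine ⟨fun e he => m2 e (m1 e he), Q1 * (Q1 ^ N0 * Q2), FrRel_mul p1 hN0,
    mul_ne_zero n1 (mul_ne_zero (pow_ne_zero _ n1) n2), ?_, fun e he => ?_⟩
  · have hu1 := m2 Q1 u1
    exact FrMon_mul S'' hu1 (FrMon_mul S'' (FrRel_MU_pow S'' hu1 N0) u2)
  · obtain ⟨N2, hN2⟩ := d2 e he
    obtain ⟨N1, hN1⟩ := d1 _ hN2
    refine ⟨N1 + N2, ?_⟩
    have e1 : (Q1 * (Q1 ^ N0 * Q2)) ^ (N1 + N2) * e =
        Q1 ^ (N2 + N0 * N2) * ((Q1 ^ N0 * Q2) ^ N1 * (Q1 ^ N1 * (Q2 ^ N2 * e))) := by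
      ring
    rw [e1]
    exact FrRel_mul (FrRel_pow p1 _) (FrRel_mul (FrRel_pow hN0 _) hN1)

/-- translations give domination -/
theorem FrRel_vt {S S1 : Fr V r} {s : LA k r} (hU : S1.U = S.U)
    (hx : S1.x = S.x - ev (algebraMap k K) S.U s) (hM : ∀ e, MU S e → MU S1 e) : Dm S S1 := by
  refine ⟨hM, 1, FrRel_one S, one_ne_zero, FrMon_one S1, fun e he => ⟨0, ?_⟩⟩
  rw [pow_zero, one_mul]
  obtain ⟨h, rfl⟩ := he
  refine ⟨vtr (-s) h, ?_⟩
  rw [evP_vtr, hU, hx, map_neg, sub_eq_add_neg]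

theorem FrRel_monT_add (v w : (Fin r → ℤ) × ℤ) :
    monT (k := k) (v + w) = monT v * monT w := by
  rw [monT, monT, monT, AddMonoidAlgebra.single_mul_single, ← LaurentPolynomial.T_add]
  rfl

theorem FrRel_monT_nsmul (v : (Fin r → ℤ) × ℤ) (n : ℕ) :
    monT (k := k) (n • v) = monT v ^ n := by
  induction n with
  | zero =>
    rw [zero_smul, pow_zero]
    rfl
  | succ n ih => rw [succ_nsmul, FrRel_monT_add, ih, pow_succ]

theorem FrRel_psi (Θ : ((Fin r → ℤ) × ℤ) ≃+ ((Fin r → ℤ) × ℤ)) (a : Fin r → ℤ) (b : ℕ) :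
    psi Θ (AddMonoidAlgebra.single a ((Polynomial.X : k[X]) ^ b)) = monT (Θ (a, (b : ℤ))) := by
  have e1 : Θ (a, (b : ℤ)) = b • Θ (0, 1) + Θ (a, 0) := by
    rw [← map_nsmul, ← map_add]
    congr 1
    ext <;> simp
  rw [e1, FrRel_monT_add, FrRel_monT_nsmul, psi, ev_single]
  congr 1
  change Polynomial.aeval (monT (k := k) (Θ (0, 1))) ((Polynomial.X : k[X]) ^ b) = _
  rw [map_pow, aeval_X]

theorem FrRel_iota (c : k) (A : Fin r → ℤ) (B : ℤ) :
    iotaL c (AddMonoidAlgebra.single A (1 : k[X])) = TN (-B) * monT (k := k) (A, B) := by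
  rw [iotaL, AddMonoidAlgebra.mapRingHom_single, map_one, TN, monT,
    AddMonoidAlgebra.single_mul_single, zero_add, ← LaurentPolynomial.T_add]
  dsimp only
  rw [neg_add_cancel, LaurentPolynomial.T_zero]

/-- the relation between the coordinates before and after a jump -/
theorem FrRel_mono {S S' : Fr V r} {φ' : (Fin r → ℤ) →+ ℝ} {c : k}
    (Θ : ((Fin r → ℤ) × ℤ) ≃+ ((Fin r → ℤ) × ℤ)) (hτ : S'.x + algebraMap k K c ≠ 0)
    (hev : ∀ (h h' : LA k[X] r) (N : ℤ), iotaL c h' = TN N * psi Θ h →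
        evP S'.U S'.x h' = (S'.x + algebraMap k K c) ^ N * evP S.U S.x h)
    (a : Fin r → ℤ) (b : ℕ) :
    S.x ^ b * S.U (Multiplicative.ofAdd a) =
      S'.U (Multiplicative.ofAdd (Θ (a, (b : ℤ))).1) *
        (S'.x + algebraMap k K c) ^ (Θ (a, (b : ℤ))).2 := by
  have h1 := hev (AddMonoidAlgebra.single a ((Polynomial.X : k[X]) ^ b))
    (AddMonoidAlgebra.single (Θ (a, (b : ℤ))).1 1) (-(Θ (a, (b : ℤ))).2) (by
      rw [FrRel_psi]
      exact FrRel_iota c _ _)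
  rw [FrRel_single, FrRel_single, map_one, one_mul, map_pow, aeval_X] at h1
  rw [h1, mul_comm ((S'.x + algebraMap k K c) ^ (-(Θ (a, (b : ℤ))).2)), mul_assoc,
    ← zpow_add₀ hτ, neg_add_cancel, zpow_zero, mul_one]

/-- jumps give domination -/
theorem FrRel_jump {S S' : Fr V r} {c : k} (hc : c ≠ 0)
    (Θ : ((Fin r → ℤ) × ℤ) ≃+ ((Fin r → ℤ) × ℤ)) (hM : ∀ e, MU S e → MU S' e)
    (hev : ∀ (h h' : LA k[X] r) (N : ℤ), iotaL c h' = TN N * psi Θ h →
        evP S'.U S'.x h' = (S'.x + algebraMap k K c) ^ N * evP S.U S.x h) : Dm S S' := by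
  have hτ := FrMon_unit_ne S' hc
  have hmono := FrRel_mono (φ' := S'.φ) Θ hτ hev
  have hpow : ∀ m : ℕ, S.x ^ m = S'.U (Multiplicative.ofAdd (Θ (0, (m : ℤ))).1) *
      (S'.x + algebraMap k K c) ^ (Θ (0, (m : ℤ))).2 := by
    intro m
    have h1 := hmono 0 m
    rwa [ofAdd_zero, map_one, mul_one] at h1
  -- every monomial of the new coordinates
  have hgen : ∀ w : (Fin r → ℤ) × ℤ, ∃ N : ℕ, LPol S (S.x ^ N *
      (S'.U (Multiplicative.ofAdd w.1) * (S'.x + algebraMap k K c) ^ w.2)) := by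
    intro w
    set m : ℕ := (-(Θ.symm w).2).toNat with hm
    obtain ⟨n, hn⟩ : ∃ n : ℕ, (n : ℤ) = (Θ.symm w).2 + m :=
      ⟨((Θ.symm w).2 + m).toNat, Int.toNat_of_nonneg (by omega)⟩
    refine ⟨m, AddMonoidAlgebra.single (Θ.symm w).1 (Polynomial.X ^ n), ?_⟩
    rw [FrRel_single, map_pow, aeval_X, hmono (Θ.symm w).1 n]
    have e1 : Θ ((Θ.symm w).1, (n : ℤ)) = w + Θ (0, (m : ℤ)) := by
      have e2 : (((Θ.symm w).1, (n : ℤ)) : (Fin r → ℤ) × ℤ) = Θ.symm w + (0, (m : ℤ)) := by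
        ext
        · simp
        · simp [hn]
      rw [e2, map_add, AddEquiv.apply_symm_apply]
    rw [e1, Prod.fst_add, Prod.snd_add, ofAdd_add, map_mul, zpow_add₀ hτ, hpow m]
    ring
  have hclosed : ∀ (e f : K), (∃ N : ℕ, LPol S (S.x ^ N * e)) → (∃ N : ℕ, LPol S (S.x ^ N * f)) →
      (∃ N : ℕ, LPol S (S.x ^ N * (e + f))) ∧ ∃ N : ℕ, LPol S (S.x ^ N * (e * f)) := by
    rintro e f ⟨N, hN⟩ ⟨M, hM⟩
    refine ⟨⟨N + M, ?_⟩, ⟨N + M, ?_⟩⟩
    · have e1 : S.x ^ (N + M) * (e + f) = S.x ^ M * (S.x ^ N * e) + S.x ^ N * (S.x ^ M * f) := by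
        ring
      rw [e1]
      exact FrRel_add (FrRel_mul (FrRel_pow (FrRel_x S) _) hN)
        (FrRel_mul (FrRel_pow (FrRel_x S) _) hM)
    · have e1 : S.x ^ (N + M) * (e * f) = (S.x ^ N * e) * (S.x ^ M * f) := by
        ring
      rw [e1]
      exact FrRel_mul hN hM
  have hconst : ∀ a : k, ∃ N : ℕ, LPol S (S.x ^ N * algebraMap k K a) := fun a =>
    ⟨0, by rw [pow_zero, one_mul]; exact FrRel_const S a⟩
  have hU : ∀ A : Fin r → ℤ, ∃ N : ℕ, LPol S (S.x ^ N * S'.U (Multiplicative.ofAdd A)) := by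
    intro A
    obtain ⟨N, hN⟩ := hgen (A, 0)
    refine ⟨N, ?_⟩
    rwa [zpow_zero, mul_one] at hN
  have hx : ∃ N : ℕ, LPol S (S.x ^ N * S'.x) := by
    obtain ⟨N, hN⟩ := hgen (0, 1)
    rw [ofAdd_zero, map_one, one_mul, zpow_one] at hN
    have h1 := (hclosed _ _ ⟨N, hN⟩ (hconst (-c))).1
    rwa [map_neg, add_neg_cancel_right] at h1
  have hp : ∀ p : k[X], ∃ N : ℕ, LPol S (S.x ^ N * aeval S'.x p) := by
    intro p
    induction p using Polynomial.induction_on with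
    | C a => rw [aeval_C]; exact hconst a
    | add p q hp hq => rw [map_add]; exact (hclosed _ _ hp hq).1
    | monomial n a ih =>
      have e1 : aeval S'.x (Polynomial.C a * Polynomial.X ^ (n + 1)) =
          aeval S'.x (Polynomial.C a * Polynomial.X ^ n) * S'.x := by
        rw [pow_succ, ← mul_assoc, map_mul _ _ Polynomial.X, aeval_X]
      rw [e1]
      exact (hclosed _ _ ih hx).2
  refine ⟨hM, S.x, FrRel_x S, S.x_ne, ?_, ?_⟩
  · have h1 := hpow 1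
    rw [pow_one] at h1
    rw [h1]
    exact FrMon_mul S' (FrRel_MU S' _) (FrMon_zpow S' hτ (FrMon_unit S' hc) _)
  · rintro e ⟨h, rfl⟩
    induction h using AddMonoidAlgebra.induction_linear with
    | zero =>
      refine ⟨0, 0, ?_⟩
      rw [map_zero, map_zero, mul_zero]
    | add f g hf hg => rw [map_add]; exact (hclosed _ _ hf hg).1
    | single A p => rw [FrRel_single]; exact (hclosed _ _ (hp p) (hU A)).2

/-- the induction on `ν` -/
theorem FrRel_ind (p : ℕ) [Fact p.Prime] [CharP k p] [Algebra.EssFiniteType k K]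
    (hstd : Std V r) (n : ℕ) : ∀ (S : Fr V r), Algebra.IsAlgebraic S.fld K → S.tr →
    ∀ h : LA k[X] r, NuLe S.φ h n →
    ∃ S' : Fr V r, S'.tr ∧ S'.fld = S.fld ∧ Dm S S' ∧
      MU S' (evP S.U S.x h) ∧
      ∀ g : LA k[X] r, evP S.U S.x g ≠ 0 → ∃ (g' : LA k[X] r) (u : K), MU S' u ∧ u ≠ 0 ∧
        evP S'.U S'.x g' = u * evP S.U S.x g := by
  induction n using Nat.strong_induction_on with
  | _ n ih =>
    intro S halg htr h hn
    rcases Nat.eq_zero_or_pos n with rfl | hpos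
    · exact ⟨S, htr, rfl, Dm.refl S, mu_of_nu S h hn, fun g _ =>
        ⟨g, 1, FrMon_one S, one_ne_zero, (one_mul _).symm⟩⟩
    obtain ⟨s, hs, ⟨J⟩⟩ := fr_nj p hstd S halg htr
    obtain ⟨S1, htr1, hφ1, hU1, hx1, hf1, hM1, hev1⟩ := fr_vt S htr s hs
    have hD1 : Dm S S1 := FrRel_vt hU1 hx1 hM1
    have hn1 : NuLe S1.φ (vtr s h) n := by
      rw [hφ1]
      exact nu_vt s hs h n hn
    have J1 : JD S1.φ (V.v S1.x) := by
      rw [hφ1, hx1]
      exact J
    obtain ⟨S2, c, hc, htr2, hφ2, hf2, hM2, hev2⟩ := fr_jump S1 htr1 J1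
    have hD2 : Dm S1 S2 := FrRel_jump hc J1.Θ hM2 hev2
    obtain ⟨N, h', hh', hn2⟩ := nu_jump S1.inj S1.x_pos J1 c hc (vtr s h) n hn1
    have hn2' : NuLe S2.φ h' (n / 2) := by
      rw [hφ2]
      exact hn2
    have hf : S2.fld = S.fld := hf2.trans hf1
    have halg2 : Algebra.IsAlgebraic S2.fld K := by
      rw [hf]
      exact halg
    obtain ⟨S3, htr3, hf3, hD3, hMU, hG3⟩ := ih (n / 2) (Nat.div_lt_self hpos one_lt_two) S2
      halg2 htr2 h' hn2'
    have hM3 := hD3.1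
    have hu0 := FrMon_unit_ne S2 hc
    have hu : MU S3 (S2.x + algebraMap k K c) := hM3 _ (FrMon_unit S2 hc)
    refine ⟨S3, htr3, hf3.trans hf, (hD1.trans hD2).trans hD3, ?_, ?_⟩
    · rw [hev2 _ _ _ hh', hev1] at hMU
      have h1 := FrMon_mul S3 (FrMon_inv S3 (zpow_ne_zero N hu0) (FrMon_zpow S3 hu0 hu N)) hMU
      rwa [inv_mul_cancel_left₀ (zpow_ne_zero N hu0)] at h1
    · intro g hg
      have hg1 : evP S1.U S1.x (vtr s g) ≠ 0 := by
        rw [hev1]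
        exact hg
      have hg0 : vtr s g ≠ 0 := by
        intro h0
        rw [h0, map_zero] at hg1
        exact hg1 rfl
      obtain ⟨n', hn'⟩ := exists_nu S1.φ (vtr s g) hg0
      obtain ⟨N', g', hg', -⟩ := nu_jump S1.inj S1.x_pos J1 c hc (vtr s g) n' hn'
      have he2 := hev2 _ _ _ hg'
      have hg2 : evP S2.U S2.x g' ≠ 0 := by
        rw [he2]
        exact mul_ne_zero (zpow_ne_zero N' hu0) hg1
      obtain ⟨g'', u, hMu, hu', hev3⟩ := hG3 g' hg2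
      refine ⟨g'', u * (S2.x + algebraMap k K c) ^ N', FrMon_mul S3 hMu
        (FrMon_zpow S3 hu0 hu N'), mul_ne_zero hu' (zpow_ne_zero N' hu0), ?_⟩
      rw [hev3, he2, hev1, mul_assoc]

theorem FrRel_mu (p : ℕ) [Fact p.Prime] [CharP k p] [Algebra.EssFiniteType k K]
    (hstd : Std V r) (S : Fr V r) (halg : Algebra.IsAlgebraic S.fld K) (htr : S.tr)
    (e : K) (he : e ∈ S.fld) (he0 : e ≠ 0) :
    ∃ S' : Fr V r, S'.tr ∧ S'.fld = S.fld ∧ Dm S S' ∧ MU S' e := by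
  have hpoly : ∀ (S : Fr V r), Algebra.IsAlgebraic S.fld K → S.tr → ∀ h : LA k[X] r,
      evP S.U S.x h ≠ 0 → ∃ S' : Fr V r, S'.tr ∧ S'.fld = S.fld ∧
        Dm S S' ∧ MU S' (evP S.U S.x h) ∧
        ∀ g : LA k[X] r, evP S.U S.x g ≠ 0 → ∃ (g' : LA k[X] r) (u : K), MU S' u ∧ u ≠ 0 ∧
          evP S'.U S'.x g' = u * evP S.U S.x g := by
    intro S halg htr h hh
    have h0 : h ≠ 0 := by
      rintro rfl
      exact hh (map_zero _)
    obtain ⟨n, hn⟩ := exists_nu S.φ h h0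
    exact FrRel_ind p hstd n S halg htr h hn
  obtain ⟨h1, h2, heq⟩ := FrMon_frac S e he
  have hne : evP S.U S.x h1 ≠ 0 ∧ evP S.U S.x h2 ≠ 0 := by
    rw [heq] at he0
    exact div_ne_zero_iff.1 he0
  obtain ⟨S1, htr1, hf1, hD1, hMU1, hG1⟩ := hpoly S halg htr h1 hne.1
  obtain ⟨g', u, hMu, hu0, hev⟩ := hG1 h2 hne.2
  have halg1 : Algebra.IsAlgebraic S1.fld K := by
    rw [hf1]
    exact halg
  obtain ⟨S2, htr2, hf2, hD2, hMU2, -⟩ := hpoly S1 halg1 htr1 g' (by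
    rw [hev]
    exact mul_ne_zero hu0 hne.2)
  have hM2 := hD2.1
  refine ⟨S2, htr2, hf2.trans hf1, hD1.trans hD2, ?_⟩
  rw [hev] at hMU2
  have h3 := FrMon_mul S2 (FrMon_inv S2 hu0 (hM2 u hMu)) hMU2
  rw [inv_mul_cancel_left₀ hu0] at h3
  rw [heq, div_eq_mul_inv]
  exact FrMon_mul S2 (hM2 _ hMU1) (FrMon_inv S2 hne.2 h3)

/-- As `LX.fr_mu_all`, with domination. `LX.fr_vt` gives `Dm` with `Q = 1`; `LX.fr_jump` gives `Dm`
with `Q = S.x`: for `h'` choose `m`, `M` such that `psi Θ (single m X^M) * iotaL c h'` is `psi Θ h`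
(all `X`-exponents become non-negative), and use the last conclusion of `LX.fr_jump` for
`single A_w ((X + c)^(N + B_w))` and for its product with `h'`. Then repeat `LX.FrMon_ind`, `LX.fr_mu`,
`LX.fr_mu_all` (author helper47) with the extra conclusion `Dm S S'`. -/
theorem fr_mu_all_rel (p : ℕ) [Fact p.Prime] [CharP k p] [Algebra.EssFiniteType k K]
    (hstd : Std V r) (S : Fr V r) (halg : Algebra.IsAlgebraic S.fld K) (htr : S.tr)
    (Z : Finset K) (hZ : ∀ z ∈ Z, z ∈ S.fld ∧ z ≠ 0) :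
    ∃ S' : Fr V r, S'.tr ∧ S'.fld = S.fld ∧ Dm S S' ∧ ∀ z ∈ Z, MU S' z := by
  classical
  induction Z using Finset.induction_on with
  | empty => exact ⟨S, htr, rfl, Dm.refl S, fun z hz => absurd hz (Finset.notMem_empty z)⟩
  | insert z Z hz ih =>
    obtain ⟨S1, htr1, hf1, hD1, hM1⟩ := ih fun w hw => hZ w (Finset.mem_insert_of_mem hw)
    have h1 := hZ z (Finset.mem_insert_self z Z)
    obtain ⟨S2, htr2, hf2, hD2, hMU⟩ := FrRel_mu p hstd S1 (by rw [hf1]; exact halg) htr1 z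
      (by rw [hf1]; exact h1.1) h1.2
    refine ⟨S2, htr2, hf2.trans hf1, hD1.trans hD2, fun w hw => ?_⟩
    rcases Finset.mem_insert.1 hw with rfl | hw
    · exact hMU
    · exact hD2.1 w (hM1 w hw)

end LY
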