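import Pool.Agent.helper90.LY.Oc

open IsLocalRing

namespace LY

universe u

variable {k K M : Type u} [Field k] [Field K] [Field M] [Algebra k K] [Algebra k M] [Algebra K M]
  [IsScalarTower k K M]

/-- the algebra `A[θ]` -/
def lft (θ : M) (A : Subalgebra k K) : Subalgebra k M :=
  A.map (IsScalarTower.toAlgHom k K M) ⊔ Algebra.adjoin k {θ}

theorem mem_lft (θ : M) (A : Subalgebra k K) {x : K} (hx : x ∈ A) :
    algebraMap K M x ∈ lft θ A :=
  (le_sup_left : A.map (IsScalarTower.toAlgHom k K M) ≤ lft θ A) ⟨x, hx, rfl⟩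

theorem self_mem_lft (θ : M) (A : Subalgebra k K) : θ ∈ lft θ A :=
  (le_sup_right : Algebra.adjoin k {θ} ≤ lft θ A) (Algebra.subset_adjoin rfl)

theorem lft_mono (θ : M) {A B : Subalgebra k K} (h : A ≤ B) : lft θ A ≤ lft θ B :=
  sup_le_sup_right (Subalgebra.map_mono h) _

end LY
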