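import Pool.Agent.helper90.LY.Defs

/-!
Relative monomial local uniformization.
-/

open IsLocalRing

namespace LY

universe u

variable {k K : Type u} [Field k] [Field K] [Algebra k K]

variable (k) in
/-- `z` is a monomial in `s`, with non-zero exponents only at the first `r` elements, times a unit of
the local ring of `k[s]` at the origin; all these `r` exponents are positive if `z` has positive
value. -/
def MonU (W : ValuationSubring K) {n : ℕ} (r : ℕ) (s : Fin n → K) (z : K) : Prop :=
  ∃ (a : Fin n → ℤ) (N D : MvPolynomial (Fin n) k), MvPolynomial.constantCoeff N ≠ 0 ∧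
    MvPolynomial.constantCoeff D ≠ 0 ∧
    z * MvPolynomial.aeval s D = (∏ i, s i ^ a i) * MvPolynomial.aeval s N ∧
    (∀ i : Fin n, r ≤ (i : ℕ) → a i = 0) ∧
    (W.valuation z < 1 → ∀ i : Fin n, (i : ℕ) < r → 1 ≤ a i) ∧ (W.valuation z = 1 → a = 0)

/-- Monomialization in the subfield `E = k(B)` by `n` elements, relative to the fixed finite set `B`:
the new parameters lie in `k[B][1/H]`, where `H ∈ k[B]` is a monomial times a unit. -/
def MonRel (W : ValuationSubring K) (E : IntermediateField k K) (n r : ℕ) : Prop :=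
  ∃ B : Finset K, IntermediateField.adjoin k (B : Set K) = E ∧
    ∀ Z : Finset K, (∀ z ∈ Z, z ∈ E ∧ z ≠ 0) →
      ∃ s : Fin n → K, (∀ i, s i ≠ 0 ∧ W.valuation (s i) < 1) ∧
        IntermediateField.adjoin k (Set.range s) = E ∧ (∀ z ∈ Z, MonU k W r s z) ∧
        ∃ H ∈ Algebra.adjoin k (B : Set K), H ≠ 0 ∧ MonU k W r s H ∧
          ∀ i, ∃ e : ℕ, H ^ e * s i ∈ Algebra.adjoin k (B : Set K)

/-- `x` is a monomial in the elements `s` of `A`, with non-zero exponents only at the first `r`,
times a unit of the local ring of `A` at the centre; these exponents are positive if `x` has positive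
value. -/
def MonA (W : ValuationSubring K) (A : Subalgebra k K) (h : ∀ a ∈ A, a ∈ W) {n : ℕ} (r : ℕ)
    (s : Fin n → A) (x : K) : Prop :=
  ∃ (a : Fin n → ℤ) (N D : A), N ∉ LU.center W A h ∧ D ∉ LU.center W A h ∧
    x * (D : K) = (∏ i, ((s i : A) : K) ^ a i) * (N : K) ∧
    (∀ i : Fin n, r ≤ (i : ℕ) → a i = 0) ∧
    (W.valuation x < 1 → ∀ i : Fin n, (i : ℕ) < r → 1 ≤ a i)

variable (k) in
/-- Relative strong local uniformization: there is a finite set `B` such that every finite set `F` of
non-zero elements admits a chart `A` as in `LX.StrongUnif` (monomials in the first `r` parameters)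
which is contained in `k[B][1/H]`, `H ∈ k[B]` a monomial times a unit. -/
def RelU (W : ValuationSubring K) (r : ℕ) : Prop :=
  ∃ B : Finset K, ∀ F : Finset K, (∀ x ∈ F, x ≠ 0) →
    ∃ (A : Subalgebra k K) (h : ∀ a ∈ A, a ∈ W) (n : ℕ) (s : Fin n → A),
      A.FG ∧ IsFractionRing A K ∧
      IsRegularLocalRing (Localization.AtPrime (LU.center W A h)) ∧
      ringKrullDim (Localization.AtPrime (LU.center W A h)) = n ∧
      Ideal.span (Set.range fun i => algebraMap A (Localization.AtPrime (LU.center W A h)) (s i)) =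
        maximalIdeal (Localization.AtPrime (LU.center W A h)) ∧
      (∀ x ∈ F, x ∈ W → x ∈ A) ∧ (∀ x ∈ F, MonA W A h r s x) ∧
      ∃ H ∈ Algebra.adjoin k (B : Set K), H ≠ 0 ∧ MonA W A h r s H ∧
        ∀ x ∈ A, ∃ e : ℕ, H ^ e * x ∈ Algebra.adjoin k (B : Set K)

end LY
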