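import Pool.Agent.helper90.LY.FrRel
import Pool.Agent.helper90.LY.Rel
import Pool.Agent.helper90.LY.PerronPos
import Pool.Agent.helper90.LX.FrEnd

namespace LY

open Polynomial LX

universe u

section aux

variable {k K : Type u} [Field k] [Field K] [Algebra k K]

/-- the elements which lie in `A` after multiplication with a power of `P` -/
def MonRelX.lc (A : Subalgebra k K) (P : K) (hP : P ∈ A) : Subalgebra k K where
  carrier := {e | ∃ n : ℕ, P ^ n * e ∈ A}
  mul_mem' := by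
    rintro a b ⟨n, hn⟩ ⟨m, hm⟩
    refine ⟨n + m, ?_⟩
    rw [show P ^ (n + m) * (a * b) = (P ^ n * a) * (P ^ m * b) by ring]
    exact A.mul_mem hn hm
  add_mem' := by
    rintro a b ⟨n, hn⟩ ⟨m, hm⟩
    refine ⟨n + m, ?_⟩
    rw [show P ^ (n + m) * (a + b) = P ^ m * (P ^ n * a) + P ^ n * (P ^ m * b) by ring]
    exact A.add_mem (A.mul_mem (pow_mem hP m) hn) (A.mul_mem (pow_mem hP n) hm)
  algebraMap_mem' := fun c => ⟨0, by rw [pow_zero, one_mul]; exact A.algebraMap_mem c⟩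

theorem MonRelX.mem_lc {A : Subalgebra k K} {P : K} {hP : P ∈ A} {e : K} :
    e ∈ MonRelX.lc A P hP ↔ ∃ n : ℕ, P ^ n * e ∈ A := Iff.rfl

theorem MonRelX.le_lc {A : Subalgebra k K} {P : K} (hP : P ∈ A) : A ≤ MonRelX.lc A P hP :=
  fun a ha => ⟨0, by rw [pow_zero, one_mul]; exact ha⟩

/-- Laurent polynomials -/
theorem MonRelX.evP_mem {r : ℕ} (C : Subalgebra k K) (U : Multiplicative (Fin r → ℤ) →* K) (x : K)
    (hU : ∀ a, U (Multiplicative.ofAdd a) ∈ C) (hx : x ∈ C) (h : LA k[X] r) :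
    evP U x h ∈ C := by
  rw [← AddMonoidAlgebra.sum_coeff_single h, Finsupp.sum, map_sum]
  refine C.sum_mem fun a _ => ?_
  rw [evP, ev_single]
  refine C.mul_mem ?_ (hU a)
  change Polynomial.aeval x (h.coeff a) ∈ C
  rw [Polynomial.aeval_eq_sum_range]
  exact C.sum_mem fun i _ => C.smul_mem (pow_mem hx i) _

theorem MonRelX.U_mem {r : ℕ} (b : Module.Basis (Fin r) ℤ (Fin r → ℤ))
    (U : Multiplicative (Fin r → ℤ) →* K) (hne : ∀ a, U (Multiplicative.ofAdd a) ≠ 0)
    (A : Subalgebra k K) (hA : ∀ i, U (Multiplicative.ofAdd (b i)) ∈ A)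
    (hP : ∏ i, U (Multiplicative.ofAdd (b i)) ∈ A) (a : Fin r → ℤ) :
    U (Multiplicative.ofAdd a) ∈ MonRelX.lc A _ hP := by
  classical
  rw [FrEnd.U_prod U b a]
  refine prod_mem fun i _ => ?_
  have h1 : U (Multiplicative.ofAdd (b i)) ∈ MonRelX.lc A _ hP := MonRelX.le_lc hP (hA i)
  have h2 : (U (Multiplicative.ofAdd (b i)))⁻¹ ∈ MonRelX.lc A _ hP := by
    refine ⟨1, ?_⟩
    rw [pow_one, ← Finset.mul_prod_erase Finset.univ _ (Finset.mem_univ i), mul_comm, ← mul_assoc,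
      inv_mul_cancel₀ (hne _), one_mul]
    exact prod_mem fun j _ => hA j
  rcases Int.eq_nat_or_neg (b.repr a i) with ⟨n, hn | hn⟩
  · rw [hn, zpow_natCast]
    exact pow_mem h1 n
  · rw [hn, zpow_neg, zpow_natCast, ← inv_pow]
    exact pow_mem h2 n

end aux

variable {k K : Type u} [Field k] [Field K] [Algebra k K] {V : RV k K} {r : ℕ}

theorem MonRelX.MU_U (S : Fr V r) (a : Fin r → ℤ) : MU S (S.U (Multiplicative.ofAdd a)) := by
  have h1 : GeL S.φ (1 : LA k[X] r) 0 := by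
    intro c hc
    have h2 : c = 0 := by
      by_contra h
      apply hc
      rw [AddMonoidAlgebra.one_def, AddMonoidAlgebra.coeff_single, Finsupp.single_eq_of_ne h]
    rw [h2, map_zero]
  have h2 : (((1 : LA k[X] r).coeff 0).coeff 0) ≠ 0 := by
    rw [AddMonoidAlgebra.one_def, AddMonoidAlgebra.coeff_single, Finsupp.single_eq_same]
    simp
  exact ⟨a, 1, 1, h1, h2, h1, h2, rfl⟩

theorem MonRelX.v_pos (W : ValuationSubring K) (hVW : ∀ x : K, x ≠ 0 → (x ∈ W ↔ 0 ≤ V.v x))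
    {z : K} (hz : z ≠ 0) (h : W.valuation z < 1) : 0 < V.v z := by
  have h1 : z ∈ W := (ValuationSubring.valuation_le_one_iff W z).1 h.le
  have h2 := (hVW z hz).1 h1
  refine lt_of_le_of_ne h2 fun h3 => ?_
  have h4 : z⁻¹ ∈ W := by
    rw [hVW _ (inv_ne_zero hz), ← one_div, v_div one_ne_zero hz, v_one, ← h3]
    simp
  have h5 := (ValuationSubring.valuation_le_one_iff W _).2 h4
  rw [map_inv₀] at h5
  have h6 : W.valuation z ≠ 0 := (Valuation.ne_zero_iff _).2 hz
  have h7 : 1 ≤ W.valuation z := (inv_le_one₀ (zero_lt_iff.2 h6)).1 h5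
  exact absurd h (not_lt.2 h7)

theorem MonRelX.v_zero (W : ValuationSubring K) (hVW : ∀ x : K, x ≠ 0 → (x ∈ W ↔ 0 ≤ V.v x))
    {z : K} (hz : z ≠ 0) (h : W.valuation z = 1) : V.v z = 0 := by
  have h1 : z ∈ W := (ValuationSubring.valuation_le_one_iff W z).1 h.le
  have h2 := (hVW z hz).1 h1
  have h4 : z⁻¹ ∈ W := by
    rw [← ValuationSubring.valuation_le_one_iff, map_inv₀, h, inv_one]
  rw [hVW _ (inv_ne_zero hz), ← one_div, v_div one_ne_zero hz, v_one] at h4
  linarith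

/-- As `LX.monF_of_frame`, relative. Basis `b⁰` of positive elements (`perron_pos` with `T = ∅`),
`B = {U (b⁰ i)} ∪ {x}`, `σ = ∑ b⁰ i`. For `Z`: `fr_mu_all_rel` for `Z`, with `Q`; then `perron_pos`
for the exponents of `h1, h2` and the monomials `a` of the elements of `Z`, of `Q` and of the
`U (b⁰ i)` (all `MU` for `S'`); `s = (U' (b i), x')`, `H = U(σ)^N * Q` with `N` large. -/
theorem monRel_of_frame (p : ℕ) [Fact p.Prime] [CharP k p] [Algebra.EssFiniteType k K]
    (hstd : Std V r) (W : ValuationSubring K) (hVW : ∀ x : K, x ≠ 0 → (x ∈ W ↔ 0 ≤ V.v x))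
    (S : Fr V r) (halg : Algebra.IsAlgebraic S.fld K) (htr : S.tr) :
    MonRel W S.fld (r + 1) r := by
  classical
  obtain ⟨b0, hb0, -, -⟩ := perron_pos S.φ S.inj ∅ (by simp)
  refine ⟨insert S.x (Finset.univ.image fun i => S.U (Multiplicative.ofAdd (b0 i))), ?_, ?_⟩
  · refine le_antisymm ?_ ?_
    · rw [IntermediateField.adjoin_le_iff]
      intro z hz
      rw [Finset.mem_coe, Finset.mem_insert, Finset.mem_image] at hz
      rcases hz with rfl | ⟨i, -, rfl⟩
      · exact IntermediateField.subset_adjoin _ _ (Or.inr rfl)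
      · exact IntermediateField.subset_adjoin _ _ (Or.inl ⟨_, rfl⟩)
    · rw [Fr.fld, IntermediateField.adjoin_le_iff]
      rintro _ (⟨a, rfl⟩ | hx)
      · change S.U (Multiplicative.ofAdd a) ∈ _
        rw [FrEnd.U_prod S.U b0 a]
        refine prod_mem fun i _ => zpow_mem ?_ _
        refine IntermediateField.subset_adjoin _ _ ?_
        rw [Finset.mem_coe, Finset.mem_insert, Finset.mem_image]
        exact Or.inr ⟨i, Finset.mem_univ _, rfl⟩
      · rw [Set.mem_singleton_iff] at hx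
        rw [hx]
        refine IntermediateField.subset_adjoin _ _ ?_
        rw [Finset.mem_coe, Finset.mem_insert]
        exact Or.inl rfl
  intro Z hZ
  obtain ⟨S', -, hfld, ⟨hdm, Q, hQ1, hQ0, hQmu, hQ2⟩, hmu⟩ :=
    fr_mu_all_rel p hstd S halg htr Z hZ
  -- the subalgebra generated by `B`
  obtain ⟨A0, hA0⟩ : ∃ A0 : Subalgebra k K, A0 = Algebra.adjoin k
      ((insert S.x (Finset.univ.image fun i => S.U (Multiplicative.ofAdd (b0 i))) :
        Finset K) : Set K) := ⟨_, rfl⟩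
  rw [← hA0]
  have hxA : S.x ∈ A0 := by
    rw [hA0]
    refine Algebra.subset_adjoin ?_
    rw [Finset.mem_coe, Finset.mem_insert]
    exact Or.inl rfl
  have hUA : ∀ i, S.U (Multiplicative.ofAdd (b0 i)) ∈ A0 := by
    intro i
    rw [hA0]
    refine Algebra.subset_adjoin ?_
    rw [Finset.mem_coe, Finset.mem_insert, Finset.mem_image]
    exact Or.inr ⟨i, Finset.mem_univ _, rfl⟩
  have hPA : ∏ i, S.U (Multiplicative.ofAdd (b0 i)) ∈ A0 := prod_mem fun i _ => hUA i
  have hLP : ∀ e, LPol S e → e ∈ MonRelX.lc A0 _ hPA := by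
    rintro _ ⟨h, rfl⟩
    exact MonRelX.evP_mem _ _ _ (MonRelX.U_mem b0 S.U S.mon.ne A0 hUA hPA)
      (MonRelX.le_lc hPA hxA) h
  have hPmu : MU S' (∏ i, S.U (Multiplicative.ofAdd (b0 i))) := by
    have h1 : ∏ i, S.U (Multiplicative.ofAdd (b0 i)) =
        S.U (Multiplicative.ofAdd (∑ i, b0 i)) := by
      rw [ofAdd_sum, map_prod]
    rw [h1]
    exact hdm _ (MonRelX.MU_U S _)
  have hP0 : ∏ i, S.U (Multiplicative.ofAdd (b0 i)) ≠ 0 :=
    Finset.prod_ne_zero_iff.2 fun i _ => S.mon.ne _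
  generalize hP : ∏ i, S.U (Multiplicative.ofAdd (b0 i)) = P at hPA hLP hPmu hP0
  obtain ⟨N, hN⟩ := hLP Q hQ1
  obtain ⟨H, hH⟩ : ∃ H : K, H = P * (P ^ N * Q) := ⟨_, rfl⟩
  have hHA : H ∈ A0 := by
    rw [hH]
    exact A0.mul_mem hPA hN
  have hH0 : H ≠ 0 := by
    rw [hH]
    exact mul_ne_zero hP0 (mul_ne_zero (pow_ne_zero _ hP0) hQ0)
  have hHmu : MU S' H := by
    rw [hH]
    refine FrMon_mul S' hPmu (FrMon_mul S' ?_ hQmu)
    have := FrMon_zpow S' hP0 hPmu (N : ℤ)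
    rwa [zpow_natCast] at this
  have hHe : ∀ e, LPol S' e → ∃ n : ℕ, H ^ n * e ∈ A0 := by
    intro e he
    obtain ⟨n, hn⟩ := hQ2 e he
    obtain ⟨m, hm⟩ := hLP _ hn
    refine ⟨m + n, ?_⟩
    have h1 : H ^ (m + n) * e =
        (P ^ N * Q) ^ m * P ^ (n + N * n) * (P ^ m * (Q ^ n * e)) := by
      rw [hH]
      ring
    rw [h1]
    exact A0.mul_mem (A0.mul_mem (pow_mem hN m) (pow_mem hPA _)) hm
  -- all monomials
  have hZ' : ∀ z ∈ insert H Z, z ≠ 0 := by
    intro z hz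
    rcases Finset.mem_insert.1 hz with rfl | hz
    · exact hH0
    · exact (hZ z hz).2
  have hmu' : ∀ z ∈ insert H Z, ∃ (a : Fin r → ℤ) (h1 h2 : LA k[X] r), GeL S'.φ h1 0 ∧
      (h1.coeff 0).coeff 0 ≠ 0 ∧ GeL S'.φ h2 0 ∧ (h2.coeff 0).coeff 0 ≠ 0 ∧
      z * evP S'.U S'.x h2 = S'.U (Multiplicative.ofAdd a) * evP S'.U S'.x h1 := by
    intro z hz
    rcases Finset.mem_insert.1 hz with rfl | hz
    · exact hHmu
    · exact hmu z hz
  choose! A H1 H2 hA1 hA2 hA3 hA4 hA5 using hmu'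
  have hval : ∀ z ∈ insert H Z, V.v z = S'.φ (A z) := by
    intro z hz
    obtain ⟨n1, v1⟩ := val_evP S'.inj S'.mon (Or.inr S'.x_pos) (hA1 z hz) (hA2 z hz)
    obtain ⟨n2, v2⟩ := val_evP S'.inj S'.mon (Or.inr S'.x_pos) (hA3 z hz) (hA4 z hz)
    have h1 := congrArg V.v (hA5 z hz)
    rw [V.map_mul _ _ (hZ' z hz) n2, V.map_mul _ _ (S'.mon.ne _) n1, v1, v2, S'.mon.val] at h1
    linarith
  obtain ⟨b, hb, hT, hTp⟩ := perron_pos S'.φ S'.inj
    (((insert H Z).image A).filter (fun a => 0 ≤ S'.φ a) ∪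
      ((insert H Z).biUnion (fun z => (H1 z).coeff.support) ∪
        (insert H Z).biUnion (fun z => (H2 z).coeff.support)))
    (by
      intro a ha
      rw [Finset.mem_union, Finset.mem_union, Finset.mem_filter, Finset.mem_biUnion,
        Finset.mem_biUnion] at ha
      rcases ha with ha | ⟨z, hz, ha⟩ | ⟨z, hz, ha⟩
      · exact ha.2
      · exact hA1 z hz a (Finsupp.mem_support_iff.1 ha)
      · exact hA3 z hz a (Finsupp.mem_support_iff.1 ha))
  have hT1 : ∀ z ∈ insert H Z, ∀ a, (H1 z).coeff a ≠ 0 → ∀ i, 0 ≤ b.repr a i := by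
    intro z hz a ha
    exact hT a (Finset.mem_union_right _ (Finset.mem_union_left _
      (Finset.mem_biUnion.2 ⟨z, hz, Finsupp.mem_support_iff.2 ha⟩)))
  have hT2 : ∀ z ∈ insert H Z, ∀ a, (H2 z).coeff a ≠ 0 → ∀ i, 0 ≤ b.repr a i := by
    intro z hz a ha
    exact hT a (Finset.mem_union_right _ (Finset.mem_union_right _
      (Finset.mem_biUnion.2 ⟨z, hz, Finsupp.mem_support_iff.2 ha⟩)))
  obtain ⟨s, hs1, hs2⟩ : ∃ s : Fin (r + 1) → K,
      (∀ i : Fin r, s i.castSucc = S'.U (Multiplicative.ofAdd (b i))) ∧ s (Fin.last r) = S'.x :=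
    ⟨Fin.snoc (α := fun _ => K) (fun i => S'.U (Multiplicative.ofAdd (b i))) S'.x,
      fun i => by simp, by simp⟩
  have hmon : ∀ z ∈ insert H Z, MonU k W r s z := by
    intro z hz
    refine ⟨Fin.snoc (α := fun _ => ℤ) (b.repr (A z)) 0, FrEnd.toMv b (H1 z),
      FrEnd.toMv b (H2 z), ?_, ?_, ?_, ?_, ?_, ?_⟩
    · rw [FrEnd.toMv_const b _ (hT1 z hz)]
      exact hA2 z hz
    · rw [FrEnd.toMv_const b _ (hT2 z hz)]
      exact hA4 z hz
    · rw [FrEnd.toMv_aeval b S'.U S'.x s hs1 hs2 _ (hT1 z hz),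
        FrEnd.toMv_aeval b S'.U S'.x s hs1 hs2 _ (hT2 z hz), hA5 z hz,
        FrEnd.U_prod S'.U b (A z), Fin.prod_univ_castSucc]
      simp [hs1]
    · intro i
      refine Fin.lastCases ?_ (fun i => ?_) i
      · intro _
        simp
      · intro hi
        exact absurd i.2 (not_lt.2 hi)
    · intro hzW i
      have h1 := MonRelX.v_pos W hVW (hZ' z hz) hzW
      rw [hval z hz] at h1
      have h2 := hTp (A z) (Finset.mem_union_left _ (Finset.mem_filter.2
        ⟨Finset.mem_image_of_mem _ hz, h1.le⟩)) h1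
      refine Fin.lastCases ?_ (fun i => ?_) i
      · intro hi
        exact absurd hi (lt_irrefl _)
      · intro _
        simpa using h2 i
    · intro hzW
      have h1 := MonRelX.v_zero W hVW (hZ' z hz) hzW
      rw [hval z hz] at h1
      have h2 : A z = 0 := S'.inj (by rw [h1, map_zero])
      rw [h2]
      funext i
      refine Fin.lastCases ?_ (fun i => ?_) i
      · simp
      · simp
  refine ⟨s, fun i => ?_, ?_, fun z hz => hmon z (Finset.mem_insert_of_mem hz), H, hHA, hH0,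
    hmon H (Finset.mem_insert_self _ _), fun i => hHe _ ?_⟩
  · refine Fin.lastCases ?_ (fun i => ?_) i
    · rw [hs2]
      exact ⟨S'.x_ne, FrEnd.lt_one W hVW (Or.inr S'.x_pos)⟩
    · rw [hs1]
      exact ⟨S'.mon.ne _, FrEnd.lt_one W hVW (Or.inr (by rw [S'.mon.val]; exact hb i))⟩
  · rw [← hfld]
    refine le_antisymm ?_ ?_
    · rw [IntermediateField.adjoin_le_iff]
      rintro _ ⟨i, rfl⟩
      refine Fin.lastCases ?_ (fun i => ?_) i
      · rw [hs2]
        exact IntermediateField.subset_adjoin _ _ (Or.inr rfl)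
      · rw [hs1]
        exact IntermediateField.subset_adjoin _ _ (Or.inl ⟨_, rfl⟩)
    · rw [Fr.fld, IntermediateField.adjoin_le_iff]
      rintro _ (⟨a, rfl⟩ | hx)
      · change S'.U (Multiplicative.ofAdd a) ∈ _
        rw [FrEnd.U_prod S'.U b a]
        refine prod_mem fun i _ => zpow_mem ?_ _
        rw [← hs1]
        exact IntermediateField.subset_adjoin _ _ ⟨_, rfl⟩
      · rw [Set.mem_singleton_iff] at hx
        rw [hx, ← hs2]
        exact IntermediateField.subset_adjoin _ _ ⟨_, rfl⟩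
  · refine Fin.lastCases ?_ (fun i => ?_) i
    · rw [hs2]
      refine ⟨AddMonoidAlgebra.single 0 X, ?_⟩
      rw [evP, ev_single]
      simp
    · rw [hs1]
      refine ⟨AddMonoidAlgebra.single (b i) 1, ?_⟩
      rw [evP, ev_single]
      simp

end LY
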