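import Pool.Agent.helper90.LX.StrMain
import Pool.Agent.helper90.LY.MonRelX
import Pool.Agent.helper90.LY.RelDense

namespace LY

open LX

universe u

variable {k K : Type u} [Field k] [Field K] [Algebra k K]

/-- Relative strong local uniformization from a state of multiplicity one (as `LX.strong_one`). -/
theorem rel_one {V : RV k K} {r : ℕ} (p : ℕ) [Fact p.Prime] [CharP k p]
    [Algebra.EssFiniteType k K]
    (hstd : Std V r) (hr : 0 < r) (W : ValuationSubring K) (hW : ∀ c : k, algebraMap k K c ∈ W)
    (harch : MulArchimedean W.ValueGroup)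
    (hVW : ∀ x : K, x ≠ 0 → (x ∈ W ↔ 0 ≤ V.v x)) (S : State V r 1) : RelU k W r := by
  let F : Fr V r :=
    { φ := S.φ
      U := fstU S.U
      x := S.x.fst
      inj := S.inj
      mon := S.mon
      x_ne := S.x_ne
      x_pos := LX.lt_of_gt S.x_ne S.x_pos }
  have halg : Algebra.IsAlgebraic F.fld K := alg_of_state S
  have htr : F.tr := transc_of_state hstd S
  have hmon : MonRel W F.fld (r + 1) r := monRel_of_frame p hstd W hVW F halg htr
  have hsep : Algebra.IsSeparable F.fld K := sep_of_state S
  have hd : DenseF W F.fld := denseF_of_state W hVW S hr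
  have hint : IsIntegral F.fld S.y.fst := (halg.isAlgebraic S.y.fst).isIntegral
  have hfin : FiniteDimensional F.fld K := by
    have h1 := IntermediateField.adjoin.finiteDimensional hint
    have h2 : IntermediateField.adjoin F.fld {S.y.fst} = ⊤ := FrEnd.adjoin_y S
    rw [h2] at h1
    exact IntermediateField.topEquiv.toLinearEquiv.finiteDimensional
  exact rel_of_dense W hW (r + 1) r (by rw [hstd.tr]; push_cast; rfl) F.fld hsep
    ⟨S.x.fst, S.x_ne, FrEnd.lt_one W hVW S.x_pos⟩ harch hd hmon

/-- Relative strong local uniformization: rank one, value group of rational rank `n - 1`, not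
finitely generated. -/
theorem lux_rel [Infinite k] [Algebra.EssFiniteType k K] (p : ℕ) [Fact p.Prime] [CharP k p]
    (W : ValuationSubring K) (hW : ∀ c : k, algebraMap k K c ∈ W)
    (harch : MulArchimedean W.ValueGroup)
    (hres : ∀ x ∈ W, ∃ c : k, W.valuation (x - algebraMap k K c) < 1)
    (hnfg : ¬ Group.FG (W.ValueGroup)ˣ)
    (hr : Algebra.trdeg k K = (Module.finrank ℤ (Additive (W.ValueGroup)ˣ) + 1 : ℕ))
    (hr0 : 0 < Module.finrank ℤ (Additive (W.ValueGroup)ˣ)) :
    RelU k W (Module.finrank ℤ (Additive (W.ValueGroup)ˣ)) := by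
  obtain ⟨V, hVW, hfg, hrk⟩ := exists_rv W hW harch hres
  obtain ⟨y, hy, hind⟩ := hrk _ (by omega) rfl
  have hstd : Std V (Module.finrank ℤ (Additive (W.ValueGroup)ˣ)) :=
    ⟨by rw [hr]; push_cast; rfl, fun h => hnfg (hfg h)⟩
  obtain ⟨m, hS⟩ := exists_state p V _ hr y hy hind
  obtain ⟨S⟩ := exists_state_one p hr0 hstd m hS
  exact rel_one p hstd hr0 W hW harch hVW S

end LY
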