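import Pool.Agent.helper90.LY.Lift

open Polynomial

namespace LY

universe u

variable {k K M : Type u} [Field k] [Field K] [Field M] [Algebra k K] [Algebra k M] [Algebra K M]
  [IsScalarTower k K M]

omit [Field M] [Algebra k M] [Algebra K M] [IsScalarTower k K M] in
/-- There is an affine model in the valuation ring containing finitely many given elements
(generators `z` of `K/k`, replaced by `z⁻¹` if not in `W`). -/
theorem exists_model [Algebra.EssFiniteType k K] (W : ValuationSubring K)
    (hW : ∀ c : k, algebraMap k K c ∈ W) (T : Finset K) (hT : ∀ x ∈ T, x ∈ W) :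
    ∃ A : Subalgebra k K, A.FG ∧ (∀ x ∈ A, x ∈ W) ∧ IsFractionRing A K ∧ ∀ x ∈ T, x ∈ A := by
  classical
  obtain ⟨s, hs⟩ := (Algebra.essFiniteType_iff (R := k) (S := K)).mp inferInstance
  set T' : Finset K := s.image (fun z => if z ∈ W then z else z⁻¹) ∪ T with hT'
  refine ⟨Algebra.adjoin k (T' : Set K), Subalgebra.fg_adjoin_finset T', ?_, ?_, ?_⟩
  · intro x hx
    induction hx using Algebra.adjoin_induction with
    | mem x hx =>
      rw [hT', Finset.coe_union, Set.mem_union, Finset.mem_coe, Finset.mem_coe, Finset.mem_image] at hx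
      rcases hx with ⟨z, _, hz⟩ | hx
      · rw [← hz]
        split_ifs with h
        · exact h
        · rcases W.mem_or_inv_mem z with h' | h'
          · exact absurd h' h
          · exact h'
      · exact hT x hx
    | algebraMap c => exact hW c
    | add x y _ _ h1 h2 => exact W.add_mem _ _ h1 h2
    | mul x y _ _ h1 h2 => exact W.mul_mem _ _ h1 h2
  · -- all elements of the algebra generated by `s` are fractions
    have hfr : ∀ x ∈ Algebra.adjoin k (s : Set K), ∃ n ∈ Algebra.adjoin k (T' : Set K),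
        ∃ d ∈ Algebra.adjoin k (T' : Set K), d ≠ 0 ∧ x * d = n := by
      intro x hx
      induction hx using Algebra.adjoin_induction with
      | mem x hx =>
        have h1 : (if x ∈ W then x else x⁻¹) ∈ Algebra.adjoin k (T' : Set K) := by
          apply Algebra.subset_adjoin
          rw [hT', Finset.coe_union]
          exact Or.inl (Finset.mem_coe.mpr (Finset.mem_image.mpr ⟨x, hx, rfl⟩))
        by_cases hxW : x ∈ W
        · rw [if_pos hxW] at h1
          exact ⟨x, h1, 1, one_mem _, one_ne_zero, mul_one x⟩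
        · rw [if_neg hxW] at h1
          have hx0 : x ≠ 0 := by
            rintro rfl
            exact hxW W.zero_mem
          exact ⟨1, one_mem _, x⁻¹, h1, inv_ne_zero hx0, mul_inv_cancel₀ hx0⟩
      | algebraMap c =>
        exact ⟨algebraMap k K c, Subalgebra.algebraMap_mem _ c, 1, one_mem _, one_ne_zero, mul_one _⟩
      | add x y _ _ h1 h2 =>
        obtain ⟨n, hn, d, hd, hd0, e⟩ := h1
        obtain ⟨n', hn', d', hd', hd0', e'⟩ := h2
        refine ⟨n * d' + n' * d, add_mem (mul_mem hn hd') (mul_mem hn' hd), d * d', mul_mem hd hd',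
          mul_ne_zero hd0 hd0', ?_⟩
        rw [← e, ← e']
        ring
      | mul x y _ _ h1 h2 =>
        obtain ⟨n, hn, d, hd, hd0, e⟩ := h1
        obtain ⟨n', hn', d', hd', hd0', e'⟩ := h2
        refine ⟨n * n', mul_mem hn hn', d * d', mul_mem hd hd', mul_ne_zero hd0 hd0', ?_⟩
        rw [← e, ← e']
        ring
    refine IsFractionRing.of_field _ _ ?_
    intro z
    obtain ⟨t, ht, htu, htz⟩ := hs z
    obtain ⟨n, hn, d, hd, hd0, e⟩ := hfr t ht
    obtain ⟨n', hn', d', hd', hd0', e'⟩ := hfr _ htz
    have ht0 : t ≠ 0 := htu.ne_zero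
    have hn0 : n ≠ 0 := by
      rw [← e]
      exact mul_ne_zero ht0 hd0
    refine ⟨⟨n' * d, mul_mem hn' hd⟩, ⟨n * d', mul_mem hn hd'⟩, ?_⟩
    show z = (n' * d) / (n * d')
    rw [eq_div_iff (mul_ne_zero hn0 hd0'), ← e, ← e']
    ring
  · intro x hx
    apply Algebra.subset_adjoin
    rw [hT', Finset.coe_union]
    exact Or.inr (Finset.mem_coe.mpr hx)

/-- The coefficients of the minimal polynomial of `θ` over `K` are integral over `k` (all its roots
are roots of a polynomial over `k`), hence lie in `W`. -/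
theorem minpoly_mem (W : ValuationSubring K) (hW : ∀ c : k, algebraMap k K c ∈ W) (P : k[X])
    (hP : P ≠ 0) (θ : M) (hθ : aeval θ P = 0) (i : ℕ) : (minpoly K θ).coeff i ∈ W := by
  have hint : IsIntegral k θ := isAlgebraic_iff_isIntegral.mp ⟨P, hP, hθ⟩
  let _ : Algebra W M := ((algebraMap K M).comp W.subtype).toAlgebra
  have : IsScalarTower W K M := IsScalarTower.of_algebraMap_eq (fun _ => rfl)
  have : FaithfulSMul W M := by
    rw [faithfulSMul_iff_algebraMap_injective]
    exact (algebraMap K M).injective.comp Subtype.val_injective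
  let f : k →+* W := (algebraMap k K).codRestrict W.toSubring (fun c => hW c)
  have hW' : IsIntegral W θ := by
    refine ⟨(minpoly k θ).map f, (minpoly.monic hint).map f, ?_⟩
    rw [Polynomial.eval₂_map]
    have h1 : (algebraMap W M).comp f = algebraMap k M := by
      ext c
      show algebraMap K M (algebraMap k K c) = algebraMap k M c
      rw [← IsScalarTower.algebraMap_apply]
    rw [h1]
    exact minpoly.aeval k θ
  have h2 := minpoly.isIntegrallyClosed_eq_field_fractions' (R := W) K hW'
  rw [h2, Polynomial.coeff_map]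
  exact ((minpoly W θ).coeff i).2

/-- `M` is the fraction field of `A[θ]`. -/
theorem frac_lft (A : Subalgebra k K) (hA : IsFractionRing A K) (P : k[X]) (hP : P ≠ 0) (θ : M)
    (hθ : aeval θ P = 0) (hθK : IntermediateField.adjoin K {θ} = ⊤) (x : M) :
    ∃ n ∈ lft θ A, ∃ d ∈ lft θ A, d ≠ 0 ∧ x * d = n := by
  have hx : x ∈ IntermediateField.adjoin K {θ} := by
    rw [hθK]
    exact IntermediateField.mem_top
  induction hx using IntermediateField.adjoin_induction with
  | mem x hx =>
    rw [Set.mem_singleton_iff] at hx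
    rw [hx]
    exact ⟨θ, self_mem_lft θ A, 1, one_mem _, one_ne_zero, mul_one θ⟩
  | algebraMap x =>
    obtain ⟨a, b, hb, h⟩ := IsFractionRing.div_surjective (A := A) x
    have hb0 : (b : K) ≠ 0 := by
      have h1 : b ≠ 0 := nonZeroDivisors.ne_zero hb
      exact fun h2 => h1 (Subtype.ext h2)
    refine ⟨algebraMap K M a, mem_lft θ A a.2, algebraMap K M b, mem_lft θ A b.2, ?_, ?_⟩
    · exact fun h2 => hb0 ((algebraMap K M).injective (h2.trans (map_zero _).symm))
    · rw [← map_mul]
      congr 1
      rw [← h]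
      show (a : K) / (b : K) * (b : K) = a
      exact div_mul_cancel₀ _ hb0
  | add x y _ _ h1 h2 =>
    obtain ⟨n, hn, d, hd, hd0, e⟩ := h1
    obtain ⟨n', hn', d', hd', hd0', e'⟩ := h2
    refine ⟨n * d' + n' * d, add_mem (mul_mem hn hd') (mul_mem hn' hd), d * d', mul_mem hd hd',
      mul_ne_zero hd0 hd0', ?_⟩
    rw [← e, ← e']
    ring
  | inv x _ h1 =>
    obtain ⟨n, hn, d, hd, hd0, e⟩ := h1
    by_cases hx0 : x = 0
    · refine ⟨0, zero_mem _, 1, one_mem _, one_ne_zero, ?_⟩
      rw [hx0, inv_zero, zero_mul]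
    · refine ⟨d, hd, n, hn, ?_, ?_⟩
      · rw [← e]
        exact mul_ne_zero hx0 hd0
      · rw [← e]
        field_simp
  | mul x y _ _ h1 h2 =>
    obtain ⟨n, hn, d, hd, hd0, e⟩ := h1
    obtain ⟨n', hn', d', hd', hd0', e'⟩ := h2
    refine ⟨n * n', mul_mem hn hn', d * d', mul_mem hd hd', mul_ne_zero hd0 hd0', ?_⟩
    rw [← e, ← e']
    ring

end LY
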