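import Pool.Agent.helper90.LY.Rel

open IsLocalRing

namespace LY

universe u

variable {k K : Type u} [Field k] [Field K] [Algebra k K]

/-- The local ring of `A` at the centre of `W`, as a subalgebra of `K`. -/
def oc (W : ValuationSubring K) (A : Subalgebra k K) : Subalgebra k K where
  carrier := {x | ∃ b ∈ A, ∃ d ∈ A, W.valuation d = 1 ∧ x * d = b}
  mul_mem' := by
    rintro x y ⟨b, hb, d, hd, h1, h2⟩ ⟨b', hb', d', hd', h1', h2'⟩
    refine ⟨b * b', mul_mem hb hb', d * d', mul_mem hd hd', by rw [map_mul, h1, h1', one_mul], ?_⟩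
    rw [← h2, ← h2']
    ring
  add_mem' := by
    rintro x y ⟨b, hb, d, hd, h1, h2⟩ ⟨b', hb', d', hd', h1', h2'⟩
    refine ⟨b * d' + b' * d, add_mem (mul_mem hb hd') (mul_mem hb' hd), d * d', mul_mem hd hd',
      by rw [map_mul, h1, h1', one_mul], ?_⟩
    rw [← h2, ← h2']
    ring
  algebraMap_mem' := fun c => ⟨algebraMap k K c, A.algebraMap_mem c, 1, one_mem A, by simp, by simp⟩

theorem le_oc (W : ValuationSubring K) (A : Subalgebra k K) : A ≤ oc W A := fun x hx =>
  ⟨x, hx, 1, one_mem A, by simp, by simp⟩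

theorem oc_mono (W : ValuationSubring K) {A B : Subalgebra k K} (h : A ≤ B) : oc W A ≤ oc W B := by
  rintro x ⟨b, hb, d, hd, h1, h2⟩
  exact ⟨b, h hb, d, h hd, h1, h2⟩

theorem oc_mem (W : ValuationSubring K) {A : Subalgebra k K} (h : ∀ a ∈ A, a ∈ W) :
    ∀ x ∈ oc W A, x ∈ W := by
  rintro x ⟨b, hb, d, hd, h1, h2⟩
  rw [← W.valuation_le_one_iff]
  have h3 : W.valuation x = W.valuation b := by
    rw [← h2, map_mul, h1, mul_one]
  rw [h3, W.valuation_le_one_iff]
  exact h b hb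

theorem oc_inv (W : ValuationSubring K) {A : Subalgebra k K} {x : K} (hx : x ∈ oc W A)
    (h1 : W.valuation x = 1) : x⁻¹ ∈ oc W A := by
  obtain ⟨b, hb, d, hd, h2, h3⟩ := hx
  have hx0 : x ≠ 0 := by
    rintro rfl
    rw [map_zero] at h1
    exact zero_ne_one h1
  refine ⟨d, hd, b, hb, ?_, ?_⟩
  · rw [← h3, map_mul, h1, h2, one_mul]
  · rw [← h3, inv_mul_cancel_left₀ hx0]

/-- the local ring of the local ring -/
theorem oc_oc (W : ValuationSubring K) (A : Subalgebra k K) : oc W (oc W A) = oc W A := by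
  refine le_antisymm ?_ (le_oc W _)
  rintro x ⟨b, hb, d, hd, h1, h2⟩
  have h3 : x = b * d⁻¹ := by
    have hd0 : d ≠ 0 := by
      rintro rfl
      rw [map_zero] at h1
      exact zero_ne_one h1
    rw [← h2, mul_inv_cancel_right₀ hd0]
  rw [h3]
  exact mul_mem hb (oc_inv W hd h1)

/-- `B ⊆ A_p` implies `B_p ⊆ A_p` -/
theorem oc_le (W : ValuationSubring K) {A B : Subalgebra k K} (h : B ≤ oc W A) :
    oc W B ≤ oc W A := by
  rw [← oc_oc W A]
  exact oc_mono W h

/-- The elements `s` generate the maximal ideal of the local ring of `A` at the centre. -/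
def PG (W : ValuationSubring K) (A : Subalgebra k K) {n : ℕ} (s : Fin n → K) : Prop :=
  (∀ i, s i ∈ oc W A) ∧ (∀ i, W.valuation (s i) < 1) ∧
    ∀ y ∈ oc W A, W.valuation y < 1 → ∃ c : Fin n → K, (∀ i, c i ∈ oc W A) ∧ y = ∑ i, c i * s i

end LY
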