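import Pool.Agent.helper90.LY.Defs

open IsLocalRing

namespace LY

universe u

variable {k K : Type u} [Field k] [Field K] [Algebra k K]

/-- In a localization every family of elements spans the same ideal as the family of the numerators. -/
theorem Par_span {R : Type*} [CommRing R] (p : Ideal R) [p.IsPrime] {ι : Type*}
    (g : ι → Localization.AtPrime p) :
    ∃ s : ι → R, Ideal.span (Set.range fun i => algebraMap R (Localization.AtPrime p) (s i)) =
      Ideal.span (Set.range g) := by
  have h : ∀ x : Localization.AtPrime p, ∃ (a : R) (v : Localization.AtPrime p),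
      IsUnit v ∧ algebraMap R (Localization.AtPrime p) a = v * x := by
    intro x
    obtain ⟨⟨a, t⟩, ht⟩ := IsLocalization.surj p.primeCompl x
    exact ⟨a, algebraMap R (Localization.AtPrime p) t, IsLocalization.map_units _ t, by
      rw [mul_comm]
      exact ht.symm⟩
  choose a v hv ha using fun i => h (g i)
  refine ⟨a, le_antisymm ?_ ?_⟩
  · rw [Ideal.span_le]
    rintro _ ⟨i, rfl⟩
    show algebraMap R (Localization.AtPrime p) (a i) ∈ Ideal.span (Set.range g)
    rw [ha i]
    exact Ideal.mul_mem_left _ _ (Ideal.subset_span ⟨i, rfl⟩)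
  · rw [Ideal.span_le]
    rintro _ ⟨i, rfl⟩
    obtain ⟨w, hw⟩ := hv i
    have h1 : g i = (↑w⁻¹ : Localization.AtPrime p) * algebraMap R (Localization.AtPrime p) (a i) := by
      rw [ha i, ← hw, ← mul_assoc, Units.inv_mul, one_mul]
    show g i ∈ _
    rw [h1]
    exact Ideal.mul_mem_left _ _ (Ideal.subset_span ⟨i, rfl⟩)

/-- The regular local ring of the centre of `W` on a model comes with elements of the model that
generate its maximal ideal, as many as its dimension. -/
theorem exists_par (W : ValuationSubring K) (A : Subalgebra k K) (h : ∀ a ∈ A, a ∈ W)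
    (hreg : IsRegularLocalRing (Localization.AtPrime (LU.center W A h))) :
    ∃ (m : ℕ) (s : Fin m → A), ringKrullDim (Localization.AtPrime (LU.center W A h)) = m ∧
      Ideal.span (Set.range fun i => algebraMap A (Localization.AtPrime (LU.center W A h)) (s i)) =
        maximalIdeal (Localization.AtPrime (LU.center W A h)) := by
  have hfg : (maximalIdeal (Localization.AtPrime (LU.center W A h))).FG :=
    (isNoetherianRing_iff_ideal_fg _).mp inferInstance _
  obtain ⟨T, hT, hspan⟩ := Submodule.FG.exists_span_finset_card_eq_spanFinrank hfg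
  obtain ⟨s, hs⟩ := Par_span (LU.center W A h) (fun i => ((T.equivFin.symm i : T) :
    Localization.AtPrime (LU.center W A h)))
  refine ⟨T.card, s, ?_, ?_⟩
  · rw [hT]
    exact hreg.spanFinrank_maximalIdeal.symm
  · rw [hs, ← hspan]
    congr 1
    ext x
    constructor
    · rintro ⟨i, rfl⟩
      exact (T.equivFin.symm i).2
    · intro hx
      exact ⟨T.equivFin ⟨x, hx⟩, by simp⟩

end LY
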