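import Pool.Agent.helper90.LY.Desc
import Pool.Agent.helper90.LY.Ext
import Pool.Agent.helper90.LY.ExtVal
import Pool.Agent.helper90.LY.LuxRel
import Pool.Agent.LUW.Rel
import Pool.Agent.LUW.Abh

open Polynomial

namespace LY

universe u

variable {k K : Type u} [Field k] [Field K] [Algebra k K]

/-- values of a polynomial at two close elements -/
theorem RoBase_close (W : ValuationSubring K) (hW : ∀ c : k, algebraMap k K c ∈ W) (a b : K)
    (ha : a ∈ W) (hab : W.valuation (b - a) < 1) (Q : k[X]) :
    W.valuation (aeval b Q - aeval a Q) < 1 := by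
  have hb : b ∈ W := by
    have h1 : b - a ∈ W := (W.valuation_le_one_iff _).1 hab.le
    have h2 := add_mem h1 ha
    rwa [sub_add_cancel] at h2
  have hm : ∀ x y : K, x ∈ W → W.valuation y < 1 → W.valuation (x * y) < 1 := by
    intro x y hx hy
    rw [map_mul]
    exact mul_lt_one_of_nonneg_of_lt_one_right ((W.valuation_le_one_iff _).2 hx) zero_le hy
  have hev : ∀ (x : K), x ∈ W → ∀ Q : k[X], aeval x Q ∈ W := by
    intro x hx Q
    rw [Polynomial.aeval_eq_sum_range]
    refine sum_mem fun i _ => ?_
    rw [Algebra.smul_def]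
    exact mul_mem (hW _) (pow_mem hx _)
  induction Q using Polynomial.induction_on' with
  | add f g hf hg =>
    rw [map_add, map_add, add_sub_add_comm]
    exact lt_of_le_of_lt (W.valuation.map_add _ _) (max_lt hf hg)
  | monomial n c =>
    rw [← Polynomial.C_mul_X_pow_eq_monomial, map_mul, map_mul, map_pow, map_pow, aeval_X, aeval_X,
      aeval_C, aeval_C, ← mul_sub]
    refine hm _ _ (hW c) ?_
    obtain ⟨z, hz⟩ := sub_dvd_pow_sub_pow (⟨b, hb⟩ : W) ⟨a, ha⟩ n
    have h3 : b ^ n - a ^ n = (z : K) * (b - a) := by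
      have := congrArg (fun w : W => (w : K)) hz
      simpa [mul_comm] using this
    rw [h3]
    exact hm _ _ z.2 hab

/-- Rank one, residue field finite separable over `k`, generated by the residue of `a`, and
transcendence degree at most the rational rank plus one: strong local uniformization. -/
theorem ro_base [Algebra.EssFiniteType k K] (p : ℕ) [Fact p.Prime] [CharP k p]
    (W : ValuationSubring K) (hW : ∀ c : k, algebraMap k K c ∈ W)
    (harch : MulArchimedean W.ValueGroup) (hnt : ∃ c : K, c ≠ 0 ∧ W.valuation c < 1)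
    (P : k[X]) (hP : P.Separable) (a : K) (haW : a ∈ W) (ha : W.valuation (aeval a P) < 1)
    (hres : ∀ x ∈ W, ∃ Q : k[X], W.valuation (x - aeval a Q) < 1) (r : ℕ)
    (hrk : Module.finrank ℤ (Additive (W.ValueGroup)ˣ) = r) (hr0 : 0 < r)
    (hdef : Algebra.trdeg k K = (r : ℕ) ∨ Algebra.trdeg k K = (r + 1 : ℕ))
    (hk : Group.FG (W.ValueGroup)ˣ ∨ Infinite k) : LX.StrongUnif k W := by
  classical
  -- move `a` such that `P(a) ≠ 0`
  obtain ⟨b, hb, hbP⟩ : ∃ b : K, W.valuation (b - a) < 1 ∧ aeval b P ≠ 0 := by
    obtain ⟨c, hc0, hc1⟩ := hnt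
    by_contra hcon
    push Not at hcon
    have hinj : Function.Injective fun n : ℕ => a + c ^ (n + 1) := by
      intro m n hmn
      have h1 : c ^ (m + 1) = c ^ (n + 1) := add_left_cancel hmn
      have hlt : ∀ i j : ℕ, i < j → c ^ (i + 1) ≠ c ^ (j + 1) := by
        intro i j hij h2
        have h3 : c ^ (j + 1) = c ^ (i + 1) * c ^ (j - i) := by
          rw [← pow_add]
          congr 1
          omega
        rw [h3] at h2
        have h4 : c ^ (j - i) = 1 := by
          have := mul_left_cancel₀ (pow_ne_zero (i + 1) hc0) (h2.symm.trans (mul_one _).symm)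
          exact this
        have h5 : W.valuation (c ^ (j - i)) < 1 := by
          rw [map_pow]
          exact pow_lt_one₀ zero_le hc1 (by omega)
        rw [h4, map_one] at h5
        exact lt_irrefl _ h5
      rcases lt_trichotomy m n with h | h | h
      · exact absurd h1 (hlt m n h)
      · exact h
      · exact absurd h1.symm (hlt n m h)
    have hroot : ∀ n : ℕ, a + c ^ (n + 1) ∈ (P.map (algebraMap k K)).roots.toFinset := by
      intro n
      rw [Multiset.mem_toFinset, Polynomial.mem_roots
        (Polynomial.map_ne_zero_iff (algebraMap k K).injective |>.2 hP.ne_zero),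
        Polynomial.IsRoot.def, Polynomial.eval_map_algebraMap]
      refine hcon _ ?_
      rw [add_sub_cancel_left, map_pow]
      exact pow_lt_one₀ zero_le hc1 (by omega)
    exact (Set.infinite_of_injective_forall_mem hinj hroot)
      (Finset.finite_toSet _)
  have hbW : b ∈ W := by
    have h1 : b - a ∈ W := (W.valuation_le_one_iff _).1 hb.le
    have h2 := add_mem h1 haW
    rwa [sub_add_cancel] at h2
  have hbP1 : W.valuation (aeval b P) < 1 := by
    have h1 := RoBase_close W hW a b haW hb P
    have h2 : aeval b P = (aeval b P - aeval a P) + aeval a P := by ring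
    rw [h2]
    exact lt_of_le_of_lt (W.valuation.map_add _ _) (max_lt h1 ha)
  have hresb : ∀ x ∈ W, ∃ Q : k[X], W.valuation (x - aeval b Q) < 1 := by
    intro x hx
    obtain ⟨Q, hQ⟩ := hres x hx
    refine ⟨Q, ?_⟩
    have h1 := RoBase_close W hW a b haW hb Q
    have h2 : x - aeval b Q = (x - aeval a Q) + -(aeval b Q - aeval a Q) := by ring
    rw [h2]
    refine lt_of_le_of_lt (W.valuation.map_add _ _) (max_lt hQ ?_)
    rwa [Valuation.map_neg]
  obtain ⟨M, _, _, _, _, W₁, θ, hθ, hθK, hWW, hlt, hd⟩ :=
    exists_ext W hW harch hnt P hP b hbW hbP1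
  have hne : algebraMap K M b ≠ θ := by
    rintro h
    rw [← h, aeval_algebraMap_apply, map_eq_zero] at hθ
    exact hbP hθ
  have hk1 : ∀ c : k, algebraMap k M c ∈ W₁ := fun c => by
    rw [IsScalarTower.algebraMap_apply k K M, hWW]
    exact hW c
  have hint : IsIntegral k θ := by
    have h1 : IsAlgebraic k θ := ⟨P, hP.ne_zero, hθ⟩
    exact h1.isIntegral
  obtain ⟨⟨e⟩, harch'⟩ := ext_group W W₁ hWW hd
  have harch₁ := harch' harch
  have hres₁ := ext_res W W₁ hWW hW hd b hbW θ hlt hresb
  obtain ⟨hfin, htr⟩ := ext_trdeg (k := k) (K := K) θ hint hθK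
  have hconst := ext_const W₁ hk1 θ hint
  have hrk₁ : Module.finrank ℤ (Additive (W₁.ValueGroup)ˣ) = r := by
    rw [← hrk]
    exact (LinearEquiv.finrank_eq (MulEquiv.toAdditive e).toIntLinearEquiv).symm
  have : CharP (IntermediateField.adjoin k {θ}) p :=
    charP_of_injective_algebraMap (algebraMap k (IntermediateField.adjoin k {θ})).injective p
  have hrel : RelU (IntermediateField.adjoin k {θ}) W₁ r := by
    rcases hdef with h1 | h1
    · exact LUW.abh_rel_any p W₁ hconst harch₁ hres₁ r hrk₁ (by rw [htr, h1]) hr0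
    · by_cases hfg : Group.FG (W₁.ValueGroup)ˣ
      · exact LUW.luw_rel p W₁ hconst harch₁ hres₁ hfg r hrk₁ (by rw [htr, h1]) hr0
      · have hinf : Infinite k := by
          refine hk.resolve_left fun h2 => hfg ?_
          exact Group.fg_of_surjective (f := e.toMonoidHom) e.surjective
        have hinf' : Infinite (IntermediateField.adjoin k {θ}) :=
          Infinite.of_injective _ (algebraMap k (IntermediateField.adjoin k {θ})).injective
        have := lux_rel p W₁ hconst harch₁ hres₁ hfg (by rw [htr, h1, hrk₁]) (by rw [hrk₁]; exact hr0)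
        rwa [hrk₁] at this
  exact desc W W₁ hWW hW P hP θ hθ hθK b hbW hne hlt r hrel

end LY
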